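import Pool.Agent.Lib.MP_f973c6_al.If.F2

/-! Part F: a permutation complex with finitely generated abelian stabilizers gives `FP_m`. -/

set_option autoImplicit false

namespace Pool.Agent.FPmIf

open Pool.Agent.FPm (FPcond)

section schanuel
variable {Λ : Type} [Ring Λ]

/-- Schanuel: the kernel of a surjection from a finitely generated projective module. -/
theorem FPn.kerSurj (q : ℕ) {M F : Type} [AddCommGroup M] [Module Λ M] [AddCommGroup F]
    [Module Λ F] [Module.Finite Λ F] [Module.Projective Λ F] (f : F →ₗ[Λ] M)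
    (hf : Function.Surjective f) (h : FPn Λ (q + 1) M) : FPn Λ q (LinearMap.ker f) := by
  obtain ⟨k, p, hp, hK⟩ := h
  obtain ⟨s, hs⟩ := Module.projective_lifting_property f p hf
  have hs' : ∀ x, f (s x) = p x := fun x => LinearMap.congr_fun hs x
  let D : (F × (Fin k → Λ)) →ₗ[Λ] M := LinearMap.coprod f (-p)
  have hD : ∀ x y, D (x, y) = f x - p y := fun x y => by simp [D, sub_eq_add_neg]
  -- first projection
  let P1 : LinearMap.ker D →ₗ[Λ] F := LinearMap.fst Λ F (Fin k → Λ) ∘ₗ (LinearMap.ker D).subtype
  have hP1 : Function.Surjective P1 := by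
    intro x
    obtain ⟨y, hy⟩ := hp (f x)
    refine ⟨⟨(x, y), ?_⟩, rfl⟩
    rw [LinearMap.mem_ker, hD, hy, sub_self]
  let T : LinearMap.ker p →ₗ[Λ] LinearMap.ker P1 :=
    LinearMap.codRestrict (LinearMap.ker P1)
      (LinearMap.codRestrict (LinearMap.ker D)
        (LinearMap.inr Λ F (Fin k → Λ) ∘ₗ (LinearMap.ker p).subtype)
        (fun y => by
          have hy : p y.1 = 0 := y.2
          rw [LinearMap.mem_ker]
          show D (0, y.1) = 0
          rw [hD, hy, map_zero, sub_zero]))
      (fun y => by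
        rw [LinearMap.mem_ker]
        rfl)
  have hT : Function.Bijective T := by
    constructor
    · intro x y hxy
      have h1 : ((T x).1.1 : F × (Fin k → Λ)) = (T y).1.1 := by rw [hxy]
      have h2 : ((0, x.1) : F × (Fin k → Λ)) = (0, y.1) := h1
      exact Subtype.ext (congrArg Prod.snd h2)
    · intro z
      have hz : z.1.1.1 = 0 := z.2
      have hz1 : D z.1.1 = 0 := z.1.2
      have hz2 : D (z.1.1.1, z.1.1.2) = 0 := hz1
      rw [hD, hz, map_zero, zero_sub, neg_eq_zero] at hz2
      refine ⟨⟨z.1.1.2, hz2⟩, ?_⟩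
      apply Subtype.ext
      apply Subtype.ext
      show ((0, z.1.1.2) : F × (Fin k → Λ)) = z.1.1
      rw [← hz]
  have hE : FPn Λ q (LinearMap.ker D) :=
    FPn.ext q P1 hP1 (FPn.of_equiv q (LinearEquiv.ofBijective T hT) hK) (FPn.proj q F)
  -- the map to the kernel of f
  let Q1 : LinearMap.ker D →ₗ[Λ] LinearMap.ker f :=
    LinearMap.codRestrict (LinearMap.ker f)
      ((LinearMap.coprod LinearMap.id (-s)) ∘ₗ (LinearMap.ker D).subtype)
      (fun z => by
        have hz1 : D (z.1.1, z.1.2) = 0 := z.2
        rw [hD] at hz1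
        rw [LinearMap.mem_ker]
        show f (z.1.1 + (-s) z.1.2) = 0
        rw [LinearMap.neg_apply, map_add, map_neg, hs', ← sub_eq_add_neg, hz1])
  have hQ1v : ∀ z, (Q1 z).1 = z.1.1 - s z.1.2 := fun z => by
    show z.1.1 + (-s) z.1.2 = _
    rw [LinearMap.neg_apply, sub_eq_add_neg]
  have hQ1 : Function.Surjective Q1 := by
    intro x
    have hx : f x.1 = 0 := x.2
    refine ⟨⟨(x.1, 0), ?_⟩, ?_⟩
    · rw [LinearMap.mem_ker, hD, hx, map_zero, sub_zero]
    · apply Subtype.ext
      rw [hQ1v]
      show x.1 - s 0 = x.1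
      rw [map_zero, sub_zero]
  cases q with
  | zero =>
    have hE' : Module.Finite Λ (LinearMap.ker D) := hE
    show Module.Finite Λ (LinearMap.ker f)
    exact Module.Finite.of_surjective Q1 hQ1
  | succ q =>
    refine FPn.quot q Q1 hQ1 ?_ hE
    let U : (Fin k → Λ) →ₗ[Λ] LinearMap.ker Q1 :=
      LinearMap.codRestrict (LinearMap.ker Q1)
        (LinearMap.codRestrict (LinearMap.ker D) (LinearMap.prod s LinearMap.id)
          (fun y => by
            rw [LinearMap.mem_ker]
            show D (s y, y) = 0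
            rw [hD, hs', sub_self]))
        (fun y => by
          rw [LinearMap.mem_ker]
          apply Subtype.ext
          rw [hQ1v]
          show s y - s y = 0
          rw [sub_self])
    have hU : Function.Bijective U := by
      constructor
      · intro x y hxy
        have h1 : ((U x).1.1 : F × (Fin k → Λ)) = (U y).1.1 := by rw [hxy]
        have h2 : ((s x, x) : F × (Fin k → Λ)) = (s y, y) := h1
        exact congrArg Prod.snd h2
      · intro z
        have hz : Q1 z.1 = 0 := z.2
        have hz2 := congrArg Subtype.val hz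
        rw [hQ1v] at hz2
        have hz3 : z.1.1.1 = s z.1.1.2 := sub_eq_zero.mp hz2
        refine ⟨z.1.1.2, ?_⟩
        apply Subtype.ext
        apply Subtype.ext
        show ((s z.1.1.2, z.1.1.2) : F × (Fin k → Λ)) = z.1.1
        rw [← hz3]
    exact FPn.of_equiv q (LinearEquiv.ofBijective U hU) (FPn.proj q _)

end schanuel

section cond

theorem FPcond_zero (G : Type) [Group G] : FPcond G 0 := by
  refine ⟨(MonoidAlgebra.lift ℤ ℤ G 1).toRingHom, fun _ => 1, fun _ => 0, ?_, ?_, ?_, ?_⟩
  · intro g
    simp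
  · intro c
    refine ⟨fun _ => (c : MonoidAlgebra ℤ G), ?_⟩
    simp
  · intro h; omega
  · intro i h; omega

theorem FPcond_of_FPn (G : Type) [Group G] (m : ℕ)
    (ε : MonoidAlgebra ℤ G →+* ℤ) (hε : ∀ g : G, ε (MonoidAlgebra.of ℤ G g) = 1)
    (h : FPn (MonoidAlgebra ℤ G) m (RingHom.ker ε)) : FPcond G (m + 1) := by
  obtain ⟨n', f', d', hf', h0, h1⟩ := FPn.resolution m _ h
  let j : (RingHom.ker ε) →ₗ[MonoidAlgebra ℤ G] (Fin 1 → MonoidAlgebra ℤ G) :=
    LinearMap.pi (fun _ => (RingHom.ker ε).subtype)
  have hj : ∀ x i, j x i = x.1 := fun x i => rfl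
  have hjk : LinearMap.ker j = ⊥ := by
    rw [LinearMap.ker_eq_bot]
    intro x y hxy
    have := congrFun hxy 0
    rw [hj, hj] at this
    exact Subtype.ext this
  refine ⟨ε, fun i => match i with | 0 => 1 | i + 1 => n' i,
    fun i => match i with
      | 0 => j ∘ₗ f'
      | i + 1 => d' i, hε, ?_, ?_, ?_⟩
  · intro c
    refine ⟨fun _ => (c : MonoidAlgebra ℤ G), ?_⟩
    show ∑ j : Fin 1, ε (c : MonoidAlgebra ℤ G) = c
    rw [Fin.sum_univ_one, map_intCast]
    rfl
  · intro _ v
    show ∑ i : Fin 1, ε (v i) = 0 ↔ v ∈ LinearMap.range (j ∘ₗ f')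
    rw [Fin.sum_univ_one]
    constructor
    · intro hv
      obtain ⟨x, hx⟩ := hf' ⟨v 0, hv⟩
      refine ⟨x, ?_⟩
      funext i
      rw [LinearMap.comp_apply, hx, hj]
      have : i = 0 := Subsingleton.elim _ _
      rw [this]
    · rintro ⟨x, hx⟩
      rw [← hx, LinearMap.comp_apply, hj]
      exact (f' x).2
  · intro i hi
    cases i with
    | zero =>
      show LinearMap.ker (j ∘ₗ f') = LinearMap.range (d' 0)
      rw [LinearMap.ker_comp_of_ker_eq_bot _ hjk]
      exact h0 (by omega)
    | succ i =>
      show LinearMap.ker (d' i) = LinearMap.range (d' (i + 1))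
      exact h1 i (by omega)

end cond

section perm

/-- The permutation module. -/
def PM (X : Type) := X →₀ ℤ

noncomputable instance (X : Type) : AddCommGroup (PM X) := inferInstanceAs (AddCommGroup (X →₀ ℤ))

/-- The action of the group on the permutation module. -/
noncomputable def actHom (G X : Type) [Group G] [MulAction G X] :
    G →* Module.End ℤ (X →₀ ℤ) where
  toFun g := Finsupp.lmapDomain ℤ ℤ (fun y => g • y)
  map_one' := by
    ext x y
    simp
  map_mul' g h := by
    ext x y
    simp [mul_smul]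

noncomputable instance (G X : Type) [Group G] [MulAction G X] :
    Module (MonoidAlgebra ℤ G) (PM X) :=
  Module.compHom (X →₀ ℤ) (MonoidAlgebra.lift ℤ (Module.End ℤ (X →₀ ℤ)) G
    (actHom G X)).toRingHom

/-- The identification of finitely supported functions with the permutation module. -/
noncomputable def toPM (X : Type) : (X →₀ ℤ) ≃+ PM X := AddEquiv.refl (X →₀ ℤ)

theorem PM_single_smul (G X : Type) [Group G] [MulAction G X] (g : G) (r : ℤ) (v : X →₀ ℤ) :
    (MonoidAlgebra.single g r : MonoidAlgebra ℤ G) • toPM X v =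
      toPM X (r • Finsupp.mapDomain (fun y => g • y) v) := by
  show (MonoidAlgebra.lift ℤ (Module.End ℤ (X →₀ ℤ)) G (actHom G X))
    (MonoidAlgebra.single g r) v = _
  rw [MonoidAlgebra.lift_single]
  rfl

/-- The basis of the permutation module. -/
noncomputable def PMbasis (X : Type) : Module.Basis X ℤ (PM X) :=
  Module.Basis.ofRepr
    { toFun := (toPM X).symm
      invFun := toPM X
      left_inv := fun _ => rfl
      right_inv := fun _ => rfl
      map_add' := fun _ _ => rfl
      map_smul' := fun r x => by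
        rw [map_zsmul, RingHom.id_apply] }

theorem PMbasis_apply (X : Type) (x : X) : PMbasis X x = toPM X (Finsupp.single x 1) := by
  rfl

theorem FPn_PM (G X : Type) [Group G] [MulAction G X]
    (hfin : ∃ F : Finset X, ∀ x : X, ∃ g : G, g • x ∈ F)
    (hstab : ∀ x : X, (MulAction.stabilizer G x).FG ∧
      ∀ a ∈ MulAction.stabilizer G x, ∀ b ∈ MulAction.stabilizer G x, a * b = b * a)
    (q : ℕ) : FPn (MonoidAlgebra ℤ G) q (PM X) := by
  refine FPn_perm (PMbasis X) ?_ ?_ (fun x => (hstab x).1) (fun x => (hstab x).2) q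
  · intro g x
    rw [PMbasis_apply, PMbasis_apply, PM_single_smul, one_smul, Finsupp.mapDomain_single]
  · obtain ⟨F, hF⟩ := hfin
    refine Finite.of_surjective
      (fun y : F => (Quotient.mk'' y.1 : MulAction.orbitRel.Quotient G X)) ?_
    intro z
    induction z using Quotient.inductionOn' with
    | h x =>
      obtain ⟨g, hg⟩ := hF x
      refine ⟨⟨g • x, hg⟩, ?_⟩
      apply Quotient.sound'
      exact MulAction.orbitRel_apply.mpr ⟨g, rfl⟩

/-- The linear map of an equivariant additive map. -/
noncomputable def PMmap (G : Type) [Group G] {X Y : Type} [MulAction G X] [MulAction G Y]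
    (f : (X →₀ ℤ) →+ (Y →₀ ℤ))
    (hf : ∀ (g : G) (x : X →₀ ℤ), f (Finsupp.mapDomain (fun y => g • y) x)
      = Finsupp.mapDomain (fun y => g • y) (f x)) :
    PM X →ₗ[MonoidAlgebra ℤ G] PM Y where
  toFun x := toPM Y (f ((toPM X).symm x))
  map_add' x y := by rw [map_add, map_add, map_add]
  map_smul' a x := by
    rw [RingHom.id_apply]
    induction a using MonoidAlgebra.induction_linear with
    | zero => rw [zero_smul, zero_smul, map_zero, map_zero, map_zero]
    | add u v hu hv => rw [add_smul, add_smul, ← hu, ← hv, map_add, map_add, map_add]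
    | single g r =>
      obtain ⟨v, rfl⟩ := (toPM X).surjective x
      rw [PM_single_smul, AddEquiv.symm_apply_apply, AddEquiv.symm_apply_apply, PM_single_smul,
        map_zsmul, hf]

/-- The trivial module. -/
def Zt (_ : Type) := ℤ

noncomputable instance (G : Type) : AddCommGroup (Zt G) := inferInstanceAs (AddCommGroup ℤ)

/-- The identification of the integers with the trivial module. -/
noncomputable def toZt (G : Type) : ℤ ≃+ Zt G := AddEquiv.refl ℤ

/-- The augmentation. -/
noncomputable def augG (G : Type) [Group G] : MonoidAlgebra ℤ G →+* ℤ :=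
  (MonoidAlgebra.lift ℤ ℤ G (1 : G →* ℤ)).toRingHom

theorem augG_single (G : Type) [Group G] (g : G) (r : ℤ) :
    augG G (MonoidAlgebra.single g r) = r := by
  simp [augG]

noncomputable instance (G : Type) [Group G] : Module (MonoidAlgebra ℤ G) (Zt G) :=
  Module.compHom ℤ (augG G)

theorem Zt_smul (G : Type) [Group G] (a : MonoidAlgebra ℤ G) (x : ℤ) :
    a • toZt G x = toZt G (augG G a * x) := rfl

/-- The sum of the coefficients. -/
noncomputable def sumHom (X : Type) : (X →₀ ℤ) →+ ℤ :=
  Finsupp.liftAddHom (fun _ => AddMonoidHom.id ℤ)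

theorem sumHom_apply (X : Type) (v : X →₀ ℤ) : sumHom X v = v.sum (fun _ c => c) := rfl

/-- The augmentation of the permutation module. -/
noncomputable def PMaug (G : Type) [Group G] (X : Type) [MulAction G X] :
    PM X →ₗ[MonoidAlgebra ℤ G] Zt G where
  toFun x := toZt G (sumHom X ((toPM X).symm x))
  map_add' v w := by rw [map_add, map_add, map_add]
  map_smul' a x := by
    rw [RingHom.id_apply]
    induction a using MonoidAlgebra.induction_linear with
    | zero => rw [zero_smul, zero_smul, map_zero, map_zero, map_zero]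
    | add u v hu hv => rw [add_smul, add_smul, ← hu, ← hv, map_add, map_add, map_add]
    | single g r =>
      obtain ⟨v, rfl⟩ := (toPM X).surjective x
      rw [PM_single_smul, AddEquiv.symm_apply_apply, AddEquiv.symm_apply_apply, Zt_smul,
        augG_single, map_zsmul, smul_eq_mul]
      congr 2
      rw [sumHom_apply, sumHom_apply]
      exact Finsupp.sum_mapDomain_index (fun _ => rfl) (fun _ _ _ => rfl)

end perm

/-- F: a permutation complex with finitely generated abelian stabilisers gives `FP_m`. -/
theorem F_complex (G : Type) [Group G] (m : ℕ) (X : ℕ → Type) [∀ i, MulAction G (X i)]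
    (hX : Nonempty (X 0))
    (hfin : ∀ i ≤ m, ∃ F : Finset (X i), ∀ x : X i, ∃ g : G, g • x ∈ F)
    (hstab : ∀ i ≤ m, ∀ x : X i, (MulAction.stabilizer G x).FG ∧
      ∀ a ∈ MulAction.stabilizer G x, ∀ b ∈ MulAction.stabilizer G x, a * b = b * a)
    (bd : ∀ i, (X (i + 1) →₀ ℤ) →+ (X i →₀ ℤ))
    (heq : ∀ i (g : G) (x : X (i + 1) →₀ ℤ), bd i (Finsupp.mapDomain (fun y => g • y) x)
      = Finsupp.mapDomain (fun y => g • y) (bd i x))
    (h0 : ∀ x, (bd 0 x).sum (fun _ c => c) = 0)
    (hdd : ∀ i x, bd i (bd (i + 1) x) = 0)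
    (h0e : 1 ≤ m → ∀ z : X 0 →₀ ℤ, z.sum (fun _ c => c) = 0 → ∃ y, bd 0 y = z)
    (hex : ∀ i, i + 1 < m → ∀ z, bd i z = 0 → ∃ y, bd (i + 1) y = z) : FPcond G m := by
  cases m with
  | zero => exact FPcond_zero G
  | succ m =>
    let d : ∀ i, PM (X (i + 1)) →ₗ[MonoidAlgebra ℤ G] PM (X i) := fun i => PMmap G (bd i) (heq i)
    have hd : ∀ i x, d i (toPM _ x) = toPM _ (bd i x) := fun i x => rfl
    have hPM : ∀ i ≤ m + 1, ∀ q, FPn (MonoidAlgebra ℤ G) q (PM (X i)) := fun i hi q =>
      FPn_PM G (X i) (hfin i hi) (hstab i hi) q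
    have key : ∀ q i, i + q = m → FPn (MonoidAlgebra ℤ G) q (LinearMap.range (d i)) := by
      intro q
      induction q with
      | zero =>
        intro i hi
        have h1 : Module.Finite (MonoidAlgebra ℤ G) (PM (X (i + 1))) := hPM (i + 1) (by omega) 0
        show Module.Finite _ _
        infer_instance
      | succ q ih =>
        intro i hi
        have h1 := ih (i + 1) (by omega)
        have h2 : LinearMap.ker (d i) = LinearMap.range (d (i + 1)) := by
          apply le_antisymm
          · intro z hz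
            obtain ⟨z, rfl⟩ := (toPM _).surjective z
            rw [LinearMap.mem_ker, hd] at hz
            obtain ⟨y, hy⟩ := hex i (by omega) z ((toPM _).map_eq_zero_iff.mp hz)
            exact ⟨toPM _ y, by rw [hd, hy]⟩
          · rintro _ ⟨y, rfl⟩
            obtain ⟨y, rfl⟩ := (toPM _).surjective y
            rw [LinearMap.mem_ker, hd, hd, hdd, map_zero]
        refine FPn.quot q (d i).rangeRestrict (LinearMap.surjective_rangeRestrict _) ?_
          (hPM (i + 1) (by omega) (q + 1))
        rw [LinearMap.ker_rangeRestrict, h2]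
        exact h1
    have haug : ∀ x, PMaug G (X 0) (toPM _ x) = toZt G (x.sum (fun _ c => c)) := fun x => rfl
    have h1 := key m 0 (by omega)
    have h2 : LinearMap.range (d 0) = LinearMap.ker (PMaug G (X 0)) := by
      apply le_antisymm
      · rintro _ ⟨y, rfl⟩
        obtain ⟨y, rfl⟩ := (toPM _).surjective y
        rw [LinearMap.mem_ker, hd, haug, h0, map_zero]
      · intro z hz
        obtain ⟨z, rfl⟩ := (toPM _).surjective z
        rw [LinearMap.mem_ker, haug] at hz
        obtain ⟨y, hy⟩ := h0e (by omega) z ((toZt G).map_eq_zero_iff.mp hz)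
        exact ⟨toPM _ y, by rw [hd, hy]⟩
    rw [h2] at h1
    have hsurj : Function.Surjective (PMaug G (X 0)) := by
      intro c
      obtain ⟨c, rfl⟩ := (toZt G).surjective c
      obtain ⟨x⟩ := hX
      refine ⟨toPM _ (Finsupp.single x c), ?_⟩
      rw [haug, Finsupp.sum_single_index rfl]
    have h3 : FPn (MonoidAlgebra ℤ G) (m + 1) (Zt G) :=
      FPn.quot m (PMaug G (X 0)) hsurj h1 (hPM 0 (by omega) (m + 1))
    let e : MonoidAlgebra ℤ G →ₗ[MonoidAlgebra ℤ G] Zt G :=
      LinearMap.toSpanSingleton (MonoidAlgebra ℤ G) (Zt G) (toZt G 1)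
    have he : ∀ a, e a = toZt G (augG G a) := by
      intro a
      show a • toZt G 1 = _
      rw [Zt_smul, mul_one]
    have hes : Function.Surjective e := by
      intro c
      obtain ⟨c, rfl⟩ := (toZt G).surjective c
      refine ⟨MonoidAlgebra.single 1 c, ?_⟩
      rw [he, augG_single]
    have h4 := FPn.kerSurj m e hes h3
    have h5 : LinearMap.ker e = RingHom.ker (augG G) := by
      ext a
      rw [LinearMap.mem_ker, he, RingHom.mem_ker]
      exact (toZt G).map_eq_zero_iff
    rw [h5] at h4
    exact FPcond_of_FPn G m (augG G) (fun g => augG_single G g 1) h4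

end Pool.Agent.FPmIf
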