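import Pool.Agent.Lib.MP_f973c6_al.If.Defs

/-! Cones and bases (helper36), part of G2. -/

set_option autoImplicit false

namespace Pool.Agent.FPmIf

namespace G2

namespace Cn

variable {n N : ℕ}

theorem dt_comm (x y : Fin n → ℝ) : dt x y = dt y x := by
  simp only [dt, mul_comm]

theorem dt_add_left (x y z : Fin n → ℝ) : dt (x + y) z = dt x z + dt y z := by
  simp only [dt, Pi.add_apply, add_mul, Finset.sum_add_distrib]

theorem dt_sub_left (x y z : Fin n → ℝ) : dt (x - y) z = dt x z - dt y z := by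
  simp only [dt, Pi.sub_apply, sub_mul, Finset.sum_sub_distrib]

theorem dt_add_right (x y z : Fin n → ℝ) : dt x (y + z) = dt x y + dt x z := by
  rw [dt_comm, dt_add_left, dt_comm y, dt_comm z]

theorem dt_sub_right (x y z : Fin n → ℝ) : dt x (y - z) = dt x y - dt x z := by
  rw [dt_comm, dt_sub_left, dt_comm y, dt_comm z]

theorem dt_smul_left (a : ℝ) (x y : Fin n → ℝ) : dt (a • x) y = a * dt x y := by
  simp only [dt, Pi.smul_apply, smul_eq_mul, Finset.mul_sum, mul_assoc]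

theorem dt_smul_right (a : ℝ) (x y : Fin n → ℝ) : dt x (a • y) = a * dt x y := by
  rw [dt_comm, dt_smul_left, dt_comm]

theorem dt_self_nonneg (x : Fin n → ℝ) : 0 ≤ dt x x :=
  Finset.sum_nonneg fun _ _ => mul_self_nonneg _

theorem nrm_nonneg (x : Fin n → ℝ) : 0 ≤ nrm x := Real.sqrt_nonneg _

theorem nrm_sq (x : Fin n → ℝ) : nrm x ^ 2 = dt x x := Real.sq_sqrt (dt_self_nonneg x)

theorem dt_self_eq_zero {x : Fin n → ℝ} (h : dt x x = 0) : x = 0 := by
  funext i
  have := (Finset.sum_eq_zero_iff_of_nonneg (fun i _ => mul_self_nonneg (x i))).mp h i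
    (Finset.mem_univ i)
  simpa using this

theorem nrm_pos {x : Fin n → ℝ} (h : x ≠ 0) : 0 < nrm x := by
  rcases (nrm_nonneg x).lt_or_eq with h1 | h1
  · exact h1
  · exfalso
    apply h
    apply dt_self_eq_zero
    rw [← nrm_sq, ← h1]; norm_num

theorem nrm_smul (a : ℝ) (x : Fin n → ℝ) : nrm (a • x) = |a| * nrm x := by
  unfold nrm
  rw [dt_smul_left, dt_smul_right, ← mul_assoc, Real.sqrt_mul (mul_self_nonneg a),
    Real.sqrt_mul_self_eq_abs]

theorem nrm_hat {x : Fin n → ℝ} (h : x ≠ 0) : nrm (hat x) = 1 := by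
  unfold hat
  rw [nrm_smul, abs_of_pos (inv_pos.mpr (nrm_pos h)), inv_mul_cancel₀ (nrm_pos h).ne']

theorem hat_zero : hat (0 : Fin n → ℝ) = 0 := by
  unfold hat; simp

/-- Cauchy-Schwarz. -/
theorem dt_le_nrm (x y : Fin n → ℝ) : dt x y ≤ nrm x * nrm y := by
  have h := Finset.sum_mul_sq_le_sq_mul_sq Finset.univ x y
  have h1 : dt x y ^ 2 ≤ (nrm x * nrm y) ^ 2 := by
    rw [mul_pow, nrm_sq, nrm_sq]
    simpa only [dt, sq] using h
  exact abs_le_of_sq_le_sq' h1 (mul_nonneg (nrm_nonneg _) (nrm_nonneg _)) |>.2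

/-- Every direction `y` is positively correlated with some `u_j`. -/
theorem dense_dt {ε : ℝ} (hε : 0 < ε) (hε1 : ε < 1 / 100)
    {u : Fin N → Fin n → ℤ} {c : Fin N → ℝ} (h : Dirs n N ε u c) (y : Fin n → ℝ)
    (hy : nrm y = 1) : ∃ j, rv (u j) ≠ 0 ∧ 1 / 2 < dt (hat (rv (u j))) y := by
  obtain ⟨j, hj⟩ := h.dense y hy
  have hyy : dt y y = 1 := by rw [← nrm_sq, hy]; norm_num
  have h0 : rv (u j) ≠ 0 := by
    intro h0
    rw [h0, hat_zero, zero_sub] at hj
    have : nrm (-y) = nrm y := by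
      rw [← neg_one_smul ℝ y, nrm_smul]; norm_num
    rw [this, hy] at hj
    linarith
  refine ⟨j, h0, ?_⟩
  have h1 : dt (hat (rv (u j)) - y) (hat (rv (u j)) - y) ≤ ε ^ 2 := by
    rw [← nrm_sq]
    exact pow_le_pow_left₀ (nrm_nonneg _) hj 2
  rw [dt_sub_left, dt_sub_right, dt_sub_right, dt_comm y (hat _), hyy] at h1
  have h2 : dt (hat (rv (u j))) (hat (rv (u j))) = 1 := by
    rw [← nrm_sq, nrm_hat h0]; norm_num
  rw [h2] at h1
  nlinarith

theorem cone_cover (hn : 1 ≤ n) {ε : ℝ} (hε : 0 < ε) (hε1 : ε < 1 / 100)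
    {u : Fin N → Fin n → ℤ} {c : Fin N → ℝ} (h : Dirs n N ε u c) (x : Fin n → ℝ) :
    ∃ a : Fin N → ℝ, (∀ j, 0 ≤ a j) ∧ x = ∑ j, a j • rv (u j) := by
  -- the convex hull of the directions
  set L : (Fin N → ℝ) →ₗ[ℝ] (Fin n → ℝ) :=
    Fintype.linearCombination ℝ (fun j => hat (rv (u j))) with hL
  have hLapp : ∀ w, L w = ∑ j, w j • hat (rv (u j)) := by
    intro w; rw [hL, Fintype.linearCombination_apply]
  set K : Set (Fin n → ℝ) := L '' stdSimplex ℝ (Fin N) with hK
  have hKconv : Convex ℝ K := (convex_stdSimplex ℝ (Fin N)).linear_image L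
  have hKclosed : IsClosed K :=
    ((isCompact_stdSimplex ℝ (Fin N)).image L.continuous_of_finiteDimensional).isClosed
  have hmem : ∀ j, hat (rv (u j)) ∈ K := by
    intro j
    refine ⟨Pi.single j 1, single_mem_stdSimplex ℝ j, ?_⟩
    rw [hLapp, Finset.sum_eq_single j]
    · simp
    · intro b _ hb; simp [hb]
    · intro hj; exact absurd (Finset.mem_univ j) hj
  have hball : ∀ x : Fin n → ℝ, nrm x ≤ 1 / 2 → x ∈ K := by
    intro x hx
    by_contra hxK
    obtain ⟨f, t, hf1, hf2⟩ := geometric_hahn_banach_closed_point hKconv hKclosed hxK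
    set y : Fin n → ℝ := fun i => f (fun j => if i = j then 1 else 0) with hy
    have hfy : ∀ z, f z = dt z y := by
      intro z
      have := LinearMap.pi_apply_eq_sum_univ (f : (Fin n → ℝ) →ₗ[ℝ] ℝ) z
      simpa [dt, hy] using this
    have hy0 : y ≠ 0 := by
      intro h0
      have hz : ∀ z, f z = 0 := by
        intro z; rw [hfy, h0]; simp [dt]
      have e : nrm (Pi.single (⟨0, hn⟩ : Fin n) (1 : ℝ)) = 1 := by
        unfold nrm dt
        rw [Finset.sum_eq_single (⟨0, hn⟩ : Fin n)]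
        · simp
        · intro b _ hb; simp [hb]
        · intro hj; exact absurd (Finset.mem_univ _) hj
      obtain ⟨j, -⟩ := h.dense _ e
      have h1 := hf1 _ (hmem j)
      rw [hz] at h1 hf2
      linarith
    have hypos := nrm_pos hy0
    obtain ⟨j, hj0, hj⟩ := dense_dt hε hε1 h (hat y) (nrm_hat hy0)
    have h1 := hf1 _ (hmem j)
    have h2 : dt (hat (rv (u j))) y < dt x y := by
      rw [← hfy, ← hfy]; linarith
    have h3 : dt x y ≤ nrm x * nrm y := dt_le_nrm x y
    have h4 : dt (hat (rv (u j))) (hat y) = (nrm y)⁻¹ * dt (hat (rv (u j))) y := by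
      conv_lhs => rw [show hat y = (nrm y)⁻¹ • y from rfl]
      rw [dt_smul_right]
    rw [h4] at hj
    have h5 : 1 / 2 * nrm y < dt (hat (rv (u j))) y := by
      have := mul_lt_mul_of_pos_right hj hypos
      rwa [mul_comm ((nrm y)⁻¹) _, mul_assoc, inv_mul_cancel₀ hypos.ne', mul_one] at this
    nlinarith
  -- scale
  set s : ℝ := 2 * nrm x + 1 with hs
  have hspos : 0 < s := by have := nrm_nonneg x; linarith
  have h1 : s⁻¹ • x ∈ K := by
    apply hball
    rw [nrm_smul, abs_of_pos (inv_pos.mpr hspos), inv_mul_le_iff₀ hspos]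
    have := nrm_nonneg x
    linarith
  obtain ⟨w, hw, hwx⟩ := h1
  refine ⟨fun j => s * w j * (nrm (rv (u j)))⁻¹, ?_, ?_⟩
  · intro j
    exact mul_nonneg (mul_nonneg hspos.le (hw.1 j)) (inv_nonneg.mpr (nrm_nonneg _))
  · rw [hLapp] at hwx
    have h2 : x = s • ∑ j, w j • hat (rv (u j)) := by
      rw [hwx, smul_smul, mul_inv_cancel₀ hspos.ne', one_smul]
    rw [h2, Finset.smul_sum]
    refine Finset.sum_congr rfl fun j _ => ?_
    rw [show hat (rv (u j)) = (nrm (rv (u j)))⁻¹ • rv (u j) from rfl, smul_smul, smul_smul]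

/-- Conic Caratheodory. -/
theorem caratheodory (v : Fin N → Fin n → ℝ) (x : Fin n → ℝ) (a : Fin N → ℝ)
    (ha : ∀ j, 0 ≤ a j) (hx : x = ∑ j, a j • v j) :
    ∃ (I : Finset (Fin N)) (b : Fin N → ℝ), I.card ≤ n ∧ (∀ j ∈ I, 0 < b j) ∧
      x = ∑ j ∈ I, b j • v j := by
  classical
  -- strong induction on the size of the support
  have key : ∀ (k : ℕ) (a : Fin N → ℝ), (∀ j, 0 ≤ a j) → x = ∑ j, a j • v j →
      (Finset.univ.filter fun j => a j ≠ 0).card = k →
      ∃ (I : Finset (Fin N)) (b : Fin N → ℝ), I.card ≤ n ∧ (∀ j ∈ I, 0 < b j) ∧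
        x = ∑ j ∈ I, b j • v j := by
    intro k
    induction k using Nat.strong_induction_on with
    | _ k ih =>
      intro a ha hx hk
      set I : Finset (Fin N) := Finset.univ.filter fun j => a j ≠ 0 with hI
      have hsum : ∀ b : Fin N → ℝ, (∀ j, a j = 0 → b j = 0) →
          ∑ j ∈ I, b j • v j = ∑ j, b j • v j := by
        intro b hb
        apply Finset.sum_subset (Finset.subset_univ _)
        intro j _ hj
        have : a j = 0 := by
          by_contra h
          exact hj (Finset.mem_filter.mpr ⟨Finset.mem_univ _, h⟩)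
        rw [hb j this, zero_smul]
      by_cases hcard : I.card ≤ n
      · refine ⟨I, a, hcard, ?_, ?_⟩
        · intro j hj
          exact lt_of_le_of_ne (ha j) (Ne.symm (Finset.mem_filter.mp hj).2)
        · rw [hx, hsum a (fun _ h => h)]
      · push Not at hcard
        have hnot : ¬ LinearIndependent ℝ (fun i : I => v i.1) := by
          intro hli
          have := hli.fintype_card_le_finrank
          rw [Module.finrank_fin_fun, Fintype.card_coe] at this
          omega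
        rw [Fintype.not_linearIndependent_iff] at hnot
        obtain ⟨g, hg, i0, hi0⟩ := hnot
        -- extend to all indices, positive somewhere
        obtain ⟨g', hg'1, hg'2, i1, hi1⟩ : ∃ g' : Fin N → ℝ, (∀ j, j ∉ I → g' j = 0) ∧
            ∑ j ∈ I, g' j • v j = 0 ∧ ∃ i1 ∈ I, 0 < g' i1 := by
          have hex : ∃ g1 : Fin N → ℝ, (∀ j, j ∉ I → g1 j = 0) ∧
              ∑ j ∈ I, g1 j • v j = 0 ∧ ∃ i1 ∈ I, g1 i1 ≠ 0 := by
            refine ⟨fun j => if hj : j ∈ I then g ⟨j, hj⟩ else 0, ?_, ?_, i0.1, i0.2, ?_⟩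
            · intro j hj; simp [hj]
            · rw [← Finset.sum_coe_sort I]
              rw [← hg]
              refine Finset.sum_congr rfl fun i _ => ?_
              simp
            · simpa using hi0
          obtain ⟨g1, h1, h2, i1, hi1, h3⟩ := hex
          rcases lt_or_gt_of_ne h3 with h4 | h4
          · refine ⟨fun j => - g1 j, fun j hj => by simp [h1 j hj], ?_, i1, hi1, by simpa using h4⟩
            simp only [neg_smul, Finset.sum_neg_distrib, h2, neg_zero]
          · exact ⟨g1, h1, h2, i1, hi1, h4⟩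
        -- minimal quotient
        set J : Finset (Fin N) := I.filter fun j => 0 < g' j with hJ
        have hJne : J.Nonempty := ⟨i1, Finset.mem_filter.mpr ⟨hi1.1, hi1.2⟩⟩
        obtain ⟨m, hm, hmin⟩ := Finset.exists_min_image J (fun j => a j / g' j) hJne
        have hm' := Finset.mem_filter.mp hm
        set t := a m / g' m with ht
        have htnn : 0 ≤ t := div_nonneg (ha m) hm'.2.le
        set b : Fin N → ℝ := fun j => a j - t * g' j with hb
        have hbnn : ∀ j, 0 ≤ b j := by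
          intro j
          rw [hb]
          show 0 ≤ a j - t * g' j
          by_cases hjI : j ∈ I
          · by_cases hgj : 0 < g' j
            · have := hmin j (Finset.mem_filter.mpr ⟨hjI, hgj⟩)
              rw [le_div_iff₀ hgj] at this
              linarith
            · push Not at hgj
              have := ha j
              nlinarith
          · rw [hg'1 j hjI]; have := ha j; linarith
        have hbm : b m = 0 := by
          show a m - t * g' m = 0
          rw [ht, div_mul_cancel₀ _ hm'.2.ne', sub_self]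
        have hb0 : ∀ j, a j = 0 → b j = 0 := by
          intro j hj
          have hjI : j ∉ I := by
            intro h; exact (Finset.mem_filter.mp h).2 hj
          show a j - t * g' j = 0
          rw [hj, hg'1 j hjI]; ring
        have hbx : x = ∑ j, b j • v j := by
          rw [← hsum b hb0]
          have : ∑ j ∈ I, b j • v j = ∑ j ∈ I, a j • v j - t • ∑ j ∈ I, g' j • v j := by
            rw [Finset.smul_sum, ← Finset.sum_sub_distrib]
            refine Finset.sum_congr rfl fun j _ => ?_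
            show (a j - t * g' j) • v j = _
            rw [sub_smul, smul_smul]
          rw [this, hg'2, smul_zero, sub_zero, hsum a (fun _ h => h), hx]
        have hlt : (Finset.univ.filter fun j => b j ≠ 0).card < k := by
          rw [← hk]
          apply Finset.card_lt_card
          refine ⟨?_, ?_⟩
          · intro j hj
            rw [Finset.mem_filter] at hj
            rw [hI, Finset.mem_filter]
            exact ⟨Finset.mem_univ _, fun h => hj.2 (hb0 j h)⟩
          · intro hsub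
            have := hsub hm'.1
            rw [Finset.mem_filter] at this
            exact this.2 hbm
        exact ih _ hlt b hbnn hbx rfl
  exact key _ a ha hx rfl

theorem base_through (hn : 1 ≤ n) {ε : ℝ} (hε : 0 < ε) (hε1 : ε < 1 / 100)
    {u : Fin N → Fin n → ℤ} {c : Fin N → ℝ} (h : Dirs n N ε u c) (j : Fin N) :
    ∃ C : Finset (Fin N), j ∈ C ∧ IsBase u C := by
  classical
  obtain ⟨a, ha, hx⟩ := cone_cover hn hε hε1 h (-rv (u j))
  obtain ⟨I, b, hI, hb, hx⟩ := caratheodory (fun j => rv (u j)) _ a ha hx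
  -- the relation `u_j + sum_I b_i u_i = 0`
  have hjI : j ∉ I := by
    intro hj
    have h1 := h.indep I hI (fun i => b i + if i = j then 1 else 0) (by
      simp only [add_smul, Finset.sum_add_distrib, ← hx, ite_smul, one_smul, zero_smul]
      rw [Finset.sum_ite_eq' I j, if_pos hj, neg_add_cancel]) j hj
    have h2 := hb j hj
    simp at h1
    linarith
  have hrel : ∑ i ∈ insert j I, (if i = j then 1 else b i) • rv (u i) = 0 := by
    rw [Finset.sum_insert hjI, if_pos rfl, one_smul]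
    have : ∑ i ∈ I, (if i = j then 1 else b i) • rv (u i) = ∑ i ∈ I, b i • rv (u i) := by
      refine Finset.sum_congr rfl fun i hi => ?_
      rw [if_neg (fun hij => hjI (by rw [← hij]; exact hi))]
    rw [this, ← hx, add_neg_cancel]
  have hcard : (insert j I).card = n + 1 := by
    by_contra hne
    have hle : (insert j I).card ≤ n := by
      have := Finset.card_insert_le j I
      omega
    have h1 := h.indep (insert j I) hle _ hrel j (Finset.mem_insert_self _ _)
    simp at h1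
  refine ⟨insert j I, Finset.mem_insert_self _ _, hcard, fun i => if i = j then 1 else b i, ?_, hrel⟩
  intro i hi
  show 0 < (if i = j then 1 else b i)
  by_cases hij : i = j
  · rw [if_pos hij]; norm_num
  · rw [if_neg hij]
    exact hb i ((Finset.mem_insert.mp hi).resolve_left hij)

/-- Normalised relation of a base. -/
theorem base_normalised {ε : ℝ} {u : Fin N → Fin n → ℤ} {c : Fin N → ℝ} (h : Dirs n N ε u c)
    {C : Finset (Fin N)} (hC : IsBase u C) : ∃ l : Fin N → ℝ, (∀ j ∈ C, 0 < l j) ∧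
      ∑ j ∈ C, l j • rv (u j) = 0 ∧ ∑ j ∈ C, l j * c j = 1 := by
  obtain ⟨hcard, l, hl, hl0⟩ := hC
  have hne : C.Nonempty := by
    rw [← Finset.card_pos, hcard]; omega
  have hpos : 0 < ∑ j ∈ C, l j * c j :=
    Finset.sum_pos (fun j hj => mul_pos (hl j hj) (h.cpos j)) hne
  refine ⟨fun j => (∑ i ∈ C, l i * c i)⁻¹ * l j, ?_, ?_, ?_⟩
  · intro j hj
    exact mul_pos (inv_pos.mpr hpos) (hl j hj)
  · simp only [mul_smul]
    rw [← Finset.smul_sum, hl0, smul_zero]
  · simp only [mul_assoc]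
    rw [← Finset.mul_sum, inv_mul_cancel₀ hpos.ne']

theorem dt_rv_le (x : Fin n → ℝ) (hx : ∀ i, 0 ≤ x i ∧ x i ≤ 1) (w : Fin n → ℤ) :
    dt x (rv w) ≤ ∑ i, |(w i : ℝ)| := by
  apply Finset.sum_le_sum
  intro i _
  have h1 := le_abs_self (w i : ℝ)
  have h2 := abs_nonneg (w i : ℝ)
  show x i * (w i : ℝ) ≤ _
  calc x i * (w i : ℝ) ≤ x i * |(w i : ℝ)| := mul_le_mul_of_nonneg_left h1 (hx i).1
    _ ≤ 1 * |(w i : ℝ)| := mul_le_mul_of_nonneg_right (hx i).2 h2
    _ = _ := one_mul _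

theorem uv_cast (u : Fin N → Fin n → ℤ) (w : Fin n → ℤ) (j : Fin N) :
    ((uv u w j : ℤ) : ℝ) = dt (rv w) (rv (u j)) := by
  simp [uv, dt, rv]

theorem fin_levels_core (hn : 1 ≤ n) {ε : ℝ} (hε : 0 < ε) (hε1 : ε < 1 / 100)
    {u : Fin N → Fin n → ℤ} {c : Fin N → ℝ} (h : Dirs n N ε u c) (ρ0 ρ : ℝ) :
    ∃ B : Finset (Fin N → ℤ), ∀ k, Fat u c ρ0 k →
      (∀ C, IsBase u C → ∀ l : Fin N → ℝ, (∀ j ∈ C, 0 < l j) →
        ∑ j ∈ C, l j • rv (u j) = 0 → ∑ j ∈ C, l j * c j = 1 →
        ∑ j ∈ C, l j * (k j : ℝ) ≤ ρ) → ∃ q, k - uv u q ∈ B := by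
  classical
  choose Cb hmem hbase using base_through hn hε hε1 h
  choose l hl hl0 hl1 using fun j => base_normalised h (hbase j)
  set U : Fin N → ℝ := fun j => ∑ i, |(u j i : ℝ)| with hU
  set Lo : Fin N → ℤ := fun j => ⌊ρ0 * c j - U j⌋ with hLo
  set Hi : Fin N → ℤ := fun j =>
    ⌊(ρ - ∑ i ∈ (Cb j).erase j, l j i * (Lo i : ℝ)) / l j j⌋ with hHi
  refine ⟨Finset.Icc Lo Hi, ?_⟩
  rintro k ⟨v, hv⟩ hk
  set fl : Fin n → ℤ := fun i => ⌊v i⌋ with hfl
  set v' : Fin n → ℝ := fun i => Int.fract (v i) with hv'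
  have hvv : v = v' + rv fl := by
    funext i
    show v i = Int.fract (v i) + (⌊v i⌋ : ℝ)
    exact (Int.fract_add_floor (v i)).symm
  have huvneg : ∀ j, (k - uv u (-fl)) j = k j + uv u fl j := by
    intro j
    show k j - uv u (-fl) j = k j + uv u fl j
    have : uv u (-fl) j = - uv u fl j := by
      simp [uv, Finset.sum_neg_distrib]
    rw [this]; ring
  have hlow : ∀ j, Lo j ≤ (k - uv u (-fl)) j := by
    intro j
    rw [huvneg]
    have h1 : kap u c ρ0 v j ≤ k j := hv j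
    have h2 : kap u c ρ0 v j = ⌊ρ0 * c j - dt v' (rv (u j))⌋ - uv u fl j := by
      show ⌊ρ0 * c j - dt v (rv (u j))⌋ = _
      rw [hvv, dt_add_left, ← uv_cast]
      rw [show ρ0 * c j - (dt v' (rv (u j)) + (uv u fl j : ℝ)) =
        (ρ0 * c j - dt v' (rv (u j))) - (uv u fl j : ℝ) by ring]
      rw [Int.floor_sub_intCast]
    have h3 : Lo j ≤ ⌊ρ0 * c j - dt v' (rv (u j))⌋ := by
      apply Int.floor_le_floor
      have := dt_rv_le v' (fun i => ⟨Int.fract_nonneg _, (Int.fract_lt_one _).le⟩) (u j)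
      show ρ0 * c j - U j ≤ _
      linarith
    rw [h2] at h1
    linarith
  refine ⟨-fl, ?_⟩
  rw [Finset.mem_Icc]
  refine ⟨hlow, ?_⟩
  intro j
  show (k - uv u (-fl)) j ≤ ⌊(ρ - ∑ i ∈ (Cb j).erase j, l j i * (Lo i : ℝ)) / l j j⌋
  rw [Int.le_floor, le_div_iff₀ (hl j j (hmem j))]
  have h1 := hk (Cb j) (hbase j) (l j) (hl j) (hl0 j) (hl1 j)
  -- the sum is invariant
  have h2 : ∑ i ∈ Cb j, l j i * (((k - uv u (-fl)) i : ℤ) : ℝ) = ∑ i ∈ Cb j, l j i * (k i : ℝ) := by
    have h3 : ∑ i ∈ Cb j, l j i * (((k - uv u (-fl)) i : ℤ) : ℝ) =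
        ∑ i ∈ Cb j, l j i * (k i : ℝ) + dt (∑ i ∈ Cb j, l j i • rv (u i)) (rv fl) := by
      have h4 : dt (∑ i ∈ Cb j, l j i • rv (u i)) (rv fl) =
          ∑ i ∈ Cb j, l j i * dt (rv (u i)) (rv fl) := by
        simp only [dt, Finset.sum_apply, Pi.smul_apply, smul_eq_mul, Finset.sum_mul,
          Finset.mul_sum]
        rw [Finset.sum_comm]
        refine Finset.sum_congr rfl fun i _ => Finset.sum_congr rfl fun a _ => by ring
      rw [h4, ← Finset.sum_add_distrib]
      refine Finset.sum_congr rfl fun i _ => ?_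
      rw [huvneg]
      push_cast
      rw [uv_cast, dt_comm (rv (u i))]
      ring
    rw [h3, hl0 j]
    simp [dt]
  rw [← h2, ← Finset.add_sum_erase _ _ (hmem j)] at h1
  have h5 : ∑ i ∈ (Cb j).erase j, l j i * (Lo i : ℝ) ≤
      ∑ i ∈ (Cb j).erase j, l j i * (((k - uv u (-fl)) i : ℤ) : ℝ) := by
    apply Finset.sum_le_sum
    intro i hi
    apply mul_le_mul_of_nonneg_left _ (hl j i (Finset.mem_of_mem_erase hi)).le
    exact_mod_cast hlow i
  linarith

theorem fin_levels (hn : 1 ≤ n) {ε : ℝ} (hε : 0 < ε) (hε1 : ε < 1 / 100)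
    {u : Fin N → Fin n → ℤ} {c : Fin N → ℝ} (h : Dirs n N ε u c) (r : (Fin N → ℤ) → ℝ)
    (hr : ∀ C, IsBase u C → ∀ l : Fin N → ℝ, (∀ j ∈ C, 0 < l j) →
      ∑ j ∈ C, l j • rv (u j) = 0 → ∑ j ∈ C, l j * c j = 1 →
      ∀ k, ∑ j ∈ C, l j * (k j : ℝ) ≤ r k) :
    ∀ ρ0 ρ : ℝ, ∃ B : Finset (Fin N → ℤ), ∀ k, Fat u c ρ0 k → r k ≤ ρ →
      ∃ q, k - uv u q ∈ B := by
  intro ρ0 ρ
  obtain ⟨B, hB⟩ := fin_levels_core hn hε hε1 h ρ0 ρ
  exact ⟨B, fun k hk hrk => hB k hk fun C hC l hl hl0 hl1 => (hr C hC l hl hl0 hl1 k).trans hrk⟩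

end Cn

variable {n N : ℕ}

theorem cone_cover (hn : 1 ≤ n) {ε : ℝ} (hε : 0 < ε) (hε1 : ε < 1 / 100)
    {u : Fin N → Fin n → ℤ} {c : Fin N → ℝ} (h : Dirs n N ε u c) (x : Fin n → ℝ) :
    ∃ a : Fin N → ℝ, (∀ j, 0 ≤ a j) ∧ x = ∑ j, a j • rv (u j) :=
  Cn.cone_cover hn hε hε1 h x

theorem base_through (hn : 1 ≤ n) {ε : ℝ} (hε : 0 < ε) (hε1 : ε < 1 / 100)
    {u : Fin N → Fin n → ℤ} {c : Fin N → ℝ} (h : Dirs n N ε u c) (j : Fin N) :
    ∃ C : Finset (Fin N), j ∈ C ∧ IsBase u C :=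
  Cn.base_through hn hε hε1 h j

theorem base_normalised {ε : ℝ} {u : Fin N → Fin n → ℤ} {c : Fin N → ℝ} (h : Dirs n N ε u c)
    {C : Finset (Fin N)} (hC : IsBase u C) : ∃ l : Fin N → ℝ, (∀ j ∈ C, 0 < l j) ∧
      ∑ j ∈ C, l j • rv (u j) = 0 ∧ ∑ j ∈ C, l j * c j = 1 :=
  Cn.base_normalised h hC

theorem fin_levels (hn : 1 ≤ n) {ε : ℝ} (hε : 0 < ε) (hε1 : ε < 1 / 100)
    {u : Fin N → Fin n → ℤ} {c : Fin N → ℝ} (h : Dirs n N ε u c) (r : (Fin N → ℤ) → ℝ)
    (hr : ∀ C, IsBase u C → ∀ l : Fin N → ℝ, (∀ j ∈ C, 0 < l j) →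
      ∑ j ∈ C, l j • rv (u j) = 0 → ∑ j ∈ C, l j * c j = 1 →
      ∀ k, ∑ j ∈ C, l j * (k j : ℝ) ≤ r k) :
    ∀ ρ0 ρ : ℝ, ∃ B : Finset (Fin N → ℤ), ∀ k, Fat u c ρ0 k → r k ≤ ρ →
      ∃ q, k - uv u q ∈ B :=
  Cn.fin_levels hn hε hε1 h r hr

end G2

end Pool.Agent.FPmIf
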