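import Pool.Agent.Lib.MP_f973c6_al.If.G2a
import Pool.Agent.Lib.MP_f973c6_al.If.G2cone

/-! Part G2: levels (L1)-(L4), the function `r`, the base and the vector `v` of a level. -/

set_option autoImplicit false

namespace Pool.Agent.FPmIf.G2L

variable {n N : ℕ}

open G2 (exchange L2 rel_unique dt_zero_right)

theorem dt_sum_smul {ι : Type} (I : Finset ι) (v : Fin n → ℝ) (l : ι → ℝ)
    (x : ι → Fin n → ℝ) : dt v (∑ j ∈ I, l j • x j) = ∑ j ∈ I, l j * dt v (x j) := by
  unfold dt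
  simp only [Finset.sum_apply, Pi.smul_apply, smul_eq_mul, Finset.mul_sum]
  rw [Finset.sum_comm]
  refine Finset.sum_congr rfl fun j _ => Finset.sum_congr rfl fun i _ => by ring

theorem dt_rv_uv (u : Fin N → Fin n → ℤ) (w : Fin n → ℤ) (j : Fin N) :
    dt (rv w) (rv (u j)) = (uv u w j : ℝ) := by
  unfold dt rv uv
  push_cast
  rfl

/-- existence of a normalised relation. -/
theorem exists_lam {ε : ℝ} {u : Fin N → Fin n → ℤ} {c : Fin N → ℝ} (h : Dirs n N ε u c)
    {C : Finset (Fin N)} (hC : IsBase u C) :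
    ∃ l : Fin N → ℝ, (∀ j ∈ C, 0 < l j) ∧ ∑ j ∈ C, l j • rv (u j) = 0 ∧
      ∑ j ∈ C, l j * c j = 1 := by
  obtain ⟨hcard, l, hl, h0⟩ := hC
  have hne : C.Nonempty := by
    rw [← Finset.card_pos]; omega
  have hs : 0 < ∑ j ∈ C, l j * c j := Finset.sum_pos (fun j hj => mul_pos (hl j hj) (h.cpos j)) hne
  refine ⟨fun j => (∑ j ∈ C, l j * c j)⁻¹ * l j, fun j hj => mul_pos (inv_pos.mpr hs) (hl j hj),
    ?_, ?_⟩
  · have : ∑ j ∈ C, ((∑ j ∈ C, l j * c j)⁻¹ * l j) • rv (u j)
        = (∑ j ∈ C, l j * c j)⁻¹ • ∑ j ∈ C, l j • rv (u j) := by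
      rw [Finset.smul_sum]
      exact Finset.sum_congr rfl fun j _ => mul_smul _ _ _
    rw [this, h0, smul_zero]
  · have : ∑ j ∈ C, ((∑ j ∈ C, l j * c j)⁻¹ * l j) * c j
        = (∑ j ∈ C, l j * c j)⁻¹ * ∑ j ∈ C, l j * c j := by
      rw [Finset.mul_sum]
      exact Finset.sum_congr rfl fun j _ => by ring
    rw [this]
    exact inv_mul_cancel₀ hs.ne'

open Classical in
/-- the chosen normalised relation. -/
noncomputable def lam (u : Fin N → Fin n → ℤ) (c : Fin N → ℝ) (C : Finset (Fin N)) :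
    Fin N → ℝ :=
  if hx : ∃ l : Fin N → ℝ, (∀ j ∈ C, 0 < l j) ∧ ∑ j ∈ C, l j • rv (u j) = 0 ∧
      ∑ j ∈ C, l j * c j = 1 then hx.choose else 0

theorem lam_spec {ε : ℝ} {u : Fin N → Fin n → ℤ} {c : Fin N → ℝ} (h : Dirs n N ε u c)
    {C : Finset (Fin N)} (hC : IsBase u C) :
    (∀ j ∈ C, 0 < lam u c C j) ∧ ∑ j ∈ C, lam u c C j • rv (u j) = 0 ∧
      ∑ j ∈ C, lam u c C j * c j = 1 := by
  have hx := exists_lam h hC
  unfold lam
  rw [dif_pos hx]
  exact hx.choose_spec

/-- `r_C`. -/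
noncomputable def rC (u : Fin N → Fin n → ℤ) (c : Fin N → ℝ) (C : Finset (Fin N))
    (k : Fin N → ℤ) : ℝ := ∑ j ∈ C, lam u c C j * (k j : ℝ)

theorem rC_mono {ε : ℝ} {u : Fin N → Fin n → ℤ} {c : Fin N → ℝ} (h : Dirs n N ε u c)
    {C : Finset (Fin N)} (hC : IsBase u C) {k k' : Fin N → ℤ} (hk : k ≤ k') :
    rC u c C k ≤ rC u c C k' := by
  unfold rC
  refine Finset.sum_le_sum fun j hj => mul_le_mul_of_nonneg_left ?_ ((lam_spec h hC).1 j hj).le
  exact_mod_cast hk j

theorem rC_le_real {ε : ℝ} {u : Fin N → Fin n → ℤ} {c : Fin N → ℝ} (h : Dirs n N ε u c)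
    {C : Finset (Fin N)} (hC : IsBase u C) (ρ : ℝ) (v : Fin n → ℝ) :
    ∑ j ∈ C, lam u c C j * (ρ * c j - dt v (rv (u j))) = ρ := by
  obtain ⟨-, h0, h1⟩ := lam_spec h hC
  have e1 : ∑ j ∈ C, lam u c C j * (ρ * c j - dt v (rv (u j)))
      = ρ * ∑ j ∈ C, lam u c C j * c j - ∑ j ∈ C, lam u c C j * dt v (rv (u j)) := by
    rw [Finset.mul_sum, ← Finset.sum_sub_distrib]
    exact Finset.sum_congr rfl fun j _ => by ring
  rw [e1, h1, ← dt_sum_smul, h0, dt_zero_right]
  ring

theorem rC_kap {ε : ℝ} {u : Fin N → Fin n → ℤ} {c : Fin N → ℝ} (h : Dirs n N ε u c)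
    {C : Finset (Fin N)} (hC : IsBase u C) (ρ : ℝ) (v : Fin n → ℝ) :
    rC u c C (kap u c ρ v) ≤ ρ := by
  have h1 := rC_le_real h hC ρ v
  unfold rC
  refine le_trans (Finset.sum_le_sum fun j hj =>
    mul_le_mul_of_nonneg_left ?_ ((lam_spec h hC).1 j hj).le) h1.le
  exact Int.floor_le _

theorem rC_shift {ε : ℝ} {u : Fin N → Fin n → ℤ} {c : Fin N → ℝ} (h : Dirs n N ε u c)
    {C : Finset (Fin N)} (hC : IsBase u C) (k : Fin N → ℤ) (q : Fin n → ℤ) :
    rC u c C (k - uv u q) = rC u c C k := by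
  unfold rC
  obtain ⟨-, h0, -⟩ := lam_spec h hC
  rw [show (∑ j ∈ C, lam u c C j * (((k - uv u q) j : ℤ) : ℝ))
      = ∑ j ∈ C, lam u c C j * (k j : ℝ) - ∑ j ∈ C, lam u c C j * dt (rv q) (rv (u j)) from by
    rw [← Finset.sum_sub_distrib]
    refine Finset.sum_congr rfl fun j _ => ?_
    rw [dt_rv_uv, Pi.sub_apply]
    push_cast
    ring]
  rw [← dt_sum_smul, h0, dt_zero_right]
  ring

/-- Solving the equations `⟨v,u_j⟩ = b_j` on a base. -/
theorem exists_v {ε : ℝ} {u : Fin N → Fin n → ℤ} {c : Fin N → ℝ} (h : Dirs n N ε u c)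
    {C : Finset (Fin N)} (hcard : C.card = n + 1) (l : Fin N → ℝ) (hl : ∀ j ∈ C, 0 < l j)
    (h0 : ∑ j ∈ C, l j • rv (u j) = 0) (b : Fin N → ℝ) (hb : ∑ j ∈ C, l j * b j = 0) :
    ∃ v : Fin n → ℝ, ∀ j ∈ C, dt v (rv (u j)) = b j := by
  classical
  obtain ⟨i0, hi0⟩ : C.Nonempty := by rw [← Finset.card_pos]; omega
  have hcard' : (C.erase i0).card = n := by rw [Finset.card_erase_of_mem hi0, hcard]; rfl
  have hli : LinearIndependent ℝ (fun j : (C.erase i0) => rv (u j)) := by
    rw [Fintype.linearIndependent_iff]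
    intro g hg j
    have := h.indep (C.erase i0) hcard'.le (fun j => if hj : j ∈ C.erase i0 then g ⟨j, hj⟩ else 0)
      (by
        rw [← hg, ← Finset.sum_coe_sort]
        refine Finset.sum_congr rfl fun j _ => ?_
        simp only [Finset.coe_mem, dif_pos, Subtype.coe_eta]) j j.2
    simpa using this
  have hb0 : ∃ f : (Fin n → ℝ) →ₗ[ℝ] ℝ, ∀ j : (C.erase i0), f (rv (u j)) = b j := by
    obtain ⟨g, hg⟩ := LinearMap.exists_leftInverse_of_injective
      (Finsupp.linearCombination ℝ (fun j : (C.erase i0) => rv (u j)))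
      (LinearMap.ker_eq_bot.mpr hli)
    refine ⟨(Finsupp.linearCombination ℝ (fun j : (C.erase i0) => b j)).comp g, fun j => ?_⟩
    have e1 := congrArg (fun φ => φ (Finsupp.single j (1 : ℝ))) hg
    simp only [LinearMap.comp_apply, Finsupp.linearCombination_single, one_smul,
      LinearMap.id_apply] at e1
    rw [LinearMap.comp_apply, e1]
    simp
  obtain ⟨f, hf⟩ := hb0
  refine ⟨fun i => f (Pi.single i 1), ?_⟩
  have hdt : ∀ x, dt (fun i => f (Pi.single i 1)) x = f x := by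
    intro x
    have hx : x = ∑ i, x i • (Pi.single i (1 : ℝ) : Fin n → ℝ) := by
      funext i
      simp [Finset.sum_apply, Pi.single_apply]
    conv_rhs => rw [hx]
    rw [map_sum]
    unfold dt
    refine Finset.sum_congr rfl fun i _ => ?_
    rw [map_smul, smul_eq_mul, mul_comm]
  intro j hj
  rw [hdt]
  by_cases hji : j = i0
  · subst hji
    have e1 : f (∑ j ∈ C, l j • rv (u j)) = 0 := by rw [h0, map_zero]
    rw [map_sum, ← Finset.add_sum_erase _ _ hi0] at e1
    rw [← Finset.add_sum_erase _ _ hi0] at hb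
    have e2 : ∑ x ∈ C.erase j, f (l x • rv (u x)) = ∑ x ∈ C.erase j, l x * b x := by
      refine Finset.sum_congr rfl fun x hx => ?_
      rw [map_smul, smul_eq_mul]
      rw [hf ⟨x, hx⟩]
    rw [e2, map_smul, smul_eq_mul] at e1
    have e3 : l j * f (rv (u j)) = l j * b j := by linarith
    exact mul_left_cancel₀ (hl j hj).ne' e3
  · exact hf ⟨j, Finset.mem_erase.mpr ⟨hji, hj⟩⟩


open Classical in
/-- The chosen solution `v`. -/
noncomputable def solv (u : Fin N → Fin n → ℤ) (C : Finset (Fin N)) (b : Fin N → ℝ) :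
    Fin n → ℝ :=
  if hx : ∃ v : Fin n → ℝ, ∀ j ∈ C, dt v (rv (u j)) = b j then hx.choose else 0

theorem solv_spec {u : Fin N → Fin n → ℤ} {C : Finset (Fin N)} {b : Fin N → ℝ}
    (hx : ∃ v : Fin n → ℝ, ∀ j ∈ C, dt v (rv (u j)) = b j) :
    ∀ j ∈ C, dt (solv u C b) (rv (u j)) = b j := by
  unfold solv
  rw [dif_pos hx]
  exact hx.choose_spec

/-- The claim of (L3). -/
theorem claim_L3 (hn : 1 ≤ n) {ε : ℝ} {u : Fin N → Fin n → ℤ} {c : Fin N → ℝ}
    (h : Dirs n N ε u c) {C : Finset (Fin N)} (hC : IsBase u C) (k : Fin N → ℤ) (ρ : ℝ)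
    (hmax : ∀ C', IsBase u C' → rC u c C' k ≤ ρ) (v : Fin n → ℝ)
    (hv : ∀ j ∈ C, dt v (rv (u j)) = ρ * c j - k j) (j : Fin N) :
    (k j : ℝ) ≤ ρ * c j - dt v (rv (u j)) := by
  classical
  by_cases hj : j ∈ C
  · rw [hv j hj]; linarith
  · obtain ⟨i, hi, hC'⟩ := exchange hn h hC hj
    have h1 := hmax _ hC'
    have h2 := rC_le_real h hC' ρ v
    have hj' : j ∉ C.erase i := fun hh => hj (Finset.mem_of_mem_erase hh)
    unfold rC at h1
    rw [Finset.sum_insert hj'] at h1 h2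
    have h3 : ∑ x ∈ C.erase i, lam u c (insert j (C.erase i)) x * (k x : ℝ)
        = ∑ x ∈ C.erase i, lam u c (insert j (C.erase i)) x * (ρ * c x - dt v (rv (u x))) := by
      refine Finset.sum_congr rfl fun x hx => ?_
      rw [hv x (Finset.mem_of_mem_erase hx)]
      ring
    rw [h3] at h1
    have h4 : 0 < lam u c (insert j (C.erase i)) j :=
      (lam_spec h hC').1 j (Finset.mem_insert_self _ _)
    have h5 : lam u c (insert j (C.erase i)) j * (k j : ℝ)
        ≤ lam u c (insert j (C.erase i)) j * (ρ * c j - dt v (rv (u j))) := by linarith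
    exact le_of_mul_le_mul_left h5 h4

end Pool.Agent.FPmIf.G2L

namespace Pool.Agent.FPmIf

open G2L
open G2 (exchange L2 rel_unique base_through fin_levels)

variable {n N : ℕ}

/-- G2: levels (L1)-(L4). -/
theorem G2_levels (hn : 1 ≤ n) {ε : ℝ} (hε : 0 < ε) (hε1 : ε < 1 / 100)
    {u : Fin N → Fin n → ℤ} {c : Fin N → ℝ} (h : Dirs n N ε u c) :
    ∃ (r : (Fin N → ℤ) → ℝ) (Cb : (Fin N → ℤ) → Finset (Fin N))
      (vv : (Fin N → ℤ) → Fin n → ℝ),
      (∀ k k', k ≤ k' → r k ≤ r k') ∧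
      (∀ k q, r (k - uv u q) = r k) ∧
      (∀ k, r k ≠ 0 → IsBase u (Cb k) ∧ k ≤ kap u c (r k) (vv k) ∧
        (∀ j ∈ Cb k, kap u c (r k) (vv k) j = k j) ∧
        ∀ k' ≤ kap u c (r k) (vv k),
          (r k' = r k ↔ ∀ j ∈ Cb k, k' j = k j) ∧
          (r k' = r k → Cb k' = Cb k ∧ vv k' = vv k)) ∧
      (∀ ρ v, r (kap u c ρ v) ≤ ρ) ∧
      (∀ ρ0 ρ : ℝ, ∃ B : Finset (Fin N → ℤ), ∀ k, Fat u c ρ0 k → r k ≤ ρ →
        ∃ q, k - uv u q ∈ B) := by
  classical
  -- the finite nonempty set of bases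
  have hne : ((Finset.univ : Finset (Finset (Fin N))).filter fun C => IsBase u C).Nonempty := by
    obtain ⟨j, -⟩ := h.dense (Pi.single ⟨0, hn⟩ 1) (by
      unfold nrm dt
      simp [Pi.single_apply])
    obtain ⟨C, -, hC⟩ := base_through hn hε hε1 h j
    exact ⟨C, Finset.mem_filter.mpr ⟨Finset.mem_univ _, hC⟩⟩
  set BS := (Finset.univ : Finset (Finset (Fin N))).filter fun C => IsBase u C with hBS
  set r : (Fin N → ℤ) → ℝ := fun k => BS.sup' hne (fun C => rC u c C k) with hr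
  have hle : ∀ k C, IsBase u C → rC u c C k ≤ r k := fun k C hC =>
    Finset.le_sup' (fun C => rC u c C k) (Finset.mem_filter.mpr ⟨Finset.mem_univ _, hC⟩)
  have hex : ∀ k, ∃ C, IsBase u C ∧ rC u c C k = r k := by
    intro k
    obtain ⟨C, hC, e⟩ := Finset.exists_mem_eq_sup' hne (fun C => rC u c C k)
    exact ⟨C, (Finset.mem_filter.mp hC).2, e.symm⟩
  choose Cb hCb hCr using hex
  set vv : (Fin N → ℤ) → Fin n → ℝ := fun k =>
    solv u (Cb k) (fun j => if j ∈ Cb k then r k * c j - k j else 0) with hvv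
  have hmono : ∀ k k', k ≤ k' → r k ≤ r k' := by
    intro k k' hk
    rw [← hCr k]
    exact le_trans (rC_mono h (hCb k) hk) (hle k' _ (hCb k))
  have hshift : ∀ k q, r (k - uv u q) = r k := by
    intro k q
    simp only [hr]
    refine Finset.sup'_congr hne rfl fun C hC => rC_shift h (Finset.mem_filter.mp hC).2 k q
  have hkap : ∀ ρ v, r (kap u c ρ v) ≤ ρ := by
    intro ρ v
    rw [← hCr]
    exact rC_kap h (hCb _) ρ v
  -- L2 in the form needed
  have hL2 : ∀ C C' k k', IsBase u C → IsBase u C' → rC u c C k = rC u c C' k' →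
      rC u c C k ≠ 0 → C = C' := by
    intro C C' k k' hC hC' e hne
    obtain ⟨a1, a2, a3⟩ := lam_spec h hC
    obtain ⟨b1, b2, b3⟩ := lam_spec h hC'
    exact L2 h hC hC' _ _ a1 a2 a3 b1 b2 b3 k k' (rC u c C k) hne rfl e.symm
  have hvk : ∀ k, ∀ j ∈ Cb k, dt (vv k) (rv (u j)) = r k * c j - k j := by
    intro k j hj
    obtain ⟨a1, a2, a3⟩ := lam_spec h (hCb k)
    have hx := exists_v h (hCb k).1 (lam u c (Cb k)) a1 a2
      (fun j => if j ∈ Cb k then r k * c j - k j else 0) (by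
        have e1 : ∑ j ∈ Cb k, lam u c (Cb k) j * (if j ∈ Cb k then r k * c j - k j else 0)
            = r k * ∑ j ∈ Cb k, lam u c (Cb k) j * c j
              - ∑ j ∈ Cb k, lam u c (Cb k) j * (k j : ℝ) := by
          rw [Finset.mul_sum, ← Finset.sum_sub_distrib]
          refine Finset.sum_congr rfl fun j hj => ?_
          rw [if_pos hj]
          ring
        rw [e1, a3]
        have := hCr k
        unfold rC at this
        rw [this]
        ring)
    have := solv_spec hx j hj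
    simp only [hj, if_true] at this
    exact this
  have hclaim : ∀ k j, (k j : ℝ) ≤ r k * c j - dt (vv k) (rv (u j)) := fun k j =>
    claim_L3 hn h (hCb k) k (r k) (fun C' hC' => hle k C' hC') (vv k) (hvk k) j
  refine ⟨r, Cb, vv, hmono, hshift, ?_, hkap, ?_⟩
  · intro k hk
    have hκ1 : k ≤ kap u c (r k) (vv k) := fun j => Int.le_floor.mpr (hclaim k j)
    have hκ2 : ∀ j ∈ Cb k, kap u c (r k) (vv k) j = k j := by
      intro j hj
      unfold kap
      rw [hvk k j hj]
      have : r k * c j - (r k * c j - (k j : ℝ)) = (k j : ℝ) := by ring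
      rw [this, Int.floor_intCast]
    refine ⟨hCb k, hκ1, hκ2, ?_⟩
    intro k' hk'
    have hup : r k' ≤ r k := le_trans (hmono _ _ hk') (hkap _ _)
    have hCbe : r k' = r k → Cb k' = Cb k := by
      intro e
      refine hL2 _ _ k' k (hCb k') (hCb k) (by rw [hCr, hCr, e]) (by rw [hCr, e]; exact hk)
    have hiff : r k' = r k ↔ ∀ j ∈ Cb k, k' j = k j := by
      constructor
      · intro e
        have e1 : rC u c (Cb k) k' = rC u c (Cb k) k := by
          rw [hCr k, ← e, ← hCr k', hCbe e]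
        unfold rC at e1
        have e2 : ∀ j ∈ Cb k, lam u c (Cb k) j * (k' j : ℝ) = lam u c (Cb k) j * (k j : ℝ) := by
          rw [← Finset.sum_eq_sum_iff_of_le]
          · exact e1
          · intro j hj
            refine mul_le_mul_of_nonneg_left ?_ ((lam_spec h (hCb k)).1 j hj).le
            have := hk' j
            rw [hκ2 j hj] at this
            exact_mod_cast this
        intro j hj
        have := mul_left_cancel₀ ((lam_spec h (hCb k)).1 j hj).ne' (e2 j hj)
        exact_mod_cast this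
      · intro e
        refine le_antisymm hup ?_
        rw [← hCr k]
        refine le_trans (le_of_eq ?_) (hle k' _ (hCb k))
        unfold rC
        refine Finset.sum_congr rfl fun j hj => ?_
        rw [e j hj]
    refine ⟨hiff, fun e => ⟨hCbe e, ?_⟩⟩
    simp only [hvv]
    rw [hCbe e]
    congr 1
    funext j
    by_cases hj : j ∈ Cb k
    · rw [if_pos hj, if_pos hj, e, hiff.mp e j hj]
    · rw [if_neg hj, if_neg hj]
  · refine fin_levels hn hε hε1 h r ?_
    intro C hC l hl hl0 hl1 k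
    -- the normalised relation is unique
    have hlam : ∀ j ∈ C, l j = lam u c C j := by
      obtain ⟨a1, a2, a3⟩ := lam_spec h hC
      obtain ⟨t, ht⟩ := rel_unique h hC.1 (lam u c C) l a1 a2 hl0
      have : t = 1 := by
        have e1 : ∑ j ∈ C, l j * c j = t * ∑ j ∈ C, lam u c C j * c j := by
          rw [Finset.mul_sum]
          refine Finset.sum_congr rfl fun j hj => ?_
          rw [ht j hj]; ring
        rw [hl1, a3, mul_one] at e1
        exact e1.symm
      intro j hj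
      rw [ht j hj, this, one_mul]
    have : ∑ j ∈ C, l j * (k j : ℝ) = rC u c C k := by
      unfold rC
      exact Finset.sum_congr rfl fun j hj => by rw [hlam j hj]
    rw [this]
    exact hle k C hC

end Pool.Agent.FPmIf
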