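import Pool.Agent.Lib.MP_f973c6_al.If.Defs

/-! Section 3 of `fpm_if_lead.md`: the noetherian lemma (Lemma 3). -/

set_option autoImplicit false

namespace Pool.Agent.FPmIf

namespace M1

variable {n N p : ℕ}

/-- The monoid `ℤ^n × ℕ^N`. -/
abbrev Mo (n N : ℕ) := (Fin n → ℤ) × (Fin N → ℕ)

/-- Its monoid ring. -/
abbrev RR (n N : ℕ) := AddMonoidAlgebra ℤ (Mo n N)

theorem nat_fg : (⊤ : AddSubmonoid ℕ).FG :=
  ⟨{1}, by
    rw [Finset.coe_singleton, eq_top_iff]
    intro x _
    rw [AddSubmonoid.mem_closure_singleton]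
    exact ⟨x, by simp⟩⟩

theorem int_fg : (⊤ : AddSubmonoid ℤ).FG :=
  ⟨{1, -1}, by
    rw [eq_top_iff]
    intro x _
    have h1 : (1 : ℤ) ∈ AddSubmonoid.closure (({1, -1} : Finset ℤ) : Set ℤ) :=
      AddSubmonoid.subset_closure (by simp)
    have h2 : (-1 : ℤ) ∈ AddSubmonoid.closure (({1, -1} : Finset ℤ) : Set ℤ) :=
      AddSubmonoid.subset_closure (by simp)
    rcases Int.eq_nat_or_neg x with ⟨m, rfl | rfl⟩
    · have := AddSubmonoid.nsmul_mem _ h1 m
      simpa using this
    · have := AddSubmonoid.nsmul_mem _ h2 m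
      simpa using this⟩

instance moFG : AddMonoid.FG (Mo n N) := ⟨by
  have h1 : (⊤ : AddSubmonoid (Fin n → ℤ)).FG := by
    have := AddSubmonoid.FG.pi (ι := Fin n) (M := fun _ => ℤ) (P := fun _ => ⊤) (fun _ => int_fg)
    rwa [AddSubmonoid.pi_top] at this
  have h2 : (⊤ : AddSubmonoid (Fin N → ℕ)).FG := by
    have := AddSubmonoid.FG.pi (ι := Fin N) (M := fun _ => ℕ) (P := fun _ => ⊤) (fun _ => nat_fg)
    rwa [AddSubmonoid.pi_top] at this
  have := AddSubmonoid.FG.prod h1 h2
  rwa [AddSubmonoid.top_prod_top] at this⟩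

instance rrNoeth : IsNoetherianRing (RR n N) := Algebra.FiniteType.isNoetherianRing ℤ (RR n N)

/-- The degree condition. -/
def Cond (u : Fin N → Fin n → ℤ) (k : Fin N → ℤ) (m : Mo n N) : Prop :=
  ∀ j, (m.2 j : ℤ) = k j + uv u m.1 j

open Classical in
/-- Taking the part of degree `k` and dehomogenising. -/
noncomputable def δ (u : Fin N → Fin n → ℤ) (k : Fin N → ℤ) : RR n N →+ R n :=
  (Finsupp.liftAddHom fun m : Mo n N =>
    if Cond u k m then AddMonoidAlgebra.singleAddHom m.1 else 0).comp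
    (AddMonoidAlgebra.coeffAddEquiv (R := ℤ) (M := Mo n N)).toAddMonoidHom

open Classical in
theorem δ_single (u : Fin N → Fin n → ℤ) (k : Fin N → ℤ) (m : Mo n N) (c : ℤ) :
    δ u k (AddMonoidAlgebra.single m c) =
      if Cond u k m then AddMonoidAlgebra.single m.1 c else 0 := by
  unfold δ
  by_cases h : Cond u k m
  · simp [h]
  · simp [h]


/-- Homogenisation. -/
noncomputable def H (u : Fin N → Fin n → ℤ) (e : Fin N → ℤ) : R n →+ RR n N :=
  (Finsupp.liftAddHom fun w : Fin n → ℤ =>
    AddMonoidAlgebra.singleAddHom ((w, fun j => (e j + uv u w j).toNat) : Mo n N)).comp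
    (AddMonoidAlgebra.coeffAddEquiv (R := ℤ) (M := Fin n → ℤ)).toAddMonoidHom

theorem H_single (u : Fin N → Fin n → ℤ) (e : Fin N → ℤ) (w : Fin n → ℤ) (c : ℤ) :
    H u e (AddMonoidAlgebra.single w c) =
      AddMonoidAlgebra.single ((w, fun j => (e j + uv u w j).toNat) : Mo n N) c := by
  unfold H
  simp

theorem expand (f : R n) :
    f = ∑ w ∈ f.coeff.support, AddMonoidAlgebra.single w (f.coeff w) := by
  conv_lhs => rw [← AddMonoidAlgebra.sum_coeff_single f]
  rfl

theorem uv_add (u : Fin N → Fin n → ℤ) (w w' : Fin n → ℤ) :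
    uv u (w + w') = uv u w + uv u w' := by
  funext j
  simp [uv, add_mul, Finset.sum_add_distrib]

/-- Step 1. -/
theorem δ_H (u : Fin N → Fin n → ℤ) (k e : Fin N → ℤ) (f : R n)
    (hf : ∀ w ∈ f.coeff.support, w ∈ KK u e) :
    δ u k (H u e f) = if k = e then f else 0 := by
  conv_lhs => rw [expand f]
  rw [map_sum, map_sum]
  have key : ∀ w ∈ f.coeff.support, δ u k (H u e (AddMonoidAlgebra.single w (f.coeff w))) =
      if k = e then AddMonoidAlgebra.single w (f.coeff w) else 0 := by
    intro w hw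
    rw [H_single, δ_single]
    have hiff : Cond u k ((w, fun j => (e j + uv u w j).toNat) : Mo n N) ↔ k = e := by
      have hw' := hf w hw
      unfold Cond
      constructor
      · intro h
        funext j
        have h1 := h j
        have h2 := hw' j
        simp only at h1
        rw [Int.toNat_of_nonneg (by linarith)] at h1
        linarith
      · rintro rfl j
        have h2 := hw' j
        simp only
        rw [Int.toNat_of_nonneg (by linarith)]
    by_cases h : k = e
    · rw [if_pos (hiff.2 h), if_pos h]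
    · rw [if_neg (fun h' => h (hiff.1 h')), if_neg h]
  rw [Finset.sum_congr rfl key]
  by_cases h : k = e
  · simp only [if_pos h]
    exact (expand f).symm
  · simp [h]

/-- Step 2. -/
theorem δ_mul (u : Fin N → Fin n → ℤ) (k : Fin N → ℤ) (m : Mo n N) (c : ℤ) (F : RR n N) :
    δ u k (AddMonoidAlgebra.single m c * F) =
      AddMonoidAlgebra.single m.1 c * δ u (fun j => k j - m.2 j + uv u m.1 j) F := by
  induction F using AddMonoidAlgebra.induction_linear with
  | zero => simp
  | add x y hx hy => rw [mul_add, map_add, hx, hy, map_add, mul_add]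
  | single m' c' =>
    rw [AddMonoidAlgebra.single_mul_single, δ_single, δ_single]
    have hiff : Cond u k (m + m') ↔ Cond u (fun j => k j - m.2 j + uv u m.1 j) m' := by
      unfold Cond
      apply forall_congr'
      intro j
      have h1 : ((m + m').2 j : ℤ) = m.2 j + m'.2 j := by
        simp
      have h2 : uv u (m + m').1 j = uv u m.1 j + uv u m'.1 j := by
        rw [Prod.fst_add, uv_add]; rfl
      rw [h1, h2]
      constructor
      · intro h; linarith
      · intro h; linarith
    by_cases h : Cond u k (m + m')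
    · rw [if_pos h, if_pos (hiff.1 h), AddMonoidAlgebra.single_mul_single]
      rfl
    · rw [if_neg h, if_neg (fun h' => h (hiff.2 h')), mul_zero]

/-- `Δ_k`. -/
noncomputable def Δ (u : Fin N → Fin n → ℤ) (g : Fin p → Fin N → ℤ) (k : Fin N → ℤ)
    (F : Fin p → RR n N) : Fin p → R n := fun s => δ u (k - g s) (F s)

/-- Homogenisation of vectors. -/
noncomputable def hom (u : Fin N → Fin n → ℤ) (g : Fin p → Fin N → ℤ) (k : Fin N → ℤ)
    (f : Fin p → R n) : Fin p → RR n N := fun s => H u (k - g s) (f s)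

theorem Δ_hom (u : Fin N → Fin n → ℤ) (g : Fin p → Fin N → ℤ) (k d : Fin N → ℤ)
    (f : Fin p → R n) (hf : InF u g d f) : Δ u g k (hom u g d f) = if k = d then f else 0 := by
  funext s
  unfold Δ hom
  rw [δ_H u _ _ _ (hf s)]
  by_cases h : k = d
  · subst h; simp
  · rw [if_neg h, if_neg]
    · rfl
    · intro h'
      exact h (sub_left_injective h')

theorem Δ_smul (u : Fin N → Fin n → ℤ) (g : Fin p → Fin N → ℤ) (k : Fin N → ℤ)
    (m : Mo n N) (c : ℤ) (F : Fin p → RR n N) :
    Δ u g k ((AddMonoidAlgebra.single m c : RR n N) • F) =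
      (AddMonoidAlgebra.single m.1 c : R n) • Δ u g (fun j => k j - m.2 j + uv u m.1 j) F := by
  funext s
  unfold Δ
  simp only [Pi.smul_apply, smul_eq_mul]
  rw [δ_mul]
  have : (fun j => (k - g s) j - (m.2 j : ℤ) + uv u m.1 j) =
      (fun j => k j - (m.2 j : ℤ) + uv u m.1 j) - g s := by
    funext j
    simp only [Pi.sub_apply]
    ring
  rw [this]

theorem single_smul_AA {M : Type} [AddCommGroup M] [Module (R n) M] {q : ℕ}
    (u : Fin N → Fin n → ℤ) (a : Fin q → M) (d : Fin q → Fin N → ℤ) (k k' : Fin N → ℤ)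
    (w : Fin n → ℤ) (c : ℤ) (hk : ∀ j, k' j ≤ k j + uv u w j) (x : M) (hx : x ∈ AA u a d k') :
    (AddMonoidAlgebra.single w c : R n) • x ∈ AA u a d k := by
  have hc : (AddMonoidAlgebra.single w c : R n) • x = c • ((mon w : R n) • x) := by
    rw [← smul_assoc]
    congr 1
    simp
  rw [hc]
  clear hc
  apply AddSubgroup.zsmul_mem
  unfold AA at hx
  induction hx using AddSubgroup.closure_induction with
  | mem x hx =>
    obtain ⟨l, w', hw', rfl⟩ := hx
    apply AddSubgroup.subset_closure
    refine ⟨l, w + w', ?_, ?_⟩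
    · intro j
      have h1 := hw' j
      have h2 := hk j
      rw [uv_add]
      simp only [Pi.sub_apply, Pi.add_apply] at h1 ⊢
      linarith
    · rw [← mul_smul, AddMonoidAlgebra.single_mul_single, one_mul]
  | zero => rw [smul_zero]; exact AddSubgroup.zero_mem _
  | add x y _ _ hx hy => rw [smul_add]; exact AddSubgroup.add_mem _ hx hy
  | neg x _ hx => rw [smul_neg]; exact AddSubgroup.neg_mem _ hx

/-- Step 3. -/
noncomputable def Sub {q : ℕ} (u : Fin N → Fin n → ℤ) (g : Fin p → Fin N → ℤ)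
    (z : Fin q → Fin p → R n) (d : Fin q → Fin N → ℤ) : Submodule (RR n N) (Fin p → RR n N) where
  carrier := {F | ∀ k, Δ u g k F ∈ AA u z d k}
  zero_mem' := by
    intro k
    have : Δ u g k (0 : Fin p → RR n N) = 0 := by
      funext s; simp [Δ]
    rw [this]
    exact AddSubgroup.zero_mem _
  add_mem' := by
    intro F G hF hG k
    have : Δ u g k (F + G) = Δ u g k F + Δ u g k G := by
      funext s; simp [Δ]
    rw [this]
    exact AddSubgroup.add_mem _ (hF k) (hG k)
  smul_mem' := by
    intro r F hF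
    induction r using AddMonoidAlgebra.induction_linear with
    | zero =>
      intro k
      have : Δ u g k ((0 : RR n N) • F) = 0 := by
        funext s; simp [Δ]
      rw [this]
      exact AddSubgroup.zero_mem _
    | add x y hx hy =>
      intro k
      have : Δ u g k ((x + y) • F) = Δ u g k (x • F) + Δ u g k (y • F) := by
        funext s; simp [Δ, add_mul]
      rw [this]
      exact AddSubgroup.add_mem _ (hx k) (hy k)
    | single m c =>
      intro k
      rw [Δ_smul]
      apply single_smul_AA u z d k (fun j => k j - m.2 j + uv u m.1 j) m.1 c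
      · intro j
        have : (0 : ℤ) ≤ m.2 j := Int.natCast_nonneg _
        linarith
      · exact hF _

end M1

/-- **Lemma 3** (section 3): the noetherian lemma. -/
theorem lemma3 {n N p : ℕ} (u : Fin N → Fin n → ℤ) (g : Fin p → Fin N → ℤ)
    (L : Submodule (R n) (Fin p → R n)) :
    ∃ (q : ℕ) (z : Fin q → Fin p → R n) (d : Fin q → Fin N → ℤ),
      (∀ l, z l ∈ L ∧ InF u g (d l) (z l)) ∧
      ∀ k f, f ∈ L → InF u g k f → f ∈ AA u z d k := by
  classical
  let T : Set (Fin p → M1.RR n N) :=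
    {F | ∃ k f, f ∈ L ∧ InF u g k f ∧ F = M1.hom u g k f}
  have hT : (Submodule.span (M1.RR n N) T).FG := IsNoetherian.noetherian _
  rw [Submodule.fg_span_iff_fg_span_finset_subset] at hT
  obtain ⟨s', hs', hspan⟩ := hT
  have hch : ∀ x : s', ∃ kf : (Fin N → ℤ) × (Fin p → R n), kf.2 ∈ L ∧ InF u g kf.1 kf.2 ∧
      (x : Fin p → M1.RR n N) = M1.hom u g kf.1 kf.2 := by
    intro x
    obtain ⟨k, f, h1, h2, h3⟩ := hs' x.2
    exact ⟨(k, f), h1, h2, h3⟩
  choose kf hkf using hch
  let e := s'.equivFin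
  refine ⟨s'.card, fun l => (kf (e.symm l)).2, fun l => (kf (e.symm l)).1,
    fun l => ⟨(hkf (e.symm l)).1, (hkf (e.symm l)).2.1⟩, ?_⟩
  set z : Fin s'.card → Fin p → R n := fun l => (kf (e.symm l)).2 with hz
  set d : Fin s'.card → Fin N → ℤ := fun l => (kf (e.symm l)).1 with hd
  have hle : Submodule.span (M1.RR n N) T ≤ M1.Sub u g z d := by
    rw [hspan, Submodule.span_le]
    intro F hF k
    have h3 := (hkf ⟨F, hF⟩).2.2
    have h2 := (hkf ⟨F, hF⟩).2.1
    simp only at h3
    rw [h3, M1.Δ_hom u g k _ _ h2]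
    split_ifs with h
    · apply AddSubgroup.subset_closure
      refine ⟨e ⟨F, hF⟩, 0, ?_, ?_⟩
      · intro j
        simp [hd, h, uv]
      · simp only [hz, Equiv.symm_apply_apply]
        have : (mon (0 : Fin n → ℤ) : R n) = 1 := rfl
        rw [this, one_smul]
    · exact AddSubgroup.zero_mem _
  intro k f hf hfk
  have h1 : M1.hom u g k f ∈ Submodule.span (M1.RR n N) T :=
    Submodule.subset_span ⟨k, f, hf, hfk, rfl⟩
  have h2 := hle h1 k
  rw [M1.Δ_hom u g k k f hfk, if_pos rfl] at h2
  exact h2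

/-- M1: the noetherian lemma (Lemma 3). -/
theorem M1_noeth {n N : ℕ} {p : ℕ} (u : Fin N → Fin n → ℤ) (g : Fin p → Fin N → ℤ)
    (L : Submodule (R n) (Fin p → R n)) :
    ∃ (q : ℕ) (z : Fin q → Fin p → R n) (d : Fin q → Fin N → ℤ),
      (∀ l, z l ∈ L ∧ InF u g (d l) (z l)) ∧
      ∀ k, ∀ f ∈ L, InF u g k f →
        f ∈ AddSubgroup.closure {x | ∃ l, ∃ w ∈ KK u (k - d l), x = mon w • z l} := by
  obtain ⟨q, z, d, h1, h2⟩ := lemma3 u g L
  exact ⟨q, z, d, h1, fun k f hf hk => h2 k f hf hk⟩

/-- The converse of Lemma 3. -/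
theorem lemma3_conv {n N p q : ℕ} (u : Fin N → Fin n → ℤ) (g : Fin p → Fin N → ℤ)
    (L : Submodule (R n) (Fin p → R n)) (z : Fin q → Fin p → R n) (d : Fin q → Fin N → ℤ)
    (h : ∀ l, z l ∈ L ∧ InF u g (d l) (z l)) (k : Fin N → ℤ) (f : Fin p → R n)
    (hf : f ∈ AA u z d k) : f ∈ L ∧ InF u g k f := by
  classical
  unfold AA at hf
  induction hf using AddSubgroup.closure_induction with
  | mem x hx =>
    obtain ⟨l, w, hw, rfl⟩ := hx
    refine ⟨L.smul_mem _ (h l).1, ?_⟩
    intro s w' hw'
    have h1 : w' ∈ ((mon w : R n) * z l s).coeff.support := hw'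
    have h2 : w' - w ∈ (z l s).coeff.support := by
      rw [Finsupp.mem_support_iff] at h1 ⊢
      intro h3
      apply h1
      rw [AddMonoidAlgebra.coeff_single_mul_apply]
      have : -w + w' = w' - w := by abel
      rw [this, h3, mul_zero]
    have h3 := (h l).2 s _ h2
    intro j
    have h4 := h3 j
    have h5 := hw j
    have h6 : uv u w' = uv u w + uv u (w' - w) := by rw [← M1.uv_add]; congr 1; abel
    rw [h6]
    simp only [Pi.sub_apply, Pi.add_apply] at h4 h5 ⊢
    linarith
  | zero => exact ⟨L.zero_mem, by intro s w hw; simp at hw⟩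
  | add x y _ _ hx hy =>
    refine ⟨L.add_mem hx.1 hy.1, ?_⟩
    intro s w hw
    by_cases h1 : w ∈ (x s).coeff.support
    · exact hx.2 s w h1
    · apply hy.2 s w
      rw [Finsupp.mem_support_iff] at hw h1 ⊢
      intro h2
      apply hw
      push Not at h1
      simp [h1, h2]
  | neg x _ hx =>
    refine ⟨L.neg_mem hx.1, ?_⟩
    intro s w hw
    apply hx.2 s w
    simpa using hw

end Pool.Agent.FPmIf
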