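import Pool.Agent.Lib.MP_f973c6_al.If.Defs

/-! G3: facets near a common point have nearly the same direction (L5). -/

set_option autoImplicit false

namespace Pool.Agent.FPmIf

namespace G3

variable {n N : ℕ}

theorem dt_comm (x y : Fin n → ℝ) : dt x y = dt y x := by
  simp only [dt]
  exact Finset.sum_congr rfl (fun i _ => mul_comm _ _)

theorem dt_smul_left (a : ℝ) (x y : Fin n → ℝ) : dt (a • x) y = a * dt x y := by
  simp only [dt, Finset.mul_sum, Pi.smul_apply, smul_eq_mul]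
  exact Finset.sum_congr rfl (fun i _ => mul_assoc _ _ _)

theorem dt_smul_right (a : ℝ) (x y : Fin n → ℝ) : dt x (a • y) = a * dt x y := by
  rw [dt_comm, dt_smul_left, dt_comm]

theorem dt_sub_left (x x' y : Fin n → ℝ) : dt (x - x') y = dt x y - dt x' y := by
  simp only [dt, Pi.sub_apply, sub_mul, Finset.sum_sub_distrib]

theorem dt_sub_right (x y y' : Fin n → ℝ) : dt x (y - y') = dt x y - dt x y' := by
  simp only [dt, Pi.sub_apply, mul_sub, Finset.sum_sub_distrib]

theorem dt_self_nonneg (x : Fin n → ℝ) : 0 ≤ dt x x :=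
  Finset.sum_nonneg (fun _ _ => mul_self_nonneg _)

theorem nrm_nonneg (x : Fin n → ℝ) : 0 ≤ nrm x := Real.sqrt_nonneg _

theorem nrm_sq (x : Fin n → ℝ) : nrm x ^ 2 = dt x x := Real.sq_sqrt (dt_self_nonneg x)

theorem nrm_eq_zero {x : Fin n → ℝ} (h : nrm x = 0) : x = 0 := by
  have h1 : dt x x = 0 := by rw [← nrm_sq, h]; ring
  have h2 := (Finset.sum_eq_zero_iff_of_nonneg (fun i _ => mul_self_nonneg (x i))).mp h1
  funext i
  exact mul_self_eq_zero.mp (h2 i (Finset.mem_univ i))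

theorem dt_rv (u : Fin N → Fin n → ℤ) (w : Fin n → ℤ) (j : Fin N) :
    dt (rv w) (rv (u j)) = (uv u w j : ℝ) := by
  simp [dt, rv, uv]

theorem nrm_hat {x : Fin n → ℝ} (h : 0 < nrm x) : nrm (hat x) = 1 := by
  have h1 : dt (hat x) (hat x) = 1 := by
    rw [hat, dt_smul_left, dt_smul_right, ← nrm_sq]
    field_simp
  rw [nrm, h1, Real.sqrt_one]

/-- the integer vectors `u_j` have norm at least one -/
theorem one_le_nrm (hn : 1 ≤ n) {ε : ℝ} {u : Fin N → Fin n → ℤ} {c : Fin N → ℝ}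
    (h : Dirs n N ε u c) (j : Fin N) : 1 ≤ nrm (rv (u j)) := by
  have h0 : u j ≠ 0 := by
    intro h0
    have h1 := h.indep {j} (by simpa using hn) (fun _ => 1) (by
      simp only [Finset.sum_singleton, one_smul]
      funext i
      simp [rv, h0]) j (Finset.mem_singleton_self j)
    exact one_ne_zero h1
  have h1 : ∃ i, u j i ≠ 0 := by
    by_contra hcon
    push Not at hcon
    exact h0 (funext hcon)
  obtain ⟨i, hi⟩ := h1
  have h2 : (1 : ℝ) ≤ rv (u j) i * rv (u j) i := by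
    have h3 : (1 : ℤ) ≤ u j i * u j i := by
      have := mul_self_pos.mpr hi
      omega
    simp only [rv]
    exact_mod_cast h3
  have h4 : (1 : ℝ) ≤ dt (rv (u j)) (rv (u j)) :=
    h2.trans (Finset.single_le_sum (f := fun i => rv (u j) i * rv (u j) i)
      (fun i _ => mul_self_nonneg _) (Finset.mem_univ i))
  rw [nrm]
  exact Real.one_le_sqrt.mpr h4

theorem dt_sub_self (x y : Fin n → ℝ) :
    dt (x - y) (x - y) = dt x x + dt y y - 2 * dt x y := by
  rw [dt_sub_left, dt_sub_right, dt_sub_right, dt_comm y x]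
  ring

end G3

open G3

/-- G3: facets near a common point have nearly the same direction (L5). -/
theorem G3_facets {n N : ℕ} (hn : 1 ≤ n) {ε : ℝ} (hε : 0 < ε) (hε1 : ε < 1 / 100)
    {u : Fin N → Fin n → ℤ} {c : Fin N → ℝ} (h : Dirs n N ε u c) (D : ℤ) :
    ∃ ρ1 : ℝ, ∀ ρ ≥ ρ1, ∀ v, ∀ w ∈ KK u (kap u c ρ v + fun _ => D),
      ∃ y : Fin n → ℝ, nrm y = 1 ∧ ∀ i, uv u w i ≤ -(kap u c ρ v i) + D →
        nrm (hat (rv (u i)) - y) ≤ Real.sqrt (8 * ε) := by
  set D' : ℝ := |(D : ℝ)| + 1 with hD'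
  have hD'1 : 1 ≤ D' := by rw [hD']; linarith [abs_nonneg (D : ℝ)]
  have hDD : (D : ℝ) + 1 ≤ D' := by rw [hD']; linarith [le_abs_self (D : ℝ)]
  refine ⟨2 * D' / ε, fun ρ hρ v w hw => ?_⟩
  have hρε : 2 * D' ≤ ρ * ε := by
    rw [ge_iff_le, div_le_iff₀ hε] at hρ
    exact hρ
  have hρpos : 0 < ρ := by
    by_contra hneg
    push Not at hneg
    nlinarith
  have hρD : D' < ρ := by nlinarith
  set W : Fin n → ℝ := rv w - v with hW
  have hunit : ∀ j, 1 ≤ nrm (rv (u j)) := one_le_nrm hn h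
  have hdtW : ∀ j, dt W (rv (u j)) = (uv u w j : ℝ) - dt v (rv (u j)) := by
    intro j
    rw [hW, dt_sub_left, dt_rv]
  -- lower bound for all `j`
  have hlow : ∀ j, -(ρ * (1 + ε) + D') * nrm (rv (u j)) ≤ dt W (rv (u j)) := by
    intro j
    have h1 := hw j
    have h2 : (kap u c ρ v j : ℝ) ≤ ρ * c j - dt v (rv (u j)) := Int.floor_le _
    have h3 : (-((kap u c ρ v j : ℝ) + D)) ≤ (uv u w j : ℝ) := by
      have h1' : -(kap u c ρ v j + D) ≤ uv u w j := h1
      exact_mod_cast h1'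
    have h4 : ρ * c j ≤ ρ * ((1 + ε) * nrm (rv (u j))) :=
      mul_le_mul_of_nonneg_left (h.cup j) hρpos.le
    have h5 : D' ≤ D' * nrm (rv (u j)) := by nlinarith [hunit j]
    rw [hdtW j]
    nlinarith
  -- upper bound for the facets
  have hupp : ∀ i, uv u w i ≤ -(kap u c ρ v i) + D →
      dt W (rv (u i)) ≤ -(ρ - D') * nrm (rv (u i)) := by
    intro i hi
    have h2 : ρ * c i - dt v (rv (u i)) < (kap u c ρ v i : ℝ) + 1 := Int.lt_floor_add_one _
    have h3 : (uv u w i : ℝ) ≤ -(kap u c ρ v i : ℝ) + D := by exact_mod_cast hi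
    have h4 : ρ * nrm (rv (u i)) ≤ ρ * c i := mul_le_mul_of_nonneg_left (h.clow i) hρpos.le
    have h5 : D' ≤ D' * nrm (rv (u i)) := by nlinarith [hunit i]
    rw [hdtW i]
    nlinarith
  rcases eq_or_lt_of_le (nrm_nonneg W) with hL | hL
  · -- `W = 0`: no facets at all
    have hW0 : W = 0 := nrm_eq_zero hL.symm
    refine ⟨Pi.single ⟨0, hn⟩ 1, ?_, ?_⟩
    · rw [nrm, dt]
      have : ∑ i, (Pi.single (⟨0, hn⟩ : Fin n) (1 : ℝ) : Fin n → ℝ) i *
          (Pi.single (⟨0, hn⟩ : Fin n) (1 : ℝ) : Fin n → ℝ) i = 1 := by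
        rw [Finset.sum_eq_single (⟨0, hn⟩ : Fin n)]
        · simp
        · intro b _ hb
          simp [Pi.single_eq_of_ne hb]
        · intro hb
          exact absurd (Finset.mem_univ _) hb
      rw [this, Real.sqrt_one]
    · intro i hi
      exfalso
      have h1 := hupp i hi
      have h2 : dt W (rv (u i)) = 0 := by rw [hW0]; simp [dt]
      rw [h2] at h1
      nlinarith [hunit i]
  · set L := nrm W with hLdef
    set y : Fin n → ℝ := (-L⁻¹) • W with hy
    have hyy : dt y y = 1 := by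
      rw [hy, dt_smul_left, dt_smul_right, ← nrm_sq, ← hLdef]
      field_simp
    have hyn : nrm y = 1 := by rw [nrm, hyy, Real.sqrt_one]
    have hWy : ∀ x, dt W x = -(L * dt y x) := by
      intro x
      rw [hy, dt_smul_left]
      field_simp
    have hhat : ∀ j, dt y (hat (rv (u j))) * nrm (rv (u j)) = dt y (rv (u j)) := by
      intro j
      rw [hat, dt_smul_right]
      have := hunit j
      field_simp
    have hhh : ∀ j, dt (hat (rv (u j))) (hat (rv (u j))) = 1 := by
      intro j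
      rw [← nrm_sq, nrm_hat (lt_of_lt_of_le one_pos (hunit j))]
      norm_num
    -- the bound on `L`
    have hLb : L * (1 - ε ^ 2 / 2) ≤ ρ * (1 + ε) + D' := by
      obtain ⟨j, hj⟩ := h.dense y hyn
      have h1 : dt (hat (rv (u j)) - y) (hat (rv (u j)) - y) ≤ ε ^ 2 := by
        rw [← nrm_sq]
        exact pow_le_pow_left₀ (nrm_nonneg _) hj 2
      rw [dt_sub_self, hhh, hyy, dt_comm (hat _) y] at h1
      have h2 : 1 - ε ^ 2 / 2 ≤ dt y (hat (rv (u j))) := by linarith
      have h3 := hlow j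
      rw [hWy, ← hhat j] at h3
      have hp : 0 < nrm (rv (u j)) := lt_of_lt_of_le one_pos (hunit j)
      have h4 : L * dt y (hat (rv (u j))) ≤ ρ * (1 + ε) + D' := by
        have h5 : (L * dt y (hat (rv (u j)))) * nrm (rv (u j)) ≤
            (ρ * (1 + ε) + D') * nrm (rv (u j)) := by linarith
        exact le_of_mul_le_mul_right h5 hp
      have h6 : L * (1 - ε ^ 2 / 2) ≤ L * dt y (hat (rv (u j))) :=
        mul_le_mul_of_nonneg_left h2 hL.le
      linarith
    refine ⟨y, hyn, fun i hi => ?_⟩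
    have h1 := hupp i hi
    rw [hWy, ← hhat i] at h1
    have hp : 0 < nrm (rv (u i)) := lt_of_lt_of_le one_pos (hunit i)
    have h2 : ρ - D' ≤ L * dt y (hat (rv (u i))) := by
      have h5 : (ρ - D') * nrm (rv (u i)) ≤ (L * dt y (hat (rv (u i)))) * nrm (rv (u i)) := by
        linarith
      exact le_of_mul_le_mul_right h5 hp
    have h3 : 1 - 4 * ε ≤ dt y (hat (rv (u i))) := by
      by_contra hcon
      push Not at hcon
      have h4 : L * dt y (hat (rv (u i))) < L * (1 - 4 * ε) := mul_lt_mul_of_pos_left hcon hL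
      have h5 : ρ - D' < L * (1 - 4 * ε) := by linarith
      have h6 : 0 < 1 - ε ^ 2 / 2 := by nlinarith
      have h7 : (ρ - D') * (1 - ε ^ 2 / 2) < (L * (1 - ε ^ 2 / 2)) * (1 - 4 * ε) := by
        have := mul_lt_mul_of_pos_right h5 h6
        linarith
      have h8 : 0 < 1 - 4 * ε := by linarith
      have h9 : (L * (1 - ε ^ 2 / 2)) * (1 - 4 * ε) ≤ (ρ * (1 + ε) + D') * (1 - 4 * ε) :=
        mul_le_mul_of_nonneg_right hLb h8.le
      have h10 : 0 < ρ * ε * ε := by positivity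
      nlinarith
    rw [nrm]
    apply Real.sqrt_le_sqrt
    rw [dt_sub_self, hhh, hyy, dt_comm (hat _) y]
    linarith

end Pool.Agent.FPmIf
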