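import Pool.Agent.Lib.MP_f973c6_al.If.Defs

/-! Section (6b): if every index of a base is active, the base splits into at least `m+1`
clusters (connected components of the graph of directions at distance at most `2η`). -/

set_option autoImplicit false

namespace Pool.Agent.FPmIf

namespace M4b

variable {n N : ℕ}

theorem nrm_eq (x : Fin n → ℝ) : nrm x = ‖(WithLp.toLp 2 x : EuclideanSpace ℝ (Fin n))‖ := by
  rw [EuclideanSpace.norm_eq]
  unfold nrm dt
  congr 1
  refine Finset.sum_congr rfl fun i _ => ?_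
  simp [sq]

theorem nrm_nonneg (x : Fin n → ℝ) : 0 ≤ nrm x := Real.sqrt_nonneg _

theorem nrm_add_le (x y : Fin n → ℝ) : nrm (x + y) ≤ nrm x + nrm y := by
  rw [nrm_eq, nrm_eq, nrm_eq, WithLp.toLp_add]
  exact norm_add_le _ _

theorem nrm_smul (a : ℝ) (x : Fin n → ℝ) : nrm (a • x) = |a| * nrm x := by
  rw [nrm_eq, nrm_eq, WithLp.toLp_smul, norm_smul, Real.norm_eq_abs]

theorem nrm_zero : nrm (0 : Fin n → ℝ) = 0 := by
  rw [nrm_eq]; simp

theorem nrm_neg (x : Fin n → ℝ) : nrm (-x) = nrm x := by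
  rw [nrm_eq, nrm_eq, WithLp.toLp_neg, norm_neg]

theorem nrm_sub_comm (x y : Fin n → ℝ) : nrm (x - y) = nrm (y - x) := by
  rw [← nrm_neg, neg_sub]

theorem nrm_sub_le (x y z : Fin n → ℝ) : nrm (x - z) ≤ nrm (x - y) + nrm (y - z) := by
  have := nrm_add_le (x - y) (y - z)
  simpa using this

theorem nrm_sum_le {ι : Type*} (s : Finset ι) (f : ι → Fin n → ℝ) :
    nrm (∑ i ∈ s, f i) ≤ ∑ i ∈ s, nrm (f i) := by
  classical
  induction s using Finset.induction_on with
  | empty => simp [nrm_zero]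
  | insert a s ha ih =>
    rw [Finset.sum_insert ha, Finset.sum_insert ha]
    exact (nrm_add_le _ _).trans (by linarith)

/-- The graph on the base `C`: two indices whose directions are at distance at most `t`. -/
def gr (u : Fin N → Fin n → ℤ) (C : Finset (Fin N)) (t : ℝ) : SimpleGraph {j // j ∈ C} where
  Adj i j := i ≠ j ∧ nrm (hat (rv (u i.1)) - hat (rv (u j.1))) ≤ t
  symm := ⟨fun i j h => ⟨h.1.symm, by rw [nrm_sub_comm]; exact h.2⟩⟩
  loopless := ⟨fun i h => h.1 rfl⟩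

theorem walk_le (u : Fin N → Fin n → ℤ) (C : Finset (Fin N)) (t : ℝ) {i j : {j // j ∈ C}}
    (p : (gr u C t).Walk i j) :
    nrm (hat (rv (u i.1)) - hat (rv (u j.1))) ≤ p.length * t := by
  induction p with
  | nil => simp [nrm_zero]
  | @cons a b c h p ih =>
    rw [SimpleGraph.Walk.length_cons]
    push_cast
    have h1 := nrm_sub_le (hat (rv (u a.1))) (hat (rv (u b.1))) (hat (rv (u c.1)))
    have h2 : nrm (hat (rv (u a.1)) - hat (rv (u b.1))) ≤ t := h.2
    linarith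

theorem reach_le (u : Fin N → Fin n → ℤ) (C : Finset (Fin N)) (hC : C.card = n + 1) (t : ℝ)
    (ht : 0 ≤ t) {i j : {j // j ∈ C}} (h : (gr u C t).Reachable i j) :
    nrm (hat (rv (u i.1)) - hat (rv (u j.1))) ≤ n * t := by
  classical
  obtain ⟨p⟩ := h
  have h1 := walk_le u C t (p.toPath : (gr u C t).Walk i j)
  have h2 := p.toPath.2.length_lt
  rw [Fintype.card_coe, hC] at h2
  have h3 : (((p.toPath : (gr u C t).Walk i j).length : ℕ) : ℝ) ≤ n := by
    exact_mod_cast Nat.lt_succ_iff.mp h2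
  exact h1.trans (mul_le_mul_of_nonneg_right h3 ht)

theorem exists_clusters (u : Fin N → Fin n → ℤ) (C : Finset (Fin N)) (hC : C.card = n + 1)
    (t : ℝ) (ht : 0 ≤ t) :
    ∃ cl : Fin N → ℕ,
      (∀ i ∈ C, ∀ j ∈ C, cl i = cl j → nrm (hat (rv (u i)) - hat (rv (u j))) ≤ n * t) ∧
      (∀ i ∈ C, ∀ j ∈ C, cl i ≠ cl j → t < nrm (hat (rv (u i)) - hat (rv (u j)))) := by
  classical
  obtain ⟨out, hout0⟩ : ∃ out : (gr u C t).ConnectedComponent → {j // j ∈ C},
      ∀ c, (gr u C t).connectedComponentMk (out c) = c :=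
    ⟨Quot.out, fun c => Quot.out_eq c⟩
  obtain ⟨rep, hrepd⟩ : ∃ rep : {j // j ∈ C} → {j // j ∈ C},
      ∀ j, rep j = out ((gr u C t).connectedComponentMk j) := ⟨_, fun j => rfl⟩
  have hout : ∀ j, (gr u C t).connectedComponentMk (rep j) =
      (gr u C t).connectedComponentMk j := fun j => by rw [hrepd, hout0]
  have hrep : ∀ i j, rep i = rep j ↔ (gr u C t).Reachable i j := by
    intro i j
    constructor
    · intro h
      have h1 : (gr u C t).connectedComponentMk i = (gr u C t).connectedComponentMk j :=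
        (hout i).symm.trans ((congrArg (gr u C t).connectedComponentMk h).trans (hout j))
      exact SimpleGraph.ConnectedComponent.exact h1
    · intro h
      have : (gr u C t).connectedComponentMk i = (gr u C t).connectedComponentMk j :=
        SimpleGraph.ConnectedComponent.sound h
      rw [hrepd, hrepd, this]
  obtain ⟨cl, hcl⟩ : ∃ cl : Fin N → ℕ, ∀ j (h : j ∈ C), cl j = ((rep ⟨j, h⟩).1 : ℕ) :=
    ⟨fun j => if h : j ∈ C then ((rep ⟨j, h⟩).1 : ℕ) else 0, fun j h => dif_pos h⟩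
  refine ⟨cl, ?_, ?_⟩
  · intro i hi j hj h
    rw [hcl i hi, hcl j hj] at h
    have h1 : rep ⟨i, hi⟩ = rep ⟨j, hj⟩ := Subtype.ext (Fin.ext h)
    have h2 : (gr u C t).Reachable ⟨i, hi⟩ ⟨j, hj⟩ := (hrep _ _).1 h1
    have h3 := reach_le u C hC t ht h2
    exact h3
  · intro i hi j hj h
    rw [hcl i hi, hcl j hj] at h
    by_contra hcon
    have hcon' : nrm (hat (rv (u i)) - hat (rv (u j))) ≤ t := not_lt.mp hcon
    apply h
    have hij : (⟨i, hi⟩ : {j // j ∈ C}) ≠ ⟨j, hj⟩ := by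
      intro h'
      exact h (by rw [h'])
    have hadj : (gr u C t).Adj ⟨i, hi⟩ ⟨j, hj⟩ := ⟨hij, hcon'⟩
    rw [(hrep _ _).2 hadj.reachable]

end M4b

open M4b in
/-- (6b): all indices active implies at least `m+1` clusters. -/
theorem M4b_clusters {n N : ℕ} (M : Type) [AddCommGroup M] [Module (R n) M] (m : ℕ)
    (δ η : ℝ) (hη : 0 < η) (hδη : (2 * n + 2) * η < δ)
    (hδ : ∀ k, 1 ≤ k → k ≤ m → ∀ χ : Fin k → Fin n → ℝ,
      (∀ i, nrm (χ i) = 1 ∧ ¬ HasRel M (χ i)) → ∀ μ : Fin k → ℝ, (∀ i, 0 ≤ μ i) →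
        ∑ i, μ i = 1 → δ ≤ nrm (∑ i, μ i • χ i))
    (u : Fin N → Fin n → ℤ) (C : Finset (Fin N)) (hC : IsBase u C)
    (hu : ∀ j ∈ C, 0 < nrm (rv (u j)))
    (hact : ∀ j ∈ C, ∃ χ : Fin n → ℝ, nrm χ = 1 ∧ ¬ HasRel M χ ∧
      nrm (χ - hat (rv (u j))) ≤ 2 * η) :
    ∃ cl : Fin N → ℕ, m + 1 ≤ (C.image cl).card ∧
      ∀ i ∈ C, ∀ j ∈ C, cl i ≠ cl j → 2 * η < nrm (hat (rv (u i)) - hat (rv (u j))) := by
  classical
  obtain ⟨hcard, l, hl, hsum⟩ := hC
  obtain ⟨cl, hcl1, hcl2⟩ := exists_clusters u C hcard (2 * η) (by linarith)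
  refine ⟨cl, ?_, hcl2⟩
  by_contra hcon
  push Not at hcon
  have hle : (C.image cl).card ≤ m := by omega
  have hCne : C.Nonempty := Finset.card_pos.mp (by omega)
  have h1 : 1 ≤ (C.image cl).card := Finset.card_pos.mpr (hCne.image cl)
  -- representatives
  obtain ⟨j0, hj0⟩ := hCne
  have : Nonempty (Fin N) := ⟨j0⟩
  choose! χ hχ1 hχ2 hχ3 using hact
  have hrep : ∀ t ∈ C.image cl, ∃ j ∈ C, cl j = t := by
    intro t ht
    obtain ⟨j, hj, hjt⟩ := Finset.mem_image.mp ht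
    exact ⟨j, hj, hjt⟩
  choose! rp hrp1 hrp2 using hrep
  -- total weight
  set T : ℝ := ∑ j ∈ C, l j * nrm (rv (u j)) with hT
  have hTpos : 0 < T := by
    apply Finset.sum_pos (fun j hj => mul_pos (hl j hj) (hu j hj)) ⟨j0, hj0⟩
  set w : Fin N → ℝ := fun j => l j * nrm (rv (u j)) / T with hw
  have hw0 : ∀ j ∈ C, 0 ≤ w j := fun j hj =>
    div_nonneg (mul_nonneg (hl j hj).le (hu j hj).le) hTpos.le
  have hw1 : ∑ j ∈ C, w j = 1 := by
    simp only [hw]
    rw [← Finset.sum_div, ← hT, div_self hTpos.ne']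
  have hwhat : ∑ j ∈ C, w j • hat (rv (u j)) = 0 := by
    have : ∀ j ∈ C, w j • hat (rv (u j)) = T⁻¹ • (l j • rv (u j)) := by
      intro j hj
      simp only [hw, hat, smul_smul]
      congr 1
      have := (hu j hj).ne'
      field_simp
    rw [Finset.sum_congr rfl this, ← Finset.smul_sum, hsum, smul_zero]
  let e := (C.image cl).equivFin
  have hkey := hδ (C.image cl).card h1 hle (fun i => χ (rp (e.symm i).1))
    (fun i => ⟨hχ1 _ (hrp1 _ (e.symm i).2), hχ2 _ (hrp1 _ (e.symm i).2)⟩)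
    (fun i => ∑ j ∈ C.filter (fun j => cl j = (e.symm i).1), w j)
    (fun i => Finset.sum_nonneg fun j hj => hw0 j (Finset.mem_filter.mp hj).1)
    (by
      rw [← Equiv.sum_comp e]
      simp only [Equiv.symm_apply_apply]
      rw [Finset.sum_coe_sort (C.image cl) (fun t => ∑ j ∈ C.filter (fun j => cl j = t), w j),
        Finset.sum_fiberwise_of_maps_to (fun j hj => Finset.mem_image_of_mem cl hj), hw1])
  have hsum2 : ∑ i, (∑ j ∈ C.filter (fun j => cl j = (e.symm i).1), w j) •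
      χ (rp (e.symm i).1) = ∑ j ∈ C, w j • χ (rp (cl j)) := by
    rw [← Equiv.sum_comp e]
    simp only [Equiv.symm_apply_apply]
    rw [Finset.sum_coe_sort (C.image cl)
      (fun t => (∑ j ∈ C.filter (fun j => cl j = t), w j) • χ (rp t)),
      ← Finset.sum_fiberwise_of_maps_to (g := cl) (t := C.image cl)
        (fun j hj => Finset.mem_image_of_mem cl hj) (fun j => w j • χ (rp (cl j)))]
    refine Finset.sum_congr rfl fun t ht => ?_
    rw [Finset.sum_smul]
    refine Finset.sum_congr rfl fun j hj => ?_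
    rw [(Finset.mem_filter.mp hj).2]
  rw [hsum2] at hkey
  have h5 : ∑ j ∈ C, w j • χ (rp (cl j)) =
      ∑ j ∈ C, w j • (χ (rp (cl j)) - hat (rv (u j))) := by
    simp only [smul_sub]
    rw [Finset.sum_sub_distrib, hwhat, sub_zero]
  rw [h5] at hkey
  have h6 : nrm (∑ j ∈ C, w j • (χ (rp (cl j)) - hat (rv (u j)))) ≤ (2 * n + 2) * η := by
    refine (nrm_sum_le _ _).trans ?_
    have : ∀ j ∈ C, nrm (w j • (χ (rp (cl j)) - hat (rv (u j)))) ≤
        w j * ((2 * n + 2) * η) := by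
      intro j hj
      rw [nrm_smul, abs_of_nonneg (hw0 j hj)]
      apply mul_le_mul_of_nonneg_left _ (hw0 j hj)
      have hm : cl j ∈ C.image cl := Finset.mem_image_of_mem cl hj
      have a1 := nrm_sub_le (χ (rp (cl j))) (hat (rv (u (rp (cl j))))) (hat (rv (u j)))
      have a2 := hχ3 _ (hrp1 _ hm)
      have a3 := hcl1 _ (hrp1 _ hm) _ hj (hrp2 _ hm)
      linarith
    refine (Finset.sum_le_sum this).trans ?_
    rw [← Finset.sum_mul, hw1, one_mul]
  linarith

end Pool.Agent.FPmIf
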