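import Pool.Agent.Lib.MP_f973c6_al.If.Defs
import Pool.Agent.Lib.MP_f973c6_al.If.M4b
import Pool.Agent.Lib.MP_f973c6_al.If.G3

/-! Section (6a), convexity step: if all directions `û_i`, `i ∈ I`, are within `2η` of an inert
direction `û_j`, then every convex combination of the `u_i` has a relation. -/

set_option autoImplicit false

namespace Pool.Agent.FPmIf

namespace M4b

variable {n N : ℕ}

theorem dt_sum_left {ι : Type*} (s : Finset ι) (f : ι → Fin n → ℝ) (y : Fin n → ℝ) :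
    dt (∑ i ∈ s, f i) y = ∑ i ∈ s, dt (f i) y := by
  unfold dt
  simp only [Finset.sum_apply, Finset.sum_mul]
  rw [Finset.sum_comm]

theorem hasRel_smul (M : Type) [AddCommGroup M] [Module (R n) M] {χ : Fin n → ℝ} {a : ℝ}
    (ha : 0 < a) (h : HasRel M χ) : HasRel M (a • χ) := by
  obtain ⟨r, h1, h2⟩ := h
  refine ⟨r, h1, fun s hs => ?_⟩
  have h3 := h2 s hs
  have h4 : dt (rv s) (a • χ) = a * dt (rv s) χ := by
    unfold dt
    rw [Finset.mul_sum]
    refine Finset.sum_congr rfl fun i _ => ?_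
    simp [Pi.smul_apply]
    ring
  rw [h4]
  positivity

theorem sq_nrm_sub (x y : Fin n → ℝ) :
    nrm (x - y) ^ 2 = nrm x ^ 2 - 2 * dt x y + nrm y ^ 2 := by
  rw [G3.nrm_sq, G3.nrm_sq, G3.nrm_sq]
  unfold dt
  rw [Finset.mul_sum, ← Finset.sum_sub_distrib, ← Finset.sum_add_distrib]
  refine Finset.sum_congr rfl fun i _ => ?_
  simp only [Pi.sub_apply]
  ring

theorem nrm_hat_one {x : Fin n → ℝ} (hx : 0 < nrm x) : nrm (hat x) = 1 := by
  unfold hat
  rw [nrm_smul, abs_of_pos (inv_pos.mpr hx), inv_mul_cancel₀ hx.ne']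

theorem conv_rel (M : Type) [AddCommGroup M] [Module (R n) M] {η : ℝ} (hη : 0 < η)
    (hη1 : 2 * η ≤ 1) (u : Fin N → Fin n → ℤ) (hu : ∀ j, 0 < nrm (rv (u j)))
    (j : Fin N) (I : Finset (Fin N))
    (hI : ∀ i ∈ I, nrm (hat (rv (u i)) - hat (rv (u j))) ≤ 2 * η)
    (hin : ∀ χ : Fin n → ℝ, nrm χ = 1 → nrm (χ - hat (rv (u j))) ≤ 2 * η → HasRel M χ)
    (α : Fin N → ℝ) (hα : ∀ i ∈ I, 0 ≤ α i) (hα1 : ∑ i ∈ I, α i = 1) :
    HasRel M (∑ i ∈ I, α i • rv (u i)) := by
  set x : Fin n → ℝ := ∑ i ∈ I, α i • rv (u i) with hx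
  have hj1 : nrm (hat (rv (u j))) = 1 := nrm_hat_one (hu j)
  have h1 : ∀ i ∈ I, (1 - 2 * η ^ 2) * nrm (rv (u i)) ≤ dt (rv (u i)) (hat (rv (u j))) := by
    intro i hi
    have h2 := sq_nrm_sub (hat (rv (u i))) (hat (rv (u j)))
    rw [nrm_hat_one (hu i), hj1] at h2
    have h3 := hI i hi
    have h4 : nrm (hat (rv (u i)) - hat (rv (u j))) ^ 2 ≤ (2 * η) ^ 2 :=
      pow_le_pow_left₀ (nrm_nonneg _) h3 2
    have h5 : dt (rv (u i)) (hat (rv (u j))) =
        nrm (rv (u i)) * dt (hat (rv (u i))) (hat (rv (u j))) := by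
      have h6 : rv (u i) = nrm (rv (u i)) • hat (rv (u i)) := by
        unfold hat
        rw [smul_smul, mul_inv_cancel₀ (hu i).ne', one_smul]
      conv_lhs => rw [h6]
      rw [G3.dt_smul_left]
    rw [h5, mul_comm]
    apply mul_le_mul_of_nonneg_left _ (hu i).le
    nlinarith
  set W : ℝ := ∑ i ∈ I, α i * nrm (rv (u i)) with hW
  have hWpos : 0 < W := by
    have hex : ∃ i ∈ I, 0 < α i := by
      by_contra hcon
      push Not at hcon
      have : ∑ i ∈ I, α i ≤ 0 := Finset.sum_nonpos hcon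
      linarith
    obtain ⟨i, hi, hi2⟩ := hex
    exact Finset.sum_pos' (fun i hi => mul_nonneg (hα i hi) (hu i).le)
      ⟨i, hi, mul_pos hi2 (hu i)⟩
  have hxW : nrm x ≤ W := by
    refine (nrm_sum_le _ _).trans (Finset.sum_le_sum fun i hi => ?_)
    rw [nrm_smul, abs_of_nonneg (hα i hi)]
  have hdt : (1 - 2 * η ^ 2) * W ≤ dt x (hat (rv (u j))) := by
    rw [hx, dt_sum_left, hW, Finset.mul_sum]
    refine Finset.sum_le_sum fun i hi => ?_
    rw [G3.dt_smul_left]
    have := mul_le_mul_of_nonneg_left (h1 i hi) (hα i hi)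
    linarith
  have hη2 : (1:ℝ) / 2 ≤ 1 - 2 * η ^ 2 := by nlinarith
  have hdtpos : 0 < dt x (hat (rv (u j))) := lt_of_lt_of_le (by positivity) hdt
  have hxpos : 0 < nrm x := by
    rcases (nrm_nonneg x).lt_or_eq with h | h
    · exact h
    · exfalso
      have : x = 0 := G3.nrm_eq_zero h.symm
      rw [this] at hdtpos
      simp [dt] at hdtpos
  have hhx : nrm (hat x - hat (rv (u j))) ≤ 2 * η := by
    have h8 := sq_nrm_sub (hat x) (hat (rv (u j)))
    rw [nrm_hat_one hxpos, hj1] at h8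
    have h9 : dt x (hat (rv (u j))) = nrm x * dt (hat x) (hat (rv (u j))) := by
      have h6 : x = nrm x • hat x := by
        unfold hat
        rw [smul_smul, mul_inv_cancel₀ hxpos.ne', one_smul]
      conv_lhs => rw [h6]
      rw [G3.dt_smul_left]
    have h10 : (1 - 2 * η ^ 2) * nrm x ≤ nrm x * dt (hat x) (hat (rv (u j))) := by
      rw [← h9]
      refine le_trans ?_ hdt
      exact mul_le_mul_of_nonneg_left hxW (by linarith)
    have h11 : 1 - 2 * η ^ 2 ≤ dt (hat x) (hat (rv (u j))) := by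
      have : nrm x * (1 - 2 * η ^ 2) ≤ nrm x * dt (hat x) (hat (rv (u j))) := by linarith
      exact le_of_mul_le_mul_left this hxpos
    apply le_of_sq_le_sq _ (by linarith)
    nlinarith
  have := hin (hat x) (nrm_hat_one hxpos) hhx
  have h12 := hasRel_smul M hxpos this
  have h6 : nrm x • hat x = x := by
    unfold hat
    rw [smul_smul, mul_inv_cancel₀ hxpos.ne', one_smul]
  rwa [h6] at h12

end M4b

end Pool.Agent.FPmIf
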