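import Pool.Agent.Lib.MP_f973c6_al.If.G3
import Pool.Agent.Lib.MP_f973c6_al.If.M1
import Pool.Agent.Lib.MP_f973c6_al.If.M4conv

/-! G2b: small facts on `Fat` and `K`. -/

set_option autoImplicit false

namespace Pool.Agent.FPmIf

open M4b

namespace GF

variable {n N : ℕ}

theorem rv_add (x y : Fin n → ℤ) : rv (x + y) = rv x + rv y := by
  funext i; simp [rv]

theorem dt_add_left (x x' y : Fin n → ℝ) : dt (x + x') y = dt x y + dt x' y := by
  simp only [dt, Pi.add_apply, add_mul, Finset.sum_add_distrib]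

theorem kap_shift (u : Fin N → Fin n → ℤ) (c : Fin N → ℝ) (ρ : ℝ) (v : Fin n → ℝ)
    (q : Fin n → ℤ) : kap u c ρ (v + rv q) = kap u c ρ v - uv u q := by
  funext j
  simp only [kap, Pi.sub_apply]
  rw [dt_add_left, G3.dt_rv, ← sub_sub, Int.floor_sub_intCast]

theorem dt_le (x y : Fin n → ℝ) : |dt x y| ≤ nrm x * nrm y := by
  have h1 : dt x y ^ 2 ≤ dt x x * dt y y := by
    have := Finset.sum_mul_sq_le_sq_mul_sq Finset.univ x y
    simp only [dt]
    simpa [sq] using this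
  rw [← G3.nrm_sq, ← G3.nrm_sq] at h1
  have h2 : |dt x y| ^ 2 ≤ (nrm x * nrm y) ^ 2 := by
    rw [sq_abs, mul_pow]; exact h1
  exact le_of_sq_le_sq h2 (mul_nonneg (nrm_nonneg _) (nrm_nonneg _))

/-- a direction with `⟨w,u_j⟩ ≤ -|w|/2` -/
theorem exists_neg {ε : ℝ} (hε : 0 < ε) (hε1 : ε < 1 / 100) (hn : 1 ≤ n)
    {u : Fin N → Fin n → ℤ} {c : Fin N → ℝ} (h : Dirs n N ε u c) (w : Fin n → ℤ)
    (hw : 0 < nrm (rv w)) : ∃ j, (uv u w j : ℝ) ≤ -(nrm (rv w) / 2) := by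
  obtain ⟨j, hj⟩ := h.dense (-(hat (rv w))) (by rw [nrm_neg, nrm_hat_one hw])
  refine ⟨j, ?_⟩
  have hu := G3.one_le_nrm hn h j
  have hu0 : 0 < nrm (rv (u j)) := by linarith
  have h1 := sq_nrm_sub (hat (rv (u j))) (-(hat (rv w)))
  rw [nrm_neg, nrm_hat_one hw, nrm_hat_one hu0] at h1
  have h2 : nrm (hat (rv (u j)) - -(hat (rv w))) ^ 2 ≤ ε ^ 2 :=
    pow_le_pow_left₀ (nrm_nonneg _) hj 2
  have h3 : dt (hat (rv (u j))) (-(hat (rv w))) = -dt (hat (rv w)) (hat (rv (u j))) := by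
    simp only [dt, Pi.neg_apply]
    rw [← Finset.sum_neg_distrib]
    exact Finset.sum_congr rfl fun i _ => by ring
  rw [h3] at h1
  have h4 : dt (hat (rv w)) (hat (rv (u j))) ≤ -(1 / 2) := by nlinarith
  have h5 : (uv u w j : ℝ) = nrm (rv w) * (nrm (rv (u j)) *
      dt (hat (rv w)) (hat (rv (u j)))) := by
    rw [← G3.dt_rv]
    have e1 : rv w = nrm (rv w) • hat (rv w) := by
      unfold hat; rw [smul_smul, mul_inv_cancel₀ hw.ne', one_smul]
    have e2 : rv (u j) = nrm (rv (u j)) • hat (rv (u j)) := by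
      unfold hat; rw [smul_smul, mul_inv_cancel₀ hu0.ne', one_smul]
    conv_lhs => rw [e1, e2]
    rw [G3.dt_smul_left, G3.dt_smul_right]
  rw [h5]
  have h6 : nrm (rv (u j)) * dt (hat (rv w)) (hat (rv (u j))) ≤ -(1 / 2) := by nlinarith
  nlinarith

theorem nrm_rv_pos (w : Fin n → ℤ) (hw : w ≠ 0) : 0 < nrm (rv w) := by
  rcases (nrm_nonneg (rv w)).lt_or_eq with h | h
  · exact h
  · exfalso
    apply hw
    have h0 := G3.nrm_eq_zero h.symm
    funext i
    have := congrFun h0 i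
    simpa [rv] using this

theorem abs_le_nrm (x : Fin n → ℝ) (i : Fin n) : |x i| ≤ nrm x := by
  unfold nrm
  apply Real.abs_le_sqrt
  rw [sq]
  exact Finset.single_le_sum (f := fun i => x i * x i) (fun i _ => mul_self_nonneg _)
    (Finset.mem_univ i)

end GF

open GF

/-- G2b: small facts on `Fat` and `K`. -/
theorem G2_fat {n N : ℕ} (hn : 1 ≤ n) {ε : ℝ} (hε : 0 < ε) (hε1 : ε < 1 / 100)
    {u : Fin N → Fin n → ℤ} {c : Fin N → ℝ} (h : Dirs n N ε u c) :
    (∀ ρ0 k q, Fat u c ρ0 k → Fat u c ρ0 (k - uv u q)) ∧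
    (∃ R0 : ℝ, ∀ ρ0 ≥ R0, ∀ k, Fat u c ρ0 k → (KK u k).Nonempty) ∧
    (∀ k, (KK u k).Finite) ∧
    (∀ q, uv u q = 0 → q = 0) ∧
    (∀ ρ0 : ℝ, ∃ ρ2 : ℝ, ∀ ρ ≥ ρ2, ∀ v S, Fat u c ρ0 (kap u c ρ v - eS S)) := by
  have hc1 : ∀ j, 1 ≤ c j := fun j => (G3.one_le_nrm hn h j).trans (h.clow j)
  refine ⟨?_, ?_, ?_, ?_, ?_⟩
  · rintro ρ0 k q ⟨v, hv⟩
    refine ⟨v + rv q, ?_⟩
    rw [kap_shift]
    exact sub_le_sub_right hv _
  · refine ⟨(n : ℝ) + 1, fun ρ0 hρ0 k => ?_⟩
    rintro ⟨v, hv⟩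
    refine ⟨fun i => ⌊v i⌋, fun j => ?_⟩
    have h1 : kap u c ρ0 v j ≤ k j := hv j
    have h2 : ρ0 * c j - dt v (rv (u j)) - 1 < (kap u c ρ0 v j : ℝ) := Int.sub_one_lt_floor _
    have h3 : (uv u (fun i => ⌊v i⌋) j : ℝ) = dt v (rv (u j)) +
        dt (rv (fun i => ⌊v i⌋) - v) (rv (u j)) := by
      rw [← G3.dt_rv, G3.dt_sub_left]; ring
    have h4 := dt_le (rv (fun i => ⌊v i⌋) - v) (rv (u j))
    have h5 : nrm (rv (fun i => ⌊v i⌋) - v) ≤ n := by
      unfold nrm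
      apply Real.sqrt_le_iff.mpr
      refine ⟨by positivity, ?_⟩
      have : dt (rv (fun i => ⌊v i⌋) - v) (rv (fun i => ⌊v i⌋) - v) ≤ n := by
        unfold dt
        have h6 : ∀ i ∈ (Finset.univ : Finset (Fin n)),
            (rv (fun i => ⌊v i⌋) - v) i * (rv (fun i => ⌊v i⌋) - v) i ≤ 1 := by
          intro i _
          simp only [rv, Pi.sub_apply]
          have h7 := Int.floor_le (v i)
          have h8 := Int.lt_floor_add_one (v i)
          nlinarith
        refine (Finset.sum_le_sum h6).trans ?_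
        simp
      have hn1 : (1 : ℝ) ≤ n := by exact_mod_cast hn
      nlinarith
    have h9 : nrm (rv (u j)) ≤ c j := h.clow j
    have h10 := neg_abs_le (dt (rv (fun i => ⌊v i⌋) - v) (rv (u j)))
    have h11 : |dt (rv (fun i => ⌊v i⌋) - v) (rv (u j))| ≤ n * c j :=
      h4.trans (mul_le_mul h5 h9 (nrm_nonneg _) (by positivity))
    have h12 : ((n : ℝ) + 1) * c j ≤ ρ0 * c j :=
      mul_le_mul_of_nonneg_right hρ0 (by linarith [hc1 j])
    have h13 : -(k j : ℝ) ≤ (uv u (fun i => ⌊v i⌋) j : ℝ) := by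
      rw [h3]
      have h14 : (kap u c ρ0 v j : ℝ) ≤ k j := by exact_mod_cast h1
      have := hc1 j
      nlinarith
    exact_mod_cast h13
  · intro k
    set Bd : ℤ := ∑ j, |k j| with hBd
    have hle : ∀ j, k j ≤ Bd := fun j => (le_abs_self _).trans
      (Finset.single_le_sum (f := fun j => |k j|) (fun i _ => abs_nonneg _) (Finset.mem_univ j))
    have hB0 : 0 ≤ Bd := Finset.sum_nonneg fun j _ => abs_nonneg _
    refine (Set.finite_Icc (fun _ : Fin n => -(2 * Bd)) (fun _ => 2 * Bd)).subset ?_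
    intro w hw
    have hb : nrm (rv w) ≤ 2 * Bd := by
      rcases eq_or_ne w 0 with h0 | h0
      · subst h0
        have : rv (0 : Fin n → ℤ) = 0 := by funext i; simp [rv]
        rw [this, nrm_zero]
        have : (0:ℝ) ≤ Bd := by exact_mod_cast hB0
        linarith
      · obtain ⟨j, hj⟩ := exists_neg hε hε1 hn h w (nrm_rv_pos w h0)
        have h1 : -(k j) ≤ uv u w j := hw j
        have h2 : -(k j : ℝ) ≤ uv u w j := by exact_mod_cast h1
        have h3 : (k j : ℝ) ≤ Bd := by exact_mod_cast hle j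
        linarith
    have hi : ∀ i, |w i| ≤ 2 * Bd := by
      intro i
      have := (abs_le_nrm (rv w) i).trans hb
      simp only [rv] at this
      exact_mod_cast this
    exact ⟨fun i => (abs_le.mp (hi i)).1, fun i => (abs_le.mp (hi i)).2⟩
  · intro q hq
    by_contra hne
    obtain ⟨j, hj⟩ := exists_neg hε hε1 hn h q (nrm_rv_pos q hne)
    have := nrm_rv_pos q hne
    rw [hq] at hj
    simp at hj
    linarith
  · intro ρ0
    refine ⟨ρ0 + 1, fun ρ hρ v S => ⟨v, fun j => ?_⟩⟩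
    have h1 : kap u c ρ0 v j + 1 ≤ kap u c ρ v j := by
      unfold kap
      rw [← Int.floor_add_one]
      apply Int.floor_le_floor
      have := hc1 j
      nlinarith
    have h2 : eS S j ≤ 1 := by unfold eS; split_ifs <;> simp
    simp only [Pi.sub_apply]
    linarith

end Pool.Agent.FPmIf
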