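import Pool.Agent.Lib.MP_f973c6_al.If.M1

/-! Section 4 (C) of `fpm_if_lead.md`: a finite generating set for which all the sets `E_k` are
connected modulo the abelian kernel. -/

set_option autoImplicit false

namespace Pool.Agent.FPmIf

namespace H1

variable {n N : ℕ}

open Classical in
/-- Sum of the coefficients over a set. -/
noncomputable def phi (cls : Set (Fin n → ℤ)) : R n →+ ℤ :=
  (Finsupp.liftAddHom fun w : Fin n → ℤ =>
    if w ∈ cls then AddMonoidHom.id ℤ else 0).comp
    (AddMonoidAlgebra.coeffAddEquiv (R := ℤ) (M := Fin n → ℤ)).toAddMonoidHom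

open Classical in
theorem phi_single (cls : Set (Fin n → ℤ)) (w : Fin n → ℤ) (c : ℤ) :
    phi cls (AddMonoidAlgebra.single w c) = if w ∈ cls then c else 0 := by
  unfold phi
  by_cases h : w ∈ cls
  · simp [h]
  · simp [h]

theorem phi_univ_mul (r f : R n) : phi Set.univ (r * f) = phi Set.univ r * phi Set.univ f := by
  induction r using AddMonoidAlgebra.induction_linear with
  | zero => simp
  | add x y hx hy => rw [add_mul, map_add, map_add, hx, hy, add_mul]
  | single m c =>
    induction f using AddMonoidAlgebra.induction_linear with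
    | zero => simp
    | add x y hx hy => rw [mul_add, map_add, map_add, hx, hy, mul_add]
    | single m' c' =>
      rw [AddMonoidAlgebra.single_mul_single, phi_single, phi_single, phi_single]
      simp

/-- The augmentation ideal, as a submodule of `R^1`. -/
noncomputable def Laug (n : ℕ) : Submodule (R n) (Fin 1 → R n) where
  carrier := {f | phi Set.univ (f 0) = 0}
  zero_mem' := by simp
  add_mem' := by
    intro a b ha hb
    simp only [Set.mem_ofPred_eq, Pi.add_apply, map_add] at ha hb ⊢
    rw [ha, hb, add_zero]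
  smul_mem' := by
    intro r f hf
    simp only [Set.mem_ofPred_eq, Pi.smul_apply, smul_eq_mul] at hf ⊢
    rw [phi_univ_mul, hf, mul_zero]

theorem mem_Laug (f : Fin 1 → R n) : f ∈ Laug n ↔ phi Set.univ (f 0) = 0 := Iff.rfl

/-- If `cls` is saturated on the translate of the support, the partial sum of the
coefficients vanishes. -/
theorem phi_translate (cls : Set (Fin n → ℤ)) (w : Fin n → ℤ) (z : R n)
    (hz : phi Set.univ z = 0)
    (hs : ∀ a ∈ z.coeff.support, ∀ b ∈ z.coeff.support, w + a ∈ cls → w + b ∈ cls) :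
    phi cls (mon w * z) = 0 := by
  classical
  have h1 : phi cls (mon w * z) =
      ∑ a ∈ z.coeff.support, if w + a ∈ cls then z.coeff a else 0 := by
    conv_lhs => rw [M1.expand z]
    rw [Finset.mul_sum, map_sum]
    refine Finset.sum_congr rfl fun a _ => ?_
    rw [AddMonoidAlgebra.single_mul_single, phi_single, one_mul]
  have h2 : phi Set.univ z = ∑ a ∈ z.coeff.support, z.coeff a := by
    conv_lhs => rw [M1.expand z]
    rw [map_sum]
    refine Finset.sum_congr rfl fun a _ => ?_
    rw [phi_single]
    simp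
  rw [h1]
  by_cases h : ∃ a ∈ z.coeff.support, w + a ∈ cls
  · obtain ⟨a, ha, hac⟩ := h
    rw [← hz, h2]
    refine Finset.sum_congr rfl fun b hb => ?_
    rw [if_pos (hs a ha b hb hac)]
  · push Not at h
    refine Finset.sum_eq_zero fun a ha => ?_
    rw [if_neg (h a ha)]

end H1

open H1 in
/-- H1: a finite generating set for which all `K(k)` are connected. -/
theorem H1_conn {n N : ℕ} {G : Type} [Group G] {M : Type} [AddCommGroup M] [Module (R n) M]
    (hG : Group.FG G) (X : Ext n G M) (u : Fin N → Fin n → ℤ) :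
    ∃ S : Finset G, Subgroup.closure (S : Set G) = ⊤ ∧
      ∀ k, ∀ x ∈ EE X.pr u k, ∀ y ∈ EE X.pr u k,
        ∃ a : M, Con S (EE X.pr u k) (X.j a * x) y := by
  classical
  obtain ⟨q, z, d, hz, hgen⟩ := lemma3 u (fun _ : Fin 1 => (0 : Fin N → ℤ)) (Laug n)
  obtain ⟨S0, hS0⟩ := hG.out
  choose σ hσ using X.pr_surj
  let B : Finset (Fin n → ℤ) := Finset.univ.biUnion fun l : Fin q =>
    ((z l 0).coeff.support ×ˢ (z l 0).coeff.support).image fun p => p.2 - p.1
  have hB : ∀ l, ∀ a ∈ (z l 0).coeff.support, ∀ b ∈ (z l 0).coeff.support, b - a ∈ B := by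
    intro l a ha b hb
    rw [Finset.mem_biUnion]
    refine ⟨l, Finset.mem_univ _, ?_⟩
    rw [Finset.mem_image]
    exact ⟨(a, b), Finset.mk_mem_product ha hb, rfl⟩
  refine ⟨S0 ∪ B.image σ, ?_, ?_⟩
  · rw [eq_top_iff, ← hS0]
    apply Subgroup.closure_mono
    intro s hs
    simp only [Finset.coe_union]
    exact Or.inl hs
  intro k x hx y hy
  set S : Finset G := S0 ∪ B.image σ with hS
  let cls : Set (Fin n → ℤ) := {w | w ∈ KK u k ∧
    ∀ y, X.pr y = w → ∃ a : M, Con S (EE X.pr u k) (X.j a * x) y}
  have hj : ∀ g h : G, X.pr g = X.pr h → ∃ a : M, X.j a * g = h := by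
    intro g h hgh
    have h1 : X.pr (h * g⁻¹) = 0 := by
      have h2 : X.pr (h * g⁻¹) + X.pr g = X.pr h := by
        rw [← X.pr_mul]; simp
      rw [← hgh] at h2
      simpa using h2
    obtain ⟨a, ha⟩ := X.j_surj _ h1
    exact ⟨a, by rw [ha]; simp⟩
  have hA : X.pr x ∈ cls := by
    refine ⟨hx, ?_⟩
    intro y hyx
    obtain ⟨a, ha⟩ := hj x y hyx.symm
    refine ⟨a, ?_⟩
    have hyE : y ∈ EE X.pr u k := by
      change X.pr y ∈ KK u k
      rw [hyx]; exact hx
    rw [ha]
    exact ⟨hyE, hyE, Relation.EqvGen.refl _⟩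
  have hstep : ∀ w ∈ cls, ∀ w' ∈ KK u k, w' - w ∈ B → w' ∈ cls := by
    intro w hw w' hw' hB'
    refine ⟨hw', ?_⟩
    intro y' hy'
    have hpr : X.pr (y' * (σ (w' - w))⁻¹) = w := by
      have h2 : X.pr (y' * (σ (w' - w))⁻¹) + X.pr (σ (w' - w)) = X.pr y' := by
        rw [← X.pr_mul]; simp
      rw [hσ, hy'] at h2
      have h3 := eq_sub_of_add_eq h2
      rw [h3]; abel
    obtain ⟨a, ha⟩ := hw.2 _ hpr
    refine ⟨a, ha.1, ?_, ?_⟩
    · change X.pr y' ∈ KK u k
      rw [hy']; exact hw'
    · refine Relation.EqvGen.trans _ _ _ ha.2.2 (Relation.EqvGen.rel _ _ ?_)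
      refine ⟨ha.2.1, ?_, σ (w' - w), ?_, ?_⟩
      · change X.pr y' ∈ KK u k
        rw [hy']; exact hw'
      · rw [hS]
        exact Finset.mem_union_right _ (Finset.mem_image_of_mem _ hB')
      · simp
  have hzero : ∀ f ∈ AA u z d k, phi cls (f 0) = 0 := by
    intro f hf
    unfold AA at hf
    induction hf using AddSubgroup.closure_induction with
    | mem f hf =>
      obtain ⟨l, w, hw, rfl⟩ := hf
      change phi cls (mon w * z l 0) = 0
      refine phi_translate cls w (z l 0) ?_ ?_
      · exact (mem_Laug _).1 (hz l).1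
      · intro a ha b hb hac
        refine hstep (w + a) hac (w + b) ?_ ?_
        · intro j
          have h1 := (hz l).2 0 b hb j
          have h2 := hw j
          rw [M1.uv_add]
          simp only [Pi.sub_apply, Pi.add_apply, Pi.zero_apply] at h1 h2 ⊢
          linarith
        · have : w + b - (w + a) = b - a := by abel
          rw [this]
          exact hB l a ha b hb
    | zero => simp
    | add f g _ _ hf hg => rw [Pi.add_apply, map_add, hf, hg, add_zero]
    | neg f _ hf => rw [Pi.neg_apply, map_neg, hf, neg_zero]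
  have hf : (fun _ : Fin 1 => mon (X.pr x) - mon (X.pr y)) ∈ AA u z d k := by
    apply hgen
    · rw [mem_Laug]
      simp only [map_sub, phi_single]
      simp
    · intro s w hw j
      have h1 : w = X.pr x ∨ w = X.pr y := by
        by_contra hcon
        push Not at hcon
        rw [Finsupp.mem_support_iff] at hw
        apply hw
        simp [Finsupp.single_apply, hcon.1.symm, hcon.2.symm]
      rcases h1 with rfl | rfl
      · simpa using hx j
      · simpa using hy j
  have h3 := hzero _ hf
  simp only [map_sub, phi_single, if_pos hA] at h3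
  have h4 : X.pr y ∈ cls := by
    by_contra hcon
    rw [if_neg hcon] at h3
    norm_num at h3
  exact h4.2 y rfl

end Pool.Agent.FPmIf
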