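import Mathlib
import Pool.Agent.Lib.MP_f973c6_al.Defs

/-! Definitions for the proof that `m`-tame finitely generated metabelian groups are of type
`FP_m`.  See the text `fpm_if_lead.md` (sections are quoted). -/

set_option autoImplicit false

namespace Pool.Agent.FPmIf

/-- The group ring of `ℤ^n`. -/
abbrev R (n : ℕ) := AddMonoidAlgebra ℤ (Fin n → ℤ)

/-- The group element `w` in the group ring. -/
noncomputable abbrev mon {n : ℕ} (w : Fin n → ℤ) : R n := AddMonoidAlgebra.single w 1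

section vec
variable {n N : ℕ}

/-- `uv u w j = ⟨w, u_j⟩`. -/
def uv (u : Fin N → Fin n → ℤ) (w : Fin n → ℤ) : Fin N → ℤ := fun j => ∑ i, w i * u j i

/-- The polytope `K(k)`. -/
def KK (u : Fin N → Fin n → ℤ) (k : Fin N → ℤ) : Set (Fin n → ℤ) := {w | ∀ j, -(k j) ≤ uv u w j}

/-- The vector `e_S`. -/
def eS (S : Finset (Fin N)) : Fin N → ℤ := fun j => if j ∈ S then 1 else 0

/-- Real vector of an integer vector. -/
def rv (w : Fin n → ℤ) : Fin n → ℝ := fun i => (w i : ℝ)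

/-- Dot product. -/
def dt (x y : Fin n → ℝ) : ℝ := ∑ i, x i * y i

/-- Euclidean norm. -/
noncomputable def nrm (x : Fin n → ℝ) : ℝ := Real.sqrt (dt x x)

/-- Direction of a vector. -/
noncomputable def hat (x : Fin n → ℝ) : Fin n → ℝ := (nrm x)⁻¹ • x

/-- Hypotheses (H1)-(H4) on the directions `u_j` and the weights `c_j`. -/
structure Dirs (n N : ℕ) (ε : ℝ) (u : Fin N → Fin n → ℤ) (c : Fin N → ℝ) : Prop where
  indep : ∀ I : Finset (Fin N), I.card ≤ n → ∀ g : Fin N → ℝ,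
    ∑ j ∈ I, g j • rv (u j) = 0 → ∀ j ∈ I, g j = 0
  cpos : ∀ j, 0 < c j
  cind : LinearIndependent ℚ c
  clow : ∀ j, nrm (rv (u j)) ≤ c j
  cup : ∀ j, c j ≤ (1 + ε) * nrm (rv (u j))
  dense : ∀ y : Fin n → ℝ, nrm y = 1 → ∃ j, nrm (hat (rv (u j)) - y) ≤ ε

/-- A base: `n+1` indices with a positive relation. -/
def IsBase (u : Fin N → Fin n → ℤ) (C : Finset (Fin N)) : Prop :=
  C.card = n + 1 ∧ ∃ l : Fin N → ℝ, (∀ j ∈ C, 0 < l j) ∧ ∑ j ∈ C, l j • rv (u j) = 0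

/-- `kap u c ρ v j = ⌊ρ c_j - ⟨v,u_j⟩⌋`. -/
noncomputable def kap (u : Fin N → Fin n → ℤ) (c : Fin N → ℝ) (ρ : ℝ) (v : Fin n → ℝ) :
    Fin N → ℤ := fun j => ⌊ρ * c j - dt v (rv (u j))⌋

/-- The set `Fat`. -/
def Fat (u : Fin N → Fin n → ℤ) (c : Fin N → ℝ) (ρ0 : ℝ) (k : Fin N → ℤ) : Prop :=
  ∃ v : Fin n → ℝ, kap u c ρ0 v ≤ k

end vec

section modules
variable {n N : ℕ}

/-- There is a relation for the character `χ`: an element of the group ring acting as the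
identity on `M` with support in the open half space. -/
def HasRel (M : Type) [AddCommGroup M] [Module (R n) M] (χ : Fin n → ℝ) : Prop :=
  ∃ h : R n, (∀ x : M, h • x = x) ∧ ∀ s ∈ h.coeff.support, 0 < dt (rv s) χ

/-- Module form of `m`-tameness. -/
def MTame (n : ℕ) (M : Type) [AddCommGroup M] [Module (R n) M] (m : ℕ) : Prop :=
  ∀ k : ℕ, k ≤ m → ∀ χ : Fin k → (Fin n → ℝ), (∀ i, χ i ≠ 0 ∧ ¬ HasRel M (χ i)) →
    ¬ ∃ c : Fin k → ℝ, (∀ i, 0 ≤ c i) ∧ (∃ i, c i ≠ 0) ∧ ∑ i, c i • χ i = 0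

/-- `F(k)`: the vectors over the group ring whose `s`-th coordinate is supported in
`K(k - g_s)`. -/
def InF {p : ℕ} (u : Fin N → Fin n → ℤ) (g : Fin p → Fin N → ℤ) (k : Fin N → ℤ)
    (f : Fin p → R n) : Prop :=
  ∀ s, ∀ w ∈ (f s).coeff.support, w ∈ KK u (k - g s)

/-- The additive subgroup generated by the `w a_l`, `w ∈ K(k - d_l)`. -/
def AA {M : Type} [AddCommGroup M] [Module (R n) M] {p : ℕ} (u : Fin N → Fin n → ℤ)
    (a : Fin p → M) (d : Fin p → Fin N → ℤ) (k : Fin N → ℤ) : AddSubgroup M :=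
  AddSubgroup.closure {x | ∃ l, ∃ w ∈ KK u (k - d l), x = (mon w) • a l}

/-- The dichotomy at one critical level (section 6): either some index of `C` is inert, or `C`
splits into at least `m+1` clusters (the values of `cl`), with (I1) and (I2). -/
def Dich {M : Type} [AddCommGroup M] (m : ℕ) (𝒜 : (Fin N → ℤ) → AddSubgroup M)
    (κ : Fin N → ℤ) (C : Finset (Fin N)) : Prop :=
  (∃ j ∈ C, ∀ S ⊆ C.erase j, 𝒜 (κ - eS S) ≤ 𝒜 (κ - eS (insert j S))) ∨
  (∃ cl : Fin N → ℕ, m + 1 ≤ (C.image cl).card ∧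
    ∀ S1 ⊆ C, ∀ S2 ⊆ C, (∀ i ∈ S1, ∀ j ∈ S2, cl i ≠ cl j) →
      𝒜 κ ≤ 𝒜 (κ - eS S1) ⊔ 𝒜 (κ - eS S2) ∧
      𝒜 (κ - eS S1) ⊓ 𝒜 (κ - eS S2) ≤ 𝒜 (κ - eS (S1 ∪ S2)))

end modules

section groups
variable {n N : ℕ}

/-- The extension `M → G → ℤ^n`, with `M` abelian, written with plain functions. -/
structure Ext (n : ℕ) (G : Type) [Group G] (M : Type) [AddCommGroup M] [Module (R n) M] where
  pr : G → (Fin n → ℤ)
  pr_mul : ∀ g h, pr (g * h) = pr g + pr h
  pr_surj : Function.Surjective pr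
  j : M → G
  j_add : ∀ a b, j (a + b) = j a * j b
  j_inj : Function.Injective j
  pr_j : ∀ a, pr (j a) = 0
  j_surj : ∀ g, pr g = 0 → ∃ a, j a = g
  j_smul : ∀ g a, j ((mon (pr g)) • a) = g * j a * g⁻¹

variable {G : Type} [Group G]

/-- The set `E_k` of group elements over `K(k)`. -/
def EE (pr : G → (Fin n → ℤ)) (u : Fin N → Fin n → ℤ) (k : Fin N → ℤ) : Set G :=
  {x | pr x ∈ KK u k}

/-- One step of the Cayley graph inside the set `E`. -/
def Step (S : Finset G) (E : Set G) (x y : G) : Prop := x ∈ E ∧ y ∈ E ∧ ∃ s ∈ S, y = x * s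

/-- `x` and `y` are in `E` and are connected inside `E`. -/
def Con (S : Finset G) (E : Set G) (x y : G) : Prop :=
  x ∈ E ∧ y ∈ E ∧ Relation.EqvGen (Step S E) x y

end groups

section complex
variable {N : ℕ} {V : Type}

/-- A monotone family of sets `E k` with equivalence relations `C k` (connectedness in `E k`). -/
structure Sys (N : ℕ) (V : Type) where
  E : (Fin N → ℤ) → Set V
  C : (Fin N → ℤ) → V → V → Prop
  E_mono : ∀ k k', k ≤ k' → E k ⊆ E k'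
  C_refl : ∀ k x, x ∈ E k → C k x x
  C_symm : ∀ k x y, C k x y → C k y x
  C_trans : ∀ k x y z, C k x y → C k y z → C k x z
  C_mem : ∀ k x y, C k x y → x ∈ E k
  C_mono : ∀ k k', k ≤ k' → ∀ x y, C k x y → C k' x y

namespace Sys
variable (Y : Sys N V)

/-- The set of components of `E k`. -/
def comps (k : Fin N → ℤ) : Set (Set V) := {s | ∃ x ∈ Y.E k, s = {y | Y.C k x y}}

/-- The component of `E k` containing the set `s` (a component of a smaller `E`). -/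
def up (k : Fin N → ℤ) (s : Set V) : Set V := {y | ∃ x ∈ s, Y.C k x y}

end Sys

/-- Cells `(b, S, x)`: bottom vertex, set of directions, component of `E b`. -/
abbrev Cell (N : ℕ) (V : Type) := (Fin N → ℤ) × Finset (Fin N) × Set V

/-- The sign of `j` in `S`. -/
def sgn (j : Fin N) (S : Finset (Fin N)) : ℤ := (-1) ^ (S.filter (· < j)).card

/-- Boundary of a cell. -/
noncomputable def bdCell (Y : Sys N V) (z : Cell N V) : Cell N V →₀ ℤ :=
  ∑ j ∈ z.2.1, sgn j z.2.1 •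
    (Finsupp.single (z.1 + eS {j}, z.2.1.erase j, Y.up (z.1 + eS {j}) z.2.2) (1 : ℤ)
      - Finsupp.single (z.1, z.2.1.erase j, z.2.2) (1 : ℤ))

/-- The boundary operator. -/
noncomputable def bd (Y : Sys N V) : (Cell N V →₀ ℤ) →+ (Cell N V →₀ ℤ) :=
  Finsupp.liftAddHom fun z => (smulAddHom ℤ (Cell N V →₀ ℤ)).flip (bdCell Y z)

/-- Valid cells of degree `i` at level `ρ`. -/
def Valid (Y : Sys N V) (F : (Fin N → ℤ) → Prop) (r : (Fin N → ℤ) → ℝ) (i : ℕ) (ρ : ℝ) :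
    Set (Cell N V) :=
  {z | z.2.1.card = i ∧ F z.1 ∧ r (z.1 + eS z.2.1) ≤ ρ ∧ z.2.2 ∈ Y.comps z.1}

/-- The alternative at one critical level, in terms of components (section 6d). -/
def TAlt (Y : Sys N V) (m : ℕ) (κ : Fin N → ℤ) (C : Finset (Fin N)) : Prop :=
  (∃ j ∈ C, ∀ S ⊆ C.erase j, ∀ x ∈ Y.comps (κ - eS S),
      x ∩ Y.E (κ - eS (insert j S)) ∈ Y.comps (κ - eS (insert j S))) ∨
  (∃ cl : Fin N → ℕ, m + 1 ≤ (C.image cl).card ∧
    (∀ j ∈ C, ∀ x ∈ Y.comps κ, ∃ x2 ∈ Y.comps (κ - eS {j}), Y.up κ x2 = x) ∧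
    ∀ S1 ⊆ C, ∀ S2 ⊆ C, (∀ i ∈ S1, ∀ j ∈ S2, cl i ≠ cl j) →
      ∀ x1 ∈ Y.comps (κ - eS S1), ∀ x2 ∈ Y.comps (κ - eS S2),
        Y.up κ x1 = Y.up κ x2 → x1 ∩ x2 ∈ Y.comps (κ - eS (S1 ∪ S2)))

end complex

section fp

/-- Finite type in the sense `FP_q` for modules: iterated finitely generated free covers. -/
def FPn (A : Type) [Ring A] : ℕ → (M : Type) → [AddCommGroup M] → [Module A M] → Prop
  | 0, M, _, _ => Module.Finite A M
  | q + 1, M, _, _ => ∃ (k : ℕ) (f : (Fin k → A) →ₗ[A] M), Function.Surjective f ∧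
      FPn A q (LinearMap.ker f)

end fp

end Pool.Agent.FPmIf
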