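import Mathlib
import Pool.Agent.Lib.MP_f973c6_al.If.Defs
import Pool.Agent.Lib.MP_f973c6_al.If.M1

/-! Part H2: the monodromy groups are given by finitely many data. -/

set_option autoImplicit false

namespace Pool.Agent.FPmIf

namespace H2

section lin
variable {n N : ℕ} {M : Type} [AddCommGroup M] {p : ℕ}

/-- Additive extension of a function on `ℤ^n` to the group ring. -/
noncomputable def linR (ψ : (Fin n → ℤ) → M) : R n →+ M :=
  (Finsupp.liftAddHom (fun w => (smulAddHom ℤ M).flip (ψ w))).comp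
    (AddMonoidAlgebra.coeffAddEquiv.toAddMonoidHom)

theorem linR_single (ψ : (Fin n → ℤ) → M) (w : Fin n → ℤ) (m : ℤ) :
    linR ψ (AddMonoidAlgebra.single w m) = m • ψ w := by
  simp [linR, AddMonoidAlgebra.coeffAddEquiv]

theorem linR_apply (ψ : (Fin n → ℤ) → M) (x : R n) :
    linR ψ x = x.coeff.sum (fun w m => m • ψ w) := by
  simp only [linR, AddMonoidHom.comp_apply]
  rfl

/-- Additive extension of a function on edges to vectors over the group ring. -/
noncomputable def linF (φ : Fin p → (Fin n → ℤ) → M) : (Fin p → R n) →+ M :=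
  ∑ i, (linR (φ i)).comp (Pi.evalAddMonoidHom _ i)

theorem linF_apply (φ : Fin p → (Fin n → ℤ) → M) (f : Fin p → R n) :
    linF φ f = ∑ i, linR (φ i) (f i) := by
  simp [linF]

theorem linF_single (φ : Fin p → (Fin n → ℤ) → M) (i : Fin p) (x : R n) :
    linF φ (Pi.single i x) = linR (φ i) x := by
  classical
  rw [linF_apply, Finset.sum_eq_single i]
  · simp
  · intro j _ hj
    rw [Pi.single_eq_of_ne hj, map_zero]
  · intro h; exact absurd (Finset.mem_univ _) h

theorem linF_mem (H : AddSubgroup M) (φ : Fin p → (Fin n → ℤ) → M) (f : Fin p → R n)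
    (h : ∀ i, ∀ w ∈ (f i).coeff.support, φ i w ∈ H) : linF φ f ∈ H := by
  rw [linF_apply]
  refine H.sum_mem fun i _ => ?_
  rw [linR_apply, Finsupp.sum]
  exact H.sum_mem fun w hw => H.zsmul_mem (h i w hw) _

theorem hom_ext {P : Type} [AddCommGroup P] (a b : (Fin p → R n) →+ P)
    (h : ∀ i w m, a (Pi.single i (AddMonoidAlgebra.single w m)) =
      b (Pi.single i (AddMonoidAlgebra.single w m))) (f : Fin p → R n) : a f = b f := by
  classical
  have : a = b := by
    apply AddMonoidHom.functions_ext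
    intro i x
    have : (a.comp (AddMonoidHom.single (fun _ : Fin p => R n) i)) =
        (b.comp (AddMonoidHom.single (fun _ : Fin p => R n) i)) := by
      exact AddMonoidAlgebra.addMonoidHom_ext (fun w m => h i w m)
    exact DFunLike.congr_fun this x
  rw [this]

end lin

section groups
variable {n N : ℕ} {G : Type} [Group G] {M : Type} [AddCommGroup M] [Module (R n) M]
variable (X : Ext n G M)

theorem pr_one : X.pr 1 = 0 := by
  have := X.pr_mul 1 1
  rw [one_mul] at this
  simpa using this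

theorem pr_inv (g : G) : X.pr g⁻¹ = - X.pr g := by
  have := X.pr_mul g g⁻¹
  rw [mul_inv_cancel, pr_one] at this
  exact eq_neg_of_add_eq_zero_right this.symm

theorem j_zero : X.j 0 = 1 := by
  have := X.j_add 0 0
  rw [add_zero] at this
  simpa using this

theorem j_neg (a : M) : X.j (-a) = (X.j a)⁻¹ := by
  have := X.j_add (-a) a
  rw [neg_add_cancel, j_zero] at this
  exact eq_inv_of_mul_eq_one_left this.symm

/-- A section. -/
noncomputable def sig (w : Fin n → ℤ) : G := (X.pr_surj w).choose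

theorem pr_sig (w : Fin n → ℤ) : X.pr (sig X w) = w := (X.pr_surj w).choose_spec

theorem exists_hol (w : Fin n → ℤ) (s : G) :
    ∃ a : M, X.j a = sig X w * s * (sig X (w + X.pr s))⁻¹ := by
  apply X.j_surj
  rw [X.pr_mul, X.pr_mul, pr_inv, pr_sig, pr_sig]
  abel

/-- Holonomy of an edge. -/
noncomputable def hol (w : Fin n → ℤ) (s : G) : M := (exists_hol X w s).choose

theorem j_hol (w : Fin n → ℤ) (s : G) :
    X.j (hol X w s) = sig X w * s * (sig X (w + X.pr s))⁻¹ := (exists_hol X w s).choose_spec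

theorem exists_cc (q w : Fin n → ℤ) :
    ∃ a : M, X.j a = sig X q * sig X w * (sig X (q + w))⁻¹ := by
  apply X.j_surj
  rw [X.pr_mul, X.pr_mul, pr_inv, pr_sig, pr_sig, pr_sig]
  abel

/-- The cocycle of the section. -/
noncomputable def cc (q w : Fin n → ℤ) : M := (exists_cc X q w).choose

theorem j_cc (q w : Fin n → ℤ) :
    X.j (cc X q w) = sig X q * sig X w * (sig X (q + w))⁻¹ := (exists_cc X q w).choose_spec

theorem exists_av (y : G) : ∃ a : M, X.j a = y * (sig X (X.pr y))⁻¹ := by
  apply X.j_surj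
  rw [X.pr_mul, pr_inv, pr_sig]
  abel

/-- The `M`-coordinate of a group element. -/
noncomputable def av (y : G) : M := (exists_av X y).choose

theorem j_av (y : G) : X.j (av X y) = y * (sig X (X.pr y))⁻¹ := (exists_av X y).choose_spec

theorem av_mul (y s : G) : av X (y * s) = av X y + hol X (X.pr y) s := by
  apply X.j_inj
  rw [X.j_add, j_av, j_av, j_hol, X.pr_mul]
  group

theorem av_j_mul (b : M) (y : G) : av X (X.j b * y) = b + av X y := by
  apply X.j_inj
  rw [X.j_add, j_av, j_av, X.pr_mul, X.pr_j, zero_add]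
  group

theorem hol_shift (q w : Fin n → ℤ) (s : G) :
    hol X (q + w) s = mon q • hol X w s + (cc X q (w + X.pr s) - cc X q w) := by
  apply X.j_inj
  have h1 : X.j (mon q • hol X w s) = sig X q * X.j (hol X w s) * (sig X q)⁻¹ := by
    have := X.j_smul (sig X q) (hol X w s)
    rwa [pr_sig] at this
  have e : mon q • hol X w s + (cc X q (w + X.pr s) - cc X q w) =
      (-(cc X q w) + mon q • hol X w s) + cc X q (w + X.pr s) := by abel
  rw [e, X.j_add, X.j_add, j_neg, h1, j_hol, j_cc, j_cc, j_hol]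
  rw [show q + w + X.pr s = q + (w + X.pr s) from add_assoc _ _ _]
  group

end groups

section main
variable {n N : ℕ} {G : Type} [Group G] {M : Type} [AddCommGroup M] [Module (R n) M]
variable (X : Ext n G M) {p : ℕ} (e : Fin p → G)

/-- The boundary of 1-chains. -/
noncomputable def bdR : (Fin p → R n) →ₗ[R n] R n :=
  Fintype.linearCombination (R n) (fun i => mon (X.pr (e i)) - 1)

theorem bdR_single (i : Fin p) (w : Fin n → ℤ) (m : ℤ) :
    bdR X e (Pi.single i (AddMonoidAlgebra.single w m)) =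
      AddMonoidAlgebra.single (w + X.pr (e i)) m - AddMonoidAlgebra.single w m := by
  rw [bdR, Fintype.linearCombination_apply, Finset.sum_eq_single i]
  · rw [Pi.single_eq_same, smul_eq_mul, mul_sub, mul_one, AddMonoidAlgebra.single_mul_single,
      mul_one]
  · intro j _ hj
    rw [Pi.single_eq_of_ne hj, zero_smul]
  · intro h; exact absurd (Finset.mem_univ _) h

theorem linF_coboundary (α : (Fin n → ℤ) → M) (f : Fin p → R n) :
    linF (fun i w => α (w + X.pr (e i)) - α w) f = linR α (bdR X e f) := by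
  have := hom_ext (linF (fun i w => α (w + X.pr (e i)) - α w))
    ((linR α).comp (bdR X e).toAddMonoidHom) (by
      intro i w m
      rw [linF_single, linR_single]
      show _ = linR α (bdR X e _)
      rw [bdR_single, map_sub, linR_single, linR_single, smul_sub]) f
  exact this

/-- Multiplication by `mon q` on group ring vectors shifts. -/
theorem smul_single (q w : Fin n → ℤ) (i : Fin p) (m : ℤ) :
    mon q • (Pi.single i (AddMonoidAlgebra.single w m) : Fin p → R n) =
      Pi.single i (AddMonoidAlgebra.single (q + w) m) := by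
  rw [← Pi.single_smul, smul_eq_mul, AddMonoidAlgebra.single_mul_single, one_mul]

theorem hol_smul (q : Fin n → ℤ) (f : Fin p → R n) :
    linF (fun i w => hol X w (e i)) (mon q • f) =
      mon q • linF (fun i w => hol X w (e i)) f + linR (cc X q) (bdR X e f) := by
  have := hom_ext
    ((linF (fun i w => hol X w (e i))).comp
      (DistribSMul.toAddMonoidHom (Fin p → R n) (mon q : R n)))
    ((DistribSMul.toAddMonoidHom M (mon q : R n)).comp (linF (fun i w => hol X w (e i))) +
      (linR (cc X q)).comp (bdR X e).toAddMonoidHom) (by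
      intro i w m
      show linF _ (mon q • _) = mon q • linF _ _ + linR (cc X q) (bdR X e _)
      rw [smul_single, linF_single, linR_single, linF_single, linR_single, bdR_single, map_sub,
        linR_single, linR_single, hol_shift, smul_add, smul_sub, smul_comm m (mon q : R n)]) f
  exact this

/-- The shift vector of an edge. -/
def gg (u : Fin N → Fin n → ℤ) (i : Fin p) : Fin N → ℤ :=
  fun j => max 0 (-(uv u (X.pr (e i)) j))

theorem uv_add (u : Fin N → Fin n → ℤ) (w w' : Fin n → ℤ) (j : Fin N) :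
    uv u (w + w') j = uv u w j + uv u w' j := by
  simp only [uv, Pi.add_apply, add_mul, Finset.sum_add_distrib]

theorem mem_KK_gg (u : Fin N → Fin n → ℤ) (k : Fin N → ℤ) (i : Fin p) (w : Fin n → ℤ) :
    w ∈ KK u (k - gg X e u i) ↔ w ∈ KK u k ∧ w + X.pr (e i) ∈ KK u k := by
  constructor
  · intro h
    refine ⟨fun j => ?_, fun j => ?_⟩
    · have := h j
      simp only [Pi.sub_apply, gg] at this
      have h2 := le_max_left 0 (-(uv u (X.pr (e i)) j))
      omega
    · have := h j
      simp only [Pi.sub_apply, gg] at this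
      have h2 := le_max_right 0 (-(uv u (X.pr (e i)) j))
      rw [uv_add]
      omega
  · rintro ⟨h1, h2⟩ j
    have a1 := h1 j
    have a2 := h2 j
    rw [uv_add] at a2
    simp only [Pi.sub_apply, gg]
    rcases max_choice 0 (-(uv u (X.pr (e i)) j)) with h | h <;> rw [h] <;> omega

theorem con_left (S : Finset G) (u : Fin N → Fin n → ℤ) (k : Fin N → ℤ) (b : M) {x y : G}
    (h : Con S (EE X.pr u k) x y) : Con S (EE X.pr u k) (X.j b * x) (X.j b * y) := by
  have hE : ∀ z, z ∈ EE X.pr u k → X.j b * z ∈ EE X.pr u k := by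
    intro z hz
    show X.pr (X.j b * z) ∈ KK u k
    rw [X.pr_mul, X.pr_j, zero_add]
    exact hz
  refine ⟨hE _ h.1, hE _ h.2.1, ?_⟩
  have h3 := h.2.2
  clear h
  induction h3 with
  | rel a b' hab =>
    refine Relation.EqvGen.rel _ _ ⟨hE _ hab.1, hE _ hab.2.1, ?_⟩
    obtain ⟨s, hs, rfl⟩ := hab.2.2
    exact ⟨s, hs, by rw [mul_assoc]⟩
  | refl a => exact Relation.EqvGen.refl _
  | symm a b' _ ih => exact Relation.EqvGen.symm _ _ ih
  | trans a b' c _ _ ih1 ih2 => exact Relation.EqvGen.trans _ _ _ ih1 ih2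

theorem con_symm {S : Finset G} {E : Set G} {x y : G} (h : Con S E x y) : Con S E y x :=
  ⟨h.2.1, h.1, Relation.EqvGen.symm _ _ h.2.2⟩

theorem con_trans {S : Finset G} {E : Set G} {x y z : G} (h : Con S E x y)
    (h' : Con S E y z) : Con S E x z :=
  ⟨h.1, h'.2.1, Relation.EqvGen.trans _ _ _ h.2.2 h'.2.2⟩

/-- Chains supported on edges inside `K(k)` form an additive subgroup. -/
theorem inF_add {u : Fin N → Fin n → ℤ} {g : Fin p → Fin N → ℤ} {k : Fin N → ℤ}
    {f f' : Fin p → R n} (h : InF u g k f) (h' : InF u g k f') : InF u g k (f + f') := by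
  classical
  intro s w hw
  have : w ∈ (f s).coeff.support ∪ (f' s).coeff.support := Finsupp.support_add hw
  rcases Finset.mem_union.1 this with h1 | h1
  · exact h s w h1
  · exact h' s w h1

theorem inF_neg {u : Fin N → Fin n → ℤ} {g : Fin p → Fin N → ℤ} {k : Fin N → ℤ}
    {f : Fin p → R n} (h : InF u g k f) : InF u g k (-f) := by
  intro s w hw
  apply h s w
  rw [Pi.neg_apply] at hw
  rw [Finsupp.mem_support_iff] at hw ⊢
  intro h0
  apply hw
  show (-(f s)).coeff w = 0
  rw [AddMonoidAlgebra.coeff_neg]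
  simp [h0]

theorem inF_single {u : Fin N → Fin n → ℤ} {g : Fin p → Fin N → ℤ} {k : Fin N → ℤ}
    (i : Fin p) (w : Fin n → ℤ) (hw : w ∈ KK u (k - g i)) (m : ℤ) :
    InF u g k (Pi.single i (AddMonoidAlgebra.single w m)) := by
  classical
  intro s w' hw'
  by_cases hs : s = i
  · subst hs
    rw [Pi.single_eq_same, AddMonoidAlgebra.coeff_single] at hw'
    have := Finsupp.support_single_subset hw'
    rw [Finset.mem_singleton] at this
    rw [this]; exact hw
  · rw [Pi.single_eq_of_ne hs] at hw'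
    simp at hw'

theorem inF_smul {u : Fin N → Fin n → ℤ} {g : Fin p → Fin N → ℤ} {k d : Fin N → ℤ}
    {f : Fin p → R n} (h : InF u g d f) (w : Fin n → ℤ) (hw : w ∈ KK u (k - d)) :
    InF u g k (mon w • f) := by
  classical
  intro s w' hw'
  rw [Pi.smul_apply, smul_eq_mul] at hw'
  have h1 := AddMonoidAlgebra.support_coeff_single_mul_subset (f s) (1 : ℤ) w hw'
  rw [Finset.mem_image] at h1
  obtain ⟨w'', hw'', rfl⟩ := h1
  have h2 := h s w'' hw''
  intro j
  have a1 := h2 j
  have a2 := hw j
  simp only [Pi.sub_apply] at a1 a2 ⊢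
  rw [uv_add]
  omega

/-- From a path to a chain. -/
theorem chain_of_con (S : Finset G) (hS : ∀ s ∈ S, ∃ i, e i = s)
    (u : Fin N → Fin n → ℤ) (k : Fin N → ℤ) {x y : G} (h : Con S (EE X.pr u k) x y) :
    ∃ f : Fin p → R n, InF u (gg X e u) k f ∧
      bdR X e f = mon (X.pr y) - mon (X.pr x) ∧
      linF (fun i w => hol X w (e i)) f = av X y - av X x := by
  have h3 := h.2.2
  clear h
  induction h3 with
  | rel a b hab =>
    obtain ⟨ha, hb, s, hs, rfl⟩ := hab
    obtain ⟨i, rfl⟩ := hS s hs
    refine ⟨Pi.single i (AddMonoidAlgebra.single (X.pr a) 1), ?_, ?_, ?_⟩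
    · apply inF_single
      rw [mem_KK_gg]
      refine ⟨ha, ?_⟩
      have : X.pr (a * e i) ∈ KK u k := hb
      rw [X.pr_mul] at this
      exact this
    · rw [bdR_single, X.pr_mul]
    · rw [linF_single, linR_single, one_smul, av_mul]
      abel
  | refl a =>
    refine ⟨0, ?_, ?_, ?_⟩
    · intro s w hw
      simp at hw
    · simp
    · simp
  | symm a b _ ih =>
    obtain ⟨f, h1, h2, h3⟩ := ih
    refine ⟨-f, inF_neg h1, ?_, ?_⟩
    · rw [map_neg, h2]; abel
    · rw [map_neg, h3]; abel
  | trans a b c _ _ ih1 ih2 =>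
    obtain ⟨f, h1, h2, h3⟩ := ih1
    obtain ⟨f', h1', h2', h3'⟩ := ih2
    refine ⟨f + f', inF_add h1 h1', ?_, ?_⟩
    · rw [map_add, h2, h2']; abel
    · rw [map_add, h3, h3']; abel

/-- From a cycle to a path. -/
theorem con_of_cycle (S : Finset G) (hS : ∀ i, e i ∈ S)
    (u : Fin N → Fin n → ℤ)
    (hc : ∀ k, ∀ x ∈ EE X.pr u k, ∀ y ∈ EE X.pr u k,
        ∃ a : M, Con S (EE X.pr u k) (X.j a * x) y)
    (k : Fin N → ℤ) {x : G} (hx : x ∈ EE X.pr u k) (f : Fin p → R n)
    (hf : InF u (gg X e u) k f) (hb : bdR X e f = 0) :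
    Con S (EE X.pr u k) (X.j (linF (fun i w => hol X w (e i)) f) * x) x := by
  classical
  -- the subgroup
  let H : AddSubgroup M :=
    { carrier := {b | Con S (EE X.pr u k) (X.j b * x) x}
      zero_mem' := by
        show Con S (EE X.pr u k) (X.j 0 * x) x
        rw [j_zero, one_mul]
        exact ⟨hx, hx, Relation.EqvGen.refl _⟩
      add_mem' := by
        intro a b ha hb
        show Con S (EE X.pr u k) (X.j (a + b) * x) x
        rw [X.j_add, mul_assoc]
        exact con_trans (con_left X S u k a hb) ha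
      neg_mem' := by
        intro a ha
        show Con S (EE X.pr u k) (X.j (-a) * x) x
        have := con_left X S u k (-a) ha
        rw [← mul_assoc, ← X.j_add, neg_add_cancel, j_zero, one_mul] at this
        exact con_symm this }
  have hH : ∀ b, b ∈ H ↔ Con S (EE X.pr u k) (X.j b * x) x := fun b => Iff.rfl
  have hα : ∀ w : Fin n → ℤ, ∃ a : M, w ∈ KK u k → Con S (EE X.pr u k) x (X.j a * sig X w) := by
    intro w
    by_cases hw : w ∈ KK u k
    · obtain ⟨a, ha⟩ := hc k x hx (sig X w) (by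
        show X.pr (sig X w) ∈ KK u k
        rwa [pr_sig])
      refine ⟨-a, fun _ => ?_⟩
      have := con_left X S u k (-a) ha
      rwa [← mul_assoc, ← X.j_add, neg_add_cancel, j_zero, one_mul] at this
    · exact ⟨0, fun h => absurd h hw⟩
  choose α hα using hα
  have key : ∀ i, ∀ w ∈ (f i).coeff.support,
      hol X w (e i) - (α (w + X.pr (e i)) - α w) ∈ H := by
    intro i w hw
    have h1 := hf i w hw
    rw [mem_KK_gg] at h1
    obtain ⟨hw1, hw2⟩ := h1
    have c1 := hα w hw1
    have c2 := hα _ hw2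
    rw [hH]
    have hstep : Con S (EE X.pr u k) (X.j (α w) * sig X w) (X.j (α w) * sig X w * e i) := by
      have e1 : X.j (α w) * sig X w ∈ EE X.pr u k := c1.2.1
      have e2 : X.j (α w) * sig X w * e i ∈ EE X.pr u k := by
        show X.pr (X.j (α w) * sig X w * e i) ∈ KK u k
        rw [X.pr_mul, X.pr_mul, X.pr_j, zero_add, pr_sig]
        exact hw2
      exact ⟨e1, e2, Relation.EqvGen.rel _ _ ⟨e1, e2, e i, hS i, rfl⟩⟩
    have c3 := con_trans c1 hstep
    have c4 := con_left X S u k (hol X w (e i) - (α (w + X.pr (e i)) - α w)) c2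
    have e3 : X.j (hol X w (e i) - (α (w + X.pr (e i)) - α w)) *
        (X.j (α (w + X.pr (e i))) * sig X (w + X.pr (e i))) = X.j (α w) * sig X w * e i := by
      rw [← mul_assoc, ← X.j_add]
      have : hol X w (e i) - (α (w + X.pr (e i)) - α w) + α (w + X.pr (e i)) =
        α w + hol X w (e i) := by abel
      rw [this, X.j_add, j_hol]
      group
    rw [e3] at c4
    exact con_trans c4 (con_symm c3)
  have h1 := linF_mem H (fun i w => hol X w (e i) - (α (w + X.pr (e i)) - α w)) f key
  have h2 : linF (fun i w => hol X w (e i) - (α (w + X.pr (e i)) - α w)) f =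
      linF (fun i w => hol X w (e i)) f - linF (fun i w => α (w + X.pr (e i)) - α w) f := by
    simp only [linF_apply, linR_apply, ← Finset.sum_sub_distrib]
    refine Finset.sum_congr rfl fun i _ => ?_
    simp only [Finsupp.sum, ← Finset.sum_sub_distrib]
    refine Finset.sum_congr rfl fun w _ => ?_
    rw [smul_sub]
  rw [h2, linF_coboundary, hb, map_zero, sub_zero] at h1
  exact h1

end main

section result
variable {n N : ℕ} {G : Type} [Group G] {M : Type} [AddCommGroup M] [Module (R n) M]

theorem hol_of_noeth (X : Ext n G M) (u : Fin N → Fin n → ℤ) (S : Finset G)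
    (hc : ∀ k, ∀ x ∈ EE X.pr u k, ∀ y ∈ EE X.pr u k,
        ∃ a : M, Con S (EE X.pr u k) (X.j a * x) y)
    (noeth : ∀ (p : ℕ) (g : Fin p → Fin N → ℤ) (L : Submodule (R n) (Fin p → R n)),
      ∃ (q : ℕ) (z : Fin q → Fin p → R n) (d : Fin q → Fin N → ℤ),
      (∀ l, z l ∈ L ∧ InF u g (d l) (z l)) ∧
      ∀ k, ∀ f ∈ L, InF u g k f →
        f ∈ AddSubgroup.closure {x | ∃ l, ∃ w ∈ KK u (k - d l), x = mon w • z l}) :
    ∃ (p : ℕ) (a : Fin p → M) (d : Fin p → Fin N → ℤ), ∀ k, ∀ x ∈ EE X.pr u k, ∀ b : M,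
      (Con S (EE X.pr u k) (X.j b * x) x ↔ b ∈ AA u a d k) := by
  classical
  let e : Fin S.card → G := fun i => (S.equivFin.symm i).1
  have he1 : ∀ s ∈ S, ∃ i, e i = s := by
    intro s hs
    exact ⟨S.equivFin ⟨s, hs⟩, by simp [e]⟩
  have he2 : ∀ i, e i ∈ S := fun i => (S.equivFin.symm i).2
  obtain ⟨q, z, d, h1, h2⟩ := noeth S.card (gg X e u) (LinearMap.ker (bdR X e))
  let hl : (Fin S.card → R n) →+ M := linF (fun i w => hol X w (e i))
  have hsm : ∀ (l : Fin q) (w : Fin n → ℤ), hl ((mon w : R n) • z l) = (mon w : R n) • hl (z l) := by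
    intro l w
    have h3 : bdR X e (z l) = 0 := (h1 l).1
    show linF _ _ = _
    rw [hol_smul, h3, map_zero, add_zero]
  refine ⟨q, fun l => hl (z l), d, ?_⟩
  intro k x hx b
  constructor
  · intro hb
    obtain ⟨f, f1, f2, f3⟩ := chain_of_con X e S he1 u k (con_symm hb)
    rw [X.pr_mul, X.pr_j, zero_add, sub_self] at f2
    rw [av_j_mul, add_sub_cancel_right] at f3
    have f4 := h2 k f f2 f1
    have f5 : hl f ∈ (AddSubgroup.closure {x | ∃ l, ∃ w ∈ KK u (k - d l),
        x = (mon w : R n) • z l}).map hl := ⟨f, f4, rfl⟩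
    rw [AddMonoidHom.map_closure] at f5
    have f6 : hl '' {x | ∃ l, ∃ w ∈ KK u (k - d l), x = (mon w : R n) • z l} ⊆
        {x | ∃ l, ∃ w ∈ KK u (k - d l), x = (mon w) • hl (z l)} := by
      rintro _ ⟨_, ⟨l, w, hw, rfl⟩, rfl⟩
      exact ⟨l, w, hw, hsm l w⟩
    have f7 := AddSubgroup.closure_mono f6 f5
    have f8 : hl f = b := f3
    rw [f8] at f7
    exact f7
  · intro hb
    have key : ∃ f : Fin S.card → R n, bdR X e f = 0 ∧ InF u (gg X e u) k f ∧ hl f = b := by
      refine AddSubgroup.closure_induction (p := fun b _ => ∃ f : Fin S.card → R n,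
        bdR X e f = 0 ∧ InF u (gg X e u) k f ∧ hl f = b) ?_ ?_ ?_ ?_ hb
      · rintro _ ⟨l, w, hw, rfl⟩
        refine ⟨mon w • z l, ?_, inF_smul (h1 l).2 w hw, hsm l w⟩
        rw [map_smul]
        have h3 : bdR X e (z l) = 0 := (h1 l).1
        rw [h3, smul_zero]
      · exact ⟨0, by simp, by intro s w hw; simp at hw, by simp⟩
      · rintro a b' _ _ ⟨f, f1, f2, f3⟩ ⟨f', f1', f2', f3'⟩
        exact ⟨f + f', by rw [map_add, f1, f1', add_zero], inF_add f2 f2', by
          rw [map_add, f3, f3']⟩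
      · rintro a _ ⟨f, f1, f2, f3⟩
        exact ⟨-f, by rw [map_neg, f1, neg_zero], inF_neg f2, by rw [map_neg, f3]⟩
    obtain ⟨f, f1, f2, f3⟩ := key
    have := con_of_cycle X e S he2 u hc k hx f f2 f1
    have f8 : linF (fun i w => hol X w (e i)) f = b := f3
    rw [f8] at this
    exact this

end result

end H2

section groups
variable {n N : ℕ} {G : Type} [Group G] {M : Type} [AddCommGroup M] [Module (R n) M]

/-- H2: the monodromy groups `𝒜(k)` are given by finitely many data. -/
theorem H2_hol (X : Ext n G M) (u : Fin N → Fin n → ℤ) (S : Finset G)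
    (hS : Subgroup.closure (S : Set G) = ⊤)
    (hc : ∀ k, ∀ x ∈ EE X.pr u k, ∀ y ∈ EE X.pr u k,
        ∃ a : M, Con S (EE X.pr u k) (X.j a * x) y) :
    ∃ (p : ℕ) (a : Fin p → M) (d : Fin p → Fin N → ℤ), ∀ k, ∀ x ∈ EE X.pr u k, ∀ b : M,
      (Con S (EE X.pr u k) (X.j b * x) x ↔ b ∈ AA u a d k) :=
  H2.hol_of_noeth X u S hc (fun _ g L => M1_noeth u g L)

end groups

end Pool.Agent.FPmIf
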