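import Pool.Agent.Lib.MP_f973c6_al.If.Defs

/-! Part H3: the alternative in terms of components (section 6d). -/

set_option autoImplicit false

namespace Pool.Agent.FPmIf

section groups
variable {n N : ℕ} {G : Type} [Group G] {M : Type} [AddCommGroup M] [Module (R n) M]

/-- The system of the group. -/
def sys (X : Ext n G M) (u : Fin N → Fin n → ℤ) (S : Finset G) : Sys N G where
  E := EE X.pr u
  C := fun k => Con S (EE X.pr u k)
  E_mono := fun k k' h x hx j => le_trans (neg_le_neg (h j)) (hx j)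
  C_refl := fun k x hx => ⟨hx, hx, Relation.EqvGen.refl x⟩
  C_symm := fun k x y h => ⟨h.2.1, h.1, Relation.EqvGen.symm _ _ h.2.2⟩
  C_trans := fun k x y z h h' => ⟨h.1, h'.2.1, Relation.EqvGen.trans _ _ _ h.2.2 h'.2.2⟩
  C_mem := fun k x y h => h.1
  C_mono := by
    intro k k' h x y hxy
    have hE : EE X.pr u k ⊆ EE X.pr u k' := fun x hx j => le_trans (neg_le_neg (h j)) (hx j)
    refine ⟨hE hxy.1, hE hxy.2.1, ?_⟩
    have h3 := hxy.2.2
    clear hxy
    induction h3 with
    | rel a b hab => exact Relation.EqvGen.rel _ _ ⟨hE hab.1, hE hab.2.1, hab.2.2⟩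
    | refl a => exact Relation.EqvGen.refl _
    | symm a b _ ih => exact Relation.EqvGen.symm _ _ ih
    | trans a b c _ _ ih1 ih2 => exact Relation.EqvGen.trans _ _ _ ih1 ih2

theorem Ext.pr_j_mul (X : Ext n G M) (b : M) (x : G) : X.pr (X.j b * x) = X.pr x := by
  rw [X.pr_mul, X.pr_j, zero_add]

theorem Ext.j_zero (X : Ext n G M) : X.j 0 = 1 := by
  have h := X.j_add 0 0
  rw [add_zero] at h
  exact (mul_eq_left.1 h.symm)

theorem Ext.j_j_mul (X : Ext n G M) (a b : M) (x : G) : X.j a * (X.j b * x) = X.j (a + b) * x := by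
  rw [X.j_add, mul_assoc]

theorem Ext.mem_EE (X : Ext n G M) (u : Fin N → Fin n → ℤ) (k : Fin N → ℤ) (b : M) (x : G) :
    X.j b * x ∈ EE X.pr u k ↔ x ∈ EE X.pr u k := by
  change X.pr (X.j b * x) ∈ KK u k ↔ X.pr x ∈ KK u k
  rw [X.pr_j_mul]

/-- Translation by the kernel preserves connectedness. -/
theorem con_translate (X : Ext n G M) (u : Fin N → Fin n → ℤ) (S : Finset G) (k : Fin N → ℤ)
    (b : M) {x y : G} (h : Con S (EE X.pr u k) x y) :
    Con S (EE X.pr u k) (X.j b * x) (X.j b * y) := by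
  refine ⟨(X.mem_EE u k b x).2 h.1, (X.mem_EE u k b y).2 h.2.1, ?_⟩
  have h3 := h.2.2
  clear h
  induction h3 with
  | rel p q hpq =>
    obtain ⟨hp, hq, s, hs, rfl⟩ := hpq
    exact Relation.EqvGen.rel _ _ ⟨(X.mem_EE u k b _).2 hp, (X.mem_EE u k b _).2 hq, s, hs,
      (mul_assoc _ _ _).symm⟩
  | refl a => exact Relation.EqvGen.refl _
  | symm a b _ ih => exact Relation.EqvGen.symm _ _ ih
  | trans a b c _ _ ih1 ih2 => exact Relation.EqvGen.trans _ _ _ ih1 ih2

theorem con_neg (X : Ext n G M) (u : Fin N → Fin n → ℤ) (S : Finset G) (k : Fin N → ℤ)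
    (b : M) {x y : G} (h : Con S (EE X.pr u k) (X.j b * x) y) :
    Con S (EE X.pr u k) x (X.j (-b) * y) := by
  have h1 := con_translate X u S k (-b) h
  rw [X.j_j_mul, neg_add_cancel, X.j_zero, one_mul] at h1
  exact h1

theorem Con.symm' {S : Finset G} {E : Set G} {x y : G} (h : Con S E x y) : Con S E y x :=
  ⟨h.2.1, h.1, Relation.EqvGen.symm _ _ h.2.2⟩

theorem Con.trans' {S : Finset G} {E : Set G} {x y z : G} (h : Con S E x y) (h' : Con S E y z) :
    Con S E x z := ⟨h.1, h'.2.1, Relation.EqvGen.trans _ _ _ h.2.2 h'.2.2⟩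

theorem con_mono (X : Ext n G M) (u : Fin N → Fin n → ℤ) (S : Finset G) {k k' : Fin N → ℤ}
    (hk : k ≤ k') {x y : G} (h : Con S (EE X.pr u k) x y) : Con S (EE X.pr u k') x y :=
  (sys X u S).C_mono k k' hk x y h

theorem eS_mono {S T : Finset (Fin N)} (h : S ⊆ T) (κ : Fin N → ℤ) : κ - eS T ≤ κ - eS S := by
  intro j
  simp only [Pi.sub_apply, eS]
  by_cases hj : j ∈ S
  · rw [if_pos hj, if_pos (h hj)]
  · rw [if_neg hj]
    split_ifs <;> omega

theorem eS_empty' (κ : Fin N → ℤ) : κ - eS (∅ : Finset (Fin N)) = κ := by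
  funext j
  simp [eS]

/-- Every component of `E k` meets every translate class: a point of the component over `g`. -/
theorem exists_over (X : Ext n G M) (u : Fin N → Fin n → ℤ) (S : Finset G)
    (hc : ∀ k, ∀ x ∈ EE X.pr u k, ∀ y ∈ EE X.pr u k,
        ∃ a : M, Con S (EE X.pr u k) (X.j a * x) y)
    (k : Fin N → ℤ) {x0 g : G} (hx : x0 ∈ EE X.pr u k) (hg : g ∈ EE X.pr u k) :
    ∃ a : M, Con S (EE X.pr u k) x0 (X.j a * g) := by
  obtain ⟨a, ha⟩ := hc k x0 hx g hg
  exact ⟨-a, con_neg X u S k a ha⟩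

/-- H3: the alternative in terms of components (6d). -/
theorem H3_talt (X : Ext n G M) (u : Fin N → Fin n → ℤ) (S : Finset G)
    (hc : ∀ k, ∀ x ∈ EE X.pr u k, ∀ y ∈ EE X.pr u k,
        ∃ a : M, Con S (EE X.pr u k) (X.j a * x) y)
    {p : ℕ} (a : Fin p → M) (d : Fin p → Fin N → ℤ)
    (hA : ∀ k, ∀ x ∈ EE X.pr u k, ∀ b : M,
      (Con S (EE X.pr u k) (X.j b * x) x ↔ b ∈ AA u a d k))
    (m : ℕ) (κ : Fin N → ℤ) (C : Finset (Fin N))
    (hne : ∀ S ⊆ C, (KK u (κ - eS S)).Nonempty)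
    (h : Dich m (AA u a d) κ C) : TAlt (sys X u S) m κ C := by
  have hg : ∀ T ⊆ C, ∃ g : G, g ∈ EE X.pr u (κ - eS T) := by
    intro T hT
    obtain ⟨w, hw⟩ := hne T hT
    obtain ⟨g, rfl⟩ := X.pr_surj w
    exact ⟨g, hw⟩
  have hEm : ∀ {k k' : Fin N → ℤ}, k ≤ k' → ∀ {x : G}, x ∈ EE X.pr u k → x ∈ EE X.pr u k' :=
    fun {_ _} hk {_} hx => (sys X u S).E_mono _ _ hk hx
  rcases h with ⟨j, hjC, hj⟩ | ⟨cl, hcard, hcl⟩
  · left
    refine ⟨j, hjC, ?_⟩
    intro T hT x hx
    obtain ⟨x0, hx0, rfl⟩ := hx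
    have hTC : insert j T ⊆ C := Finset.insert_subset hjC (hT.trans (Finset.erase_subset _ _))
    obtain ⟨g, hg'⟩ := hg (insert j T) hTC
    have hle : κ - eS (insert j T) ≤ κ - eS T := eS_mono (Finset.subset_insert j T) κ
    obtain ⟨b, hb⟩ := exists_over X u S hc (κ - eS T) hx0 (hEm hle hg')
    have hy0 : X.j b * g ∈ EE X.pr u (κ - eS (insert j T)) := (X.mem_EE u _ b g).2 hg'
    refine ⟨X.j b * g, hy0, ?_⟩
    ext z
    constructor
    · rintro ⟨hz1, hz2⟩
      have hz1' : Con S (EE X.pr u (κ - eS T)) x0 z := hz1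
      obtain ⟨e, he⟩ := hc _ (X.j b * g) hy0 z hz2
      have h1 : Con S (EE X.pr u (κ - eS T)) (X.j e * (X.j b * g)) (X.j b * g) :=
        (con_mono X u S hle he).trans' (hz1'.symm'.trans' hb)
      have h2 := (hA _ _ (hEm hle hy0) e).1 h1
      have h3 := hj T hT h2
      have h4 := (hA _ _ hy0 e).2 h3
      exact h4.symm'.trans' he
    · intro hz
      have hz' : Con S (EE X.pr u (κ - eS (insert j T))) (X.j b * g) z := hz
      exact ⟨hb.trans' (con_mono X u S hle hz'), hz'.2.1⟩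
  · right
    refine ⟨cl, hcard, ?_, ?_⟩
    · intro j hjC x hx
      obtain ⟨x0, hx0, rfl⟩ := hx
      obtain ⟨g, hg'⟩ := hg {j} (Finset.singleton_subset_iff.2 hjC)
      have hle : κ - eS {j} ≤ κ := by
        have := eS_mono (Finset.empty_subset {j}) κ
        rwa [eS_empty'] at this
      obtain ⟨b, hb⟩ := exists_over X u S hc κ hx0 (hEm hle hg')
      have hy0 : X.j b * g ∈ EE X.pr u (κ - eS {j}) := (X.mem_EE u _ b g).2 hg'
      refine ⟨{y | (sys X u S).C (κ - eS {j}) (X.j b * g) y}, ⟨X.j b * g, hy0, rfl⟩, ?_⟩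
      ext z
      constructor
      · rintro ⟨y, hy, hyz⟩
        have hy' : Con S (EE X.pr u (κ - eS {j})) (X.j b * g) y := hy
        have hyz' : Con S (EE X.pr u κ) y z := hyz
        exact hb.trans' ((con_mono X u S hle hy').trans' hyz')
      · intro hz
        have hz' : Con S (EE X.pr u κ) x0 z := hz
        exact ⟨X.j b * g, (sys X u S).C_refl _ _ hy0, hb.symm'.trans' hz'⟩
    · intro S1 hS1 S2 hS2 hsep x1 hx1 x2 hx2 hup
      obtain ⟨hI1, hI2⟩ := hcl S1 hS1 S2 hS2 hsep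
      obtain ⟨x10, hx10, rfl⟩ := hx1
      obtain ⟨x20, hx20, rfl⟩ := hx2
      obtain ⟨g, hg'⟩ := hg (S1 ∪ S2) (Finset.union_subset hS1 hS2)
      have hle1 : κ - eS (S1 ∪ S2) ≤ κ - eS S1 := eS_mono Finset.subset_union_left κ
      have hle2 : κ - eS (S1 ∪ S2) ≤ κ - eS S2 := eS_mono Finset.subset_union_right κ
      have hk1 : κ - eS S1 ≤ κ := by
        have := eS_mono (Finset.empty_subset S1) κ
        rwa [eS_empty'] at this
      have hk2 : κ - eS S2 ≤ κ := by
        have := eS_mono (Finset.empty_subset S2) κ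
        rwa [eS_empty'] at this
      obtain ⟨a1, ha1⟩ := exists_over X u S hc (κ - eS S1) hx10 (hEm hle1 hg')
      obtain ⟨a2, ha2⟩ := exists_over X u S hc (κ - eS S2) hx20 (hEm hle2 hg')
      -- the two points are connected over κ
      have hy1u : X.j a1 * g ∈ (sys X u S).up κ {y | (sys X u S).C (κ - eS S1) x10 y} :=
        ⟨X.j a1 * g, ha1, (sys X u S).C_refl _ _ (hEm hk1 ha1.2.1)⟩
      rw [hup] at hy1u
      obtain ⟨y, hy, hyy⟩ := hy1u
      have hy' : Con S (EE X.pr u (κ - eS S2)) x20 y := hy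
      have hyy' : Con S (EE X.pr u κ) y (X.j a1 * g) := hyy
      have hcon : Con S (EE X.pr u κ) (X.j (a1 - a2) * (X.j a2 * g)) (X.j a2 * g) := by
        rw [X.j_j_mul, sub_add_cancel]
        exact hyy'.symm'.trans' (con_mono X u S hk2 (hy'.symm'.trans' ha2))
      have hmem := hI1 ((hA κ _ (hEm hk2 ha2.2.1) _).1 hcon)
      obtain ⟨b1, hb1, b2, hb2, hb⟩ := AddSubgroup.mem_sup.1 hmem
      -- the common point
      have hgE : ∀ b : M, X.j b * g ∈ EE X.pr u (κ - eS (S1 ∪ S2)) := fun b => (X.mem_EE u _ b g).2 hg'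
      have hc1 : Con S (EE X.pr u (κ - eS S1)) x10 (X.j (a1 - b1) * g) := by
        have h1 := (hA (κ - eS S1) (X.j a1 * g) ha1.2.1 (-b1)).2 (neg_mem hb1)
        rw [X.j_j_mul] at h1
        have e : -b1 + a1 = a1 - b1 := by abel
        rw [e] at h1
        exact ha1.trans' h1.symm'
      have hc2 : Con S (EE X.pr u (κ - eS S2)) x20 (X.j (a1 - b1) * g) := by
        have h1 := (hA (κ - eS S2) (X.j a2 * g) ha2.2.1 b2).2 hb2
        rw [X.j_j_mul] at h1
        have e : b2 + a2 = a1 - b1 := by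
          have : a1 = b1 + b2 + a2 := by rw [hb]; abel
          rw [this]; abel
        rw [e] at h1
        exact ha2.trans' h1.symm'
      refine ⟨X.j (a1 - b1) * g, hgE _, ?_⟩
      ext z
      constructor
      · rintro ⟨hz1, hz2⟩
        have hz1' : Con S (EE X.pr u (κ - eS S1)) x10 z := hz1
        have hz2' : Con S (EE X.pr u (κ - eS S2)) x20 z := hz2
        have hzE : z ∈ EE X.pr u (κ - eS (S1 ∪ S2)) := by
          intro i
          have e1 := hz1'.2.1 i
          have e2 := hz2'.2.1 i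
          simp only [Pi.sub_apply, eS, Finset.mem_union] at e1 e2 ⊢
          by_cases hi1 : i ∈ S1
          · rw [if_pos hi1] at e1
            rw [if_pos (Or.inl hi1)]
            exact e1
          · by_cases hi2 : i ∈ S2
            · rw [if_pos hi2] at e2
              rw [if_pos (Or.inr hi2)]
              exact e2
            · rw [if_neg hi1] at e1
              rw [if_neg (by tauto)]
              exact e1
        obtain ⟨e, he⟩ := hc _ _ (hgE (a1 - b1)) z hzE
        have h1 : e ∈ AA u a d (κ - eS S1) :=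
          (hA _ _ (hEm hle1 (hgE (a1 - b1))) e).1
            ((con_mono X u S hle1 he).trans' (hz1'.symm'.trans' hc1))
        have h2 : e ∈ AA u a d (κ - eS S2) :=
          (hA _ _ (hEm hle2 (hgE (a1 - b1))) e).1
            ((con_mono X u S hle2 he).trans' (hz2'.symm'.trans' hc2))
        have h3 := hI2 (AddSubgroup.mem_inf.2 ⟨h1, h2⟩)
        have h4 := (hA _ _ (hgE (a1 - b1)) e).2 h3
        exact h4.symm'.trans' he
      · intro hz
        have hz' : Con S (EE X.pr u (κ - eS (S1 ∪ S2))) (X.j (a1 - b1) * g) z := hz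
        exact ⟨hc1.trans' (con_mono X u S hle1 hz'), hc2.trans' (con_mono X u S hle2 hz')⟩

end groups

end Pool.Agent.FPmIf
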