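import Pool.Agent.Lib.MP_f973c6_al.If.Defs

/-! Determinant trick (part of Lemma 0): a module which is finitely generated over the monoid
ring of the closed half space `χ ≥ 0` has a relation for `χ`. -/

set_option autoImplicit false

namespace Pool.Agent.FPmIf

variable {n : ℕ}

theorem dt_rv_add (a b : Fin n → ℤ) (χ : Fin n → ℝ) :
    dt (rv (a + b)) χ = dt (rv a) χ + dt (rv b) χ := by
  simp only [dt, rv, ← Finset.sum_add_distrib]
  refine Finset.sum_congr rfl fun i _ => ?_
  push_cast [Pi.add_apply]
  ring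

theorem dt_rv_zero (χ : Fin n → ℝ) : dt (rv (0 : Fin n → ℤ)) χ = 0 := by
  simp [dt, rv]

theorem dt_rv_neg (a : Fin n → ℤ) (χ : Fin n → ℝ) :
    dt (rv (-a)) χ = -dt (rv a) χ := by
  simp only [dt, rv, ← Finset.sum_neg_distrib]
  refine Finset.sum_congr rfl fun i _ => ?_
  push_cast [Pi.neg_apply]
  ring

/-- The support of a product. -/
theorem mem_support_mul {f g : R n} {s : Fin n → ℤ} (hs : s ∈ (f * g).coeff.support) :
    ∃ a ∈ f.coeff.support, ∃ b ∈ g.coeff.support, a + b = s := by
  classical
  have := AddMonoidAlgebra.support_coeff_mul_subset f g hs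
  simpa [Finset.mem_add] using this

theorem mem_support_add {f g : R n} {s : Fin n → ℤ} (hs : s ∈ (f + g).coeff.support) :
    s ∈ f.coeff.support ∨ s ∈ g.coeff.support := by
  classical
  have := Finsupp.support_add (g₁ := f.coeff) (g₂ := g.coeff) hs
  simpa [Finset.mem_union] using this

theorem mem_support_neg {f : R n} {s : Fin n → ℤ} (hs : s ∈ (-f).coeff.support) :
    s ∈ f.coeff.support := by
  simpa using hs

/-- The subring of the elements supported in `χ ≥ 0`. -/
def R0 (χ : Fin n → ℝ) : Subring (R n) where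
  carrier := {f | ∀ s ∈ f.coeff.support, 0 ≤ dt (rv s) χ}
  mul_mem' := by
    intro f g hf hg s hs
    obtain ⟨a, ha, b, hb, rfl⟩ := mem_support_mul hs
    rw [dt_rv_add]
    exact add_nonneg (hf a ha) (hg b hb)
  one_mem' := by
    intro s hs
    have : s = 0 := by
      have := Finsupp.support_single_subset hs
      simpa using this
    rw [this, dt_rv_zero]
  add_mem' := by
    intro f g hf hg s hs
    rcases mem_support_add hs with h | h
    · exact hf s h
    · exact hg s h
  zero_mem' := by
    intro s hs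
    simp at hs
  neg_mem' := by
    intro f hf s hs
    exact hf s (mem_support_neg hs)

theorem mem_R0 {χ : Fin n → ℝ} {f : R n} :
    f ∈ R0 χ ↔ ∀ s ∈ f.coeff.support, 0 ≤ dt (rv s) χ := Iff.rfl

theorem mon_mem_R0 {χ : Fin n → ℝ} {w : Fin n → ℤ} (hw : 0 ≤ dt (rv w) χ) :
    mon w ∈ R0 χ := by
  intro s hs
  have : s = w := by
    have := Finsupp.support_single_subset hs
    simpa using this
  rw [this]; exact hw

/-- The ideal of the elements supported in `χ > 0`. -/
def I0 (χ : Fin n → ℝ) : Ideal (R0 χ) where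
  carrier := {f | ∀ s ∈ (f : R n).coeff.support, 0 < dt (rv s) χ}
  add_mem' := by
    intro f g hf hg s hs
    rcases mem_support_add hs with h | h
    · exact hf s h
    · exact hg s h
  zero_mem' := by
    intro s hs
    simp at hs
  smul_mem' := by
    intro f g hg s hs
    obtain ⟨a, ha, b, hb, rfl⟩ := mem_support_mul hs
    rw [dt_rv_add]
    exact add_pos_of_nonneg_of_pos (f.2 a ha) (hg b hb)

theorem mem_I0 {χ : Fin n → ℝ} {f : R0 χ} :
    f ∈ I0 χ ↔ ∀ s ∈ (f : R n).coeff.support, 0 < dt (rv s) χ := Iff.rfl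

/-- A nonzero real vector has a lattice vector with positive scalar product. -/
theorem exists_pos_vector {χ : Fin n → ℝ} (hχ : χ ≠ 0) : ∃ t : Fin n → ℤ, 0 < dt (rv t) χ := by
  obtain ⟨i, hi⟩ := Function.ne_iff.mp hχ
  have h1 : dt (rv (Pi.single i 1)) χ = χ i := by
    simp only [dt, rv]
    rw [Finset.sum_eq_single i]
    · simp
    · intro b _ hb
      simp [hb]
    · intro h; exact absurd (Finset.mem_univ i) h
  rcases lt_or_gt_of_ne hi with h | h
  · refine ⟨-Pi.single i 1, ?_⟩
    rw [dt_rv_neg, h1]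
    simpa using h
  · exact ⟨Pi.single i 1, by rw [h1]; simpa using h⟩

/-- H4b: if `M` is generated, as an additive group, by the translates `w c` with `c` in a finite
set and `χ(w) ≥ 0`, then there is a relation for `χ`. -/
theorem H4b {M : Type} [AddCommGroup M] [Module (R n) M] (χ : Fin n → ℝ) (hχ : χ ≠ 0)
    (C : Finset M)
    (hC : ∀ x : M, x ∈ AddSubgroup.closure
      {x : M | ∃ c ∈ C, ∃ w : Fin n → ℤ, 0 ≤ dt (rv w) χ ∧ x = mon w • c}) :
    HasRel M χ := by
  classical
  obtain ⟨t, ht⟩ := exists_pos_vector hχ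
  have hfg : (⊤ : Submodule (R0 χ) M).FG := by
    refine ⟨C, ?_⟩
    rw [eq_top_iff]
    intro x _
    have hx := hC x
    induction hx using AddSubgroup.closure_induction with
    | mem y hy =>
      obtain ⟨c, hc, w, hw, rfl⟩ := hy
      have : (mon w : R n) • c = (⟨mon w, mon_mem_R0 hw⟩ : R0 χ) • c := rfl
      rw [this]
      exact Submodule.smul_mem _ _ (Submodule.subset_span hc)
    | zero => exact Submodule.zero_mem _
    | add a b _ _ ha hb => exact Submodule.add_mem _ (ha trivial) (hb trivial)
    | neg a _ ha => exact Submodule.neg_mem _ (ha trivial)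
  have hle : (⊤ : Submodule (R0 χ) M) ≤ I0 χ • (⊤ : Submodule (R0 χ) M) := by
    intro x _
    have h1 : x = (mon t : R n) • ((mon (-t) : R n) • x) := by
      rw [smul_smul, AddMonoidAlgebra.single_mul_single]
      simp [AddMonoidAlgebra.one_def.symm]
    have h2 : x = (⟨mon t, mon_mem_R0 ht.le⟩ : R0 χ) • ((mon (-t) : R n) • x) := h1
    rw [h2]
    refine Submodule.smul_mem_smul ?_ trivial
    rw [mem_I0]
    intro s hs
    have : s = t := by
      have := Finsupp.support_single_subset hs
      simpa using this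
    rw [this]; exact ht
  obtain ⟨r, hr, hr0⟩ :=
    Submodule.exists_sub_one_mem_and_smul_eq_zero_of_fg_of_le_smul (I0 χ) ⊤ hfg hle
  refine ⟨1 - (r : R n), ?_, ?_⟩
  · intro x
    have h3 : (r : R n) • x = 0 := hr0 x trivial
    rw [sub_smul, one_smul, h3, sub_zero]
  · intro s hs
    have h4 : (1 - (r : R n)) = -((r - 1 : R0 χ) : R n) := by
      push_cast
      ring
    rw [h4] at hs
    exact hr s (mem_support_neg hs)

end Pool.Agent.FPmIf
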