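import Pool.Agent.Lib.MP_f973c6_al.If.H4a
import Pool.Agent.Lib.MP_f973c6_al.If.H4b

/-! Lemma 0 of the IF half: a connected half space gives a relation. -/

set_option autoImplicit false
set_option linter.unusedVariables false

namespace Pool.Agent.FPmIf

variable {n : ℕ}

/-- A walk in the induced Cayley graph is a word with all prefixes in the half space. -/
theorem word_of_walk {G : Type} [Group G] (χ : G → ℝ) (S : Finset G)
    {x y : {g : G | 0 ≤ χ g}}
    (w : (SimpleGraph.induce {g : G | 0 ≤ χ g}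
      (SimpleGraph.fromRel (fun g h : G => ∃ s ∈ S, h = g * s))).Walk x y) :
    ∃ l : List G, (∀ s ∈ l, s ∈ S ∨ s⁻¹ ∈ S) ∧ (y : G) = x * l.prod ∧
      ∀ k, 0 ≤ χ (x * (l.take k).prod) := by
  induction w with
  | nil =>
    rename_i u
    refine ⟨[], by simp, by simp, ?_⟩
    intro k
    have hu : 0 ≤ χ (u : G) := u.2
    simp only [List.take_nil, List.prod_nil, mul_one]
    exact hu
  | cons h w ih =>
    rename_i u v w'
    obtain ⟨l, hl, hy, hk⟩ := ih
    have h' : (SimpleGraph.fromRel (fun g h : G => ∃ s ∈ S, h = g * s)).Adj (u : G) (v : G) := h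
    rw [SimpleGraph.fromRel_adj] at h'
    obtain ⟨_, h2⟩ := h'
    have key : ∃ s : G, (s ∈ S ∨ s⁻¹ ∈ S) ∧ (v : G) = u * s := by
      rcases h2 with ⟨s, hs, e⟩ | ⟨s, hs, e⟩
      · exact ⟨s, Or.inl hs, e⟩
      · refine ⟨s⁻¹, Or.inr (by simpa using hs), ?_⟩
        rw [e]; group
    obtain ⟨s, hs, e⟩ := key
    refine ⟨s :: l, ?_, ?_, ?_⟩
    · intro z hz
      rcases List.mem_cons.mp hz with rfl | hz
      · exact hs
      · exact hl z hz
    · rw [hy, e, List.prod_cons, mul_assoc]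
    · intro k
      cases k with
      | zero =>
        have hu : 0 ≤ χ (u : G) := u.2
        simp only [List.take_zero, List.prod_nil, mul_one]
        exact hu
      | succ k =>
        rw [List.take_succ_cons, List.prod_cons, ← mul_assoc, ← e]
        exact hk k

/-- H4: a connected half space gives a relation (Lemma 0). -/
theorem H4_rel {n : ℕ} {G : Type} [Group G] (G1 : Subgroup G) {M : Type} [AddCommGroup M]
    [Module (R n) M] (X : Ext n G1 M) (P : G → (Fin n → ℤ))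
    (hP : ∀ g h, P (g * h) = P g + P h) (hPX : ∀ g : G1, P g = X.pr g)
    (hA : ∀ g : G, g ∈ commutator G ↔ ∃ a : M, ((X.j a : G1) : G) = g)
    (T : Finset G) (hT : ∀ t ∈ T, P t = 0) (hGT : ∀ g : G, ∃ t ∈ T, ∃ g1 : G1, g = g1 * t)
    (χ : Fin n → ℝ) (hχ : χ ≠ 0) (S : Finset G) (hS : Subgroup.closure (S : Set G) = ⊤)
    (hc : (SimpleGraph.induce {g : G | 0 ≤ dt (rv (P g)) χ}
      (SimpleGraph.fromRel (fun g h : G => ∃ s ∈ S, h = g * s))).Connected) :
    HasRel M χ := by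
  classical
  have hχh : ∀ g h, dt (rv (P (g * h))) χ = dt (rv (P g)) χ + dt (rv (P h)) χ := by
    intro g h
    rw [hP, dt_rv_add]
  have hP1 : P 1 = 0 := by
    have := hP 1 1
    simpa using this
  have hPA : ∀ g ∈ commutator G, P g = 0 := by
    intro g hg
    obtain ⟨a, rfl⟩ := (hA g).mp hg
    rw [hPX, X.pr_j]
  have h0 : (0 : ℝ) ≤ dt (rv (P 1)) χ := by rw [hP1, dt_rv_zero]
  obtain ⟨C, hCA, hC⟩ := Pool.Agent.FPH4.H4a (fun g => dt (rv (P g)) χ) hχh S (by
    intro a ha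
    have h0' : (0 : ℝ) ≤ dt (rv (P a)) χ := by rw [hPA a ha, dt_rv_zero]
    obtain ⟨w⟩ := hc.preconnected ⟨1, h0⟩ ⟨a, h0'⟩
    obtain ⟨l, hl, hy, hk⟩ := word_of_walk (fun g => dt (rv (P g)) χ) S w
    refine ⟨l, hl, ?_, ?_⟩
    · simpa using hy.symm
    · intro k
      have := hk k
      simpa using this)
  -- the finite set in `M`
  have hex : ∀ t : G, ∀ c : G, ∃ b : M, c ∈ C → ((X.j b : G1) : G) = t * c * t⁻¹ := by
    intro t c
    by_cases hc' : c ∈ C
    · have : t * c * t⁻¹ ∈ commutator G :=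
        (inferInstance : (commutator G).Normal).conj_mem c (hCA c hc') t
      obtain ⟨b, hb⟩ := (hA _).mp this
      exact ⟨b, fun _ => hb⟩
    · exact ⟨0, fun h => absurd h hc'⟩
  choose b hb using hex
  refine H4b χ hχ (Finset.image (fun z : G × G => b z.1 z.2) (T ×ˢ C)) ?_
  intro x
  have hx := hC ((X.j x : G1) : G) ((hA _).mpr ⟨x, rfl⟩)
  set Y : Set M := {x : M | ∃ c ∈ Finset.image (fun z : G × G => b z.1 z.2) (T ×ˢ C),
    ∃ w : Fin n → ℤ, 0 ≤ dt (rv w) χ ∧ x = mon w • c} with hY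
  have hj0 : X.j 0 = 1 := by
    have := X.j_add 0 0
    simpa using this
  have main : ∀ g ∈ Subgroup.closure
      {x : G | ∃ c ∈ C, ∃ p : G, 0 ≤ dt (rv (P p)) χ ∧ x = p * c * p⁻¹},
      ∃ y ∈ AddSubgroup.closure Y, ((X.j y : G1) : G) = g := by
    intro g hg
    induction hg using Subgroup.closure_induction with
    | mem z hz =>
      obtain ⟨c, hcC, p, hp, rfl⟩ := hz
      obtain ⟨t, ht, g1, rfl⟩ := hGT p
      refine ⟨mon (X.pr g1) • b t c, ?_, ?_⟩
      · refine AddSubgroup.subset_closure ⟨b t c, ?_, X.pr g1, ?_, rfl⟩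
        · exact Finset.mem_image.mpr ⟨(t, c), Finset.mem_product.mpr ⟨ht, hcC⟩, rfl⟩
        · rw [← hPX]
          rw [hP, hT t ht, add_zero] at hp
          exact hp
      · rw [X.j_smul]
        push_cast
        rw [hb t c hcC]
        group
    | one => exact ⟨0, AddSubgroup.zero_mem _, by rw [hj0]; rfl⟩
    | mul u v _ _ hu hv =>
      obtain ⟨y1, h1, e1⟩ := hu
      obtain ⟨y2, h2, e2⟩ := hv
      refine ⟨y1 + y2, AddSubgroup.add_mem _ h1 h2, ?_⟩
      rw [X.j_add]
      push_cast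
      rw [e1, e2]
    | inv u _ hu =>
      obtain ⟨y1, h1, e1⟩ := hu
      refine ⟨-y1, AddSubgroup.neg_mem _ h1, ?_⟩
      have : X.j (-y1) = (X.j y1)⁻¹ := by
        rw [eq_inv_iff_mul_eq_one, ← X.j_add, neg_add_cancel, hj0]
      rw [this]
      push_cast
      rw [e1]
  obtain ⟨y, hy, e⟩ := main _ hx
  have : y = x := X.j_inj (Subtype.ext e)
  rw [← this]
  exact hy

end Pool.Agent.FPmIf
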