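import Pool.Agent.Lib.MP_f973c6_al.If.H5b

/-! H5, assembly from the structure part (H5a) and Lemma 0 (H4). -/

set_option autoImplicit false

namespace Pool.Agent.FPmIf

open Pool.Agent.FPm (FPcond TameCond)

/-- Assembly of the reduction, with the two ingredients as hypotheses. -/
theorem H5c (G : Type) [Group G] (hm : derivedSeries G 2 = ⊥)
    (m : ℕ) (ht : TameCond G m)
    (h5a : ∃ (n : ℕ) (P : G → (Fin n → ℤ)) (T : Finset G) (G1 : Subgroup G),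
      (∀ g h, P (g * h) = P g + P h) ∧ (∀ t ∈ T, P t = 0) ∧ G1.FiniteIndex ∧
      commutator G ≤ G1 ∧ (∀ w, ∃ g ∈ G1, P g = w) ∧ (∀ g ∈ G1, P g = 0 → g ∈ commutator G) ∧
      (∀ g, ∃ t ∈ T, ∃ g1 ∈ G1, g = g1 * t))
    (h4 : ∀ {n : ℕ} (G1 : Subgroup G) {M : Type} [AddCommGroup M]
      [Module (R n) M] (X : Ext n G1 M) (P : G → (Fin n → ℤ))
      (_ : ∀ g h, P (g * h) = P g + P h) (_ : ∀ g : G1, P g = X.pr g)
      (_ : ∀ g : G, g ∈ commutator G ↔ ∃ a : M, ((X.j a : G1) : G) = g)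
      (T : Finset G) (_ : ∀ t ∈ T, P t = 0) (_ : ∀ g : G, ∃ t ∈ T, ∃ g1 : G1, g = g1 * t)
      (χ : Fin n → ℝ) (_ : χ ≠ 0) (S : Finset G) (_ : Subgroup.closure (S : Set G) = ⊤)
      (_ : (SimpleGraph.induce {g : G | 0 ≤ dt (rv (P g)) χ}
        (SimpleGraph.fromRel (fun g h : G => ∃ s ∈ S, h = g * s))).Connected),
      HasRel M χ) :
    ∃ (G1 : Subgroup G) (n : ℕ) (M : Type) (_ : AddCommGroup M) (_ : Module (R n) M)
      (_ : Ext n G1 M), G1.FiniteIndex ∧ MTame n M m := by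
  obtain ⟨n, P, T, G1, hP, hT, hfi, hc, hs, hk, hT2⟩ := h5a
  obtain ⟨M, i1, i2, X, hX1, hX2⟩ := H5b_ext G hm n P G1 hP hc hs hk
  refine ⟨G1, n, M, i1, i2, X, hfi, ?_⟩
  refine H5b_tame G n P hP (fun w => ?_) M m ?_ ht
  · obtain ⟨g, _, hg⟩ := hs w
    exact ⟨g, hg⟩
  · intro χ hχ S hS hcn
    refine h4 G1 X P hP hX1 hX2 T hT (fun g => ?_) χ hχ S hS hcn
    obtain ⟨t, ht, g1, hg1, rfl⟩ := hT2 g
    exact ⟨t, ht, ⟨g1, hg1⟩, rfl⟩

end Pool.Agent.FPmIf
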