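import Pool.Agent.Lib.MP_f973c6_al.If.H5a
import Pool.Agent.Lib.MP_f973c6_al.If.H5c
import Pool.Agent.Lib.MP_f973c6_al.If.H4

/-! H5: reduction to a finite index subgroup which is an extension of `ℤ^n`. -/

set_option autoImplicit false

namespace Pool.Agent.FPmIf

open Pool.Agent.FPm (FPcond TameCond)

/-- H5: reduction to a finite index subgroup which is an extension of `ℤ^n`. -/
theorem H5_reduction (G : Type) [Group G] (hG : Group.FG G) (hm : derivedSeries G 2 = ⊥)
    (m : ℕ) (ht : TameCond G m) :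
    ∃ (G1 : Subgroup G) (n : ℕ) (M : Type) (_ : AddCommGroup M) (_ : Module (R n) M)
      (_ : Ext n G1 M), G1.FiniteIndex ∧ MTame n M m :=
  H5c G hm m ht (H5a_struct G hG)
    (fun {_} G1 {_} _ _ X P h1 h2 h3 T h4 h5 χ h6 S h7 h8 =>
      H4_rel G1 X P h1 h2 h3 T h4 h5 χ h6 S h7 h8)

end Pool.Agent.FPmIf
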