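import Pool.Agent.Lib.MP_f973c6_al.If.Defs

/-! Part M2: pushing (Lemma P). -/

set_option autoImplicit false

namespace Pool.Agent.FPmIf

section modules
variable {n N : ℕ}

theorem M2_dt_sum (I : Finset (Fin N)) (x : Fin n → ℝ) (α : Fin N → ℝ)
    (y : Fin N → Fin n → ℝ) :
    dt x (∑ i ∈ I, α i • y i) = ∑ i ∈ I, α i * dt x (y i) := by
  simp only [dt, Finset.sum_apply, Pi.smul_apply, smul_eq_mul, Finset.mul_sum]
  rw [Finset.sum_comm]
  exact Finset.sum_congr rfl fun i _ => Finset.sum_congr rfl fun j _ => by ring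

theorem M2_dt_rv (u : Fin N → Fin n → ℤ) (w : Fin n → ℤ) (i : Fin N) :
    dt (rv w) (rv (u i)) = (uv u w i : ℝ) := by
  simp [dt, rv, uv]

theorem M2_uv_add (u : Fin N → Fin n → ℤ) (w s : Fin n → ℤ) (i : Fin N) :
    uv u (w + s) i = uv u w i + uv u s i := by
  simp [uv, add_mul, Finset.sum_add_distrib]

theorem M2_pos_bound {α : Type*} (S : Finset α) (f : α → ℝ) (hf : ∀ s ∈ S, 0 < f s) :
    ∃ c : ℝ, 0 < c ∧ ∀ s ∈ S, c < f s := by
  classical
  induction S using Finset.induction_on with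
  | empty => exact ⟨1, one_pos, by simp⟩
  | insert a S ha ih =>
    obtain ⟨c, hc, h⟩ := ih fun s hs => hf s (Finset.mem_insert_of_mem hs)
    have h1 := hf a (Finset.mem_insert_self a S)
    refine ⟨min c (f a / 2), lt_min hc (by linarith), fun s hs => ?_⟩
    rcases Finset.mem_insert.1 hs with rfl | hs
    · exact lt_of_le_of_lt (min_le_right _ _) (by linarith)
    · exact lt_of_le_of_lt (min_le_left _ _) (h s hs)

/-- Uniform relations over the convex hull of the `u_i`, `i ∈ I`. -/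
theorem M2_unif (M : Type) [AddCommGroup M] [Module (R n) M] (u : Fin N → Fin n → ℤ)
    (I : Finset (Fin N))
    (hI : ∀ α : Fin N → ℝ, (∀ i ∈ I, 0 ≤ α i) → ∑ i ∈ I, α i = 1 →
      HasRel M (∑ i ∈ I, α i • rv (u i))) :
    ∃ c0 : ℝ, 0 < c0 ∧ ∃ B : ℝ, 0 < B ∧ ∀ α : Fin N → ℝ, (∀ i ∈ I, 0 ≤ α i) →
      ∑ i ∈ I, α i = 1 → ∃ h : R n, (∀ x : M, h • x = x) ∧ ∀ s ∈ h.coeff.support,
        c0 ≤ ∑ i ∈ I, α i * (uv u s i : ℝ) ∧ ∀ i ∈ I, |(uv u s i : ℝ)| ≤ B := by
  classical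
  set K : Set (Fin N → ℝ) := {α | (∀ i, 0 ≤ α i) ∧ (∀ i, i ∉ I → α i = 0) ∧ ∑ i ∈ I, α i = 1}
    with hK
  have hKc : IsCompact K := by
    have h1 : IsCompact (Set.pi Set.univ fun _ : Fin N => Set.Icc (0 : ℝ) 1) :=
      isCompact_univ_pi fun _ => isCompact_Icc
    refine h1.of_isClosed_subset ?_ ?_
    · have e : K = (⋂ i, {α : Fin N → ℝ | 0 ≤ α i}) ∩
          ((⋂ i, ⋂ (_ : i ∉ I), {α : Fin N → ℝ | α i = 0}) ∩
            {α : Fin N → ℝ | ∑ i ∈ I, α i = 1}) := by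
        ext α
        simp [hK]
      rw [e]
      refine (isClosed_iInter fun i => isClosed_le continuous_const (continuous_apply i)).inter
        ((isClosed_iInter fun i => isClosed_iInter fun _ =>
          isClosed_eq (continuous_apply i) continuous_const).inter
          (isClosed_eq (continuous_finsetSum _ fun i _ => continuous_apply i) continuous_const))
    · intro α hα i _
      refine ⟨hα.1 i, ?_⟩
      by_cases hi : i ∈ I
      · rw [← hα.2.2]
        exact Finset.single_le_sum (f := fun i => α i) (fun j _ => hα.1 j) hi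
      · rw [hα.2.1 i hi]
        exact zero_le_one
  have key : ∃ c0 : ℝ, 0 < c0 ∧ ∃ B : ℝ, 0 < B ∧ ∀ α ∈ K, ∃ h : R n, (∀ x : M, h • x = x) ∧
      ∀ s ∈ h.coeff.support,
        c0 ≤ ∑ i ∈ I, α i * (uv u s i : ℝ) ∧ ∀ i ∈ I, |(uv u s i : ℝ)| ≤ B := by
    refine hKc.induction_on (p := fun K' : Set (Fin N → ℝ) => ∃ c0 : ℝ, 0 < c0 ∧ ∃ B : ℝ, 0 < B ∧
      ∀ α ∈ K', ∃ h : R n, (∀ x : M, h • x = x) ∧ ∀ s ∈ h.coeff.support,
        c0 ≤ ∑ i ∈ I, α i * (uv u s i : ℝ) ∧ ∀ i ∈ I, |(uv u s i : ℝ)| ≤ B) ?_ ?_ ?_ ?_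
    · exact ⟨1, one_pos, 1, one_pos, by simp⟩
    · rintro s t hst ⟨c0, hc0, B, hB, h⟩
      exact ⟨c0, hc0, B, hB, fun α hα => h α (hst hα)⟩
    · rintro s t ⟨c0, hc0, B, hB, h⟩ ⟨c1, hc1, B1, hB1, h1⟩
      refine ⟨min c0 c1, lt_min hc0 hc1, max B B1, lt_max_of_lt_left hB, fun α hα => ?_⟩
      rcases hα with hα | hα
      · obtain ⟨g, hg, hg1⟩ := h α hα
        exact ⟨g, hg, fun s hs => ⟨(min_le_left _ _).trans (hg1 s hs).1,
          fun i hi => ((hg1 s hs).2 i hi).trans (le_max_left _ _)⟩⟩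
      · obtain ⟨g, hg, hg1⟩ := h1 α hα
        exact ⟨g, hg, fun s hs => ⟨(min_le_right _ _).trans (hg1 s hs).1,
          fun i hi => ((hg1 s hs).2 i hi).trans (le_max_right _ _)⟩⟩
    · intro α hα
      obtain ⟨h, h1, h2⟩ := hI α (fun i _ => hα.1 i) hα.2.2
      have h3 : ∀ s ∈ h.coeff.support, 0 < ∑ i ∈ I, α i * (uv u s i : ℝ) := by
        intro s hs
        have := h2 s hs
        rw [M2_dt_sum] at this
        simpa only [M2_dt_rv] using this
      obtain ⟨c, hc, hc1⟩ := M2_pos_bound _ _ h3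
      have h4 : ∀ᶠ β in nhds α, ∀ s ∈ h.coeff.support,
          c < ∑ i ∈ I, β i * (uv u s i : ℝ) := by
        refine (Filter.eventually_all_finset _).2 fun s hs => ?_
        have hcont : Continuous fun β : Fin N → ℝ => ∑ i ∈ I, β i * (uv u s i : ℝ) :=
          continuous_finsetSum _ fun i _ => (continuous_apply i).mul continuous_const
        exact (hcont.tendsto α).eventually_const_lt (hc1 s hs)
      refine ⟨{β | ∀ s ∈ h.coeff.support, c < ∑ i ∈ I, β i * (uv u s i : ℝ)},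
        mem_nhdsWithin_of_mem_nhds h4, c, hc,
        1 + ∑ s ∈ h.coeff.support, ∑ i ∈ I, |(uv u s i : ℝ)|, ?_, ?_⟩
      · have : 0 ≤ ∑ s ∈ h.coeff.support, ∑ i ∈ I, |(uv u s i : ℝ)| :=
          Finset.sum_nonneg fun s _ => Finset.sum_nonneg fun i _ => abs_nonneg _
        linarith
      · intro β hβ
        refine ⟨h, h1, fun s hs => ⟨(hβ s hs).le, fun i hi => ?_⟩⟩
        have e1 : |(uv u s i : ℝ)| ≤ ∑ i ∈ I, |(uv u s i : ℝ)| :=
          Finset.single_le_sum (f := fun i => |(uv u s i : ℝ)|) (fun j _ => abs_nonneg _) hi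
        have e2 : ∑ i ∈ I, |(uv u s i : ℝ)| ≤
            ∑ s ∈ h.coeff.support, ∑ i ∈ I, |(uv u s i : ℝ)| :=
          Finset.single_le_sum (f := fun s => ∑ i ∈ I, |(uv u s i : ℝ)|)
            (fun j _ => Finset.sum_nonneg fun i _ => abs_nonneg _) hs
        linarith
  obtain ⟨c0, hc0, B, hB, h⟩ := key
  refine ⟨c0, hc0, B, hB, fun α hα hs => ?_⟩
  have h5 : (fun i => if i ∈ I then α i else 0) ∈ K := by
    refine ⟨fun i => ?_, fun i hi => by simp [hi], ?_⟩
    · by_cases hi : i ∈ I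
      · simpa [hi] using hα i hi
      · simp [hi]
    · rw [← hs]
      exact Finset.sum_congr rfl fun i hi => by simp [hi]
  obtain ⟨g, hg, hg1⟩ := h _ h5
  refine ⟨g, hg, fun s hs => ⟨?_, (hg1 s hs).2⟩⟩
  refine (hg1 s hs).1.trans (le_of_eq ?_)
  exact Finset.sum_congr rfl fun i hi => by simp [hi]

/-- The substitution step. -/
theorem M2_subst (M : Type) [AddCommGroup M] [Module (R n) M] (h : R n)
    (hh : ∀ x : M, h • x = x) (H : (Fin n → ℤ) → R n) (hH : ∀ w, ∀ x : M, H w • x = x) :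
    ∃ g : R n, (∀ x : M, g • x = x) ∧ ∀ s ∈ g.coeff.support,
      ∃ w ∈ h.coeff.support, ∃ t ∈ (H w).coeff.support, s = w + t := by
  classical
  refine ⟨∑ w ∈ h.coeff.support, AddMonoidAlgebra.single w (h.coeff w) * H w, fun x => ?_,
    fun s hs => ?_⟩
  · rw [Finset.sum_smul]
    have e : ∀ w ∈ h.coeff.support, (AddMonoidAlgebra.single w (h.coeff w) * H w) • x
        = (AddMonoidAlgebra.single w (h.coeff w) : R n) • x := by
      intro w _
      rw [mul_smul, hH w x]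
    rw [Finset.sum_congr rfl e, ← Finset.sum_smul]
    have e2 : (∑ w ∈ h.coeff.support, AddMonoidAlgebra.single w (h.coeff w) : R n) = h := by
      apply AddMonoidAlgebra.ext
      rw [AddMonoidAlgebra.coeff_sum]
      exact h.coeff.sum_single
    rw [e2, hh x]
  · rw [Finsupp.mem_support_iff, AddMonoidAlgebra.coeff_sum, Finsupp.finsetSum_apply] at hs
    obtain ⟨w, hw, hw1⟩ := Finset.exists_ne_zero_of_sum_ne_zero hs
    refine ⟨w, hw, -w + s, ?_, by abel⟩
    rw [AddMonoidAlgebra.coeff_single_mul_apply] at hw1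
    exact Finsupp.mem_support_iff.2 (right_ne_zero_of_mul hw1)

/-- M2: pushing (Lemma P). -/
theorem M2_push (M : Type) [AddCommGroup M] [Module (R n) M] (u : Fin N → Fin n → ℤ)
    (I : Finset (Fin N))
    (hI : ∀ α : Fin N → ℝ, (∀ i ∈ I, 0 ≤ α i) → ∑ i ∈ I, α i = 1 →
      HasRel M (∑ i ∈ I, α i • rv (u i))) :
    ∃ h : R n, (∀ x : M, h • x = x) ∧ ∀ s ∈ h.coeff.support, ∀ i ∈ I, 1 ≤ uv u s i := by
  classical
  rcases I.eq_empty_or_nonempty with rfl | hne
  · exact ⟨1, fun x => one_smul _ x, by simp⟩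
  obtain ⟨c0, hc0, B, hB, hu⟩ := M2_unif M u I hI
  set β : ℝ := min (1 / B) (min (c0 / (2 * B ^ 2)) (1 / c0)) with hβd
  have hβ : 0 < β := lt_min (by positivity) (lt_min (by positivity) (by positivity))
  have hβ1 : β * B ≤ 1 := by
    have : β ≤ 1 / B := min_le_left _ _
    calc β * B ≤ 1 / B * B := by gcongr
      _ = 1 := by field_simp
  have hβ2 : β * B ^ 2 ≤ c0 / 2 := by
    have : β ≤ c0 / (2 * B ^ 2) := (min_le_right _ _).trans (min_le_left _ _)
    calc β * B ^ 2 ≤ c0 / (2 * B ^ 2) * B ^ 2 := by gcongr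
      _ = c0 / 2 := by field_simp
  have hβ3 : β * c0 ≤ 1 := by
    have : β ≤ 1 / c0 := (min_le_right _ _).trans (min_le_right _ _)
    calc β * c0 ≤ 1 / c0 * c0 := by gcongr
      _ = 1 := by field_simp
  set Φ : (Fin n → ℤ) → ℝ := fun w => ∑ i ∈ I, Real.exp (-(β * (uv u w i : ℝ))) with hΦ
  have hΦpos : ∀ w, 0 < Φ w := fun w => Finset.sum_pos (fun i _ => Real.exp_pos _) hne
  set θ : ℝ := 1 - β * c0 / 2 with hθ
  have hθ0 : 0 ≤ θ := by rw [hθ]; linarith
  have hθ1 : θ < 1 := by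
    have : 0 < β * c0 := mul_pos hβ hc0
    rw [hθ]; linarith
  have step : ∀ w, ∃ h : R n, (∀ x : M, h • x = x) ∧
      ∀ s ∈ h.coeff.support, Φ (w + s) ≤ θ * Φ w := by
    intro w
    obtain ⟨h, h1, h2⟩ := hu (fun i => Real.exp (-(β * (uv u w i : ℝ))) / Φ w)
      (fun i _ => div_nonneg (Real.exp_pos _).le (hΦpos w).le)
      (by rw [← Finset.sum_div]; exact div_self (hΦpos w).ne')
    refine ⟨h, h1, fun s hs => ?_⟩
    obtain ⟨h3, h4⟩ := h2 s hs
    have e1 : Φ (w + s) ≤ ∑ i ∈ I, Real.exp (-(β * (uv u w i : ℝ))) *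
        (1 - β * (uv u s i : ℝ) + (β * B) ^ 2) := by
      refine Finset.sum_le_sum fun i hi => ?_
      rw [M2_uv_add]
      push_cast
      rw [show -(β * ((uv u w i : ℝ) + (uv u s i : ℝ)))
        = -(β * (uv u w i : ℝ)) + -(β * (uv u s i : ℝ)) by ring, Real.exp_add]
      refine mul_le_mul_of_nonneg_left ?_ (Real.exp_pos _).le
      have h5 : |-(β * (uv u s i : ℝ))| ≤ β * B := by
        rw [abs_neg, abs_mul, abs_of_pos hβ]
        exact mul_le_mul_of_nonneg_left (h4 i hi) hβ.le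
      have h6 := Real.abs_exp_sub_one_sub_id_le (h5.trans hβ1)
      have h7 := (abs_le.1 h6).2
      have h8 : (-(β * (uv u s i : ℝ))) ^ 2 ≤ (β * B) ^ 2 := by
        rw [← sq_abs]
        exact pow_le_pow_left₀ (abs_nonneg _) h5 2
      linarith
    have e2 : ∑ i ∈ I, Real.exp (-(β * (uv u w i : ℝ))) *
        (1 - β * (uv u s i : ℝ) + (β * B) ^ 2)
        = Φ w * (1 + (β * B) ^ 2) - β * Φ w *
          ∑ i ∈ I, Real.exp (-(β * (uv u w i : ℝ))) / Φ w * (uv u s i : ℝ) := by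
      rw [Finset.mul_sum, hΦ]
      simp only
      rw [Finset.sum_mul, ← Finset.sum_sub_distrib]
      refine Finset.sum_congr rfl fun i _ => ?_
      have := (hΦpos w).ne'
      rw [hΦ] at this
      simp only at this
      field_simp
      ring
    have e3 : β * Φ w * c0 ≤ β * Φ w *
        ∑ i ∈ I, Real.exp (-(β * (uv u w i : ℝ))) / Φ w * (uv u s i : ℝ) :=
      mul_le_mul_of_nonneg_left h3 (mul_pos hβ (hΦpos w)).le
    have e4 : (β * B) ^ 2 ≤ β * c0 / 2 := by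
      have : β * (β * B ^ 2) ≤ β * (c0 / 2) := mul_le_mul_of_nonneg_left hβ2 hβ.le
      nlinarith
    have e5 : Φ w * (1 + (β * B) ^ 2) ≤ Φ w * (1 + β * c0 / 2) :=
      mul_le_mul_of_nonneg_left (by linarith) (hΦpos w).le
    rw [e2] at e1
    rw [hθ]
    nlinarith
  choose H hH1 hH2 using step
  have iter : ∀ t : ℕ, ∃ h : R n, (∀ x : M, h • x = x) ∧
      ∀ s ∈ h.coeff.support, Φ s ≤ θ ^ t * Φ 0 := by
    intro t
    induction t with
    | zero =>
      refine ⟨1, fun x => one_smul _ x, fun s hs => ?_⟩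
      have : s = 0 := by
        by_contra hne
        rw [Finsupp.mem_support_iff, AddMonoidAlgebra.one_def, AddMonoidAlgebra.coeff_single,
          Finsupp.single_apply, if_neg (Ne.symm hne)] at hs
        exact hs rfl
      rw [this, pow_zero, one_mul]
    | succ t ih =>
      obtain ⟨h, h1, h2⟩ := ih
      obtain ⟨g, g1, g2⟩ := M2_subst M h h1 H hH1
      refine ⟨g, g1, fun s hs => ?_⟩
      obtain ⟨w, hw, t', ht', rfl⟩ := g2 s hs
      calc Φ (w + t') ≤ θ * Φ w := hH2 w t' ht'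
        _ ≤ θ * (θ ^ t * Φ 0) := mul_le_mul_of_nonneg_left (h2 w hw) hθ0
        _ = θ ^ (t + 1) * Φ 0 := by ring
  obtain ⟨t, ht⟩ : ∃ t : ℕ, θ ^ t * Φ 0 < 1 := by
    have h1 : Filter.Tendsto (fun t : ℕ => θ ^ t * Φ 0) Filter.atTop (nhds (0 * Φ 0)) :=
      (tendsto_pow_atTop_nhds_zero_of_lt_one hθ0 hθ1).mul_const _
    rw [zero_mul] at h1
    exact (h1.eventually_lt_const one_pos).exists
  obtain ⟨h, h1, h2⟩ := iter t
  refine ⟨h, h1, fun s hs i hi => ?_⟩
  have h3 : Real.exp (-(β * (uv u s i : ℝ))) < 1 := by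
    refine lt_of_le_of_lt ?_ (lt_of_le_of_lt (h2 s hs) ht)
    exact Finset.single_le_sum (f := fun i => Real.exp (-(β * (uv u s i : ℝ))))
      (fun j _ => (Real.exp_pos _).le) hi
  rw [Real.exp_lt_one_iff] at h3
  have h4 : 0 < β * (uv u s i : ℝ) := by linarith
  have h5 : 0 < (uv u s i : ℝ) := (mul_pos_iff_of_pos_left hβ).1 h4
  exact_mod_cast h5

end modules

end Pool.Agent.FPmIf
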