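import Pool.Agent.Lib.MP_f973c6_al.If.Defs
import Pool.Agent.Lib.MP_f973c6_al.If.M4b

/-! M3: the compactness constant. -/

set_option autoImplicit false

namespace Pool.Agent.FPmIf

namespace M3

variable {n : ℕ}

theorem cont_nrm : Continuous (nrm : (Fin n → ℝ) → ℝ) := by
  unfold nrm dt
  fun_prop

theorem open_hasRel (M : Type) [AddCommGroup M] [Module (R n) M] :
    IsOpen {χ : Fin n → ℝ | HasRel M χ} := by
  have : {χ : Fin n → ℝ | HasRel M χ} =
      ⋃ h : {h : R n // ∀ x : M, h • x = x}, ⋂ s ∈ h.1.coeff.support,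
        {χ : Fin n → ℝ | 0 < dt (rv s) χ} := by
    ext χ
    simp only [Set.mem_ofPred_eq, Set.mem_iUnion, Set.mem_iInter, HasRel]
    constructor
    · rintro ⟨h, h1, h2⟩
      exact ⟨⟨h, h1⟩, h2⟩
    · rintro ⟨⟨h, h1⟩, h2⟩
      exact ⟨h, h1, h2⟩
  rw [this]
  refine isOpen_iUnion fun h => ?_
  refine isOpen_biInter_finset fun s _ => ?_
  refine isOpen_lt continuous_const ?_
  unfold dt
  fun_prop

/-- the compact set of unit vectors without relation -/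
def K (M : Type) [AddCommGroup M] [Module (R n) M] : Set (Fin n → ℝ) :=
  {χ | nrm χ = 1 ∧ ¬ HasRel M χ}

theorem compact_K (M : Type) [AddCommGroup M] [Module (R n) M] : IsCompact (K (n := n) M) := by
  have hcl : IsClosed (K (n := n) M) := by
    have : K (n := n) M = {χ | nrm χ = 1} ∩ {χ | HasRel M χ}ᶜ := by
      ext χ; rfl
    rw [this]
    exact (isClosed_eq cont_nrm continuous_const).inter (open_hasRel M).isClosed_compl
  refine (isCompact_Icc (a := fun _ : Fin n => (-1 : ℝ)) (b := fun _ => (1 : ℝ))).of_isClosed_subset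
    hcl ?_
  rintro χ ⟨hχ, -⟩
  have h1 : ∀ i, χ i ^ 2 ≤ 1 := by
    intro i
    have h2 : dt χ χ = 1 := by
      have := hχ
      unfold nrm at this
      rw [Real.sqrt_eq_one] at this
      exact this
    rw [← h2]
    unfold dt
    rw [sq]
    exact Finset.single_le_sum (f := fun i => χ i * χ i) (fun i _ => mul_self_nonneg _)
      (Finset.mem_univ i)
  constructor
  · intro i
    exact (abs_le_one_iff_mul_self_le_one.mpr (by have := h1 i; nlinarith) |> abs_le.mp).1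
  · intro i
    exact (abs_le_one_iff_mul_self_le_one.mpr (by have := h1 i; nlinarith) |> abs_le.mp).2

theorem nrm_pos_of_ne {x : Fin n → ℝ} (hx : x ≠ 0) : 0 < nrm x := by
  rw [M4b.nrm_eq]
  rw [norm_pos_iff]
  intro h
  apply hx
  have := congrArg (WithLp.ofLp) h
  simpa using this

theorem one_k (M : Type) [AddCommGroup M] [Module (R n) M] (m : ℕ) (ht : MTame n M m)
    (k : ℕ) (hk : k ≤ m) :
    ∃ δ : ℝ, 0 < δ ∧ ∀ χ : Fin k → Fin n → ℝ,
      (∀ i, nrm (χ i) = 1 ∧ ¬ HasRel M (χ i)) → ∀ μ : Fin k → ℝ, (∀ i, 0 ≤ μ i) →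
        ∑ i, μ i = 1 → δ ≤ nrm (∑ i, μ i • χ i) := by
  set Z : Set ((Fin k → Fin n → ℝ) × (Fin k → ℝ)) :=
    (Set.univ.pi fun _ => K (n := n) M) ×ˢ stdSimplex ℝ (Fin k) with hZ
  have hZc : IsCompact Z :=
    (isCompact_univ_pi fun _ => compact_K M).prod (isCompact_stdSimplex ℝ (Fin k))
  set f : ((Fin k → Fin n → ℝ) × (Fin k → ℝ)) → ℝ := fun z => nrm (∑ i, z.2 i • z.1 i) with hf
  have hfc : Continuous f := by
    refine cont_nrm.comp ?_
    fun_prop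
  rcases Z.eq_empty_or_nonempty with h | h
  · refine ⟨1, one_pos, fun χ hχ μ hμ hμ1 => ?_⟩
    exfalso
    have : (χ, μ) ∈ Z := by
      rw [hZ]
      exact ⟨fun i _ => hχ i, hμ, hμ1⟩
    rw [h] at this
    exact this
  · obtain ⟨z, hz, hmin⟩ := hZc.exists_isMinOn h hfc.continuousOn
    refine ⟨f z, ?_, fun χ hχ μ hμ hμ1 => ?_⟩
    · apply nrm_pos_of_ne
      intro h0
      have hz1 : ∀ i, z.1 i ∈ K (n := n) M := fun i => hz.1 i (Set.mem_univ i)
      refine ht k hk z.1 (fun i => ⟨?_, (hz1 i).2⟩) ⟨z.2, hz.2.1, ?_, h0⟩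
      · intro h1
        have h2 := (hz1 i).1
        rw [h1, M4b.nrm_zero] at h2
        exact one_ne_zero h2.symm
      · by_contra hcon
        push Not at hcon
        have h3 : ∑ i, z.2 i = 1 := hz.2.2
        rw [Finset.sum_eq_zero fun i _ => hcon i] at h3
        exact one_ne_zero h3.symm
    · have : (χ, μ) ∈ Z := ⟨fun i _ => hχ i, hμ, hμ1⟩
      exact hmin this

end M3

/-- M3: the compactness constant. -/
theorem M3_delta {n : ℕ} (M : Type) [AddCommGroup M] [Module (R n) M] (m : ℕ)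
    (ht : MTame n M m) :
    ∃ δ : ℝ, 0 < δ ∧ δ ≤ 1 ∧ ∀ k, 1 ≤ k → k ≤ m → ∀ χ : Fin k → Fin n → ℝ,
      (∀ i, nrm (χ i) = 1 ∧ ¬ HasRel M (χ i)) → ∀ μ : Fin k → ℝ, (∀ i, 0 ≤ μ i) →
        ∑ i, μ i = 1 → δ ≤ nrm (∑ i, μ i • χ i) := by
  have h : ∀ k, ∃ δ : ℝ, 0 < δ ∧ (1 ≤ k → k ≤ m → ∀ χ : Fin k → Fin n → ℝ,
      (∀ i, nrm (χ i) = 1 ∧ ¬ HasRel M (χ i)) → ∀ μ : Fin k → ℝ, (∀ i, 0 ≤ μ i) →
        ∑ i, μ i = 1 → δ ≤ nrm (∑ i, μ i • χ i)) := by
    intro k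
    by_cases hk : 1 ≤ k ∧ k ≤ m
    · obtain ⟨δ, h1, h2⟩ := M3.one_k M m ht k hk.2
      exact ⟨δ, h1, fun _ _ => h2⟩
    · exact ⟨1, one_pos, fun h1 h2 => absurd ⟨h1, h2⟩ hk⟩
  choose δ hδ0 hδ using h
  have hne : (Finset.range (m + 1)).Nonempty := ⟨0, by simp⟩
  refine ⟨min 1 ((Finset.range (m + 1)).inf' hne δ), ?_, min_le_left _ _, ?_⟩
  · rw [lt_min_iff]
    refine ⟨one_pos, ?_⟩
    rw [Finset.lt_inf'_iff]
    exact fun i _ => hδ0 i
  · intro k h1 h2 χ hχ μ hμ hμ1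
    refine le_trans ?_ (hδ k h1 h2 χ hχ μ hμ hμ1)
    refine (min_le_right _ _).trans ?_
    exact Finset.inf'_le _ (by simp; omega)

end Pool.Agent.FPmIf
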