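import Pool.Agent.Lib.MP_f973c6_al.If.Defs
import Pool.Agent.Lib.MP_f973c6_al.If.M1
import Pool.Agent.Lib.MP_f973c6_al.If.M4b

/-! Section (6a): an inert facet can be removed. -/

set_option autoImplicit false

namespace Pool.Agent.FPmIf

open M4b

theorem M4a_inert {n N : ℕ} (M : Type) [AddCommGroup M] [Module (R n) M]
    (u : Fin N → Fin n → ℤ) {p : ℕ} (a : Fin p → M) (d : Fin p → Fin N → ℤ)
    (κ : Fin N → ℤ) (D B : ℤ) (hB : 0 ≤ B) (hd : ∀ l j, |d l j| + B + 1 ≤ D) (η : ℝ)
    (hfac : ∀ w ∈ KK u (κ + fun _ => D), ∃ y : Fin n → ℝ, nrm y = 1 ∧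
      ∀ i, uv u w i ≤ -(κ i) + D → nrm (hat (rv (u i)) - y) ≤ η)
    (j : Fin N)
    (hpush : ∀ I : Finset (Fin N), j ∈ I →
      (∀ i ∈ I, nrm (hat (rv (u i)) - hat (rv (u j))) ≤ 2 * η) →
      ∃ h : R n, (∀ x : M, h • x = x) ∧ ∀ s ∈ h.coeff.support,
        (∀ i ∈ I, 1 ≤ uv u s i) ∧ ∀ i, |uv u s i| ≤ B)
    (S : Finset (Fin N)) :
    AA u a d (κ - eS S) ≤ AA u a d (κ - eS (insert j S)) := by
  classical
  unfold AA
  rw [AddSubgroup.closure_le]
  rintro x ⟨l, w, hw, rfl⟩
  by_cases hw2 : w ∈ KK u (κ - eS (insert j S) - d l)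
  · exact AddSubgroup.subset_closure ⟨l, w, hw2, rfl⟩
  have hS0 : ∀ (S : Finset (Fin N)) i, 0 ≤ eS S i ∧ eS S i ≤ 1 := by
    intro S i
    unfold eS
    split_ifs <;> simp
  have hSj : ∀ i, i ≠ j → eS (insert j S) i = eS S i := by
    intro i hi
    unfold eS
    simp [Finset.mem_insert, hi]
  have hdl : ∀ i, d l i + B + 1 ≤ D ∧ -(d l i) + B + 1 ≤ D := by
    intro i
    have h1 := hd l i
    have h2 := le_abs_self (d l i)
    have h3 := neg_le_abs (d l i)
    constructor <;> linarith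
  -- the failing coordinate is `j`
  have hwj : uv u w j < -((κ - eS (insert j S) - d l) j) := by
    by_contra hcon
    push Not at hcon
    apply hw2
    intro i
    by_cases hij : i = j
    · subst hij; exact hcon
    · have h1 := hw i
      have h2 := hSj i hij
      simp only [Pi.sub_apply] at h1 ⊢
      rw [h2]
      exact h1
  have hwD : w ∈ KK u (κ + fun _ => D) := by
    intro i
    have h1 := hw i
    have h2 := hS0 S i
    have h3 := hdl i
    simp only [Pi.sub_apply, Pi.add_apply] at h1 ⊢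
    linarith
  obtain ⟨y, hy1, hy2⟩ := hfac w hwD
  set I : Finset (Fin N) := Finset.univ.filter (fun i => uv u w i ≤ -(κ i) + D) with hI
  have hjI : j ∈ I := by
    rw [hI, Finset.mem_filter]
    refine ⟨Finset.mem_univ _, ?_⟩
    have h2 := hS0 (insert j S) j
    have h3 := hdl j
    simp only [Pi.sub_apply] at hwj
    linarith
  have hjy := hy2 j (Finset.mem_filter.mp hjI).2
  obtain ⟨h, hh1, hh2⟩ := hpush I hjI (by
    intro i hi
    have h1 := hy2 i (Finset.mem_filter.mp hi).2
    have h2 := nrm_sub_le (hat (rv (u i))) y (hat (rv (u j)))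
    rw [nrm_sub_comm y] at h2
    linarith)
  have hexp : mon w • a l =
      ∑ s ∈ h.coeff.support, (h.coeff s) • (mon (w + s) • a l) := by
    conv_lhs => rw [← hh1 (a l)]
    conv_lhs => rw [M1.expand h]
    rw [Finset.sum_smul, Finset.smul_sum]
    refine Finset.sum_congr rfl fun s _ => ?_
    rw [smul_smul]
    have : (mon w * AddMonoidAlgebra.single s (h.coeff s) : R n) =
        (h.coeff s) • mon (w + s) := by
      rw [AddMonoidAlgebra.single_mul_single, one_mul, AddMonoidAlgebra.smul_single, smul_eq_mul,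
        mul_one]
    rw [this, smul_assoc]
  rw [SetLike.mem_coe, hexp]
  refine AddSubgroup.sum_mem _ fun s hs => AddSubgroup.zsmul_mem _ ?_ _
  refine AddSubgroup.subset_closure ⟨l, w + s, ?_, rfl⟩
  obtain ⟨hs1, hs2⟩ := hh2 s hs
  intro i
  rw [M1.uv_add]
  have h1 := hw i
  have h2 := hS0 S i
  have h4 := hS0 (insert j S) i
  have h3 := hdl i
  have h5 := neg_abs_le (uv u s i)
  have h6 := hs2 i
  simp only [Pi.sub_apply, Pi.add_apply] at h1 ⊢
  by_cases hi : i ∈ I
  · have h7 := hs1 i hi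
    linarith
  · have h7 : -(κ i) + D < uv u w i := by
      by_contra hcon
      push Not at hcon
      exact hi (Finset.mem_filter.mpr ⟨Finset.mem_univ _, hcon⟩)
    linarith

end Pool.Agent.FPmIf
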