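import Pool.Agent.Lib.MP_f973c6_al.If.Defs

/-! Part (6c): far apart sets of facets are independent. -/

set_option autoImplicit false

namespace Pool.Agent.FPmIf

section norm
variable {n : ℕ}

theorem nrm_eq_norm (x : Fin n → ℝ) :
    nrm x = ‖(WithLp.toLp 2 x : EuclideanSpace ℝ (Fin n))‖ := by
  rw [EuclideanSpace.norm_eq]
  simp [nrm, dt, Real.norm_eq_abs, sq]

theorem nrm_triangle (x y : Fin n → ℝ) : nrm (x + y) ≤ nrm x + nrm y := by
  rw [nrm_eq_norm, nrm_eq_norm, nrm_eq_norm, WithLp.toLp_add]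
  exact norm_add_le _ _

theorem nrm_neg' (x : Fin n → ℝ) : nrm (-x) = nrm x := by
  simp [nrm, dt]

theorem nrm_sub_le_via (x y z : Fin n → ℝ) : nrm (x - z) ≤ nrm (x - y) + nrm (z - y) := by
  have h := nrm_triangle (x - y) (-(z - y))
  rw [nrm_neg'] at h
  have h2 : x - y + -(z - y) = x - z := by abel
  rwa [h2] at h

end norm

section modules
variable {n N : ℕ}

theorem uv_add (u : Fin N → Fin n → ℤ) (w w' : Fin n → ℤ) (j : Fin N) :
    uv u (w + w') j = uv u w j + uv u w' j := by
  simp [uv, add_mul, Finset.sum_add_distrib]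

theorem KK_add (u : Fin N → Fin n → ℤ) (k k' : Fin N → ℤ) (w w' : Fin n → ℤ)
    (hw : w ∈ KK u k) (hw' : w' ∈ KK u k') : w + w' ∈ KK u (k + k') := by
  intro j
  have h1 := hw j
  have h2 := hw' j
  rw [uv_add, Pi.add_apply]
  omega

theorem KK_mono' (u : Fin N → Fin n → ℤ) {k k' : Fin N → ℤ} (h : k ≤ k') :
    KK u k ⊆ KK u k' := by
  intro w hw j
  exact le_trans (neg_le_neg (h j)) (hw j)

/-- The additive subgroup `F(k)`. -/
def FF {p : ℕ} (u : Fin N → Fin n → ℤ) (g : Fin p → Fin N → ℤ) (k : Fin N → ℤ) :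
    AddSubgroup (Fin p → R n) where
  carrier := {f | InF u g k f}
  zero_mem' := by
    intro s w hw
    simp at hw
  add_mem' := by
    intro f f' hf hf' s w hw
    rcases em (w ∈ (f s).coeff.support) with h | h
    · exact hf s w h
    · rcases em (w ∈ (f' s).coeff.support) with h' | h'
      · exact hf' s w h'
      · exfalso
        simp only [Pi.add_apply, AddMonoidAlgebra.coeff_add, Finsupp.mem_support_iff,
          Finsupp.add_apply, not_not] at h h' hw
        rw [h, h', add_zero] at hw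
        exact hw rfl
  neg_mem' := by
    intro f hf s w hw
    refine hf s w ?_
    simpa [AddMonoidAlgebra.coeff_neg] using hw

theorem mem_FF {p : ℕ} (u : Fin N → Fin n → ℤ) (g : Fin p → Fin N → ℤ) (k : Fin N → ℤ)
    (f : Fin p → R n) : f ∈ FF u g k ↔ InF u g k f := Iff.rfl

theorem InF_mono {p : ℕ} (u : Fin N → Fin n → ℤ) (g : Fin p → Fin N → ℤ) {k k' : Fin N → ℤ}
    (h : k ≤ k') (f : Fin p → R n) (hf : InF u g k f) : InF u g k' f := by
  intro s w hw
  refine KK_mono' u ?_ (hf s w hw)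
  intro j
  have h1 : k j ≤ k' j := h j
  simp only [Pi.sub_apply]
  omega

theorem InF_mon_smul {p : ℕ} (u : Fin N → Fin n → ℤ) (g : Fin p → Fin N → ℤ)
    (k b : Fin N → ℤ) (f : Fin p → R n) (hf : InF u g b f) (w : Fin n → ℤ)
    (hw : w ∈ KK u (k - b)) : InF u g k (mon w • f) := by
  classical
  intro s x hx
  rw [Pi.smul_apply, smul_eq_mul] at hx
  have hx2 := AddMonoidAlgebra.support_coeff_single_mul_subset (f s) (1 : ℤ) w hx
  rw [Finset.mem_image] at hx2
  obtain ⟨y, hy, rfl⟩ := hx2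
  have := KK_add u _ _ w y hw (hf s y hy)
  have h2 : k - b + (b - g s) = k - g s := by abel
  rwa [h2] at this

variable {M : Type} [AddCommGroup M] [Module (R n) M]

theorem single_smul_eq (w : Fin n → ℤ) (c : ℤ) (x : M) :
    (AddMonoidAlgebra.single w c : R n) • x = c • ((mon w : R n) • x) := by
  have : (AddMonoidAlgebra.single w c : R n) = c • (mon w : R n) := by
    rw [AddMonoidAlgebra.smul_single]
    simp
  rw [this, smul_assoc]

theorem mem_AA_iff {p : ℕ} (u : Fin N → Fin n → ℤ) (a : Fin p → M) (d : Fin p → Fin N → ℤ)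
    (k : Fin N → ℤ) (x : M) :
    x ∈ AA u a d k ↔ ∃ f : Fin p → R n, InF u d k f ∧ ∑ s, f s • a s = x := by
  classical
  constructor
  · intro hx
    unfold AA at hx
    induction hx using AddSubgroup.closure_induction with
    | mem x hx =>
      obtain ⟨l, w, hw, rfl⟩ := hx
      refine ⟨Pi.single l (mon w), ?_, ?_⟩
      · intro s y hy
        rcases eq_or_ne s l with h | h
        · subst h
          rw [Pi.single_eq_same] at hy
          have := Finsupp.support_single_subset hy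
          rw [Finset.mem_singleton] at this
          rw [this]
          exact hw
        · rw [Pi.single_eq_of_ne h] at hy
          simp at hy
      · rw [Finset.sum_eq_single l]
        · rw [Pi.single_eq_same]
        · intro s _ h
          rw [Pi.single_eq_of_ne h, zero_smul]
        · intro h
          exact absurd (Finset.mem_univ l) h
    | zero =>
      refine ⟨0, (FF u d k).zero_mem, ?_⟩
      simp
    | add x y _ _ hx hy =>
      obtain ⟨f, hf, rfl⟩ := hx
      obtain ⟨f', hf', rfl⟩ := hy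
      refine ⟨f + f', (FF u d k).add_mem hf hf', ?_⟩
      simp [add_smul, Finset.sum_add_distrib]
    | neg x _ hx =>
      obtain ⟨f, hf, rfl⟩ := hx
      refine ⟨-f, (FF u d k).neg_mem hf, ?_⟩
      simp
  · rintro ⟨f, hf, rfl⟩
    refine AddSubgroup.sum_mem _ fun s _ => ?_
    have h1 : f s • a s = (f s).coeff.sum fun w c => c • ((mon w : R n) • a s) := by
      conv_lhs => rw [← AddMonoidAlgebra.sum_coeff_single (f s)]
      rw [Finsupp.sum, Finset.sum_smul, Finsupp.sum]
      exact Finset.sum_congr rfl fun w _ => single_smul_eq w _ _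
    rw [h1]
    refine AddSubgroup.sum_mem _ fun w hw => ?_
    refine AddSubgroup.zsmul_mem _ ?_ _
    exact AddSubgroup.subset_closure ⟨s, w, hf s w hw, rfl⟩

/-- The relation subgroup. -/
def RelG {p : ℕ} (a : Fin p → M) : AddSubgroup (Fin p → R n) where
  carrier := {g | ∑ s, g s • a s = 0}
  zero_mem' := by simp
  add_mem' := by
    intro f f' hf hf'
    simp only [Set.mem_ofPred_eq, Pi.add_apply, add_smul, Finset.sum_add_distrib] at *
    rw [hf, hf', add_zero]
  neg_mem' := by
    intro f hf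
    simp only [Set.mem_ofPred_eq, Pi.neg_apply, neg_smul, Finset.sum_neg_distrib] at *
    rw [hf, neg_zero]

/-- A point near a facet of `S1` and near a facet of `S2` does not exist. -/
theorem split_KK (u : Fin N → Fin n → ℤ) (D : ℤ) (κ : Fin N → ℤ) (η : ℝ)
    (hfac : ∀ w ∈ KK u (κ + fun _ => D), ∃ y : Fin n → ℝ, nrm y = 1 ∧
      ∀ i, uv u w i ≤ -(κ i) + D → nrm (hat (rv (u i)) - y) ≤ η)
    (S1 S2 : Finset (Fin N))
    (hS : ∀ i ∈ S1, ∀ j ∈ S2, 2 * η < nrm (hat (rv (u i)) - hat (rv (u j))))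
    (b : Fin N → ℤ) (hb : ∀ j, |b j| ≤ D) (w : Fin n → ℤ) (hw : w ∈ KK u (κ - b)) :
    w ∈ KK u (κ - eS S1 - b) ∨ w ∈ KK u (κ - eS S2 - b) := by
  by_contra hcon
  rw [not_or] at hcon
  obtain ⟨h1, h2⟩ := hcon
  have key : ∀ S : Finset (Fin N), w ∉ KK u (κ - eS S - b) →
      ∃ i ∈ S, uv u w i ≤ -(κ i) + D := by
    intro S h
    have h' : ∃ i, uv u w i < -((κ - eS S - b) i) := by
      by_contra h3
      push Not at h3
      exact h h3
    obtain ⟨i, hi⟩ := h'
    have hwi := hw i
    have hbi := abs_le.mp (hb i)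
    simp only [Pi.sub_apply, eS] at hi hwi
    by_cases hiS : i ∈ S
    · rw [if_pos hiS] at hi
      exact ⟨i, hiS, by omega⟩
    · rw [if_neg hiS] at hi
      omega
  obtain ⟨i, hi, hi2⟩ := key S1 h1
  obtain ⟨j, hj, hj2⟩ := key S2 h2
  have hwD : w ∈ KK u (κ + fun _ => D) := by
    intro l
    have hwl := hw l
    have hbl := abs_le.mp (hb l)
    simp only [Pi.sub_apply, Pi.add_apply] at hwl ⊢
    omega
  obtain ⟨y, -, hy⟩ := hfac w hwD
  have h3 := hy i hi2
  have h4 := hy j hj2
  have h5 := nrm_sub_le_via (hat (rv (u i))) y (hat (rv (u j)))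
  have h6 := hS i hi j hj
  linarith

/-- Part (6c) of the dichotomy. -/
theorem M4c_split (M : Type) [AddCommGroup M] [Module (R n) M]
    (u : Fin N → Fin n → ℤ) {p : ℕ} (a : Fin p → M) (d : Fin p → Fin N → ℤ) {q : ℕ}
    (rel : Fin q → Fin p → R n) (b : Fin q → Fin N → ℤ)
    (hrel : ∀ l, ∑ s, rel l s • a s = 0 ∧ InF u d (b l) (rel l))
    (hspan : ∀ k, ∀ f : Fin p → R n, ∑ s, f s • a s = 0 → InF u d k f →
      f ∈ AddSubgroup.closure {x | ∃ l, ∃ w ∈ KK u (k - b l), x = mon w • rel l})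
    (D : ℤ) (hd : ∀ l j, |d l j| ≤ D) (hb : ∀ l j, |b l j| ≤ D) (κ : Fin N → ℤ) (η : ℝ)
    (hfac : ∀ w ∈ KK u (κ + fun _ => D), ∃ y : Fin n → ℝ, nrm y = 1 ∧
      ∀ i, uv u w i ≤ -(κ i) + D → nrm (hat (rv (u i)) - y) ≤ η)
    (S1 S2 : Finset (Fin N))
    (hS : ∀ i ∈ S1, ∀ j ∈ S2, 2 * η < nrm (hat (rv (u i)) - hat (rv (u j)))) :
    AA u a d κ ≤ AA u a d (κ - eS S1) ⊔ AA u a d (κ - eS S2) ∧
    AA u a d (κ - eS S1) ⊓ AA u a d (κ - eS S2) ≤ AA u a d (κ - eS (S1 ∪ S2)) := by
  constructor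
  · unfold AA
    rw [AddSubgroup.closure_le]
    rintro x ⟨l, w, hw, rfl⟩
    rcases split_KK u D κ η hfac S1 S2 hS (d l) (hd l) w hw with h | h
    · exact (le_sup_left : AddSubgroup.closure _ ≤ _) (AddSubgroup.subset_closure ⟨l, w, h, rfl⟩)
    · exact (le_sup_right : AddSubgroup.closure _ ≤ _) (AddSubgroup.subset_closure ⟨l, w, h, rfl⟩)
  · intro x hx
    obtain ⟨h1, h2⟩ := AddSubgroup.mem_inf.mp hx
    obtain ⟨f, hf, hfx⟩ := (mem_AA_iff u a d _ x).mp h1
    obtain ⟨f', hf', hfx'⟩ := (mem_AA_iff u a d _ x).mp h2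
    have hle : ∀ S : Finset (Fin N), κ - eS S ≤ κ := by
      intro S j
      simp only [Pi.sub_apply, eS]
      split_ifs <;> omega
    have hdiff : f - f' ∈ AddSubgroup.closure
        {x | ∃ l, ∃ w ∈ KK u (κ - b l), x = mon w • rel l} := by
      refine hspan κ (f - f') ?_ ?_
      · simp only [Pi.sub_apply, sub_smul, Finset.sum_sub_distrib]
        rw [hfx, hfx', sub_self]
      · exact (FF u d κ).sub_mem (InF_mono u d (hle S1) f hf) (InF_mono u d (hle S2) f' hf')
    have hsup : AddSubgroup.closure {x | ∃ l, ∃ w ∈ KK u (κ - b l), x = mon w • rel l} ≤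
        AddSubgroup.closure {x | ∃ l, ∃ w ∈ KK u (κ - eS S1 - b l), x = mon w • rel l} ⊔
        AddSubgroup.closure {x | ∃ l, ∃ w ∈ KK u (κ - eS S2 - b l), x = mon w • rel l} := by
      rw [AddSubgroup.closure_le]
      rintro x ⟨l, w, hw, rfl⟩
      rcases split_KK u D κ η hfac S1 S2 hS (b l) (hb l) w hw with h | h
      · exact (le_sup_left : AddSubgroup.closure _ ≤ _)
          (AddSubgroup.subset_closure ⟨l, w, h, rfl⟩)
      · exact (le_sup_right : AddSubgroup.closure _ ≤ _)
          (AddSubgroup.subset_closure ⟨l, w, h, rfl⟩)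
    obtain ⟨g1, hg1, g2, hg2, hg⟩ := AddSubgroup.mem_sup.mp (hsup hdiff)
    have hF : ∀ S : Finset (Fin N), AddSubgroup.closure
        {x | ∃ l, ∃ w ∈ KK u (κ - eS S - b l), x = mon w • rel l} ≤ FF u d (κ - eS S) := by
      intro S
      rw [AddSubgroup.closure_le]
      rintro x ⟨l, w, hw, rfl⟩
      exact InF_mon_smul u d (κ - eS S) (b l) (rel l) (hrel l).2 w hw
    have hg1F : InF u d (κ - eS S1) g1 := hF S1 hg1
    have hg2F : InF u d (κ - eS S2) g2 := hF S2 hg2
    have hR : AddSubgroup.closure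
        {x | ∃ l, ∃ w ∈ KK u (κ - eS S1 - b l), x = mon w • rel l} ≤ RelG a := by
      rw [AddSubgroup.closure_le]
      rintro x ⟨l, w, _, rfl⟩
      change ∑ s, (mon w • rel l) s • a s = 0
      have : ∑ s, (mon w • rel l) s • a s = (mon w : R n) • ∑ s, rel l s • a s := by
        rw [Finset.smul_sum]
        exact Finset.sum_congr rfl fun s _ => by
          rw [Pi.smul_apply, smul_eq_mul, mul_smul]
      rw [this, (hrel l).1, smul_zero]
    have hg1rel : ∑ s, g1 s • a s = 0 := hR hg1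
    rw [mem_AA_iff]
    refine ⟨f - g1, ?_, ?_⟩
    · have e : f - g1 = f' + g2 := by
        rw [sub_eq_iff_eq_add]
        have : f = f' + (f - f') := by abel
        rw [this, ← hg]
        abel
      have i1 : InF u d (κ - eS S1) (f - g1) := (FF u d _).sub_mem hf hg1F
      have i2 : InF u d (κ - eS S2) (f - g1) := by
        rw [e]
        exact (FF u d _).add_mem hf' hg2F
      intro s w hw j
      have j1 := i1 s w hw j
      have j2 := i2 s w hw j
      simp only [Pi.sub_apply, eS, Finset.mem_union] at j1 j2 ⊢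
      by_cases hj1 : j ∈ S1
      · simpa [hj1] using j1
      · simpa [hj1] using j2
    · simp only [Pi.sub_apply, sub_smul, Finset.sum_sub_distrib]
      rw [hfx, hg1rel, sub_zero]

end modules

end Pool.Agent.FPmIf
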