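import Pool.Agent.Lib.MP_f973c6_al.If.Defs
import Pool.Agent.Lib.MP_f973c6_al.If.M1
import Pool.Agent.Lib.MP_f973c6_al.If.M2
import Pool.Agent.Lib.MP_f973c6_al.If.M3
import Pool.Agent.Lib.MP_f973c6_al.If.G3
import Pool.Agent.Lib.MP_f973c6_al.If.M4a
import Pool.Agent.Lib.MP_f973c6_al.If.M4b
import Pool.Agent.Lib.MP_f973c6_al.If.M4c
import Pool.Agent.Lib.MP_f973c6_al.If.M4conv

/-! Section 6: the dichotomy at one critical level (assembly of M1, M2, M3, G3, 6a, 6b, 6c). -/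

set_option autoImplicit false

namespace Pool.Agent.FPmIf

open M4b

/-- M4: the dichotomy (6a)-(6c). -/
theorem M4_dich {n : ℕ} (hn : 1 ≤ n) (M : Type) [AddCommGroup M] [Module (R n) M] (m : ℕ)
    (ht : MTame n M m) :
    ∃ ε : ℝ, 0 < ε ∧ ε < 1 / 100 ∧ ∀ (N : ℕ) (u : Fin N → Fin n → ℤ) (c : Fin N → ℝ),
      Dirs n N ε u c → ∀ (p : ℕ) (a : Fin p → M) (d : Fin p → Fin N → ℤ),
        ∃ ρ1 : ℝ, ∀ ρ ≥ ρ1, ∀ v, ∀ C, IsBase u C →
          Dich m (AA u a d) (kap u c ρ v) C := by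
  classical
  obtain ⟨δ, hδ0, hδ1, hδ⟩ := M3_delta M m ht
  have hn' : (1 : ℝ) ≤ n := by exact_mod_cast hn
  set η : ℝ := δ / (4 * n + 4) with hηdef
  have hη : 0 < η := by positivity
  have hη8 : η ≤ 1 / 8 := by
    rw [hηdef, div_le_iff₀ (by positivity)]
    linarith
  have hδη : (2 * n + 2) * η < δ := by
    have : (2 * n + 2) * η = δ / 2 := by
      rw [hηdef]
      field_simp
      ring
    linarith
  have hsq : Real.sqrt (8 * (η ^ 2 / 8)) = η := by
    rw [show 8 * (η ^ 2 / 8) = η ^ 2 by ring, Real.sqrt_sq hη.le]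
  refine ⟨η ^ 2 / 8, by positivity, by nlinarith, ?_⟩
  intro N u c hdirs p a d
  have hu : ∀ j, 0 < nrm (rv (u j)) := fun j =>
    lt_of_lt_of_le one_pos (G3.one_le_nrm hn hdirs j)
  -- the relations
  obtain ⟨q, rel, b, hrel0, hspan0⟩ := lemma3 u d (LinearMap.ker (Fintype.linearCombination (R n) a))
  have hrel : ∀ l, ∑ s, rel l s • a s = 0 ∧ InF u d (b l) (rel l) := by
    intro l
    refine ⟨?_, (hrel0 l).2⟩
    have := (hrel0 l).1
    rw [LinearMap.mem_ker, Fintype.linearCombination_apply] at this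
    exact this
  have hspan : ∀ k, ∀ f : Fin p → R n, ∑ s, f s • a s = 0 → InF u d k f →
      f ∈ AddSubgroup.closure {x | ∃ l, ∃ w ∈ KK u (k - b l), x = mon w • rel l} := by
    intro k f hf hf2
    refine hspan0 k f ?_ hf2
    rw [LinearMap.mem_ker, Fintype.linearCombination_apply]
    exact hf
  -- the pushing elements
  obtain ⟨hh, hhh⟩ : ∃ hh : Finset (Fin N) → R n, ∀ I,
      (∃ h : R n, (∀ x : M, h • x = x) ∧ ∀ s ∈ h.coeff.support, ∀ i ∈ I, 1 ≤ uv u s i) →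
      ((∀ x : M, hh I • x = x) ∧ ∀ s ∈ (hh I).coeff.support, ∀ i ∈ I, 1 ≤ uv u s i) := by
    have : ∀ I : Finset (Fin N), ∃ h0 : R n,
        (∃ h : R n, (∀ x : M, h • x = x) ∧ ∀ s ∈ h.coeff.support, ∀ i ∈ I, 1 ≤ uv u s i) →
        ((∀ x : M, h0 • x = x) ∧ ∀ s ∈ h0.coeff.support, ∀ i ∈ I, 1 ≤ uv u s i) := by
      intro I
      by_cases h : ∃ h : R n, (∀ x : M, h • x = x) ∧
          ∀ s ∈ h.coeff.support, ∀ i ∈ I, 1 ≤ uv u s i
      · obtain ⟨h0, hp⟩ := h
        exact ⟨h0, fun _ => hp⟩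
      · exact ⟨0, fun h' => absurd h' h⟩
    choose hh hhh using this
    exact ⟨hh, hhh⟩
  set B : ℤ := ∑ I : Finset (Fin N), ∑ s ∈ (hh I).coeff.support, ∑ i, |uv u s i| with hB
  have hBI : ∀ I, ∀ s ∈ (hh I).coeff.support, ∀ i, |uv u s i| ≤ B := by
    intro I s hs i
    have h1 : |uv u s i| ≤ ∑ i, |uv u s i| :=
      Finset.single_le_sum (f := fun i => |uv u s i|) (fun i _ => abs_nonneg _)
        (Finset.mem_univ i)
    have h2 : ∑ i, |uv u s i| ≤ ∑ s ∈ (hh I).coeff.support, ∑ i, |uv u s i| :=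
      Finset.single_le_sum (f := fun s => ∑ i, |uv u s i|)
        (fun s _ => Finset.sum_nonneg fun i _ => abs_nonneg _) hs
    have h3 : ∑ s ∈ (hh I).coeff.support, ∑ i, |uv u s i| ≤ B :=
      Finset.single_le_sum (f := fun I => ∑ s ∈ (hh I).coeff.support, ∑ i, |uv u s i|)
        (fun I _ => Finset.sum_nonneg fun s _ => Finset.sum_nonneg fun i _ => abs_nonneg _)
        (Finset.mem_univ I)
    linarith
  have hB0 : 0 ≤ B := Finset.sum_nonneg fun I _ =>
    Finset.sum_nonneg fun s _ => Finset.sum_nonneg fun i _ => abs_nonneg _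
  set Dd : ℤ := ∑ l, ∑ i, |d l i| with hDd
  set Db : ℤ := ∑ l, ∑ i, |b l i| with hDb
  have hDd0 : 0 ≤ Dd := Finset.sum_nonneg fun l _ => Finset.sum_nonneg fun i _ => abs_nonneg _
  have hDb0 : 0 ≤ Db := Finset.sum_nonneg fun l _ => Finset.sum_nonneg fun i _ => abs_nonneg _
  have hdl : ∀ l i, |d l i| ≤ Dd := by
    intro l i
    have h1 : |d l i| ≤ ∑ i, |d l i| :=
      Finset.single_le_sum (f := fun i => |d l i|) (fun i _ => abs_nonneg _) (Finset.mem_univ i)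
    have h2 : ∑ i, |d l i| ≤ Dd :=
      Finset.single_le_sum (f := fun l => ∑ i, |d l i|)
        (fun l _ => Finset.sum_nonneg fun i _ => abs_nonneg _) (Finset.mem_univ l)
    linarith
  have hbl : ∀ l i, |b l i| ≤ Db := by
    intro l i
    have h1 : |b l i| ≤ ∑ i, |b l i| :=
      Finset.single_le_sum (f := fun i => |b l i|) (fun i _ => abs_nonneg _) (Finset.mem_univ i)
    have h2 : ∑ i, |b l i| ≤ Db :=
      Finset.single_le_sum (f := fun l => ∑ i, |b l i|)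
        (fun l _ => Finset.sum_nonneg fun i _ => abs_nonneg _) (Finset.mem_univ l)
    linarith
  set D : ℤ := Dd + Db + B + 1 with hD
  obtain ⟨ρ1, hρ1⟩ := G3_facets hn (by positivity : (0 : ℝ) < η ^ 2 / 8) (by nlinarith) hdirs D
  refine ⟨ρ1, fun ρ hρ v C hC => ?_⟩
  have hfac := hρ1 ρ hρ v
  rw [hsq] at hfac
  by_cases hin : ∃ j ∈ C, ∀ χ : Fin n → ℝ, nrm χ = 1 →
      nrm (χ - hat (rv (u j))) ≤ 2 * η → HasRel M χ
  · left
    obtain ⟨j, hj, hjin⟩ := hin
    refine ⟨j, hj, fun S _ => ?_⟩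
    refine M4a_inert M u a d _ D B hB0 (fun l i => ?_) η hfac j (fun I hjI hI => ?_) S
    · have := hdl l i
      linarith
    · have hex := hhh I (M2_push M u I
        (fun α hα hα1 => conv_rel M hη (by linarith) u hu j I hI hjin α hα hα1))
      exact ⟨hh I, hex.1, fun s hs => ⟨hex.2 s hs, hBI I s hs⟩⟩
  · right
    push Not at hin
    obtain ⟨cl, hcl1, hcl2⟩ := M4b_clusters M m δ η hη hδη hδ u C hC (fun j _ => hu j)
      (fun j hj => by
        obtain ⟨χ, h1, h2, h3⟩ := hin j hj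
        exact ⟨χ, h1, h3, h2⟩)
    refine ⟨cl, hcl1, fun S1 hS1 S2 hS2 hS => ?_⟩
    refine M4c_split M u a d rel b hrel hspan D (fun l i => ?_) (fun l i => ?_) _ η hfac S1 S2
      (fun i hi j hj => hcl2 i (hS1 hi) j (hS2 hj) (hS i hi j hj))
    · have := hdl l i
      linarith
    · have := hbl l i
      linarith

end Pool.Agent.FPmIf
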