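import Pool.Agent.Lib.MP_f973c6_al.If.Defs
import Pool.Agent.Lib.MP_f973c6_al.IfX.Desc

/-! Part X: the complex of a system is exact at level `ρs` in degrees `< m` (7a)-(7c). -/

set_option autoImplicit false

namespace Pool.Agent.FPmIf

open Finset

namespace XM
variable {N : ℕ} {V : Type}

lemma eS_es (S : Finset (Fin N)) : (eS S : Fin N → ℤ) = FPX.es S := rfl

lemma eS_ev (j : Fin N) : (eS {j} : Fin N → ℤ) = FPX.ev j := by
  funext i
  simp [eS, FPX.ev]

lemma sgn_eq (j : Fin N) (S : Finset (Fin N)) : sgn j S = FPX.sgn j S := rfl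

section comps
variable (Y : Sys N V)

lemma up_comp {b k : Fin N → ℤ} (h : b ≤ k) {x0 : V} (hx0 : x0 ∈ Y.E b) :
    Y.up k {y | Y.C b x0 y} = {y | Y.C k x0 y} := by
  ext y
  constructor
  · rintro ⟨x', hx', hy⟩
    exact Y.C_trans _ _ _ _ (Y.C_mono b k h _ _ hx') hy
  · intro hy
    exact ⟨x0, Y.C_refl _ _ hx0, hy⟩

lemma comp_eq {b : Fin N → ℤ} {s : Set V} (hs : s ∈ Y.comps b) {z : V} (hz : z ∈ s) :
    z ∈ Y.E b ∧ s = {y | Y.C b z y} := by
  obtain ⟨x0, hx0, rfl⟩ := hs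
  refine ⟨Y.C_mem _ _ _ (Y.C_symm _ _ _ hz), ?_⟩
  ext y
  constructor
  · intro hy; exact Y.C_trans _ _ _ _ (Y.C_symm _ _ _ hz) hy
  · intro hy; exact Y.C_trans _ _ _ _ hz hy

lemma comp_nonempty {b : Fin N → ℤ} {s : Set V} (hs : s ∈ Y.comps b) : s.Nonempty := by
  obtain ⟨x0, hx0, rfl⟩ := hs
  exact ⟨x0, Y.C_refl _ _ hx0⟩

/-- two components with a common point are equal -/
lemma comp_unique {b : Fin N → ℤ} {s t : Set V} (hs : s ∈ Y.comps b) (ht : t ∈ Y.comps b)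
    {z : V} (hz : z ∈ s) (hz' : z ∈ t) : s = t := by
  rw [(comp_eq Y hs hz).2, (comp_eq Y ht hz').2]

lemma up_eq {b k : Fin N → ℤ} (h : b ≤ k) {s : Set V} (hs : s ∈ Y.comps b) {z : V} (hz : z ∈ s) :
    Y.up k s = {y | Y.C k z y} := by
  obtain ⟨h1, h2⟩ := comp_eq Y hs hz
  rw [h2]
  exact up_comp Y h h1

lemma up_mem {b k : Fin N → ℤ} (h : b ≤ k) {s : Set V} (hs : s ∈ Y.comps b) :
    Y.up k s ∈ Y.comps k := by
  obtain ⟨z, hz⟩ := comp_nonempty Y hs
  rw [up_eq Y h hs hz]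
  exact ⟨z, Y.E_mono _ _ h (comp_eq Y hs hz).1, rfl⟩

lemma mem_up {b k : Fin N → ℤ} (h : b ≤ k) {s : Set V} (hs : s ∈ Y.comps b) {z : V}
    (hz : z ∈ s) : z ∈ Y.up k s := by
  rw [up_eq Y h hs hz]
  exact Y.C_refl _ _ (Y.E_mono _ _ h (comp_eq Y hs hz).1)

/-- a component inside another one generates it -/
lemma up_of_sub {b k : Fin N → ℤ} (h : b ≤ k) {s t : Set V} (hs : s ∈ Y.comps b)
    (ht : t ∈ Y.comps k) (hst : s ⊆ t) : Y.up k s = t := by
  obtain ⟨z, hz⟩ := comp_nonempty Y hs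
  exact comp_unique Y (up_mem Y h hs) ht (mem_up Y h hs hz) (hst hz)

end comps

/-- the generic system -/
def gen (Y : Sys N V) (F : (Fin N → ℤ) → Prop) (hF : ∀ k k', k ≤ k' → F k → F k') :
    FPX.Sys N (Set V) where
  ok b := {s | F b ∧ s ∈ Y.comps b}
  up := Y.up
  up_ok := fun {b k s} h hs => ⟨hF _ _ h hs.1, up_mem Y h hs.2⟩
  up_self := fun {b s} hs => by
    obtain ⟨z, hz⟩ := comp_nonempty Y hs.2
    rw [up_eq Y le_rfl hs.2 hz, ← (comp_eq Y hs.2 hz).2]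
  up_up := fun {b k l s} h h' hs => by
    obtain ⟨z, hz⟩ := comp_nonempty Y hs.2
    rw [up_eq Y h' (up_mem Y h hs.2) (mem_up Y h hs.2 hz), up_eq Y (h.trans h') hs.2 hz]

section transfer
variable (Y : Sys N V) (F : (Fin N → ℤ) → Prop) (hF : ∀ k k', k ≤ k' → F k → F k')

lemma bdCell_eq (z : Cell N V) : bdCell Y z = (gen Y F hF).bd z := by
  unfold bdCell FPX.Sys.bd
  refine Finset.sum_congr rfl fun j _ => ?_
  rw [eS_ev]
  rfl

lemma bd_eq (y : Cell N V →₀ ℤ) : bd Y y = (gen Y F hF).d y := by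
  have h : bd Y = ((gen Y F hF).d : (Cell N V →₀ ℤ) →ₗ[ℤ] (Cell N V →₀ ℤ)).toAddMonoidHom := by
    refine Finsupp.addHom_ext fun z a => ?_
    have h1 : bd Y (Finsupp.single z a) = a • bdCell Y z := by
      unfold bd
      rw [Finsupp.liftAddHom_apply_single]
      rfl
    have h2 : (gen Y F hF).d (Finsupp.single z a) = a • (gen Y F hF).bd z :=
      FPX.lin_single _ _ _
    rw [h1, bdCell_eq Y F hF]
    exact h2.symm
  rw [h]
  rfl

lemma valid_eq (r : (Fin N → ℤ) → ℝ) (i : ℕ) (ρ : ℝ) :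
    Valid Y F r i ρ = (gen Y F hF).cells i (fun t => r t ≤ ρ) := by
  ext z
  constructor
  · rintro ⟨h1, h2, h3, h4⟩
    exact ⟨⟨h2, h4⟩, h1, h3⟩
  · rintro ⟨⟨h2, h4⟩, h1, h3⟩
    exact ⟨h1, h2, h3, h4⟩

lemma sub_insert_le (κ : Fin N → ℤ) (j : Fin N) (S : Finset (Fin N)) :
    κ - FPX.es (insert j S) ≤ κ - FPX.es S := by
  intro l
  simp only [Pi.sub_apply, FPX.es, mem_insert]
  by_cases h1 : l = j <;> by_cases h2 : l ∈ S <;> simp [h1, h2]
  all_goals (try split_ifs) <;> omega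

lemma sub_insert_erase_le (κ : Fin N → ℤ) (i j : Fin N) (S : Finset (Fin N)) :
    κ - FPX.es (insert j S) ≤ κ - FPX.es (insert j (S.erase i)) := by
  intro l
  simp only [Pi.sub_apply, FPX.es, mem_insert, mem_erase]
  by_cases h1 : l = j <;> by_cases h2 : l ∈ S <;> by_cases h3 : l = i <;> simp [h1, h2, h3]
  all_goals (try split_ifs) <;> omega

lemma sub_le_self' (κ : Fin N → ℤ) (S : Finset (Fin N)) : κ - FPX.es S ≤ κ := by
  intro l
  simp only [Pi.sub_apply, FPX.es]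
  split_ifs <;> omega

/-- the alternative, transferred -/
lemma alt_of (m : ℕ) (κ : Fin N → ℤ) (C : Finset (Fin N))
    (hFC : ∀ S ⊆ C, F (κ - eS S)) (hT : TAlt Y m κ C) : (gen Y F hF).Alt m κ C := by
  classical
  rcases hT with ⟨j, hj, hJ⟩ | ⟨cl, hcard, hB, hJ⟩
  · left
    refine ⟨j, fun S x => x ∩ Y.E (κ - FPX.es (insert j S)), ⟨?_, mem_singleton_self j, ?_, ?_, ?_⟩,
      ?_⟩
    · exact singleton_subset_iff.2 hj
    · intro S hS hd x hx
      have hS' : S ⊆ C.erase j := by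
        intro l hl
        refine mem_erase.2 ⟨?_, hS hl⟩
        rintro rfl
        exact Finset.disjoint_left.1 hd hl (mem_singleton_self _)
      exact ⟨hFC _ (insert_subset hj hS), hJ S hS' x hx.2⟩
    · intro S hS hd x hx
      have hS' : S ⊆ C.erase j := by
        intro l hl
        refine mem_erase.2 ⟨?_, hS hl⟩
        rintro rfl
        exact Finset.disjoint_left.1 hd hl (mem_singleton_self _)
      exact up_of_sub Y (sub_insert_le κ j S) (hJ S hS' x hx.2) hx.2 Set.inter_subset_left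
    · intro S hS hd x hx i hi
      have hS' : S ⊆ C.erase j := by
        intro l hl
        refine mem_erase.2 ⟨?_, hS hl⟩
        rintro rfl
        exact Finset.disjoint_left.1 hd hl (mem_singleton_self _)
      have h1 := hJ S hS' x hx.2
      obtain ⟨z, hz⟩ := comp_nonempty Y h1
      have hle := sub_insert_erase_le κ i j S
      have hle' : κ - FPX.es S ≤ κ - FPX.es (S.erase i) := FPX.Sys.erase_le_es i
      refine comp_unique Y (up_mem Y hle h1)
        (hJ (S.erase i) ((erase_subset i S).trans hS') _ (up_mem Y hle' hx.2))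
        (mem_up Y hle h1 hz) ⟨mem_up Y hle' hx.2 hz.1, Y.E_mono _ _ hle hz.2⟩
    · intro S hS hjS x hx
      have hS' : S.erase j ⊆ C.erase j := erase_subset_erase j hS
      have hle' : κ - FPX.es S ≤ κ - FPX.es (S.erase j) := FPX.Sys.erase_le_es j
      have h1 := hJ (S.erase j) hS' _ (up_mem Y hle' hx.2)
      have e : insert j (S.erase j) = S := insert_erase hjS
      simp only [eS_es, e] at h1
      simp only [e]
      obtain ⟨z, hz⟩ := comp_nonempty Y hx.2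
      exact comp_unique Y h1 hx.2 ⟨mem_up Y hle' hx.2 hz, (comp_eq Y hx.2 hz).1⟩ hz
  · right
    -- the labels
    have hlab : ∀ t : ℕ, ∃ j : Fin N, t ≤ m → ∃ h : t < m + 1, j ∈ C ∧
        cl j = (C.image cl).orderEmbOfCardLe hcard ⟨t, h⟩ := by
      intro t
      by_cases ht : t ≤ m
      · have h1 := Finset.orderEmbOfCardLe_mem (C.image cl) hcard ⟨t, Nat.lt_succ_of_le ht⟩
        obtain ⟨j, hj, hj'⟩ := mem_image.1 h1
        exact ⟨j, fun _ => ⟨Nat.lt_succ_of_le ht, hj, hj'⟩⟩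
      · have h1 := Finset.orderEmbOfCardLe_mem (C.image cl) hcard ⟨0, Nat.succ_pos m⟩
        obtain ⟨j, hj, hj'⟩ := mem_image.1 h1
        exact ⟨j, fun h => absurd h ht⟩
    choose jj hjj using hlab
    -- the components
    have hbeta : ∀ (t : ℕ) (x : Set V), ∃ x2 : Set V, t ≤ m → x ∈ Y.comps κ →
        x2 ∈ Y.comps (κ - FPX.es {jj t}) ∧ Y.up κ x2 = x := by
      intro t x
      by_cases h : t ≤ m ∧ x ∈ Y.comps κ
      · obtain ⟨_, hjC, _⟩ := hjj t h.1
        obtain ⟨x2, h2, h3⟩ := hB (jj t) hjC x h.2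
        exact ⟨x2, fun _ _ => ⟨h2, h3⟩⟩
      · exact ⟨∅, fun h1 h2 => absurd ⟨h1, h2⟩ h⟩
    choose β hβ using hbeta
    refine ⟨fun t => C.filter (fun i => cl i = cl (jj t)), jj,
      fun t _ x => x ∩ β t (Y.up κ x), ?_, ?_⟩
    · intro t ht
      obtain ⟨_, hjC, _⟩ := hjj t ht
      have hpos : jj t ∈ C.filter (fun i => cl i = cl (jj t)) := mem_filter.2 ⟨hjC, rfl⟩
      have hcomp : ∀ S ⊆ C, Disjoint S (C.filter (fun i => cl i = cl (jj t))) →
          ∀ x ∈ Y.comps (κ - FPX.es S),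
            x ∩ β t (Y.up κ x) ∈ Y.comps (κ - FPX.es (insert (jj t) S)) := by
        intro S hS hd x hx
        have hup : Y.up κ x ∈ Y.comps κ := up_mem Y (sub_le_self' κ S) hx
        obtain ⟨h2, h3⟩ := hβ t _ ht hup
        have h4 := hJ S hS {jj t} (singleton_subset_iff.2 hjC) (by
          intro i hi l hl he
          rw [mem_singleton] at hl
          subst hl
          exact Finset.disjoint_left.1 hd hi (mem_filter.2 ⟨hS hi, he⟩)) x hx _ h2 h3.symm
        have e : S ∪ {jj t} = insert (jj t) S := by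
          rw [Finset.union_comm]; rfl
        rw [e] at h4
        exact h4
      refine ⟨filter_subset _ _, hpos, ?_, ?_, ?_⟩
      · intro S hS hd x hx
        exact ⟨hFC _ (insert_subset hjC hS), hcomp S hS hd x hx.2⟩
      · intro S hS hd x hx
        exact up_of_sub Y (sub_insert_le κ (jj t) S) (hcomp S hS hd x hx.2) hx.2
          Set.inter_subset_left
      · intro S hS hd x hx i hi
        have h1 := hcomp S hS hd x hx.2
        obtain ⟨z, hz⟩ := comp_nonempty Y h1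
        have hle := sub_insert_erase_le κ i (jj t) S
        have hle' : κ - FPX.es S ≤ κ - FPX.es (S.erase i) := FPX.Sys.erase_le_es i
        have hupup : Y.up κ (Y.up (κ - FPX.es (S.erase i)) x) = Y.up κ x :=
          (gen Y F hF).up_up hle' (sub_le_self' κ _) hx
        have hd' : Disjoint (S.erase i) (C.filter (fun i => cl i = cl (jj t))) :=
          hd.mono_left (erase_subset i S)
        have h5 := hcomp (S.erase i) ((erase_subset i S).trans hS) hd' _ (up_mem Y hle' hx.2)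
        refine comp_unique Y (up_mem Y hle h1) h5 (mem_up Y hle h1 hz)
          ⟨mem_up Y hle' hx.2 hz.1, ?_⟩
        change z ∈ β t (Y.up κ (Y.up (κ - FPX.es (S.erase i)) x))
        rw [hupup]
        exact hz.2
    · intro t ht t' ht' hne
      rw [Finset.disjoint_left]
      intro i hi hi'
      have h1 := (mem_filter.1 hi).2
      have h2 := (mem_filter.1 hi').2
      obtain ⟨h3, _, h4⟩ := hjj t ht
      obtain ⟨h5, _, h6⟩ := hjj t' ht'
      have h7 := (h4.symm.trans (h1.symm.trans h2)).trans h6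
      have h8 := ((C.image cl).orderEmbOfCardLe hcard).injective h7
      exact hne (Fin.mk.inj_iff.1 h8)

end transfer

end XM

section complex
variable {N : ℕ} {V : Type}

/-- X: exactness at level `ρs` (7a)-(7c). -/
theorem X_main (Y : Sys N V) (m : ℕ) (F : (Fin N → ℤ) → Prop)
    (hF : ∀ k k', k ≤ k' → F k → F k')
    (r : (Fin N → ℤ) → ℝ) (hr : ∀ k k', k ≤ k' → r k ≤ r k') (ρs : ℝ)
    (hval : ∀ R1 : ℝ, {x : ℝ | ∃ k, F k ∧ r k = x ∧ x ≤ R1}.Finite)
    (hdir : ∀ k x y, x ∈ Y.E k → y ∈ Y.E k → ∃ k', k ≤ k' ∧ Y.C k' x y)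
    (Cb : (Fin N → ℤ) → Finset (Fin N)) (kp : (Fin N → ℤ) → (Fin N → ℤ))
    (hκ : ∀ k, F k → ρs < r k → k ≤ kp k ∧ (∀ j ∈ Cb k, kp k j = k j) ∧
      (∀ k' ≤ kp k, (r k' = r k ↔ ∀ j ∈ Cb k, k' j = k j) ∧
        (r k' = r k → Cb k' = Cb k ∧ kp k' = kp k)) ∧
      (∀ S ⊆ Cb k, F (kp k - eS S)) ∧ TAlt Y m (kp k) (Cb k)) :
    (1 ≤ m → ∀ z ∈ Finsupp.supported ℤ ℤ (Valid Y F r 0 ρs), z.sum (fun _ c => c) = 0 →
      ∃ y ∈ Finsupp.supported ℤ ℤ (Valid Y F r 1 ρs), bd Y y = z) ∧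
    (∀ i, i + 1 < m → ∀ z ∈ Finsupp.supported ℤ ℤ (Valid Y F r (i + 1) ρs), bd Y z = 0 →
      ∃ y ∈ Finsupp.supported ℤ ℤ (Valid Y F r (i + 2) ρs), bd Y y = z) := by
  set A := XM.gen Y F hF with hA
  have hC : ∀ ρ, ρs < ρ → A.Crit r ρ Cb kp := by
    intro ρ hρ
    have hFk : ∀ k, (A.ok k).Nonempty → F k := fun k h => h.some_mem.1
    refine ⟨hr, ?_, ?_, ?_, ?_⟩
    · intro k hk hk'
      exact (hκ k (hFk k hk) (hk' ▸ hρ)).1
    · intro k hk hk'
      exact (hκ k (hFk k hk) (hk' ▸ hρ)).2.1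
    · intro k hk hk' k' hle
      have := ((hκ k (hFk k hk) (hk' ▸ hρ)).2.2.1 k' hle).1
      rw [hk'] at this
      exact this
    · intro k hk hk' k' hle h
      exact ((hκ k (hFk k hk) (hk' ▸ hρ)).2.2.1 k' hle).2 (h.trans hk'.symm)
  have halt : ∀ ρ, ρs < ρ → ∀ κ, A.Top r ρ kp κ → A.Alt m κ (Cb κ) := by
    rintro ρ hρ κ ⟨h1, h2, h3⟩
    have h4 := hκ κ h1.some_mem.1 (h2 ▸ hρ)
    rw [h3] at h4
    exact XM.alt_of Y F hF m κ (Cb κ) h4.2.2.2.1 h4.2.2.2.2
  have hval' : ∀ R1 : ℝ, {x : ℝ | ∃ k, (A.ok k).Nonempty ∧ r k = x ∧ x ≤ R1}.Finite := by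
    intro R1
    refine (hval R1).subset ?_
    rintro x ⟨k, h1, h2⟩
    exact ⟨k, h1.some_mem.1, h2⟩
  have hm : ∀ b b' x x', x ∈ A.ok b → x' ∈ A.ok b' →
      ∃ k, b ≤ k ∧ b' ≤ k ∧ A.up k x = A.up k x' := by
    rintro b b' x x' ⟨_, hx⟩ ⟨_, hx'⟩
    obtain ⟨z, hz⟩ := XM.comp_nonempty Y hx
    obtain ⟨z', hz'⟩ := XM.comp_nonempty Y hx'
    obtain ⟨k, hk, hk'⟩ := hdir (b ⊔ b') z z'
      (Y.E_mono _ _ le_sup_left (XM.comp_eq Y hx hz).1)
      (Y.E_mono _ _ le_sup_right (XM.comp_eq Y hx' hz').1)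
    have h1 : b ≤ k := le_sup_left.trans hk
    have h2 : b' ≤ k := le_sup_right.trans hk
    refine ⟨k, h1, h2, ?_⟩
    refine XM.comp_unique Y (XM.up_mem Y h1 hx) (XM.up_mem Y h2 hx') (z := z')
      ?_ (XM.mem_up Y h2 hx' hz')
    change z' ∈ Y.up k x
    rw [XM.up_eq Y h1 hx hz]
    exact hk'
  constructor
  · intro hm1 z hz hsum
    rw [XM.valid_eq Y F hF] at hz ⊢
    obtain ⟨y, hy, hdy⟩ := FPX.Sys.exact_zero hm1 hC halt hval' hm z hz (by
      rw [← hsum]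
      simp only [FPX.Sys.aug, FPX.lin, Finsupp.lift_apply, smul_eq_mul, mul_one])
    exact ⟨y, hy, by rw [XM.bd_eq Y F hF]; exact hdy⟩
  · intro i hi z hz hdz
    rw [XM.valid_eq Y F hF] at hz ⊢
    rw [XM.bd_eq Y F hF] at hdz
    obtain ⟨y, hy, hdy⟩ := FPX.Sys.exact_pos (Nat.succ_pos i) (by omega) hC halt hval' z hz hdz
    exact ⟨y, hy, by rw [XM.bd_eq Y F hF]; exact hdy⟩

end complex

end Pool.Agent.FPmIf
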