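import Pool.Agent.Lib.MP_f973c6_al.If.Defs

/-! Xa: the boundary operator maps valid cells to valid cells and squares to zero. -/

set_option autoImplicit false

namespace Pool.Agent.FPmIf

section complex
variable {N : ℕ} {V : Type}

namespace Xa

lemma sgn_sq (j : Fin N) (S : Finset (Fin N)) : sgn j S * sgn j S = 1 := by
  unfold sgn
  rw [← mul_pow]; simp

lemma sgn_erase_of_le {i j : Fin N} (S : Finset (Fin N)) (h : i ≤ j) :
    sgn i (S.erase j) = sgn i S := by
  unfold sgn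
  congr 2
  ext a
  simp only [Finset.mem_filter, Finset.mem_erase]
  constructor
  · rintro ⟨⟨_, h1⟩, h2⟩; exact ⟨h1, h2⟩
  · rintro ⟨h1, h2⟩; exact ⟨⟨fun h3 => by subst h3; exact absurd h2 (not_lt.mpr h), h1⟩, h2⟩

lemma sgn_erase_of_lt {i j : Fin N} {S : Finset (Fin N)} (hi : i ∈ S) (h : i < j) :
    sgn j (S.erase i) = - sgn j S := by
  unfold sgn
  have h1 : (S.erase i).filter (· < j) = (S.filter (· < j)).erase i := by
    ext a
    simp only [Finset.mem_filter, Finset.mem_erase]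
    tauto
  have h2 : i ∈ S.filter (· < j) := by simp [hi, h]
  rw [h1]
  have h3 : (S.filter (· < j)).card = ((S.filter (· < j)).erase i).card + 1 := by
    rw [Finset.card_erase_of_mem h2]
    have : 0 < (S.filter (· < j)).card := Finset.card_pos.mpr ⟨i, h2⟩
    omega
  rw [h3, pow_succ]; ring

lemma sgn_anti {i j : Fin N} {S : Finset (Fin N)} (hi : i ∈ S) (hj : j ∈ S) (hij : i ≠ j) :
    sgn j S * sgn i (S.erase j) = - (sgn i S * sgn j (S.erase i)) := by
  rcases lt_or_gt_of_ne hij with h | h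
  · rw [sgn_erase_of_le S h.le, sgn_erase_of_lt hi h]; ring
  · rw [sgn_erase_of_lt hj h, sgn_erase_of_le S h.le]; ring

lemma sum_anti {A : Type} [AddCommGroup A] (h2 : ∀ a : A, a = -a → a = 0) (S : Finset (Fin N))
    (F : Fin N → Fin N → A) (h : ∀ i ∈ S, ∀ j ∈ S, i ≠ j → F i j = - F j i) :
    ∑ j ∈ S, ∑ i ∈ S.erase j, F j i = 0 := by
  have h1 : ∑ j ∈ S, ∑ i ∈ S.erase j, F j i = ∑ i ∈ S, ∑ j ∈ S.erase i, F j i := by
    apply Finset.sum_comm'
    intro x y
    simp only [Finset.mem_erase]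
    constructor
    · rintro ⟨a, b, c⟩; exact ⟨⟨fun h => b h.symm, a⟩, c⟩
    · rintro ⟨⟨a, b⟩, c⟩; exact ⟨b, fun h => a h.symm, c⟩
  have h3 : ∑ i ∈ S, ∑ j ∈ S.erase i, F j i = - ∑ i ∈ S, ∑ j ∈ S.erase i, F i j := by
    rw [← Finset.sum_neg_distrib]
    apply Finset.sum_congr rfl
    intro i hi
    rw [← Finset.sum_neg_distrib]
    apply Finset.sum_congr rfl
    intro j hj
    rw [Finset.mem_erase] at hj
    exact h j hj.2 i hi hj.1
  exact h2 _ (h1.trans h3)

lemma fs2 {α : Type} (a : α →₀ ℤ) (h : a = -a) : a = 0 := by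
  ext c
  have h4 := DFunLike.congr_fun h c
  rw [Finsupp.neg_apply] at h4
  rw [Finsupp.coe_zero, Pi.zero_apply]
  omega

lemma bd_single (Y : Sys N V) (z : Cell N V) (c : ℤ) :
    bd Y (Finsupp.single z c) = c • bdCell Y z := by
  unfold bd
  simp

lemma eS_single_apply (i j : Fin N) : (eS {i} : Fin N → ℤ) j = if j = i then 1 else 0 := by
  simp [eS]

lemma eS_nonneg (S : Finset (Fin N)) (j : Fin N) : 0 ≤ eS S j := by
  unfold eS; split_ifs <;> omega

lemma le_add_eS (k : Fin N → ℤ) (S : Finset (Fin N)) : k ≤ k + eS S := by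
  intro j
  have := eS_nonneg S j
  simp only [Pi.add_apply]; omega

lemma eS_erase {j : Fin N} {S : Finset (Fin N)} (hj : j ∈ S) :
    eS {j} + eS (S.erase j) = (eS S : Fin N → ℤ) := by
  ext i
  simp only [eS, Pi.add_apply, Finset.mem_erase, Finset.mem_singleton]
  by_cases h : i = j
  · subst h; simp [hj]
  · simp [h]

lemma eS_erase_le {j : Fin N} (S : Finset (Fin N)) :
    eS (S.erase j) ≤ (eS S : Fin N → ℤ) := by
  intro i
  simp only [eS, Finset.mem_erase]
  by_cases h : i ∈ S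
  · rw [if_pos h]; split_ifs <;> omega
  · rw [if_neg h, if_neg (fun h' => h h'.2)]

lemma up_comps (Y : Sys N V) {k k' : Fin N → ℤ} (h : k ≤ k') {s : Set V} (hs : s ∈ Y.comps k) :
    Y.up k' s ∈ Y.comps k' := by
  obtain ⟨x, hx, rfl⟩ := hs
  refine ⟨x, Y.E_mono k k' h hx, ?_⟩
  ext y
  constructor
  · rintro ⟨x', hx', hy⟩
    exact Y.C_trans k' x x' y (Y.C_mono k k' h x x' hx') hy
  · intro hy
    exact ⟨x, Y.C_refl k x hx, hy⟩

lemma up_up (Y : Sys N V) {k k' k'' : Fin N → ℤ} (h : k ≤ k') (h' : k' ≤ k'') {s : Set V}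
    (hs : s ∈ Y.comps k) : Y.up k'' (Y.up k' s) = Y.up k'' s := by
  obtain ⟨x, hx, rfl⟩ := hs
  ext y
  constructor
  · rintro ⟨x', ⟨x'', hx'', h1⟩, hy⟩
    exact ⟨x'', hx'', Y.C_trans k'' x'' x' y (Y.C_mono k' k'' h' _ _ h1) hy⟩
  · rintro ⟨x', hx', hy⟩
    refine ⟨x', ⟨x', hx', ?_⟩, hy⟩
    have h1 := Y.C_mono k k' h _ _ hx'
    exact Y.C_trans k' x' x x' (Y.C_symm k' x x' h1) h1

lemma bdCell_mem (Y : Sys N V) (F : (Fin N → ℤ) → Prop) (hF : ∀ k k', k ≤ k' → F k → F k')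
    (r : (Fin N → ℤ) → ℝ) (hr : ∀ k k', k ≤ k' → r k ≤ r k') (ρ : ℝ) (i : ℕ)
    (z : Cell N V) (hz : z ∈ Valid Y F r (i + 1) ρ) :
    bdCell Y z ∈ Finsupp.supported ℤ ℤ (Valid Y F r i ρ) := by
  obtain ⟨b, S, x⟩ := z
  obtain ⟨h1, h2, h3, h4⟩ := hz
  simp only at h1 h2 h3 h4
  unfold bdCell
  refine Submodule.sum_mem _ fun j hj => Submodule.smul_mem _ _ (Submodule.sub_mem _ ?_ ?_)
  · refine Finsupp.single_mem_supported ℤ 1 ⟨?_, ?_, ?_, ?_⟩
    · simp only
      rw [Finset.card_erase_of_mem hj, h1]; rfl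
    · exact hF b _ (le_add_eS b _) h2
    · simp only
      rw [add_assoc, eS_erase hj]; exact h3
    · exact up_comps Y (le_add_eS b _) h4
  · refine Finsupp.single_mem_supported ℤ 1 ⟨?_, h2, ?_, h4⟩
    · simp only
      rw [Finset.card_erase_of_mem hj, h1]; rfl
    · refine le_trans (hr _ _ ?_) h3
      exact add_le_add le_rfl (eS_erase_le S)

lemma bd_bdCell (Y : Sys N V) (z : Cell N V) (hz : z.2.2 ∈ Y.comps z.1) :
    bd Y (bdCell Y z) = 0 := by
  obtain ⟨b, S, x⟩ := z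
  simp only at hz
  have e1 : bd Y (bdCell Y ((b, S, x) : Cell N V)) = ∑ j ∈ S, ∑ i ∈ S.erase j,
      (sgn j S * sgn i (S.erase j)) •
        (Finsupp.single ((b + eS {j} + eS {i}, (S.erase j).erase i,
            Y.up (b + eS {j} + eS {i}) x) : Cell N V) (1:ℤ)
          - Finsupp.single ((b + eS {j}, (S.erase j).erase i, Y.up (b + eS {j}) x)
            : Cell N V) (1:ℤ)
          - Finsupp.single ((b + eS {i}, (S.erase j).erase i, Y.up (b + eS {i}) x)
            : Cell N V) (1:ℤ)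
          + Finsupp.single ((b, (S.erase j).erase i, x) : Cell N V) (1:ℤ)) := by
    unfold bdCell
    rw [map_sum]
    apply Finset.sum_congr rfl
    intro j hj
    simp only
    rw [map_zsmul, map_sub, bd_single, bd_single, one_smul, one_smul]
    unfold bdCell
    rw [← Finset.sum_sub_distrib, Finset.smul_sum]
    apply Finset.sum_congr rfl
    intro i hi
    simp only
    rw [up_up Y (le_add_eS b {j}) (le_add_eS (b + eS {j}) {i}) hz]
    rw [← smul_sub, smul_smul]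
    congr 1
    abel
  rw [e1]
  apply sum_anti fs2
  intro i hi j hj hij
  rw [sgn_anti (S := S) hj hi (Ne.symm hij)]
  rw [Finset.erase_right_comm, add_right_comm b (eS {i}) (eS {j})]
  rw [neg_smul]
  congr 2
  abel

lemma sum_bdCell (Y : Sys N V) (z : Cell N V) :
    (bdCell Y z).sum (fun _ c => c) = 0 := by
  have h : ∀ w : Cell N V →₀ ℤ, w.sum (fun _ c => c) =
      Finsupp.liftAddHom (fun _ => AddMonoidHom.id ℤ) w := by
    intro w; rw [Finsupp.liftAddHom_apply]; rfl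
  rw [h]
  unfold bdCell
  rw [map_sum]
  apply Finset.sum_eq_zero
  intro j _
  rw [map_zsmul, map_sub]
  simp

end Xa

/-- Xa: the boundary maps valid cells to valid cells and squares to zero. -/
theorem Xa_bd (Y : Sys N V) (F : (Fin N → ℤ) → Prop) (hF : ∀ k k', k ≤ k' → F k → F k')
    (r : (Fin N → ℤ) → ℝ) (hr : ∀ k k', k ≤ k' → r k ≤ r k') (ρ : ℝ) (i : ℕ) :
    (∀ z ∈ Finsupp.supported ℤ ℤ (Valid Y F r (i + 1) ρ),
      bd Y z ∈ Finsupp.supported ℤ ℤ (Valid Y F r i ρ)) ∧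
    (∀ z ∈ Finsupp.supported ℤ ℤ (Valid Y F r i ρ), bd Y (bd Y z) = 0) ∧
    (∀ z ∈ Finsupp.supported ℤ ℤ (Valid Y F r 1 ρ), (bd Y z).sum (fun _ c => c) = 0) := by
  refine ⟨?_, ?_, ?_⟩
  · intro z hz
    rw [← Finsupp.sum_single z, Finsupp.sum, map_sum]
    refine Submodule.sum_mem _ fun c hc => ?_
    rw [Xa.bd_single]
    exact Submodule.smul_mem _ _ (Xa.bdCell_mem Y F hF r hr ρ i c (hz hc))
  · intro z hz
    rw [← Finsupp.sum_single z, Finsupp.sum, map_sum, map_sum]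
    refine Finset.sum_eq_zero fun c hc => ?_
    rw [Xa.bd_single, map_zsmul, Xa.bd_bdCell Y c (hz hc).2.2.2, smul_zero]
  · intro z hz
    have h : ∀ w : Cell N V →₀ ℤ, w.sum (fun _ c => c) =
        Finsupp.liftAddHom (fun _ => AddMonoidHom.id ℤ) w := by
      intro w; rw [Finsupp.liftAddHom_apply]; rfl
    rw [h, ← Finsupp.sum_single z, Finsupp.sum, map_sum, map_sum]
    refine Finset.sum_eq_zero fun c _ => ?_
    rw [Xa.bd_single, map_zsmul, ← h, Xa.sum_bdCell, smul_zero]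

end complex

end Pool.Agent.FPmIf
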