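import Pool.Agent.Lib.MP_f973c6_al.If.G1
import Pool.Agent.Lib.MP_f973c6_al.If.G2
import Pool.Agent.Lib.MP_f973c6_al.If.G2fat
import Pool.Agent.Lib.MP_f973c6_al.If.M4
import Pool.Agent.Lib.MP_f973c6_al.If.H1
import Pool.Agent.Lib.MP_f973c6_al.If.H2
import Pool.Agent.Lib.MP_f973c6_al.If.H3
import Pool.Agent.Lib.MP_f973c6_al.If.H5
import Pool.Agent.Lib.MP_f973c6_al.If.Xa
import Pool.Agent.Lib.MP_f973c6_al.If.X_main
import Pool.Agent.Lib.MP_f973c6_al.If.FComplex
import Pool.Agent.Lib.MP_f973c6_al.If.Fup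

/-! Assembly of the core theorem. -/

set_option autoImplicit false

namespace Pool.Agent.FPmIf

open Pool.Agent.FPm (FPcond TameCond)

namespace Asm

section act
variable {n N : ℕ} {G : Type} [Group G] {M : Type} [AddCommGroup M] [Module (R n) M]

theorem asm_pr_one (X : Ext n G M) : X.pr 1 = 0 := by
  have h := X.pr_mul 1 1
  rw [mul_one] at h
  exact left_eq_add.mp h

theorem asm_pr_inv (X : Ext n G M) (g : G) : X.pr g⁻¹ = -X.pr g := by
  have h := X.pr_mul g g⁻¹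
  rw [mul_inv_cancel, (asm_pr_one X)] at h
  exact (neg_eq_of_add_eq_zero_right h.symm).symm

theorem asm_j_zero (X : Ext n G M) : X.j 0 = 1 := by
  have h := X.j_add 0 0
  rw [add_zero] at h
  exact (left_eq_mul.mp h)

theorem asm_j_neg (X : Ext n G M) (a : M) : X.j (-a) = (X.j a)⁻¹ := by
  have h := X.j_add a (-a)
  rw [add_neg_cancel, (asm_j_zero X)] at h
  exact (inv_eq_of_mul_eq_one_right h.symm).symm

theorem uv_add (u : Fin N → Fin n → ℤ) (v w : Fin n → ℤ) : uv u (v + w) = uv u v + uv u w := by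
  funext j
  simp only [uv, Pi.add_apply, add_mul, Finset.sum_add_distrib]

theorem uv_zero (u : Fin N → Fin n → ℤ) : uv u 0 = 0 := by
  funext j
  simp [uv]

theorem uv_neg (u : Fin N → Fin n → ℤ) (v : Fin n → ℤ) : uv u (-v) = -uv u v := by
  funext j
  simp only [uv, Pi.neg_apply, neg_mul, Finset.sum_neg_distrib]

theorem mem_EE_mul (X : Ext n G M) (u : Fin N → Fin n → ℤ) (k : Fin N → ℤ) (g x : G) :
    g * x ∈ EE X.pr u (k - uv u (X.pr g)) ↔ x ∈ EE X.pr u k := by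
  simp only [EE, KK, Set.mem_ofPred_eq, X.pr_mul, uv_add, Pi.sub_apply, Pi.add_apply]
  constructor
  · intro h j
    have := h j
    linarith
  · intro h j
    have := h j
    linarith

theorem Con_mul (X : Ext n G M) (u : Fin N → Fin n → ℤ) (S : Finset G) (k : Fin N → ℤ)
    (g x y : G) (h : Con S (EE X.pr u k) x y) :
    Con S (EE X.pr u (k - uv u (X.pr g))) (g * x) (g * y) := by
  refine ⟨(mem_EE_mul X u k g x).2 h.1, (mem_EE_mul X u k g y).2 h.2.1, ?_⟩
  have h3 := h.2.2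
  clear h
  induction h3 with
  | rel a b hab =>
    obtain ⟨h1, h2, s, hs, hb⟩ := hab
    refine Relation.EqvGen.rel _ _ ⟨(mem_EE_mul X u k g a).2 h1, (mem_EE_mul X u k g b).2 h2, s, hs, ?_⟩
    rw [hb, mul_assoc]
  | refl a => exact Relation.EqvGen.refl _
  | symm a b _ ih => exact Relation.EqvGen.symm _ _ ih
  | trans a b c _ _ ih1 ih2 => exact Relation.EqvGen.trans _ _ _ ih1 ih2

theorem Con_mul_iff (X : Ext n G M) (u : Fin N → Fin n → ℤ) (S : Finset G) (k : Fin N → ℤ)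
    (g x y : G) :
    Con S (EE X.pr u (k - uv u (X.pr g))) (g * x) (g * y) ↔ Con S (EE X.pr u k) x y := by
  refine ⟨fun h => ?_, Con_mul X u S k g x y⟩
  have h2 := Con_mul X u S _ g⁻¹ _ _ h
  rw [(asm_pr_inv X), uv_neg, sub_neg_eq_add, sub_add_cancel, inv_mul_cancel_left,
    inv_mul_cancel_left] at h2
  exact h2

/-- The action on cells. -/
def act (X : Ext n G M) (u : Fin N → Fin n → ℤ) (g : G) (z : Cell N G) : Cell N G :=
  (z.1 - uv u (X.pr g), z.2.1, (fun y => g * y) '' z.2.2)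

theorem act_one (X : Ext n G M) (u : Fin N → Fin n → ℤ) (z : Cell N G) : act X u 1 z = z := by
  obtain ⟨b, S, x⟩ := z
  simp [act, (asm_pr_one X), uv_zero]

theorem act_mul (X : Ext n G M) (u : Fin N → Fin n → ℤ) (g h : G) (z : Cell N G) :
    act X u (g * h) z = act X u g (act X u h z) := by
  obtain ⟨b, S, x⟩ := z
  simp only [act, X.pr_mul, uv_add, Prod.mk.injEq, Set.image_image, mul_assoc, and_true]
  abel

theorem comps_mul (X : Ext n G M) (u : Fin N → Fin n → ℤ) (S : Finset G) (k : Fin N → ℤ)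
    (g : G) (x : G) :
    (fun y => g * y) '' {y | Con S (EE X.pr u k) x y} =
      {y | Con S (EE X.pr u (k - uv u (X.pr g))) (g * x) y} := by
  ext y
  constructor
  · rintro ⟨y0, hy0, rfl⟩
    exact (Con_mul_iff X u S k g x y0).2 hy0
  · intro hy
    refine ⟨g⁻¹ * y, ?_, by simp⟩
    have : Con S (EE X.pr u (k - uv u (X.pr g))) (g * x) (g * (g⁻¹ * y)) := by
      rw [mul_inv_cancel_left]; exact hy
    exact (Con_mul_iff X u S k g x _).1 this

theorem mem_comps_mul (X : Ext n G M) (u : Fin N → Fin n → ℤ) (S : Finset G) (k : Fin N → ℤ)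
    (g : G) (s : Set G) (h : s ∈ (sys X u S).comps k) :
    (fun y => g * y) '' s ∈ (sys X u S).comps (k - uv u (X.pr g)) := by
  obtain ⟨x, hx, rfl⟩ := h
  exact ⟨g * x, (mem_EE_mul X u k g x).2 hx, comps_mul X u S k g x⟩

theorem up_mul (X : Ext n G M) (u : Fin N → Fin n → ℤ) (S : Finset G) (k : Fin N → ℤ)
    (g : G) (s : Set G) :
    (sys X u S).up (k - uv u (X.pr g)) ((fun y => g * y) '' s) =
      (fun y => g * y) '' (sys X u S).up k s := by
  ext y
  constructor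
  · rintro ⟨x, ⟨x0, hx0, rfl⟩, hy⟩
    refine ⟨g⁻¹ * y, ⟨x0, hx0, ?_⟩, by simp⟩
    have : Con S (EE X.pr u (k - uv u (X.pr g))) (g * x0) (g * (g⁻¹ * y)) := by
      rw [mul_inv_cancel_left]; exact hy
    exact (Con_mul_iff X u S k g x0 _).1 this
  · rintro ⟨y0, ⟨x0, hx0, hy0⟩, rfl⟩
    exact ⟨g * x0, ⟨x0, hx0, rfl⟩, (Con_mul_iff X u S k g x0 y0).2 hy0⟩

theorem act_valid (X : Ext n G M) (u : Fin N → Fin n → ℤ) (S : Finset G)
    (F : (Fin N → ℤ) → Prop) (hFq : ∀ k q, F k → F (k - uv u q))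
    (r : (Fin N → ℤ) → ℝ) (hrq : ∀ k q, r (k - uv u q) = r k) (i : ℕ) (ρ : ℝ) (g : G)
    (z : Cell N G) (hz : z ∈ Valid (sys X u S) F r i ρ) :
    act X u g z ∈ Valid (sys X u S) F r i ρ := by
  obtain ⟨h1, h2, h3, h4⟩ := hz
  refine ⟨h1, hFq _ _ h2, ?_, mem_comps_mul X u S _ g _ h4⟩
  have : (act X u g z).1 + eS (act X u g z).2.1 = (z.1 + eS z.2.1) - uv u (X.pr g) := by
    simp only [act]; abel
  rw [this, hrq]
  exact h3

/-- The action on valid cells. -/
@[instance_reducible]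
def MA (X : Ext n G M) (u : Fin N → Fin n → ℤ) (S : Finset G)
    (F : (Fin N → ℤ) → Prop) (hFq : ∀ k q, F k → F (k - uv u q))
    (r : (Fin N → ℤ) → ℝ) (hrq : ∀ k q, r (k - uv u q) = r k) (ρ : ℝ) (i : ℕ) :
    MulAction G {z // z ∈ Valid (sys X u S) F r i ρ} where
  smul g z := ⟨act X u g z.1, act_valid X u S F hFq r hrq i ρ g z.1 z.2⟩
  one_smul z := Subtype.ext (act_one X u z.1)
  mul_smul g h z := Subtype.ext (act_mul X u g h z.1)

theorem bdCell_act (X : Ext n G M) (u : Fin N → Fin n → ℤ) (S : Finset G) (g : G)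
    (z : Cell N G) :
    bdCell (sys X u S) (act X u g z) = Finsupp.mapDomain (act X u g) (bdCell (sys X u S) z) := by
  classical
  obtain ⟨b, T, x⟩ := z
  simp only [bdCell]
  rw [Finsupp.mapDomain_finsetSum]
  refine Finset.sum_congr rfl fun j hj => ?_
  have e1 : b - uv u (X.pr g) + eS {j} = (b + eS {j}) - uv u (X.pr g) := by abel
  rw [Finsupp.mapDomain_smul]
  congr 1
  rw [sub_eq_add_neg, sub_eq_add_neg, Finsupp.mapDomain_add, ← Finsupp.single_neg,
    ← Finsupp.single_neg, Finsupp.mapDomain_single, Finsupp.mapDomain_single]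
  simp only [act, e1, up_mul]

theorem bd_single {V : Type} (Y : Sys N V) (z : Cell N V) (c : ℤ) :
    bd Y (Finsupp.single z c) = c • bdCell Y z := by
  simp [bd]

theorem bd_act (X : Ext n G M) (u : Fin N → Fin n → ℤ) (S : Finset G) (g : G)
    (z : Cell N G →₀ ℤ) :
    bd (sys X u S) (Finsupp.mapDomain (act X u g) z) =
      Finsupp.mapDomain (act X u g) (bd (sys X u S) z) := by
  classical
  induction z using Finsupp.induction_linear with
  | zero => simp
  | add a b ha hb => rw [Finsupp.mapDomain_add, map_add, map_add, Finsupp.mapDomain_add, ha, hb]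
  | single a c =>
    rw [Finsupp.mapDomain_single, bd_single, bd_single, bdCell_act, Finsupp.mapDomain_smul]


theorem Con_of_le {S : Finset G} {E E' : Set G} (h : E ⊆ E') {x y : G} (hc : Con S E x y) :
    Con S E' x y := by
  refine ⟨h hc.1, h hc.2.1, ?_⟩
  have h3 := hc.2.2
  clear hc
  induction h3 with
  | rel a b hab => exact Relation.EqvGen.rel _ _ ⟨h hab.1, h hab.2.1, hab.2.2⟩
  | refl a => exact Relation.EqvGen.refl _
  | symm a b _ ih => exact Relation.EqvGen.symm _ _ ih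
  | trans a b c _ _ ih1 ih2 => exact Relation.EqvGen.trans _ _ _ ih1 ih2

theorem EE_mono (X : Ext n G M) (u : Fin N → Fin n → ℤ) {k k' : Fin N → ℤ} (h : k ≤ k') :
    EE X.pr u k ⊆ EE X.pr u k' := fun _ hx j => le_trans (neg_le_neg (h j)) (hx j)

theorem exists_mem_EE (X : Ext n G M) (u : Fin N → Fin n → ℤ) (x : G) :
    ∃ k, x ∈ EE X.pr u k := by
  refine ⟨fun j => -(uv u (X.pr x) j), fun j => ?_⟩
  simp

theorem exists_Con (X : Ext n G M) (u : Fin N → Fin n → ℤ) (S : Finset G)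
    (hS : Subgroup.closure (S : Set G) = ⊤) (g : G) :
    ∀ x : G, ∃ k, Con S (EE X.pr u k) x (x * g) := by
  have hg : g ∈ Subgroup.closure (S : Set G) := by rw [hS]; trivial
  induction hg using Subgroup.closure_induction with
  | mem s hs =>
    intro x
    obtain ⟨k1, h1⟩ := exists_mem_EE X u x
    obtain ⟨k2, h2⟩ := exists_mem_EE X u (x * s)
    have h1' := EE_mono X u (le_sup_left : k1 ≤ k1 ⊔ k2) h1
    have h2' := EE_mono X u (le_sup_right : k2 ≤ k1 ⊔ k2) h2
    exact ⟨k1 ⊔ k2, h1', h2', Relation.EqvGen.rel _ _ ⟨h1', h2', s, hs, rfl⟩⟩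
  | one =>
    intro x
    obtain ⟨k1, h1⟩ := exists_mem_EE X u x
    refine ⟨k1, h1, by rwa [mul_one], ?_⟩
    rw [mul_one]
    exact Relation.EqvGen.refl _
  | mul a b _ _ iha ihb =>
    intro x
    obtain ⟨k1, h1⟩ := iha x
    obtain ⟨k2, h2⟩ := ihb (x * a)
    have h1' := Con_of_le (EE_mono X u (le_sup_left : k1 ≤ k1 ⊔ k2)) h1
    have h2' := Con_of_le (EE_mono X u (le_sup_right : k2 ≤ k1 ⊔ k2)) h2
    refine ⟨k1 ⊔ k2, h1'.1, by rw [← mul_assoc]; exact h2'.2.1, ?_⟩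
    rw [← mul_assoc]
    exact Relation.EqvGen.trans _ _ _ h1'.2.2 h2'.2.2
  | inv a _ iha =>
    intro x
    obtain ⟨k1, h1⟩ := iha (x * a⁻¹)
    rw [inv_mul_cancel_right] at h1
    exact ⟨k1, h1.2.1, h1.1, Relation.EqvGen.symm _ _ h1.2.2⟩

theorem sys_dir (X : Ext n G M) (u : Fin N → Fin n → ℤ) (S : Finset G)
    (hS : Subgroup.closure (S : Set G) = ⊤) (k : Fin N → ℤ) (x y : G) :
    ∃ k', k ≤ k' ∧ (sys X u S).C k' x y := by
  obtain ⟨k1, h1⟩ := exists_Con X u S hS (x⁻¹ * y) x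
  rw [mul_inv_cancel_left] at h1
  exact ⟨k ⊔ k1, le_sup_left, Con_of_le (EE_mono X u le_sup_right) h1⟩

/-- Stabilisers. -/
theorem mem_stab (X : Ext n G M) (u : Fin N → Fin n → ℤ) (S : Finset G)
    (huinj : ∀ q, uv u q = 0 → q = 0)
    {p : ℕ} (a : Fin p → M) (d : Fin p → Fin N → ℤ)
    (hA : ∀ k, ∀ x ∈ EE X.pr u k, ∀ b : M,
      (Con S (EE X.pr u k) (X.j b * x) x ↔ b ∈ AA u a d k))
    (z : Cell N G) (hz : z.2.2 ∈ (sys X u S).comps z.1) (g : G) :
    act X u g z = z ↔ ∃ b ∈ AA u a d z.1, X.j b = g := by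
  obtain ⟨b, T, x⟩ := z
  obtain ⟨x0, hx0, hx⟩ := hz
  simp only at hx hx0
  subst hx
  simp only [act, Prod.mk.injEq, true_and]
  constructor
  · rintro ⟨h1, h2⟩
    have h3 : uv u (X.pr g) = 0 := sub_eq_self.mp h1
    have h4 := huinj _ h3
    obtain ⟨c, rfl⟩ := X.j_surj g h4
    refine ⟨c, ?_, rfl⟩
    rw [← hA b x0 hx0 c]
    have h5 : X.j c * x0 ∈ (fun y => X.j c * y) '' {y | (sys X u S).C b x0 y} :=
      ⟨x0, (sys X u S).C_refl b x0 hx0, rfl⟩
    rw [h2] at h5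
    exact (sys X u S).C_symm b _ _ h5
  · rintro ⟨c, hc, rfl⟩
    rw [← hA b x0 hx0 c] at hc
    refine ⟨by rw [X.pr_j, uv_zero, sub_zero], ?_⟩
    have h6 := comps_mul X u S b (X.j c) x0
    rw [X.pr_j, uv_zero, sub_zero] at h6
    change (fun y => X.j c * y) '' {y | Con S (EE X.pr u b) x0 y} =
      {y | Con S (EE X.pr u b) x0 y}
    rw [h6]
    ext y
    constructor
    · intro hy
      exact (sys X u S).C_trans b _ _ _ ((sys X u S).C_symm b _ _ hc) hy
    · intro hy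
      exact (sys X u S).C_trans b _ _ _ hc hy

/-- `𝒜(k)` is finitely generated. -/
theorem AA_fg {p : ℕ} (u : Fin N → Fin n → ℤ) (a : Fin p → M) (d : Fin p → Fin N → ℤ)
    (hfin : ∀ k, (KK u k).Finite) (k : Fin N → ℤ) :
    ∃ T : Finset M, AddSubgroup.closure (T : Set M) = AA u a d k := by
  classical
  refine ⟨Finset.univ.biUnion fun l => (hfin (k - d l)).toFinset.image fun w => (mon w) • a l, ?_⟩
  rw [AA]
  congr 1
  ext x
  simp only [Finset.coe_biUnion, Finset.coe_univ, Set.mem_univ, Set.iUnion_true, Finset.coe_image,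
    Set.Finite.coe_toFinset, Set.mem_iUnion, Set.mem_image, Set.mem_ofPred_eq]
  constructor
  · rintro ⟨l, w, hw, rfl⟩
    exact ⟨l, w, hw, rfl⟩
  · rintro ⟨l, w, hw, rfl⟩
    exact ⟨l, w, hw, rfl⟩

theorem map_closure_j (X : Ext n G M) (T : Set M) (b : M) (hb : b ∈ AddSubgroup.closure T) :
    X.j b ∈ Subgroup.closure (X.j '' T) := by
  induction hb using AddSubgroup.closure_induction with
  | mem x hx => exact Subgroup.subset_closure ⟨x, hx, rfl⟩
  | zero => rw [(asm_j_zero X)]; exact Subgroup.one_mem _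
  | add x y _ _ hx hy => rw [X.j_add]; exact Subgroup.mul_mem _ hx hy
  | neg x _ hx => rw [(asm_j_neg X)]; exact Subgroup.inv_mem _ hx

/-- Transitivity of `M` on components. -/
theorem comps_trans (X : Ext n G M) (u : Fin N → Fin n → ℤ) (S : Finset G)
    (hc : ∀ k, ∀ x ∈ EE X.pr u k, ∀ y ∈ EE X.pr u k,
      ∃ a : M, Con S (EE X.pr u k) (X.j a * x) y)
    (k : Fin N → ℤ) (s t : Set G) (hs : s ∈ (sys X u S).comps k)
    (ht : t ∈ (sys X u S).comps k) : ∃ a : M, (fun y => X.j a * y) '' s = t := by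
  obtain ⟨x, hx, rfl⟩ := hs
  obtain ⟨y, hy, rfl⟩ := ht
  obtain ⟨a, ha⟩ := hc k x hx y hy
  refine ⟨a, ?_⟩
  have h6 := comps_mul X u S k (X.j a) x
  rw [X.pr_j, uv_zero, sub_zero] at h6
  change (fun y => X.j a * y) '' {y | Con S (EE X.pr u k) x y} = {z | Con S (EE X.pr u k) y z}
  rw [h6]
  ext z
  constructor
  · intro hz
    exact (sys X u S).C_trans k _ _ _ ((sys X u S).C_symm k _ _ ha) hz
  · intro hz
    exact (sys X u S).C_trans k _ _ _ ha hz

end act

section transfer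
variable {N : ℕ} {V : Type} (Y : Sys N V) (F : (Fin N → ℤ) → Prop) (r : (Fin N → ℤ) → ℝ) (ρ : ℝ)

/-- Valid cells as a type. -/
abbrev VC (i : ℕ) : Type := {z : Cell N V // z ∈ Valid Y F r i ρ}

/-- The boundary on valid cells. -/
noncomputable def bdS (i : ℕ) : (VC Y F r ρ (i + 1) →₀ ℤ) →+ (VC Y F r ρ i →₀ ℤ) :=
  (Finsupp.subtypeDomainAddMonoidHom).comp
    ((bd Y).comp (Finsupp.mapDomain.addMonoidHom Subtype.val))

theorem val_subtypeDomain (i : ℕ) (f : Cell N V →₀ ℤ)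
    (hf : f ∈ Finsupp.supported ℤ ℤ (Valid Y F r i ρ)) :
    Finsupp.mapDomain Subtype.val (Finsupp.subtypeDomain (· ∈ Valid Y F r i ρ) f :
      VC Y F r ρ i →₀ ℤ) = f := by
  classical
  ext v
  by_cases hv : v ∈ Valid Y F r i ρ
  · have : v = ((⟨v, hv⟩ : VC Y F r ρ i) : Cell N V) := rfl
    rw [this, Finsupp.mapDomain_apply Subtype.val_injective, Finsupp.subtypeDomain_apply]
  · rw [Finsupp.mapDomain_of_notMem_range]
    · rw [Finsupp.mem_supported] at hf
      by_contra hne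
      exact hv (hf (Finsupp.mem_support_iff.2 (Ne.symm hne)))
    · rintro ⟨x, rfl⟩
      exact hv x.2

theorem val_mem_supported (i : ℕ) (f : VC Y F r ρ i →₀ ℤ) :
    Finsupp.mapDomain Subtype.val f ∈ Finsupp.supported ℤ ℤ (Valid Y F r i ρ) := by
  classical
  rw [Finsupp.mem_supported]
  intro v hv
  have := Finsupp.mapDomain_support hv
  obtain ⟨w, _, rfl⟩ := Finset.mem_image.1 this
  exact w.2

theorem val_inj (i : ℕ) : Function.Injective
    (Finsupp.mapDomain Subtype.val : (VC Y F r ρ i →₀ ℤ) → (Cell N V →₀ ℤ)) :=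
  Finsupp.mapDomain_injective Subtype.val_injective

theorem val_sum (i : ℕ) (f : VC Y F r ρ i →₀ ℤ) :
    (Finsupp.mapDomain Subtype.val f).sum (fun _ c => c) = f.sum (fun _ c => c) :=
  Finsupp.sum_mapDomain_index (fun _ => rfl) (fun _ _ _ => rfl)

theorem val_bdS (hF : ∀ k k', k ≤ k' → F k → F k') (hr : ∀ k k', k ≤ k' → r k ≤ r k')
    (i : ℕ) (f : VC Y F r ρ (i + 1) →₀ ℤ) :
    Finsupp.mapDomain Subtype.val (bdS Y F r ρ i f) = bd Y (Finsupp.mapDomain Subtype.val f) := by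
  have h := (Xa_bd Y F hF r hr ρ i).1 _ (val_mem_supported Y F r ρ (i + 1) f)
  exact val_subtypeDomain Y F r ρ i _ h

end transfer

section assembly

/-- The core theorem for `n ≥ 1` (assembly ASM). -/
theorem core {n : ℕ} (hn : 1 ≤ n) {G : Type} [Group G] (hG : Group.FG G) {M : Type}
    [AddCommGroup M] [Module (R n) M] (X : Ext n G M) (m : ℕ) (ht : MTame n M m) :
    FPcond G m := by
  classical
  obtain ⟨ε, hε, hε1, hD⟩ := M4_dich hn M m ht
  obtain ⟨N, u, c, hd⟩ := G1_dirs n hn ε hε (by linarith)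
  obtain ⟨r, Cb, vv, hr, hrq, hbase, hrk, hfin⟩ := G2_levels hn hε hε1 hd
  obtain ⟨hFq, ⟨R0, hR0⟩, hKfin, huinj, hρ2⟩ := G2_fat hn hε hε1 hd
  obtain ⟨S, hS, hc⟩ := H1_conn hG X u
  obtain ⟨p, a, d, hA⟩ := H2_hol X u S hS hc
  obtain ⟨ρ1, hρ1⟩ := hD N u c hd p a d
  obtain ⟨ρ2, hρ2'⟩ := hρ2 R0
  have hKne : ∀ k, Fat u c R0 k → (KK u k).Nonempty := hR0 R0 le_rfl
  have hFq' : ∀ k q, Fat u c R0 k → Fat u c R0 (k - uv u q) := fun k q => hFq R0 k q
  have hF : ∀ k k', k ≤ k' → Fat u c R0 k → Fat u c R0 k' := by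
    rintro k k' hk ⟨v, hv⟩
    exact ⟨v, hv.trans hk⟩
  obtain ⟨ρs, hs0, hs1, hs2, hs3⟩ : ∃ ρs : ℝ, R0 ≤ ρs ∧ ρ1 ≤ ρs ∧ ρ2 ≤ ρs ∧ 0 ≤ ρs :=
    ⟨max R0 (max ρ1 (max ρ2 0)), le_max_left _ _,
      le_trans (le_max_left _ _) (le_max_right _ _),
      le_trans (le_trans (le_max_left _ _) (le_max_right _ _)) (le_max_right _ _),
      le_trans (le_trans (le_max_right _ _) (le_max_right _ _)) (le_max_right _ _)⟩
  have hval : ∀ R1 : ℝ, {x : ℝ | ∃ k, Fat u c R0 k ∧ r k = x ∧ x ≤ R1}.Finite := by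
    intro R1
    obtain ⟨B, hB⟩ := hfin R0 R1
    refine (B.finite_toSet.image r).subset ?_
    rintro x ⟨k, hk, rfl, hx⟩
    obtain ⟨q, hq⟩ := hB k hk hx
    exact ⟨_, hq, hrq k q⟩
  have hdir : ∀ k x y, x ∈ (sys X u S).E k → y ∈ (sys X u S).E k →
      ∃ k', k ≤ k' ∧ (sys X u S).C k' x y := fun k x y _ _ => sys_dir X u S hS k x y
  have hκ : ∀ k, Fat u c R0 k → ρs < r k → k ≤ kap u c (r k) (vv k) ∧
      (∀ j ∈ Cb k, kap u c (r k) (vv k) j = k j) ∧
      (∀ k' ≤ kap u c (r k) (vv k), (r k' = r k ↔ ∀ j ∈ Cb k, k' j = k j) ∧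
        (r k' = r k → Cb k' = Cb k ∧ kap u c (r k') (vv k') = kap u c (r k) (vv k))) ∧
      (∀ T ⊆ Cb k, Fat u c R0 (kap u c (r k) (vv k) - eS T)) ∧
      TAlt (sys X u S) m (kap u c (r k) (vv k)) (Cb k) := by
    intro k _ hk
    have hk0 : r k ≠ 0 := by
      have : 0 < r k := lt_of_le_of_lt hs3 hk
      exact this.ne'
    obtain ⟨hb, h1, h2, h3⟩ := hbase k hk0
    have hfat : ∀ T : Finset (Fin N), Fat u c R0 (kap u c (r k) (vv k) - eS T) :=
      fun T => hρ2' (r k) (hs2.trans hk.le) (vv k) T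
    refine ⟨h1, h2, ?_, fun T _ => hfat T, ?_⟩
    · intro k' hk'
      refine ⟨(h3 k' hk').1, fun he => ?_⟩
      obtain ⟨h5, h6⟩ := (h3 k' hk').2 he
      exact ⟨h5, by rw [he, h6]⟩
    · exact H3_talt X u S hc a d hA m _ _ (fun T _ => hKne _ (hfat T))
        (hρ1 (r k) (hs1.trans hk.le) (vv k) (Cb k) hb)
  obtain ⟨hX0, hXi⟩ := X_main (sys X u S) m (Fat u c R0) hF r hr ρs hval hdir Cb
    (fun k => kap u c (r k) (vv k)) hκ
  have hXa := fun i => Xa_bd (sys X u S) (Fat u c R0) hF r hr ρs i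
  refine @F_complex G _ m (fun i => VC (sys X u S) (Fat u c R0) r ρs i)
    (fun i => MA X u S (Fat u c R0) hFq' r hrq ρs i) ?_ ?_ ?_
    (fun i => bdS (sys X u S) (Fat u c R0) r ρs i) ?_ ?_ ?_ ?_ ?_
  · -- non empty
    have hf : Fat u c R0 (kap u c R0 0) := ⟨0, le_rfl⟩
    obtain ⟨w, hw⟩ := hKne _ hf
    obtain ⟨g, hg⟩ := X.pr_surj w
    have hgE : g ∈ EE X.pr u (kap u c R0 0) := by
      change X.pr g ∈ KK u (kap u c R0 0)
      rw [hg]; exact hw
    refine ⟨⟨(kap u c R0 0, ∅, {y | (sys X u S).C (kap u c R0 0) g y}), ?_, hf, ?_,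
      ⟨g, hgE, rfl⟩⟩⟩
    · simp
    · have : (kap u c R0 0 + eS (∅ : Finset (Fin N)) : Fin N → ℤ) = kap u c R0 0 := by
        funext j; simp [eS]
      change r (kap u c R0 0 + eS (∅ : Finset (Fin N))) ≤ ρs
      rw [this]
      exact (hrk R0 0).trans hs0
  · -- finitely many orbits
    intro i _
    obtain ⟨B, hB⟩ := hfin R0 ρs
    set x0 : (Fin N → ℤ) → Set G := fun b =>
      if h : ((sys X u S).comps b).Nonempty then h.some else ∅ with hx0
    have hx0' : ∀ b, ((sys X u S).comps b).Nonempty → x0 b ∈ (sys X u S).comps b := by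
      intro b hb
      simp only [hx0, dif_pos hb]
      exact hb.some_mem
    have hfinset : {z : VC (sys X u S) (Fat u c R0) r ρs i |
        ∃ b ∈ B, ∃ T : Finset (Fin N), z.1 = (b, T, x0 b)}.Finite := by
      have h1 : Set.Finite ((fun q : (Fin N → ℤ) × Finset (Fin N) => ((q.1, q.2, x0 q.1) : Cell N G)) ''
        ((B ×ˢ (Finset.univ : Finset (Finset (Fin N))) : Finset _) : Set _)) :=
        (Finset.finite_toSet _).image _
      refine (h1.preimage (Subtype.val_injective.injOn)).subset ?_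
      rintro z ⟨b, hb, T, hz⟩
      exact ⟨(b, T), by simpa using hb, hz.symm⟩
    refine ⟨hfinset.toFinset, ?_⟩
    rintro ⟨⟨b, T, x⟩, h1, h2, h3, h4⟩
    have hb : r b ≤ ρs := by
      refine (hr b (b + eS T) ?_).trans h3
      intro j
      simp only [Pi.add_apply, eS]
      split_ifs <;> simp
    obtain ⟨q, hq⟩ := hB b h2 hb
    obtain ⟨g, hg⟩ := X.pr_surj q
    have h5 := mem_comps_mul X u S b g x h4
    rw [hg] at h5
    obtain ⟨e, he⟩ := comps_trans X u S hc _ _ _ h5 (hx0' _ ⟨_, h5⟩)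
    refine ⟨X.j e * g, ?_⟩
    rw [Set.Finite.mem_toFinset]
    refine ⟨b - uv u q, hq, T, ?_⟩
    change act X u (X.j e * g) (b, T, x) = _
    rw [act_mul]
    simp only [act, hg, X.pr_j, uv_zero, sub_zero]
    rw [he]
  · -- stabilisers
    intro i _ z
    have hst : ∀ g : G, g ∈ @MulAction.stabilizer G _ _
        (MA X u S (Fat u c R0) hFq' r hrq ρs i) z ↔ ∃ b ∈ AA u a d z.1.1, X.j b = g := by
      intro g
      rw [← mem_stab X u S huinj a d hA z.1 z.2.2.2.2 g]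
      rw [@MulAction.mem_stabilizer_iff G _ _ (MA X u S (Fat u c R0) hFq' r hrq ρs i)]
      exact Subtype.ext_iff
    refine ⟨?_, ?_⟩
    · obtain ⟨T, hT⟩ := AA_fg u a d hKfin z.1.1
      refine ⟨T.image X.j, ?_⟩
      apply le_antisymm
      · rw [Subgroup.closure_le]
        intro g hg
        rw [Finset.coe_image] at hg
        obtain ⟨b, hb, rfl⟩ := hg
        exact (hst _).2 ⟨b, by rw [← hT]; exact AddSubgroup.subset_closure hb, rfl⟩
      · intro g hg
        obtain ⟨b, hb, rfl⟩ := (hst g).1 hg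
        rw [← hT] at hb
        rw [Finset.coe_image]
        exact map_closure_j X _ b hb
    · intro g hg h hh
      obtain ⟨b, _, rfl⟩ := (hst g).1 hg
      obtain ⟨b', _, rfl⟩ := (hst h).1 hh
      rw [← X.j_add, ← X.j_add, add_comm]
  · -- equivariance
    intro i g x
    refine val_inj _ _ _ _ i ?_
    rw [val_bdS _ _ _ _ hF hr]
    have e1 : ∀ (i : ℕ) (f : VC (sys X u S) (Fat u c R0) r ρs i →₀ ℤ),
        Finsupp.mapDomain Subtype.val (Finsupp.mapDomain
          (fun y => (MA X u S (Fat u c R0) hFq' r hrq ρs i).smul g y) f) =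
        Finsupp.mapDomain (act X u g) (Finsupp.mapDomain Subtype.val f) := by
      intro i f
      rw [← Finsupp.mapDomain_comp, ← Finsupp.mapDomain_comp]
      rfl
    have e2 := e1 (i + 1) x
    have e3 := e1 i (bdS (sys X u S) (Fat u c R0) r ρs i x)
    rw [val_bdS _ _ _ _ hF hr] at e3
    refine Eq.trans ?_ e3.symm
    rw [← bd_act]
    exact congrArg _ e2
  · intro x
    rw [← val_sum, val_bdS _ _ _ _ hF hr]
    exact (hXa 0).2.2 _ (val_mem_supported _ _ _ _ 1 x)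
  · intro i x
    refine val_inj _ _ _ _ i ?_
    rw [val_bdS _ _ _ _ hF hr, val_bdS _ _ _ _ hF hr, Finsupp.mapDomain_zero]
    exact (hXa (i + 2)).2.1 _ (val_mem_supported _ _ _ _ (i + 2) x)
  · intro hm z hz
    rw [← val_sum] at hz
    obtain ⟨y, hy, hyz⟩ := hX0 hm _ (val_mem_supported _ _ _ _ 0 z) hz
    refine ⟨Finsupp.subtypeDomain (· ∈ Valid (sys X u S) (Fat u c R0) r 1 ρs) y, ?_⟩
    refine val_inj _ _ _ _ 0 ?_
    rw [val_bdS _ _ _ _ hF hr, val_subtypeDomain _ _ _ _ 1 y hy, hyz]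
  · intro i hm z hz
    have hz' : bd (sys X u S) (Finsupp.mapDomain Subtype.val z) = 0 := by
      rw [← val_bdS _ _ _ _ hF hr, hz, Finsupp.mapDomain_zero]
    obtain ⟨y, hy, hyz⟩ := hXi i hm _ (val_mem_supported _ _ _ _ (i + 1) z) hz'
    refine ⟨Finsupp.subtypeDomain (· ∈ Valid (sys X u S) (Fat u c R0) r (i + 2) ρs) y, ?_⟩
    refine val_inj _ _ _ _ (i + 1) ?_
    rw [val_bdS _ _ _ _ hF hr, val_subtypeDomain _ _ _ _ (i + 2) y hy, hyz]

/-- The case `n = 0`: a finitely generated abelian group is `FP_m`. -/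
theorem core_zero {G : Type} [Group G] (hG : Group.FG G) (hab : ∀ a b : G, a * b = b * a)
    (m : ℕ) : FPcond G m := by
  classical
  let A : ∀ i : ℕ, MulAction G (PLift (i = 0)) := fun i =>
    { smul := fun _ x => x
      one_smul := fun _ => rfl
      mul_smul := fun _ _ _ => rfl }
  refine @F_complex G _ m (fun i => PLift (i = 0)) A ⟨⟨rfl⟩⟩ ?_ ?_ (fun i => 0) ?_ ?_ ?_ ?_ ?_
  · intro i _
    by_cases hi : i = 0
    · exact ⟨{⟨hi⟩}, fun x => ⟨1, by simp [Subsingleton.elim x ⟨hi⟩]⟩⟩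
    · exact ⟨∅, fun x => absurd x.down hi⟩
  · intro i _ x
    refine ⟨?_, fun a _ b _ => hab a b⟩
    have : @MulAction.stabilizer G _ _ (A i) x = ⊤ := by
      rw [eq_top_iff]
      intro g _
      rw [@MulAction.mem_stabilizer_iff G _ _ (A i)]
      rfl
    rw [this]
    exact (Group.fg_iff.1 hG |> fun h => by
      obtain ⟨S, hS, hf⟩ := h
      exact ⟨hf.toFinset, by simpa using hS⟩)
  · intro i g x
    simp
  · intro x
    simp
  · intro i x
    simp
  · intro _ z hz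
    refine ⟨0, ?_⟩
    simp only [AddMonoidHom.zero_apply]
    symm
    ext x
    have hx : z = Finsupp.single x (z x) := by
      ext y
      rw [Subsingleton.elim y x]
      simp
    rw [hx] at hz
    rw [Finsupp.sum_single_index rfl] at hz
    simpa using hz
  · intro i _ z _
    refine ⟨0, ?_⟩
    simp only [AddMonoidHom.zero_apply]
    symm
    ext x
    exact absurd x.down (Nat.succ_ne_zero i)

end assembly

end Asm

/-- The core theorem for `n ≥ 1` (assembly ASM). -/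
theorem core {n : ℕ} (hn : 1 ≤ n) {G : Type} [Group G] (hG : Group.FG G) {M : Type}
    [AddCommGroup M] [Module (R n) M] (X : Ext n G M) (m : ℕ) (ht : MTame n M m) :
    FPcond G m := Asm.core hn hG X m ht

/-- The case `n = 0`: a finitely generated abelian group is `FP_m`. -/
theorem core_zero {G : Type} [Group G] (hG : Group.FG G) (hab : ∀ a b : G, a * b = b * a)
    (m : ℕ) : FPcond G m := Asm.core_zero hG hab m

/-- The IF half. -/
theorem main_if (G : Type) [Group G] (hG : Group.FG G) (hm : derivedSeries G 2 = ⊥) (m : ℕ)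
    (ht : TameCond G m) : FPcond G m := by
  obtain ⟨G1, n, M, i1, i2, X, h1, h2⟩ := H5_reduction G hG hm m ht
  have hG1 : Group.FG G1 := by
    have := hG
    have := h1
    exact Subgroup.fg_of_index_ne_zero G1
  refine F_up G G1 h1 m ?_
  rcases Nat.eq_zero_or_pos n with hn | hn
  · subst hn
    refine core_zero hG1 ?_ m
    intro a b
    obtain ⟨x, rfl⟩ := X.j_surj a (Subsingleton.elim _ _)
    obtain ⟨y, rfl⟩ := X.j_surj b (Subsingleton.elim _ _)
    rw [← X.j_add, ← X.j_add, add_comm]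
  · exact core hn hG1 X m h2

end Pool.Agent.FPmIf
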