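import Pool.Agent.Lib.MP_f973c6_al.If.FPn

/-! Part F2: permutation modules with finitely many orbits and finitely generated abelian
stabilizers have type `FPn` for every `n`. -/

set_option autoImplicit false

namespace Pool.Agent.FPmIf

section F2
variable {G : Type} [Group G]

/-- The inclusion of the group ring of a subgroup. -/
noncomputable def inclH (H : Subgroup G) : MonoidAlgebra ℤ H →+* MonoidAlgebra ℤ G :=
  MonoidAlgebra.mapDomainRingHom ℤ H.subtype

theorem inclH_single (H : Subgroup G) (h : H) (r : ℤ) :
    inclH H (MonoidAlgebra.single h r) = MonoidAlgebra.single (h : G) r := by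
  simp [inclH]

theorem mulInj (H : Subgroup G) (t : G) : Function.Injective (fun h : H => t * (h : G)) :=
  fun _ _ h => Subtype.ext (mul_left_cancel h)

/-- The restriction to a left coset of the subgroup. -/
noncomputable def resH (H : Subgroup G) (t : G) : MonoidAlgebra ℤ G →+ MonoidAlgebra ℤ H :=
  MonoidAlgebra.comapDomainAddMonoidHom (fun h : H => t * (h : G)) (mulInj H t)

theorem resH_coeff (H : Subgroup G) (t : G) (a : MonoidAlgebra ℤ G) (h : H) :
    (resH H t a).coeff h = a.coeff (t * h) := rfl

theorem resH_single_mem (H : Subgroup G) (t : G) (h : H) (r : ℤ) :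
    resH H t (MonoidAlgebra.single (t * h) r) = MonoidAlgebra.single h r := by
  classical
  ext k
  rw [resH_coeff]
  simp only [MonoidAlgebra.coeff_single]
  rw [Finsupp.single_apply, Finsupp.single_apply]
  congr 1
  simp

theorem resH_single_not (H : Subgroup G) (t g : G) (hg : t⁻¹ * g ∉ H) (r : ℤ) :
    resH H t (MonoidAlgebra.single g r) = 0 := by
  classical
  ext k
  rw [resH_coeff]
  simp only [MonoidAlgebra.coeff_single, MonoidAlgebra.coeff_zero, Finsupp.coe_zero, Pi.zero_apply]
  rw [Finsupp.single_apply, if_neg]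
  intro h
  apply hg
  rw [h]
  simp

theorem resH_mul (H : Subgroup G) (t : G) (a : MonoidAlgebra ℤ G) (v : MonoidAlgebra ℤ H) :
    resH H t (a * inclH H v) = resH H t a * v := by
  induction a using MonoidAlgebra.induction_linear with
  | zero => simp
  | add x y hx hy => rw [add_mul, map_add, map_add, add_mul, hx, hy]
  | single g r =>
    induction v using MonoidAlgebra.induction_linear with
    | zero => simp
    | add x y hx hy => rw [map_add, mul_add, map_add, mul_add, hx, hy]
    | single h s =>
      rw [inclH_single, MonoidAlgebra.single_mul_single]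
      by_cases hg : t⁻¹ * g ∈ H
      · have h1 : g = t * ((⟨t⁻¹ * g, hg⟩ : H) : G) := by simp
        have h2 : g * (h : G) = t * (((⟨t⁻¹ * g, hg⟩ : H) * h : H) : G) := by
          simp [mul_assoc]
        rw [h2, resH_single_mem]
        conv_rhs => rw [h1]
        rw [resH_single_mem, MonoidAlgebra.single_mul_single]
      · rw [resH_single_not H t g hg, resH_single_not H t (g * h) ?_, zero_mul]
        intro h'
        apply hg
        rw [← mul_assoc] at h'
        exact (Subgroup.mul_mem_cancel_right H h.2).mp h'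

open Classical in
theorem inclH_resH_coeff (H : Subgroup G) (t : G) (a : MonoidAlgebra ℤ G) (g : G) :
    (MonoidAlgebra.single t 1 * inclH H (resH H t a)).coeff g =
      if t⁻¹ * g ∈ H then a.coeff g else 0 := by
  induction a using MonoidAlgebra.induction_linear with
  | zero => simp
  | add x y hx hy =>
    rw [map_add, map_add, mul_add, MonoidAlgebra.coeff_add, Finsupp.add_apply, hx, hy,
      MonoidAlgebra.coeff_add, Finsupp.add_apply]
    split_ifs <;> simp
  | single g' r =>
    by_cases hg : t⁻¹ * g' ∈ H
    · have h1 : g' = t * ((⟨t⁻¹ * g', hg⟩ : H) : G) := by simp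
      conv_lhs => rw [h1]
      rw [resH_single_mem, inclH_single, MonoidAlgebra.single_mul_single, one_mul, ← h1]
      simp only [MonoidAlgebra.coeff_single, Finsupp.single_apply]
      by_cases h3 : g' = g
      · subst h3; simp [hg]
      · simp [h3]
    · rw [resH_single_not H t g' hg]
      simp only [map_zero, mul_zero, MonoidAlgebra.coeff_zero, Finsupp.coe_zero, Pi.zero_apply,
        MonoidAlgebra.coeff_single, Finsupp.single_apply]
      split_ifs with h1 h2
      · exact absurd (h2 ▸ h1) hg
      · rfl
      · rfl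

/-- Every element of the group ring is the sum of its parts on the cosets. -/
theorem sum_cosets (H : Subgroup G) (S : Finset (G ⧸ H)) (a : MonoidAlgebra ℤ G)
    (hS : ∀ g, a.coeff g ≠ 0 → (QuotientGroup.mk g : G ⧸ H) ∈ S) :
    a = ∑ c ∈ S, MonoidAlgebra.single (Quotient.out c) 1 * inclH H (resH H (Quotient.out c) a) := by
  classical
  ext g
  rw [MonoidAlgebra.coeff_sum, Finsupp.finsetSum_apply]
  simp only [inclH_resH_coeff]
  have key : ∀ c : G ⧸ H, ((Quotient.out c)⁻¹ * g ∈ H ↔ c = QuotientGroup.mk g) := by
    intro c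
    rw [← QuotientGroup.eq]
    rw [QuotientGroup.out_eq']
  simp only [key]
  rw [Finset.sum_ite_eq']
  split_ifs with h
  · rfl
  · by_contra h2
    exact h (hS g h2)

/-- The componentwise inclusion of tuples. -/
noncomputable def inclPi (H : Subgroup G) (k : ℕ) :
    (Fin k → MonoidAlgebra ℤ H) →+ (Fin k → MonoidAlgebra ℤ G) where
  toFun v i := inclH H (v i)
  map_zero' := by funext i; simp
  map_add' x y := by funext i; simp

theorem inclPi_apply (H : Subgroup G) (k : ℕ) (v : Fin k → MonoidAlgebra ℤ H) (i : Fin k) :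
    inclPi H k v i = inclH H (v i) := rfl

theorem inclPi_smul (H : Subgroup G) (k : ℕ) (r : MonoidAlgebra ℤ H)
    (v : Fin k → MonoidAlgebra ℤ H) : inclPi H k (r • v) = inclH H r • inclPi H k v := by
  funext i
  rw [inclPi_apply, Pi.smul_apply, Pi.smul_apply, smul_eq_mul, smul_eq_mul, map_mul, inclPi_apply]

/-- The kernel over the group ring of the group is generated by the kernel over the group ring
of the subgroup. -/
theorem kerSpan (H : Subgroup G) {M' M : Type} [AddCommGroup M'] [Module (MonoidAlgebra ℤ G) M']
    [AddCommGroup M] (l : ℕ) (f : (Fin l → MonoidAlgebra ℤ H) → M)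
    (f' : (Fin l → MonoidAlgebra ℤ G) →ₗ[MonoidAlgebra ℤ G] M') (ι : M → M')
    (R : G → M' → M) (h0 : ι 0 = 0) (hR0 : ∀ t, R t 0 = 0)
    (h1 : ∀ b, f' (inclPi H l b) = ι (f b))
    (h2 : ∀ t a, R t (f' a) = f (fun i => resH H t (a i))) :
    LinearMap.ker f' = Submodule.span (MonoidAlgebra ℤ G) (inclPi H l '' {b | f b = 0}) := by
  classical
  apply le_antisymm
  · intro a ha
    have ha' : f' a = 0 := ha
    let S : Finset (G ⧸ H) := Finset.univ.biUnion fun i : Fin l =>
      (a i).coeff.support.image fun g => (QuotientGroup.mk g : G ⧸ H)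
    have hS : a = ∑ c ∈ S, (MonoidAlgebra.single (Quotient.out c) (1 : ℤ)) •
        inclPi H l (fun i => resH H (Quotient.out c) (a i)) := by
      funext i
      rw [Finset.sum_apply]
      exact sum_cosets H S (a i) (fun g hg => Finset.mem_biUnion.mpr ⟨i, Finset.mem_univ i,
        Finset.mem_image.mpr ⟨g, Finsupp.mem_support_iff.mpr hg, rfl⟩⟩)
    rw [hS]
    refine Submodule.sum_mem _ (fun c _ => Submodule.smul_mem _ _ (Submodule.subset_span ?_))
    refine ⟨_, ?_, rfl⟩
    show f _ = 0
    rw [← h2, ha', hR0]
  · rw [Submodule.span_le]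
    rintro _ ⟨b, hb, rfl⟩
    have hb' : f b = 0 := hb
    show f' _ = 0
    rw [h1, hb', h0]

theorem span_incl (H : Subgroup G) (k l : ℕ) (v : Fin l → Fin k → MonoidAlgebra ℤ H)
    (W : Submodule (MonoidAlgebra ℤ H) (Fin k → MonoidAlgebra ℤ H))
    (hv : Submodule.span (MonoidAlgebra ℤ H) (Set.range v) = W) :
    Submodule.span (MonoidAlgebra ℤ G)
        (inclPi H k '' (W : Set (Fin k → MonoidAlgebra ℤ H))) =
      Submodule.span (MonoidAlgebra ℤ G) (Set.range fun i => inclPi H k (v i)) := by
  apply le_antisymm
  · rw [Submodule.span_le]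
    rintro _ ⟨w, hw, rfl⟩
    have hw' : w ∈ Submodule.span (MonoidAlgebra ℤ H) (Set.range v) := by rw [hv]; exact hw
    clear hw
    induction hw' using Submodule.span_induction with
    | mem x hx =>
      obtain ⟨i, rfl⟩ := hx
      exact Submodule.subset_span ⟨i, rfl⟩
    | zero =>
      rw [map_zero]
      exact Submodule.zero_mem _
    | add x y _ _ hx hy =>
      rw [map_add]
      exact Submodule.add_mem _ hx hy
    | smul r x _ hx =>
      rw [inclPi_smul]
      exact Submodule.smul_mem _ _ hx
  · apply Submodule.span_mono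
    rintro _ ⟨i, rfl⟩
    refine ⟨v i, ?_, rfl⟩
    rw [← hv]
    exact Submodule.subset_span ⟨i, rfl⟩

theorem FPn_span (H : Subgroup G) [IsNoetherianRing (MonoidAlgebra ℤ H)] (q : ℕ) :
    ∀ (k : ℕ) (W : Submodule (MonoidAlgebra ℤ H) (Fin k → MonoidAlgebra ℤ H)),
      FPn (MonoidAlgebra ℤ G) q (Submodule.span (MonoidAlgebra ℤ G)
        (inclPi H k '' (W : Set (Fin k → MonoidAlgebra ℤ H)))) := by
  induction q with
  | zero =>
    intro k W
    obtain ⟨l, v, hv⟩ := Submodule.fg_iff_exists_fin_generating_family.mp
      (IsNoetherian.noetherian W)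
    rw [span_incl H k l v W hv]
    show Module.Finite _ _
    exact Module.Finite.span_of_finite _ (Set.finite_range _)
  | succ q ih =>
    intro k W
    obtain ⟨l, v, hv⟩ := Submodule.fg_iff_exists_fin_generating_family.mp
      (IsNoetherian.noetherian W)
    rw [span_incl H k l v W hv]
    let F : (Fin l → MonoidAlgebra ℤ G) →ₗ[MonoidAlgebra ℤ G] (Fin k → MonoidAlgebra ℤ G) :=
      Fintype.linearCombination (MonoidAlgebra ℤ G) (fun i => inclPi H k (v i))
    have hF : ∀ a, F a = ∑ i, a i • inclPi H k (v i) := fun a =>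
      Fintype.linearCombination_apply _ _ _
    have hrange : LinearMap.range F =
        Submodule.span (MonoidAlgebra ℤ G) (Set.range fun i => inclPi H k (v i)) :=
      Fintype.range_linearCombination _ _
    let f : (Fin l → MonoidAlgebra ℤ H) →ₗ[MonoidAlgebra ℤ H] (Fin k → MonoidAlgebra ℤ H) :=
      Fintype.linearCombination (MonoidAlgebra ℤ H) v
    have hf : ∀ a, f a = ∑ i, a i • v i := fun a =>
      Fintype.linearCombination_apply _ _ _
    rw [← hrange]
    refine ⟨l, F.rangeRestrict, LinearMap.surjective_rangeRestrict F, ?_⟩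
    rw [LinearMap.ker_rangeRestrict]
    have hker := kerSpan H l f F (inclPi H k) (fun t a i => resH H t (a i)) (map_zero _)
      (fun t => by funext i; simp)
      (fun b => by
        rw [hF, hf, map_sum]
        refine Finset.sum_congr rfl (fun i _ => ?_)
        rw [inclPi_smul, inclPi_apply])
      (fun t a => by
        funext j
        rw [hF, hf]
        rw [Finset.sum_apply, Finset.sum_apply, map_sum]
        refine Finset.sum_congr rfl (fun i _ => ?_)
        rw [Pi.smul_apply, Pi.smul_apply, smul_eq_mul, smul_eq_mul, inclPi_apply, resH_mul])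
    rw [hker]
    exact ih l (LinearMap.ker f)

/-- Finite products. -/
theorem FPn.pi {Λ : Type} [Ring Λ] (q : ℕ) (s : ℕ) (M : Fin s → Type)
    [∀ i, AddCommGroup (M i)] [∀ i, Module Λ (M i)] (h : ∀ i, FPn Λ q (M i)) :
    FPn Λ q (∀ i, M i) := by
  induction s with
  | zero =>
    have : Module.Finite Λ (∀ i, M i) := inferInstance
    have : Subsingleton (∀ i, M i) := inferInstance
    exact FPn.proj q _
  | succ s ih =>
    have h1 := ih (fun i => M i.succ) (fun i => h i.succ)
    refine FPn.ext q (LinearMap.proj 0 : (∀ i, M i) →ₗ[Λ] M 0) (LinearMap.proj_surjective 0) ?_ (h 0)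
    refine FPn.of_equiv q ?_ h1
    refine LinearEquiv.ofBijective
      ({ toFun := fun v => ⟨Fin.cons (α := M) 0 v, by simp⟩
         map_add' := ?_
         map_smul' := ?_ } : (∀ i : Fin s, M i.succ) →ₗ[Λ]
           LinearMap.ker (LinearMap.proj 0 : (∀ i, M i) →ₗ[Λ] M 0)) ⟨?_, ?_⟩
    · intro x y
      apply Subtype.ext
      funext i
      refine Fin.cases ?_ (fun i => ?_) i <;> simp
    · intro r x
      apply Subtype.ext
      funext i
      refine Fin.cases ?_ (fun i => ?_) i <;> simp
    · intro x y hxy
      have := congrArg Subtype.val hxy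
      funext i
      have h2 := congrFun this i.succ
      simpa using h2
    · rintro ⟨x, hx⟩
      refine ⟨fun i => x i.succ, ?_⟩
      apply Subtype.ext
      funext i
      have hx' : x 0 = 0 := hx
      refine Fin.cases ?_ (fun i => ?_) i
      · simp [hx']
      · simp

/-- The augmentation of the group ring of a subgroup. -/
noncomputable def augH (H : Subgroup G) : MonoidAlgebra ℤ H →+* ℤ :=
  (MonoidAlgebra.lift ℤ ℤ H (1 : H →* ℤ)).toRingHom

theorem augH_single (H : Subgroup G) (h : H) (r : ℤ) :
    augH H (MonoidAlgebra.single h r) = r := by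
  simp [augH]

section Perm
variable {X : Type} [MulAction G X] {M : Type} [AddCommGroup M] [Module (MonoidAlgebra ℤ G) M]
  (b : Module.Basis X ℤ M)
  (hb : ∀ (g : G) (x : X), (MonoidAlgebra.single g (1 : ℤ) : MonoidAlgebra ℤ G) • b x = b (g • x))

include hb in
theorem single_smul_b (g : G) (r : ℤ) (x : X) :
    (MonoidAlgebra.single g r : MonoidAlgebra ℤ G) • b x = r • b (g • x) := by
  have h1 : (MonoidAlgebra.single g r : MonoidAlgebra ℤ G) =
      r • (MonoidAlgebra.single g (1 : ℤ) : MonoidAlgebra ℤ G) := by
    rw [MonoidAlgebra.smul_single, smul_eq_mul, mul_one]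
  rw [h1, smul_assoc, hb]

include hb in
theorem incl_smul_b (x : X) (a : MonoidAlgebra ℤ (MulAction.stabilizer G x)) :
    inclH (MulAction.stabilizer G x) a • b x = augH (MulAction.stabilizer G x) a • b x := by
  induction a using MonoidAlgebra.induction_linear with
  | zero => simp
  | add u v hu hv => rw [map_add, map_add, add_smul, add_smul, hu, hv]
  | single h r =>
    rw [inclH_single, augH_single, single_smul_b b hb]
    have : (h : G) • x = x := h.2
    rw [this]

include hb in
theorem repr_smul_b (x : X) (t : G) (a : MonoidAlgebra ℤ G) :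
    b.repr (a • b x) (t • x) = augH (MulAction.stabilizer G x)
      (resH (MulAction.stabilizer G x) t a) := by
  induction a using MonoidAlgebra.induction_linear with
  | zero => simp
  | add u v hu hv =>
    rw [add_smul, map_add, Finsupp.add_apply, hu, hv, map_add, map_add]
  | single g r =>
    classical
    rw [single_smul_b b hb, LinearEquiv.map_smul b.repr, Module.Basis.repr_self, Finsupp.smul_apply,
      Finsupp.single_apply]
    by_cases hg : t⁻¹ * g ∈ MulAction.stabilizer G x
    · have h1 : g = t * ((⟨t⁻¹ * g, hg⟩ : MulAction.stabilizer G x) : G) := by simp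
      have h2 : g • x = t • x := by
        have h3 : (t⁻¹ * g) • x = x := hg
        rw [mul_smul, inv_smul_eq_iff] at h3
        exact h3
      rw [if_pos h2]
      conv_rhs => rw [h1]
      rw [resH_single_mem, augH_single, smul_eq_mul, mul_one]
    · rw [resH_single_not _ t g hg, map_zero, if_neg, smul_zero]
      intro h2
      apply hg
      show (t⁻¹ * g) • x = x
      rw [mul_smul, inv_smul_eq_iff]
      exact h2

include hb in
theorem repr_smul_b_of_not (x y : X) (hxy : y ∉ MulAction.orbit G x) (a : MonoidAlgebra ℤ G) :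
    b.repr (a • b x) y = 0 := by
  induction a using MonoidAlgebra.induction_linear with
  | zero => simp
  | add u v hu hv =>
    rw [add_smul, map_add, Finsupp.add_apply, hu, hv, add_zero]
  | single g r =>
    classical
    rw [single_smul_b b hb, LinearEquiv.map_smul b.repr, Module.Basis.repr_self, Finsupp.smul_apply,
      Finsupp.single_apply, if_neg, smul_zero]
    intro h
    exact hxy ⟨g, h⟩

/-- The annihilator of a basis element. -/
noncomputable def annB (x : X) : Submodule (MonoidAlgebra ℤ G) (MonoidAlgebra ℤ G) :=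
  LinearMap.ker (LinearMap.toSpanSingleton (MonoidAlgebra ℤ G) M (b x))

omit [MulAction G X] in
theorem mem_annB (x : X) (a : MonoidAlgebra ℤ G) : a ∈ annB (G := G) b x ↔ a • b x = 0 := by
  rw [annB, LinearMap.mem_ker, LinearMap.toSpanSingleton_apply]

include hb in
theorem FPn_annB (x : X) [IsNoetherianRing (MonoidAlgebra ℤ (MulAction.stabilizer G x))]
    (q : ℕ) : FPn (MonoidAlgebra ℤ G) q (annB (G := G) b x) := by
  set H := MulAction.stabilizer G x with hH
  let F : (Fin 1 → MonoidAlgebra ℤ G) →ₗ[MonoidAlgebra ℤ G] M :=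
    LinearMap.toSpanSingleton (MonoidAlgebra ℤ G) M (b x) ∘ₗ LinearMap.proj 0
  have hF : ∀ a, F a = a 0 • b x := fun a => rfl
  let W : Submodule (MonoidAlgebra ℤ H) (Fin 1 → MonoidAlgebra ℤ H) :=
    { carrier := {a | augH H (a 0) = 0}
      zero_mem' := by simp
      add_mem' := by
        intro u v hu hv
        have hu' : augH H (u 0) = 0 := hu
        have hv' : augH H (v 0) = 0 := hv
        show augH H ((u + v) 0) = 0
        rw [Pi.add_apply, map_add, hu', hv', add_zero]
      smul_mem' := by
        intro r u hu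
        have hu' : augH H (u 0) = 0 := hu
        show augH H ((r • u) 0) = 0
        rw [Pi.smul_apply, smul_eq_mul, map_mul, hu', mul_zero] }
  have hker := kerSpan H 1 (fun a => augH H (a 0)) F (fun n : ℤ => n • b x)
    (fun t m => b.repr m (t • x)) (by simp) (by simp)
    (fun a => by rw [hF, inclPi_apply]; exact incl_smul_b b hb x (a 0))
    (fun t a => by rw [hF]; exact repr_smul_b b hb x t (a 0))
  have h1 : FPn (MonoidAlgebra ℤ G) q (LinearMap.ker F) := by
    rw [hker]
    exact FPn_span H q 1 W
  refine FPn.of_equiv q ?_ h1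
  refine LinearEquiv.ofBijective
    (LinearMap.codRestrict (annB (G := G) b x) ((LinearMap.proj 0 :
      (Fin 1 → MonoidAlgebra ℤ G) →ₗ[MonoidAlgebra ℤ G] MonoidAlgebra ℤ G) ∘ₗ
        (LinearMap.ker F).subtype) ?_) ⟨?_, ?_⟩
  · rintro ⟨a, ha⟩
    rw [mem_annB]
    exact ha
  · rintro ⟨u, hu⟩ ⟨v, hv⟩ huv
    have h2 : u 0 = v 0 := congrArg Subtype.val huv
    apply Subtype.ext
    funext i
    have : i = 0 := Subsingleton.elim _ _
    rw [this]
    exact h2
  · rintro ⟨a, ha⟩
    rw [mem_annB] at ha
    exact ⟨⟨fun _ => a, ha⟩, rfl⟩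

include hb in
/-- A permutation module with finitely many orbits whose stabilizers have noetherian group
rings has type `FPn` for every `n`. -/
theorem FPn_perm_noeth (s : ℕ) (x : Fin s → X)
    (hx : ∀ y : X, ∃ i, y ∈ MulAction.orbit G (x i))
    (hinj : ∀ i j, x j ∈ MulAction.orbit G (x i) → i = j)
    (hn : ∀ i, IsNoetherianRing (MonoidAlgebra ℤ (MulAction.stabilizer G (x i))))
    (q : ℕ) : FPn (MonoidAlgebra ℤ G) q M := by
  let F : (Fin s → MonoidAlgebra ℤ G) →ₗ[MonoidAlgebra ℤ G] M :=
    Fintype.linearCombination (MonoidAlgebra ℤ G) (fun i => b (x i))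
  have hF : ∀ a, F a = ∑ i, a i • b (x i) := fun a => Fintype.linearCombination_apply _ _ _
  have hsurj : Function.Surjective F := by
    intro m
    have hm : m ∈ Submodule.span ℤ (Set.range b) := by rw [b.span_eq]; trivial
    induction hm using Submodule.span_induction with
    | mem y hy =>
      obtain ⟨y, rfl⟩ := hy
      obtain ⟨i, g, hg⟩ := hx y
      have hg' : g • x i = y := hg
      refine ⟨Pi.single i (MonoidAlgebra.single g 1), ?_⟩
      rw [hF, Finset.sum_eq_single i]
      · rw [Pi.single_eq_same, hb, hg']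
      · intro j _ hj
        rw [Pi.single_eq_of_ne hj, zero_smul]
      · intro h
        exact absurd (Finset.mem_univ i) h
    | zero => exact ⟨0, map_zero F⟩
    | add u v _ _ hu hv =>
      obtain ⟨a, ha⟩ := hu
      obtain ⟨c, hc⟩ := hv
      exact ⟨a + c, by rw [map_add, ha, hc]⟩
    | smul r u _ hu =>
      obtain ⟨a, ha⟩ := hu
      exact ⟨r • a, by rw [map_zsmul, ha]⟩
  have hcomp : ∀ a, F a = 0 → ∀ i, a i • b (x i) = 0 := by
    intro a ha i
    rw [hF] at ha
    apply b.repr.injective
    rw [map_zero]
    ext y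
    rw [Finsupp.coe_zero, Pi.zero_apply]
    by_cases hy : y ∈ MulAction.orbit G (x i)
    · have h1 := congrArg (fun m => b.repr m y) ha
      simp only [map_sum, map_zero, Finsupp.coe_zero, Pi.zero_apply,
        Finsupp.finsetSum_apply] at h1
      rw [Finset.sum_eq_single i] at h1
      · exact h1
      · intro j _ hj
        apply repr_smul_b_of_not b hb
        intro hy2
        apply hj
        symm
        apply hinj
        have h3 : x j ∈ MulAction.orbit G y := MulAction.mem_orbit_symm.mp hy2
        rw [MulAction.orbit_eq_iff.mpr hy] at h3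
        exact h3
      · intro h
        exact absurd (Finset.mem_univ i) h
    · exact repr_smul_b_of_not b hb _ _ hy _
  have h0 : ∀ q, FPn (MonoidAlgebra ℤ G) (q + 1) M := by
    intro q
    refine ⟨s, F, hsurj, ?_⟩
    have h1 := FPn.pi q s (fun i => annB (G := G) b (x i)) (fun i => by
      have := hn i
      exact FPn_annB b hb (x i) q)
    refine FPn.of_equiv q ?_ h1
    refine LinearEquiv.ofBijective
      (LinearMap.codRestrict (LinearMap.ker F)
        (LinearMap.pi fun i => (annB (G := G) b (x i)).subtype ∘ₗ LinearMap.proj i) ?_) ⟨?_, ?_⟩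
    · intro a
      rw [LinearMap.mem_ker, hF]
      refine Finset.sum_eq_zero (fun i _ => ?_)
      exact (mem_annB b (x i) _).mp (a i).2
    · intro u v huv
      have h2 := congrArg Subtype.val huv
      funext i
      exact Subtype.ext (congrFun h2 i)
    · rintro ⟨a, ha⟩
      refine ⟨fun i => ⟨a i, (mem_annB b (x i) _).mpr (hcomp a ha i)⟩, ?_⟩
      apply Subtype.ext
      rfl
  cases q with
  | zero =>
    show Module.Finite _ _
    exact Module.Finite.of_surjective F hsurj
  | succ q => exact h0 q

end Perm

/-- The group ring of a finitely generated abelian group is noetherian. -/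
theorem noeth_of_comm (H : Subgroup G) (hfg : H.FG) (hc : ∀ a ∈ H, ∀ b ∈ H, a * b = b * a) :
    IsNoetherianRing (MonoidAlgebra ℤ H) := by
  let _ : CommGroup H := { (inferInstance : Group H) with
    mul_comm := fun a b => Subtype.ext (hc a a.2 b b.2) }
  have h1 : Group.FG H := (Group.fg_iff_subgroup_fg H).mpr hfg
  have h2 : Monoid.FG H := Group.fg_iff_monoid_fg.mp h1
  exact Algebra.FiniteType.isNoetherianRing ℤ (MonoidAlgebra ℤ H)

/-- A permutation module with finitely many orbits and finitely generated abelian stabilizers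
has type `FPn` for every `n`. -/
theorem FPn_perm {X : Type} [MulAction G X] {M : Type} [AddCommGroup M]
    [Module (MonoidAlgebra ℤ G) M] (b : Module.Basis X ℤ M)
    (hb : ∀ (g : G) (x : X),
      (MonoidAlgebra.single g (1 : ℤ) : MonoidAlgebra ℤ G) • b x = b (g • x))
    (hfin : Finite (MulAction.orbitRel.Quotient G X))
    (hfg : ∀ x : X, (MulAction.stabilizer G x).FG)
    (hcomm : ∀ x : X, ∀ g ∈ MulAction.stabilizer G x, ∀ h ∈ MulAction.stabilizer G x,
      g * h = h * g)
    (q : ℕ) : FPn (MonoidAlgebra ℤ G) q M := by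
  obtain ⟨s, ⟨e⟩⟩ := Finite.exists_equiv_fin (MulAction.orbitRel.Quotient G X)
  refine FPn_perm_noeth b hb s (fun i => Quotient.out (e.symm i)) ?_ ?_ ?_ q
  · intro y
    refine ⟨e (Quotient.mk'' y), ?_⟩
    rw [Equiv.symm_apply_apply]
    exact MulAction.mem_orbit_symm.mp (MulAction.orbitRel_apply.mp
      (Quotient.exact (Quotient.out_eq' (Quotient.mk'' y))))
  · intro i j hij
    have h1 : (Quotient.mk'' (Quotient.out (e.symm j)) : MulAction.orbitRel.Quotient G X) =
        Quotient.mk'' (Quotient.out (e.symm i)) :=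
      Quotient.sound (MulAction.orbitRel_apply.mpr hij)
    rw [Quotient.out_eq', Quotient.out_eq'] at h1
    exact (e.symm.injective h1).symm
  · intro i
    exact noeth_of_comm _ (hfg _) (hcomm _)

end F2

end Pool.Agent.FPmIf
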