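import Pool.Agent.Lib.MP_f973c6_al.If.Defs

/-! Closure properties of `FPn` (helper55). -/

set_option autoImplicit false
namespace Pool.Agent.FPmIf

section A
variable {Λ : Type} [Ring Λ]

theorem FPn.of_equiv (m : ℕ) {M N : Type} [AddCommGroup M] [Module Λ M] [AddCommGroup N]
    [Module Λ N] (e : M ≃ₗ[Λ] N) (h : FPn Λ m M) : FPn Λ m N := by
  cases m with
  | zero =>
    have h' : Module.Finite Λ M := h
    exact Module.Finite.equiv e
  | succ m =>
    obtain ⟨n, f, hf, hk⟩ := h
    refine ⟨n, e.toLinearMap ∘ₗ f, e.surjective.comp hf, ?_⟩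
    have : LinearMap.ker (e.toLinearMap ∘ₗ f) = LinearMap.ker f := LinearEquiv.ker_comp e f
    rw [this]
    exact hk

theorem FPn.ext (m : ℕ) {M N : Type} [AddCommGroup M] [Module Λ M] [AddCommGroup N]
    [Module Λ N] (f : M →ₗ[Λ] N) (hf : Function.Surjective f) (hk : FPn Λ m (LinearMap.ker f))
    (hN : FPn Λ m N) : FPn Λ m M := by
  induction m generalizing M N with
  | zero =>
    have h1 : Module.Finite Λ (LinearMap.ker f) := hk
    have h2 : Module.Finite Λ N := hN
    show Module.Finite Λ M
    rw [Module.finite_def]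
    apply Submodule.fg_of_fg_map_of_fg_inf_ker f
    · rw [Submodule.map_top, LinearMap.range_eq_top.2 hf]
      exact Module.finite_def.1 h2
    · rw [top_inf_eq]
      exact Module.Finite.iff_fg.1 h1
  | succ m ih =>
    obtain ⟨a, p, hp, hpk⟩ := hk
    obtain ⟨b, q, hq, hqk⟩ := hN
    obtain ⟨q', hq'⟩ := Module.projective_lifting_property f q hf
    have hq'' : ∀ y, f (q' y) = q y := fun y => by rw [← hq']; rfl
    let R : ((Fin a → Λ) × (Fin b → Λ)) →ₗ[Λ] M :=
      LinearMap.coprod ((LinearMap.ker f).subtype ∘ₗ p) q'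
    have hR : ∀ x y, R (x, y) = (p x : M) + q' y := fun x y => by simp [R]
    have hRs : Function.Surjective R := by
      intro z
      obtain ⟨y, hy⟩ := hq (f z)
      have hz : z - q' y ∈ LinearMap.ker f := by
        rw [LinearMap.mem_ker, map_sub, hq'', hy, sub_self]
      obtain ⟨x, hx⟩ := hp ⟨z - q' y, hz⟩
      refine ⟨(x, y), ?_⟩
      rw [hR, hx]
      simp
    have hmem : ∀ z : LinearMap.ker R, q z.1.2 = 0 := by
      intro z
      have h0 : R z.1 = 0 := z.2
      have h1 : R (z.1.1, z.1.2) = 0 := h0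
      rw [hR] at h1
      have h2 := congrArg f h1
      rw [map_add, hq'', map_zero] at h2
      have h3 : f (p z.1.1 : M) = 0 := (p z.1.1).2
      rwa [h3, zero_add] at h2
    let S : LinearMap.ker R →ₗ[Λ] LinearMap.ker q :=
      LinearMap.codRestrict (LinearMap.ker q)
        ((LinearMap.snd Λ (Fin a → Λ) (Fin b → Λ)) ∘ₗ (LinearMap.ker R).subtype)
        (fun z => hmem z)
    have hSs : Function.Surjective S := by
      intro y
      have hy : q' y.1 ∈ LinearMap.ker f := by
        rw [LinearMap.mem_ker, hq'']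
        exact y.2
      obtain ⟨x, hx⟩ := hp ⟨- q' y.1, (LinearMap.ker f).neg_mem hy⟩
      refine ⟨⟨(x, y.1), ?_⟩, ?_⟩
      · rw [LinearMap.mem_ker, hR, hx]
        simp
      · apply Subtype.ext
        rfl
    -- kernel of S
    let T : LinearMap.ker p →ₗ[Λ] LinearMap.ker S :=
      LinearMap.codRestrict (LinearMap.ker S)
        (LinearMap.codRestrict (LinearMap.ker R)
          ((LinearMap.inl Λ (Fin a → Λ) (Fin b → Λ)) ∘ₗ (LinearMap.ker p).subtype)
          (fun x => by
            have hx : p x.1 = 0 := x.2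
            rw [LinearMap.mem_ker]
            show R (x.1, 0) = 0
            rw [hR, hx]
            simp))
        (fun x => by
          rw [LinearMap.mem_ker]
          apply Subtype.ext
          rfl)
    have hTb : Function.Bijective T := by
      constructor
      · intro x y hxy
        have h1 : ((T x).1.1 : (Fin a → Λ) × (Fin b → Λ)) = (T y).1.1 := by rw [hxy]
        have h2 : ((x.1, 0) : (Fin a → Λ) × (Fin b → Λ)) = (y.1, 0) := h1
        exact Subtype.ext (congrArg Prod.fst h2)
      · intro z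
        have hz : S z.1 = 0 := z.2
        have hz2 : z.1.1.2 = 0 := congrArg Subtype.val hz
        have hz1 : R z.1.1 = 0 := z.1.2
        have hz3 : R (z.1.1.1, z.1.1.2) = 0 := hz1
        rw [hR, hz2, map_zero, add_zero] at hz3
        have hz4 : p z.1.1.1 = 0 := Subtype.ext hz3
        refine ⟨⟨z.1.1.1, hz4⟩, ?_⟩
        apply Subtype.ext
        apply Subtype.ext
        show ((z.1.1.1, 0) : (Fin a → Λ) × (Fin b → Λ)) = z.1.1
        rw [← hz2]
    have hSk : FPn Λ m (LinearMap.ker S) :=
      FPn.of_equiv m (LinearEquiv.ofBijective T hTb) hpk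
    have hRk : FPn Λ m (LinearMap.ker R) := ih S hSs hSk hqk
    let E : (Fin (a + b) → Λ) ≃ₗ[Λ] ((Fin a → Λ) × (Fin b → Λ)) :=
      (LinearEquiv.funCongrLeft Λ Λ finSumFinEquiv).trans
        (LinearEquiv.sumArrowLequivProdArrow (Fin a) (Fin b) Λ Λ)
    refine ⟨a + b, R ∘ₗ E.toLinearMap, hRs.comp E.surjective, ?_⟩
    let K : LinearMap.ker (R ∘ₗ E.toLinearMap) ≃ₗ[Λ] LinearMap.ker R :=
      E.ofSubmodules (LinearMap.ker (R ∘ₗ E.toLinearMap)) (LinearMap.ker R) (by
        rw [LinearMap.ker_comp]
        exact Submodule.map_comap_eq_of_surjective E.surjective _)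
    exact FPn.of_equiv m K.symm hRk

theorem FPn.quot (m : ℕ) {M N : Type} [AddCommGroup M] [Module Λ M] [AddCommGroup N]
    [Module Λ N] (f : M →ₗ[Λ] N) (hf : Function.Surjective f) (hk : FPn Λ m (LinearMap.ker f))
    (hM : FPn Λ (m + 1) M) : FPn Λ (m + 1) N := by
  obtain ⟨a, p, hp, hpk⟩ := hM
  refine ⟨a, f ∘ₗ p, hf.comp hp, ?_⟩
  let S : LinearMap.ker (f ∘ₗ p) →ₗ[Λ] LinearMap.ker f :=
    LinearMap.codRestrict (LinearMap.ker f) (p ∘ₗ (LinearMap.ker (f ∘ₗ p)).subtype) (fun z => z.2)
  have hS : Function.Surjective S := by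
    intro y
    obtain ⟨x, hx⟩ := hp y.1
    refine ⟨⟨x, ?_⟩, ?_⟩
    · rw [LinearMap.mem_ker]
      show f (p x) = 0
      rw [hx]
      exact y.2
    · exact Subtype.ext hx
  let T : LinearMap.ker p →ₗ[Λ] LinearMap.ker S :=
    LinearMap.codRestrict (LinearMap.ker S)
      (LinearMap.codRestrict (LinearMap.ker (f ∘ₗ p)) (LinearMap.ker p).subtype
        (fun x => by
          have hx : p x.1 = 0 := x.2
          rw [LinearMap.mem_ker]
          show f (p x.1) = 0
          rw [hx, map_zero]))
      (fun x => by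
        rw [LinearMap.mem_ker]
        apply Subtype.ext
        exact x.2)
  have hT : Function.Bijective T := by
    constructor
    · intro x y hxy
      have h1 : ((T x).1.1 : Fin a → Λ) = (T y).1.1 := by rw [hxy]
      exact Subtype.ext h1
    · intro z
      have hz : S z.1 = 0 := z.2
      have hz2 : p z.1.1 = 0 := congrArg Subtype.val hz
      refine ⟨⟨z.1.1, hz2⟩, ?_⟩
      apply Subtype.ext
      apply Subtype.ext
      rfl
  exact FPn.ext m S hS (FPn.of_equiv m (LinearEquiv.ofBijective T hT) hpk) hk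

theorem FPn.proj (m : ℕ) (P : Type) [AddCommGroup P] [Module Λ P] [Module.Finite Λ P]
    [Module.Projective Λ P] : FPn Λ m P := by
  induction m generalizing P with
  | zero => exact (inferInstance : Module.Finite Λ P)
  | succ m ih =>
    obtain ⟨n, f, hf⟩ := Module.Finite.exists_fin' Λ P
    obtain ⟨s, hs⟩ := Module.projective_lifting_property f LinearMap.id hf
    have hs' : ∀ x, f (s x) = x := fun x => by
      have := LinearMap.congr_fun hs x
      simpa using this
    let g : (Fin n → Λ) →ₗ[Λ] LinearMap.ker f :=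
      LinearMap.codRestrict (LinearMap.ker f) (LinearMap.id - s ∘ₗ f) (fun x => by
        rw [LinearMap.mem_ker]
        simp [hs'])
    have hg : g ∘ₗ (LinearMap.ker f).subtype = LinearMap.id := by
      ext x
      have hx : f x.1 = 0 := x.2
      simp [g, hx]
    have hgs : Function.Surjective g := by
      intro x
      refine ⟨x.1, ?_⟩
      exact LinearMap.congr_fun hg x
    have h1 : Module.Finite Λ (LinearMap.ker f) := Module.Finite.of_surjective g hgs
    have h2 : Module.Projective Λ (LinearMap.ker f) :=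
      Module.Projective.of_split (LinearMap.ker f).subtype g hg
    exact ⟨n, f, hf, ih (LinearMap.ker f)⟩

theorem FPn.resolution (m : ℕ) (K : Type) [AddCommGroup K] [Module Λ K] (h : FPn Λ m K) :
    ∃ (n : ℕ → ℕ) (f : (Fin (n 0) → Λ) →ₗ[Λ] K)
      (d : ∀ i : ℕ, (Fin (n (i + 1)) → Λ) →ₗ[Λ] (Fin (n i) → Λ)),
      Function.Surjective f ∧ (1 ≤ m → LinearMap.ker f = LinearMap.range (d 0)) ∧
      (∀ i : ℕ, i + 1 < m → LinearMap.ker (d i) = LinearMap.range (d (i + 1))) := by
  induction m generalizing K with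
  | zero =>
    have h' : Module.Finite Λ K := h
    obtain ⟨n, f, hf⟩ := Module.Finite.exists_fin' Λ K
    exact ⟨fun _ => n, f, fun _ => 0, hf, fun h => by omega, fun i h => by omega⟩
  | succ m ih =>
    obtain ⟨n0, f, hf, hk⟩ := h
    obtain ⟨n', f', d', hf', h0, h1⟩ := ih (LinearMap.ker f) hk
    refine ⟨fun i => match i with | 0 => n0 | i + 1 => n' i, f,
      fun i => match i with
        | 0 => (LinearMap.ker f).subtype ∘ₗ f'
        | i + 1 => d' i, hf, ?_, ?_⟩
    · intro _
      show LinearMap.ker f = LinearMap.range ((LinearMap.ker f).subtype ∘ₗ f')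
      rw [LinearMap.range_comp, LinearMap.range_eq_top.2 hf', Submodule.map_top,
        Submodule.range_subtype]
    · intro i hi
      cases i with
      | zero =>
        show LinearMap.ker ((LinearMap.ker f).subtype ∘ₗ f') = LinearMap.range (d' 0)
        rw [LinearMap.ker_comp_of_ker_eq_bot _ (Submodule.ker_subtype _)]
        exact h0 (by omega)
      | succ i =>
        show LinearMap.ker (d' i) = LinearMap.range (d' (i + 1))
        exact h1 i (by omega)

end A

end Pool.Agent.FPmIf
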