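import Pool.Agent.Lib.MP_f973c6_al.If.Defs

/-! Going up finite index for `FP_m`. -/

set_option autoImplicit false

namespace Pool.Agent.FPmIf.Up

open Pool.Agent.FPm (FPcond)
open Pool.Agent.FPmIf (FPn)


section A
variable {Λ : Type} [Ring Λ]

theorem fp_of_equiv (m : ℕ) {M N : Type} [AddCommGroup M] [Module Λ M] [AddCommGroup N]
    [Module Λ N] (e : M ≃ₗ[Λ] N) (h : FPn Λ m M) : FPn Λ m N := by
  cases m with
  | zero =>
    have h' : Module.Finite Λ M := h
    exact Module.Finite.equiv e
  | succ m =>
    obtain ⟨n, f, hf, hk⟩ := h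
    refine ⟨n, e.toLinearMap ∘ₗ f, e.surjective.comp hf, ?_⟩
    have : LinearMap.ker (e.toLinearMap ∘ₗ f) = LinearMap.ker f := LinearEquiv.ker_comp e f
    rw [this]
    exact hk

theorem fp_ext (m : ℕ) {M N : Type} [AddCommGroup M] [Module Λ M] [AddCommGroup N]
    [Module Λ N] (f : M →ₗ[Λ] N) (hf : Function.Surjective f) (hk : FPn Λ m (LinearMap.ker f))
    (hN : FPn Λ m N) : FPn Λ m M := by
  induction m generalizing M N with
  | zero =>
    have h1 : Module.Finite Λ (LinearMap.ker f) := hk
    have h2 : Module.Finite Λ N := hN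
    show Module.Finite Λ M
    rw [Module.finite_def]
    apply Submodule.fg_of_fg_map_of_fg_inf_ker f
    · rw [Submodule.map_top, LinearMap.range_eq_top.2 hf]
      exact Module.finite_def.1 h2
    · rw [top_inf_eq]
      exact Module.Finite.iff_fg.1 h1
  | succ m ih =>
    obtain ⟨a, p, hp, hpk⟩ := hk
    obtain ⟨b, q, hq, hqk⟩ := hN
    obtain ⟨q', hq'⟩ := Module.projective_lifting_property f q hf
    have hq'' : ∀ y, f (q' y) = q y := fun y => by rw [← hq']; rfl
    let R : ((Fin a → Λ) × (Fin b → Λ)) →ₗ[Λ] M :=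
      LinearMap.coprod ((LinearMap.ker f).subtype ∘ₗ p) q'
    have hR : ∀ x y, R (x, y) = (p x : M) + q' y := fun x y => by simp [R]
    have hRs : Function.Surjective R := by
      intro z
      obtain ⟨y, hy⟩ := hq (f z)
      have hz : z - q' y ∈ LinearMap.ker f := by
        rw [LinearMap.mem_ker, map_sub, hq'', hy, sub_self]
      obtain ⟨x, hx⟩ := hp ⟨z - q' y, hz⟩
      refine ⟨(x, y), ?_⟩
      rw [hR, hx]
      simp
    have hmem : ∀ z : LinearMap.ker R, q z.1.2 = 0 := by
      intro z
      have h0 : R z.1 = 0 := z.2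
      have h1 : R (z.1.1, z.1.2) = 0 := h0
      rw [hR] at h1
      have h2 := congrArg f h1
      rw [map_add, hq'', map_zero] at h2
      have h3 : f (p z.1.1 : M) = 0 := (p z.1.1).2
      rwa [h3, zero_add] at h2
    let S : LinearMap.ker R →ₗ[Λ] LinearMap.ker q :=
      LinearMap.codRestrict (LinearMap.ker q)
        ((LinearMap.snd Λ (Fin a → Λ) (Fin b → Λ)) ∘ₗ (LinearMap.ker R).subtype)
        (fun z => hmem z)
    have hSs : Function.Surjective S := by
      intro y
      have hy : q' y.1 ∈ LinearMap.ker f := by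
        rw [LinearMap.mem_ker, hq'']
        exact y.2
      obtain ⟨x, hx⟩ := hp ⟨- q' y.1, (LinearMap.ker f).neg_mem hy⟩
      refine ⟨⟨(x, y.1), ?_⟩, ?_⟩
      · rw [LinearMap.mem_ker, hR, hx]
        simp
      · apply Subtype.ext
        rfl
    -- kernel of S
    let T : LinearMap.ker p →ₗ[Λ] LinearMap.ker S :=
      LinearMap.codRestrict (LinearMap.ker S)
        (LinearMap.codRestrict (LinearMap.ker R)
          ((LinearMap.inl Λ (Fin a → Λ) (Fin b → Λ)) ∘ₗ (LinearMap.ker p).subtype)
          (fun x => by
            have hx : p x.1 = 0 := x.2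
            rw [LinearMap.mem_ker]
            show R (x.1, 0) = 0
            rw [hR, hx]
            simp))
        (fun x => by
          rw [LinearMap.mem_ker]
          apply Subtype.ext
          rfl)
    have hTb : Function.Bijective T := by
      constructor
      · intro x y hxy
        have h1 : ((T x).1.1 : (Fin a → Λ) × (Fin b → Λ)) = (T y).1.1 := by rw [hxy]
        have h2 : ((x.1, 0) : (Fin a → Λ) × (Fin b → Λ)) = (y.1, 0) := h1
        exact Subtype.ext (congrArg Prod.fst h2)
      · intro z
        have hz : S z.1 = 0 := z.2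
        have hz2 : z.1.1.2 = 0 := congrArg Subtype.val hz
        have hz1 : R z.1.1 = 0 := z.1.2
        have hz3 : R (z.1.1.1, z.1.1.2) = 0 := hz1
        rw [hR, hz2, map_zero, add_zero] at hz3
        have hz4 : p z.1.1.1 = 0 := Subtype.ext hz3
        refine ⟨⟨z.1.1.1, hz4⟩, ?_⟩
        apply Subtype.ext
        apply Subtype.ext
        show ((z.1.1.1, 0) : (Fin a → Λ) × (Fin b → Λ)) = z.1.1
        rw [← hz2]
    have hSk : FPn Λ m (LinearMap.ker S) :=
      fp_of_equiv m (LinearEquiv.ofBijective T hTb) hpk
    have hRk : FPn Λ m (LinearMap.ker R) := ih S hSs hSk hqk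
    let E : (Fin (a + b) → Λ) ≃ₗ[Λ] ((Fin a → Λ) × (Fin b → Λ)) :=
      (LinearEquiv.funCongrLeft Λ Λ finSumFinEquiv).trans
        (LinearEquiv.sumArrowLequivProdArrow (Fin a) (Fin b) Λ Λ)
    refine ⟨a + b, R ∘ₗ E.toLinearMap, hRs.comp E.surjective, ?_⟩
    let K : LinearMap.ker (R ∘ₗ E.toLinearMap) ≃ₗ[Λ] LinearMap.ker R :=
      E.ofSubmodules (LinearMap.ker (R ∘ₗ E.toLinearMap)) (LinearMap.ker R) (by
        rw [LinearMap.ker_comp]
        exact Submodule.map_comap_eq_of_surjective E.surjective _)
    exact fp_of_equiv m K.symm hRk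

theorem fp_quot (m : ℕ) {M N : Type} [AddCommGroup M] [Module Λ M] [AddCommGroup N]
    [Module Λ N] (f : M →ₗ[Λ] N) (hf : Function.Surjective f) (hk : FPn Λ m (LinearMap.ker f))
    (hM : FPn Λ (m + 1) M) : FPn Λ (m + 1) N := by
  obtain ⟨a, p, hp, hpk⟩ := hM
  refine ⟨a, f ∘ₗ p, hf.comp hp, ?_⟩
  let S : LinearMap.ker (f ∘ₗ p) →ₗ[Λ] LinearMap.ker f :=
    LinearMap.codRestrict (LinearMap.ker f) (p ∘ₗ (LinearMap.ker (f ∘ₗ p)).subtype) (fun z => z.2)
  have hS : Function.Surjective S := by
    intro y
    obtain ⟨x, hx⟩ := hp y.1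
    refine ⟨⟨x, ?_⟩, ?_⟩
    · rw [LinearMap.mem_ker]
      show f (p x) = 0
      rw [hx]
      exact y.2
    · exact Subtype.ext hx
  let T : LinearMap.ker p →ₗ[Λ] LinearMap.ker S :=
    LinearMap.codRestrict (LinearMap.ker S)
      (LinearMap.codRestrict (LinearMap.ker (f ∘ₗ p)) (LinearMap.ker p).subtype
        (fun x => by
          have hx : p x.1 = 0 := x.2
          rw [LinearMap.mem_ker]
          show f (p x.1) = 0
          rw [hx, map_zero]))
      (fun x => by
        rw [LinearMap.mem_ker]
        apply Subtype.ext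
        exact x.2)
  have hT : Function.Bijective T := by
    constructor
    · intro x y hxy
      have h1 : ((T x).1.1 : Fin a → Λ) = (T y).1.1 := by rw [hxy]
      exact Subtype.ext h1
    · intro z
      have hz : S z.1 = 0 := z.2
      have hz2 : p z.1.1 = 0 := congrArg Subtype.val hz
      refine ⟨⟨z.1.1, hz2⟩, ?_⟩
      apply Subtype.ext
      apply Subtype.ext
      rfl
  exact fp_ext m S hS (fp_of_equiv m (LinearEquiv.ofBijective T hT) hpk) hk

theorem fp_proj (m : ℕ) (P : Type) [AddCommGroup P] [Module Λ P] [Module.Finite Λ P]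
    [Module.Projective Λ P] : FPn Λ m P := by
  induction m generalizing P with
  | zero => exact (inferInstance : Module.Finite Λ P)
  | succ m ih =>
    obtain ⟨n, f, hf⟩ := Module.Finite.exists_fin' Λ P
    obtain ⟨s, hs⟩ := Module.projective_lifting_property f LinearMap.id hf
    have hs' : ∀ x, f (s x) = x := fun x => by
      have := LinearMap.congr_fun hs x
      simpa using this
    let g : (Fin n → Λ) →ₗ[Λ] LinearMap.ker f :=
      LinearMap.codRestrict (LinearMap.ker f) (LinearMap.id - s ∘ₗ f) (fun x => by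
        rw [LinearMap.mem_ker]
        simp [hs'])
    have hg : g ∘ₗ (LinearMap.ker f).subtype = LinearMap.id := by
      ext x
      have hx : f x.1 = 0 := x.2
      simp [g, hx]
    have hgs : Function.Surjective g := by
      intro x
      refine ⟨x.1, ?_⟩
      exact LinearMap.congr_fun hg x
    have h1 : Module.Finite Λ (LinearMap.ker f) := Module.Finite.of_surjective g hgs
    have h2 : Module.Projective Λ (LinearMap.ker f) :=
      Module.Projective.of_split (LinearMap.ker f).subtype g hg
    exact ⟨n, f, hf, ih (LinearMap.ker f)⟩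

theorem fp_resolution (m : ℕ) (K : Type) [AddCommGroup K] [Module Λ K] (h : FPn Λ m K) :
    ∃ (n : ℕ → ℕ) (f : (Fin (n 0) → Λ) →ₗ[Λ] K)
      (d : ∀ i : ℕ, (Fin (n (i + 1)) → Λ) →ₗ[Λ] (Fin (n i) → Λ)),
      Function.Surjective f ∧ (1 ≤ m → LinearMap.ker f = LinearMap.range (d 0)) ∧
      (∀ i : ℕ, i + 1 < m → LinearMap.ker (d i) = LinearMap.range (d (i + 1))) := by
  induction m generalizing K with
  | zero =>
    have h' : Module.Finite Λ K := h
    obtain ⟨n, f, hf⟩ := Module.Finite.exists_fin' Λ K
    exact ⟨fun _ => n, f, fun _ => 0, hf, fun h => by omega, fun i h => by omega⟩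
  | succ m ih =>
    obtain ⟨n0, f, hf, hk⟩ := h
    obtain ⟨n', f', d', hf', h0, h1⟩ := ih (LinearMap.ker f) hk
    refine ⟨fun i => match i with | 0 => n0 | i + 1 => n' i, f,
      fun i => match i with
        | 0 => (LinearMap.ker f).subtype ∘ₗ f'
        | i + 1 => d' i, hf, ?_, ?_⟩
    · intro _
      show LinearMap.ker f = LinearMap.range ((LinearMap.ker f).subtype ∘ₗ f')
      rw [LinearMap.range_comp, LinearMap.range_eq_top.2 hf', Submodule.map_top,
        Submodule.range_subtype]
    · intro i hi
      cases i with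
      | zero =>
        show LinearMap.ker ((LinearMap.ker f).subtype ∘ₗ f') = LinearMap.range (d' 0)
        rw [LinearMap.ker_comp_of_ker_eq_bot _ (Submodule.ker_subtype _)]
        exact h0 (by omega)
      | succ i =>
        show LinearMap.ker (d' i) = LinearMap.range (d' (i + 1))
        exact h1 i (by omega)


/-- Schanuel: the kernel of a surjection from a finitely generated projective module. -/
theorem fp_kernel (q : ℕ) {P M : Type} [AddCommGroup P] [Module Λ P] [Module.Finite Λ P]
    [Module.Projective Λ P] [AddCommGroup M] [Module Λ M] (f : P →ₗ[Λ] M)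
    (hf : Function.Surjective f) (hM : FPn Λ (q + 1) M) : FPn Λ q (LinearMap.ker f) := by
  obtain ⟨n, g, hg, hgk⟩ := hM
  obtain ⟨s, hs⟩ := Module.projective_lifting_property f g hf
  have hs' : ∀ y, f (s y) = g y := fun y => by rw [← hs]; rfl
  -- the pullback, as the kernel of `(x, y) ↦ f x - g y`
  let D : (P × (Fin n → Λ)) →ₗ[Λ] M := LinearMap.coprod f (-g)
  have hD : ∀ x y, D (x, y) = f x - g y := fun x y => by simp [D, sub_eq_add_neg]
  -- first projection
  let p1 : LinearMap.ker D →ₗ[Λ] P := (LinearMap.fst Λ P (Fin n → Λ)) ∘ₗ (LinearMap.ker D).subtype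
  have hp1 : Function.Surjective p1 := by
    intro x
    obtain ⟨y, hy⟩ := hg (f x)
    refine ⟨⟨(x, y), ?_⟩, rfl⟩
    rw [LinearMap.mem_ker, hD, hy, sub_self]
  let T1 : LinearMap.ker g →ₗ[Λ] LinearMap.ker p1 :=
    LinearMap.codRestrict (LinearMap.ker p1)
      (LinearMap.codRestrict (LinearMap.ker D)
        ((LinearMap.inr Λ P (Fin n → Λ)) ∘ₗ (LinearMap.ker g).subtype)
        (fun y => by
          have hy : g y.1 = 0 := y.2
          rw [LinearMap.mem_ker]
          show D (0, y.1) = 0
          rw [hD, hy, map_zero, sub_self]))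
      (fun y => by
        rw [LinearMap.mem_ker]
        rfl)
  have hT1 : Function.Bijective T1 := by
    constructor
    · intro x y hxy
      have h1 : ((T1 x).1.1 : P × (Fin n → Λ)) = (T1 y).1.1 := by rw [hxy]
      have h2 : ((0, x.1) : P × (Fin n → Λ)) = (0, y.1) := h1
      exact Subtype.ext (congrArg Prod.snd h2)
    · intro z
      have hz : z.1.1.1 = 0 := z.2
      have hz1 : D z.1.1 = 0 := z.1.2
      have hz3 : D (z.1.1.1, z.1.1.2) = 0 := hz1
      rw [hD, hz, map_zero, zero_sub, neg_eq_zero] at hz3
      refine ⟨⟨z.1.1.2, hz3⟩, ?_⟩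
      apply Subtype.ext
      apply Subtype.ext
      show ((0, z.1.1.2) : P × (Fin n → Λ)) = z.1.1
      rw [← hz]
  have hX : FPn Λ q (LinearMap.ker D) :=
    fp_ext q p1 hp1 (fp_of_equiv q (LinearEquiv.ofBijective T1 hT1) hgk) (fp_proj q P)
  -- the map to `ker f`
  let r : LinearMap.ker D →ₗ[Λ] LinearMap.ker f :=
    LinearMap.codRestrict (LinearMap.ker f)
      (p1 - s ∘ₗ (LinearMap.snd Λ P (Fin n → Λ)) ∘ₗ (LinearMap.ker D).subtype)
      (fun z => by
        have hz1 : D (z.1.1, z.1.2) = 0 := z.2
        rw [hD] at hz1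
        rw [LinearMap.mem_ker]
        show f (z.1.1 - s z.1.2) = 0
        rw [map_sub, hs']
        exact hz1)
  have hr : ∀ z, ((r z : LinearMap.ker f) : P) = z.1.1 - s z.1.2 := fun z => rfl
  have hrs : Function.Surjective r := by
    intro x
    refine ⟨⟨(x.1, 0), ?_⟩, ?_⟩
    · rw [LinearMap.mem_ker, hD, map_zero, sub_zero]
      exact x.2
    · apply Subtype.ext
      rw [hr]
      simp
  cases q with
  | zero =>
    have h1 : Module.Finite Λ (LinearMap.ker D) := hX
    exact Module.Finite.of_surjective r hrs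
  | succ q =>
    let T2 : (Fin n → Λ) →ₗ[Λ] LinearMap.ker r :=
      LinearMap.codRestrict (LinearMap.ker r)
        (LinearMap.codRestrict (LinearMap.ker D)
          (LinearMap.prod s LinearMap.id)
          (fun y => by
            rw [LinearMap.mem_ker]
            show D (s y, y) = 0
            rw [hD, hs', sub_self]))
        (fun y => by
          rw [LinearMap.mem_ker]
          apply Subtype.ext
          rw [hr]
          show s y - s y = 0
          rw [sub_self])
    have hT2 : Function.Bijective T2 := by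
      constructor
      · intro x y hxy
        have h1 : ((T2 x).1.1 : P × (Fin n → Λ)) = (T2 y).1.1 := by rw [hxy]
        have h2 : ((s x, x) : P × (Fin n → Λ)) = (s y, y) := h1
        exact congrArg Prod.snd h2
      · intro z
        have hz : r z.1 = 0 := z.2
        have hz2 : z.1.1.1 - s z.1.1.2 = 0 := by
          have := congrArg Subtype.val hz
          rw [hr] at this
          exact this
        refine ⟨z.1.1.2, ?_⟩
        apply Subtype.ext
        apply Subtype.ext
        show ((s z.1.1.2, z.1.1.2) : P × (Fin n → Λ)) = z.1.1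
        rw [← sub_eq_zero.1 hz2]
    refine fp_quot q r hrs (fp_of_equiv q (LinearEquiv.ofBijective T2 hT2) (fp_proj q _)) hX

/-- A finite exact piece gives `FPn` for the image. -/
theorem fp_of_exact (m : ℕ) : ∀ (n : ℕ → ℕ)
    (d : ∀ i : ℕ, (Fin (n (i + 1)) → Λ) →ₗ[Λ] (Fin (n i) → Λ))
    (_ : ∀ i : ℕ, i < m → LinearMap.ker (d i) = LinearMap.range (d (i + 1))),
    FPn Λ m (LinearMap.range (d 0)) := by
  induction m with
  | zero =>
    intro n d _
    show Module.Finite Λ (LinearMap.range (d 0))
    infer_instance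
  | succ m ih =>
    intro n d h
    refine ⟨n 1, (d 0).rangeRestrict, LinearMap.surjective_rangeRestrict _, ?_⟩
    rw [LinearMap.ker_rangeRestrict, h 0 (Nat.succ_pos m)]
    exact ih (fun i => n (i + 1)) (fun i => d (i + 1)) (fun i hi => h (i + 1) (by omega))

end A

section restrict
variable {A B : Type} [Ring A] [Ring B] [Module A B] [IsScalarTower A B B] [Module.Finite A B]
  [Module.Projective A B]

/-- Finiteness over the smaller ring gives finiteness over the bigger ring. -/
theorem fp_restrict (q : ℕ) : ∀ (M : Type) [AddCommGroup M] [Module B M] [Module A M]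
    [IsScalarTower A B M], FPn A q M → FPn B q M := by
  induction q with
  | zero =>
    intro M _ _ _ _ h
    have h' : Module.Finite A M := h
    exact Module.Finite.of_restrictScalars_finite A B M
  | succ q ih =>
    intro M _ _ _ _ h
    have h0 : Module.Finite A M := by
      obtain ⟨k, f, hf, _⟩ := h
      exact Module.Finite.of_surjective f hf
    have h1 : Module.Finite B M := Module.Finite.of_restrictScalars_finite A B M
    obtain ⟨k, f, hf⟩ := Module.Finite.exists_fin' B M
    refine ⟨k, f, hf, ih (LinearMap.ker f) ?_⟩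
    have h3 : Module.Projective A (Fin k → B) :=
      Module.Projective.of_equiv (DFinsupp.linearEquivFunOnFintype (R := A) (M := fun _ : Fin k => B))
    have h2 := fp_kernel (Λ := A) q (f.restrictScalars A) hf h
    let e : LinearMap.ker (f.restrictScalars A) ≃ₗ[A] LinearMap.ker f :=
      { toFun := fun x => ⟨x.1, x.2⟩
        invFun := fun x => ⟨x.1, x.2⟩
        map_add' := fun x y => rfl
        map_smul' := fun a x => rfl
        left_inv := fun x => rfl
        right_inv := fun x => rfl }
    exact fp_of_equiv q e h2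

end restrict

section conv

/-- The augmentation. -/
noncomputable def aug (G : Type) [Group G] : MonoidAlgebra ℤ G →+* ℤ :=
  (MonoidAlgebra.lift ℤ ℤ G 1).toRingHom

theorem aug_of (G : Type) [Group G] (g : G) : aug G (MonoidAlgebra.of ℤ G g) = 1 := by
  simp [aug]

theorem eq_aug (G : Type) [Group G] (ε : MonoidAlgebra ℤ G →+* ℤ)
    (h : ∀ g : G, ε (MonoidAlgebra.of ℤ G g) = 1) : ε = aug G := by
  apply MonoidAlgebra.ringHom_ext
  · intro r
    have h1 : (MonoidAlgebra.single (1 : G) r : MonoidAlgebra ℤ G) = r • MonoidAlgebra.of ℤ G 1 := by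
      simp
    rw [h1, map_zsmul, map_zsmul, h, aug_of]
  · intro g
    exact (h g).trans (aug_of G g).symm

/-- Sum of coordinates. -/
def sumMap (Λ : Type) [Ring Λ] (n : ℕ) : (Fin n → Λ) →ₗ[Λ] Λ where
  toFun v := ∑ i, v i
  map_add' x y := by simp [Finset.sum_add_distrib]
  map_smul' a x := by simp [Finset.mul_sum]

theorem fp_of_cond (G : Type) [Group G] (m : ℕ) (h : FPcond G (m + 1)) :
    FPn (MonoidAlgebra ℤ G) m (RingHom.ker (aug G)) := by
  obtain ⟨ε, n, d, h1, h2, h3, h4⟩ := h
  have hε := eq_aug G ε h1
  subst hε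
  set Λ := MonoidAlgebra ℤ G with hΛ
  have hK : FPn Λ m (LinearMap.range (d 0)) := fp_of_exact m n d (fun i hi => h4 i (by omega))
  have h5 := h3 (by omega)
  have hn : 0 < n 0 := by
    rcases Nat.eq_zero_or_pos (n 0) with h0 | h0
    · exfalso
      obtain ⟨v, hv⟩ := h2 1
      have : IsEmpty (Fin (n 0)) := by rw [h0]; infer_instance
      simp at hv
    · exact h0
  let s := sumMap Λ (n 0)
  have hs : ∀ v, s v = ∑ i, v i := fun v => rfl
  have hss : Function.Surjective s := by
    intro x
    refine ⟨Pi.single ⟨0, hn⟩ x, ?_⟩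
    rw [hs, Finset.sum_pi_single']
    simp
  let t : LinearMap.range (d 0) →ₗ[Λ] RingHom.ker (aug G) :=
    LinearMap.codRestrict _ (s ∘ₗ (LinearMap.range (d 0)).subtype) (fun x => by
      rw [RingHom.mem_ker]
      show aug G (∑ i, x.1 i) = 0
      rw [map_sum]
      exact (h5 x.1).2 x.2)
  have ht : Function.Surjective t := by
    intro y
    obtain ⟨v, hv⟩ := hss y.1
    have hv2 : v ∈ LinearMap.range (d 0) := by
      rw [← h5, ← map_sum, ← hs, hv]
      exact y.2
    exact ⟨⟨v, hv2⟩, Subtype.ext hv⟩
  cases m with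
  | zero =>
    have h6 : Module.Finite Λ (LinearMap.range (d 0)) := hK
    exact Module.Finite.of_surjective t ht
  | succ m =>
    refine fp_quot m t ht ?_ hK
    have h7 : FPn Λ m (LinearMap.ker s) := fp_kernel m s hss (fp_proj (m + 1) Λ)
    let e : LinearMap.ker s →ₗ[Λ] LinearMap.ker t :=
      LinearMap.codRestrict (LinearMap.ker t)
        (LinearMap.codRestrict (LinearMap.range (d 0)) (LinearMap.ker s).subtype
          (fun x => by
            have hx : s x.1 = 0 := x.2
            rw [← h5]
            show ∑ j, aug G (x.1 j) = 0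
            rw [← map_sum, ← hs, hx, map_zero]))
        (fun x => by
          rw [LinearMap.mem_ker]
          apply Subtype.ext
          exact x.2)
    have he : Function.Bijective e := by
      constructor
      · intro x y hxy
        have h8 : ((e x).1.1 : Fin (n 0) → Λ) = (e y).1.1 := by rw [hxy]
        exact Subtype.ext h8
      · intro z
        have hz : t z.1 = 0 := z.2
        have hz2 : s z.1.1 = 0 := congrArg Subtype.val hz
        exact ⟨⟨z.1.1, hz2⟩, Subtype.ext (Subtype.ext rfl)⟩
    exact fp_of_equiv m (LinearEquiv.ofBijective e he) h7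

theorem cond_zero (G : Type) [Group G] : FPcond G 0 := by
  refine ⟨aug G, fun _ => 1, fun _ => 0, aug_of G, ?_, ?_, ?_⟩
  · intro c
    refine ⟨fun _ => (c : MonoidAlgebra ℤ G), ?_⟩
    simp
  · intro h; omega
  · intro i h; omega

theorem cond_of_fp (G : Type) [Group G] (m : ℕ)
    (h : FPn (MonoidAlgebra ℤ G) m (RingHom.ker (aug G))) : FPcond G (m + 1) := by
  obtain ⟨n', f', d', hf', h0, h1⟩ := fp_resolution m _ h
  let j : (RingHom.ker (aug G)) →ₗ[MonoidAlgebra ℤ G] (Fin 1 → MonoidAlgebra ℤ G) :=
    LinearMap.pi (fun _ => (RingHom.ker (aug G)).subtype)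
  have hj : ∀ x i, j x i = x.1 := fun x i => rfl
  have hjk : LinearMap.ker j = ⊥ := by
    rw [LinearMap.ker_eq_bot]
    intro x y hxy
    have := congrFun hxy 0
    rw [hj, hj] at this
    exact Subtype.ext this
  refine ⟨aug G, fun i => match i with | 0 => 1 | i + 1 => n' i,
    fun i => match i with
      | 0 => j ∘ₗ f'
      | i + 1 => d' i, aug_of G, ?_, ?_, ?_⟩
  · intro c
    refine ⟨fun _ => (c : MonoidAlgebra ℤ G), ?_⟩
    show ∑ j : Fin 1, aug G (c : MonoidAlgebra ℤ G) = c
    rw [Fin.sum_univ_one, map_intCast]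
    rfl
  · intro _ v
    show ∑ i : Fin 1, aug G (v i) = 0 ↔ v ∈ LinearMap.range (j ∘ₗ f')
    rw [Fin.sum_univ_one]
    constructor
    · intro hv
      obtain ⟨x, hx⟩ := hf' ⟨v 0, hv⟩
      refine ⟨x, ?_⟩
      funext i
      rw [LinearMap.comp_apply, hx, hj]
      have : i = 0 := Subsingleton.elim _ _
      rw [this]
    · rintro ⟨x, hx⟩
      rw [← hx, LinearMap.comp_apply, hj]
      exact (f' x).2
  · intro i hi
    cases i with
    | zero =>
      show LinearMap.ker (j ∘ₗ f') = LinearMap.range (d' 0)
      rw [LinearMap.ker_comp_of_ker_eq_bot _ hjk]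
      exact h0 (by omega)
    | succ i =>
      show LinearMap.ker (d' i) = LinearMap.range (d' (i + 1))
      exact h1 i (by omega)

end conv

section index
variable {G : Type} [Group G] (H : Subgroup G)

/-- The inclusion of the group ring of a subgroup. -/
noncomputable def incl : MonoidAlgebra ℤ H →+* MonoidAlgebra ℤ G :=
  MonoidAlgebra.mapDomainRingHom ℤ H.subtype

theorem incl_single (h : H) (r : ℤ) :
    incl H (MonoidAlgebra.single h r) = MonoidAlgebra.single (h : G) r := by
  simp [incl]

theorem mulInj (t : G) : Function.Injective (fun h : H => (h : G) * t) :=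
  fun _ _ h => Subtype.ext (mul_right_cancel h)

/-- The restriction to a right coset of the subgroup. -/
noncomputable def res (t : G) : MonoidAlgebra ℤ G →+ MonoidAlgebra ℤ H :=
  MonoidAlgebra.comapDomainAddMonoidHom (fun h : H => (h : G) * t) (mulInj H t)

theorem res_coeff (t : G) (a : MonoidAlgebra ℤ G) (h : H) :
    (res H t a).coeff h = a.coeff (h * t) := rfl

theorem res_single_mem (t : G) (h : H) (r : ℤ) :
    res H t (MonoidAlgebra.single (h * t) r) = MonoidAlgebra.single h r := by
  classical
  ext k
  rw [res_coeff]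
  simp only [MonoidAlgebra.coeff_single]
  rw [Finsupp.single_apply, Finsupp.single_apply]
  congr 1
  simp

theorem res_single_not (t g : G) (hg : g * t⁻¹ ∉ H) (r : ℤ) :
    res H t (MonoidAlgebra.single g r) = 0 := by
  classical
  ext k
  rw [res_coeff]
  simp only [MonoidAlgebra.coeff_single, MonoidAlgebra.coeff_zero, Finsupp.coe_zero, Pi.zero_apply]
  rw [Finsupp.single_apply, if_neg]
  intro h
  apply hg
  rw [h]
  simp

theorem res_mul (t : G) (v : MonoidAlgebra ℤ H) (a : MonoidAlgebra ℤ G) :
    res H t (incl H v * a) = v * res H t a := by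
  induction a using MonoidAlgebra.induction_linear with
  | zero => simp
  | add x y hx hy => rw [mul_add, map_add, map_add, mul_add, hx, hy]
  | single g r =>
    induction v using MonoidAlgebra.induction_linear with
    | zero => simp
    | add x y hx hy => rw [map_add, add_mul, map_add, add_mul, hx, hy]
    | single h s =>
      rw [incl_single, MonoidAlgebra.single_mul_single]
      by_cases hg : g * t⁻¹ ∈ H
      · have h1 : g = ((⟨g * t⁻¹, hg⟩ : H) : G) * t := by simp
        have h2 : (h : G) * g = ((h * (⟨g * t⁻¹, hg⟩ : H) : H) : G) * t := by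
          simp [mul_assoc]
        rw [h2, res_single_mem]
        conv_rhs => rw [h1]
        rw [res_single_mem, MonoidAlgebra.single_mul_single]
      · rw [res_single_not H t g hg, res_single_not H t (h * g) ?_, mul_zero]
        intro h'
        apply hg
        rw [mul_assoc] at h'
        exact (Subgroup.mul_mem_cancel_left H h.2).mp h'

/-- The representative of a right coset. -/
noncomputable def rep (c : G ⧸ H) : G := (Quotient.out c)⁻¹

theorem rep_iff (c : G ⧸ H) (g : G) : g * (rep H c)⁻¹ ∈ H ↔ c = QuotientGroup.mk g⁻¹ := by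
  have h1 : (QuotientGroup.mk g⁻¹ : G ⧸ H) = QuotientGroup.mk (Quotient.out c) ↔
      (g⁻¹)⁻¹ * Quotient.out c ∈ H := QuotientGroup.eq
  rw [QuotientGroup.out_eq'] at h1
  rw [rep, inv_inv, eq_comm, h1, inv_inv]

/-- The module structure of the big group ring over the small one. -/
noncomputable abbrev modH : Module (MonoidAlgebra ℤ H) (MonoidAlgebra ℤ G) :=
  Module.compHom (MonoidAlgebra ℤ G) (incl H)

open Classical in
theorem res_rep_single (c : G ⧸ H) (g : G) (r : ℤ) :
    incl H (res H (rep H c) (MonoidAlgebra.single g r)) * MonoidAlgebra.single (rep H c) 1 =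
      if c = QuotientGroup.mk g⁻¹ then MonoidAlgebra.single g r else 0 := by
  by_cases hc : c = QuotientGroup.mk g⁻¹
  · rw [if_pos hc]
    have hg := (rep_iff H c g).2 hc
    have h1 : g = ((⟨g * (rep H c)⁻¹, hg⟩ : H) : G) * rep H c := by simp
    conv_lhs => rw [h1]
    rw [res_single_mem, incl_single, MonoidAlgebra.single_mul_single, mul_one, ← h1]
  · rw [if_neg hc]
    have hg : g * (rep H c)⁻¹ ∉ H := fun h => hc ((rep_iff H c g).1 h)
    rw [res_single_not H _ g hg, map_zero, zero_mul]

theorem res_rep_mul (c c' : G ⧸ H) (v : MonoidAlgebra ℤ H) [Decidable (c = c')] :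
    res H (rep H c) (incl H v * MonoidAlgebra.single (rep H c') 1) = if c = c' then v else 0 := by
  induction v using MonoidAlgebra.induction_linear with
  | zero => simp
  | add x y hx hy =>
    rw [map_add, add_mul, map_add, hx, hy]
    split_ifs <;> simp
  | single h r =>
    rw [incl_single, MonoidAlgebra.single_mul_single, mul_one]
    split_ifs with h1
    · subst h1
      rw [res_single_mem]
    · refine res_single_not H _ _ ?_ r
      intro h2
      apply h1
      have h3 : rep H c' * (rep H c)⁻¹ ∈ H := by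
        rw [mul_assoc] at h2
        exact (Subgroup.mul_mem_cancel_left H h.2).mp h2
      have h4 := (rep_iff H c (rep H c')).1 h3
      rw [h4]
      simp [rep]

/-- The big group ring is free of finite rank over the small one. -/
noncomputable def eqv [Fintype (G ⧸ H)] :
    letI := modH H
    MonoidAlgebra ℤ G ≃ₗ[MonoidAlgebra ℤ H] (G ⧸ H → MonoidAlgebra ℤ H) :=
  letI := modH H
  { toFun := fun a c => res H (rep H c) a
    invFun := fun v => ∑ c, incl H (v c) * MonoidAlgebra.single (rep H c) 1
    map_add' := fun a b => by funext c; simp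
    map_smul' := fun v a => by
      funext c
      exact res_mul H _ v a
    left_inv := fun a => by
      classical
      show ∑ c, incl H (res H (rep H c) a) * MonoidAlgebra.single (rep H c) 1 = a
      induction a using MonoidAlgebra.induction_linear with
      | zero => simp
      | add x y hx hy =>
        simp only [map_add, add_mul, Finset.sum_add_distrib]
        rw [hx, hy]
      | single g r =>
        simp only [res_rep_single]
        simp
    right_inv := fun v => by
      classical
      funext c
      show res H (rep H c) (∑ c', incl H (v c') * MonoidAlgebra.single (rep H c') 1) = v c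
      rw [map_sum]
      simp only [res_rep_mul]
      simp }

theorem aug_incl_res [Fintype (G ⧸ H)] (a : MonoidAlgebra ℤ G) :
    aug H (∑ c : G ⧸ H, res H (rep H c) a) = aug G a := by
  classical
  induction a using MonoidAlgebra.induction_linear with
  | zero => simp
  | add x y hx hy =>
    simp only [map_add, Finset.sum_add_distrib] at hx hy ⊢
    rw [hx, hy]
  | single g r =>
    have h0 : ∀ c : G ⧸ H, c ≠ QuotientGroup.mk g⁻¹ →
        res H (rep H c) (MonoidAlgebra.single g r) = 0 := fun c hc =>
      res_single_not H _ g (fun h => hc ((rep_iff H c g).1 h)) r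
    rw [Finset.sum_eq_single (QuotientGroup.mk g⁻¹ : G ⧸ H) (fun c _ hc => h0 c hc)
      (fun h => absurd (Finset.mem_univ _) h)]
    have hg := (rep_iff H (QuotientGroup.mk g⁻¹ : G ⧸ H) g).2 rfl
    generalize rep H (QuotientGroup.mk g⁻¹ : G ⧸ H) = t at hg
    have h1 : g = ((⟨g * t⁻¹, hg⟩ : H) : G) * t := by simp
    have h2 : res H t (MonoidAlgebra.single g r) = MonoidAlgebra.single (⟨g * t⁻¹, hg⟩ : H) r := by
      conv_lhs => rw [h1]
      rw [res_single_mem]
    rw [h2]
    simp [aug]

end index

end Pool.Agent.FPmIf.Up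

namespace Pool.Agent.FPmIf

open Pool.Agent.FPm (FPcond TameCond)
open Up

/-- F: going up finite index. -/
theorem F_up (G : Type) [Group G] (G1 : Subgroup G) (h1 : G1.FiniteIndex) (m : ℕ)
    (h : FPcond G1 m) : FPcond G m := by
  cases m with
  | zero => exact cond_zero G
  | succ m =>
    have h2 := fp_of_cond G1 m h
    let _ := modH G1
    have : IsScalarTower (MonoidAlgebra ℤ G1) (MonoidAlgebra ℤ G) (MonoidAlgebra ℤ G) :=
      ⟨fun a b c => mul_assoc (incl G1 a) b c⟩
    have : Finite (G ⧸ G1) := inferInstance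
    let _ : Fintype (G ⧸ G1) := Fintype.ofFinite _
    have : Module.Finite (MonoidAlgebra ℤ G1) (MonoidAlgebra ℤ G) :=
      Module.Finite.equiv (eqv G1).symm
    have : Module.Projective (MonoidAlgebra ℤ G1) (MonoidAlgebra ℤ G) :=
      Module.Projective.of_equiv (eqv G1).symm
    apply cond_of_fp
    refine fp_restrict (A := MonoidAlgebra ℤ G1) (B := MonoidAlgebra ℤ G) m _ ?_
    -- the projection of group rings
    let π : MonoidAlgebra ℤ G →ₗ[MonoidAlgebra ℤ G1] MonoidAlgebra ℤ G1 :=
      { toFun := fun a => ∑ c : G ⧸ G1, res G1 (rep G1 c) a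
        map_add' := fun a b => by simp [Finset.sum_add_distrib]
        map_smul' := fun v a => by
          rw [RingHom.id_apply, smul_eq_mul, Finset.mul_sum]
          refine Finset.sum_congr rfl (fun c _ => ?_)
          exact res_mul G1 _ v a }
    have hπ : ∀ a, π a = ∑ c : G ⧸ G1, res G1 (rep G1 c) a := fun a => rfl
    have hπs : Function.Surjective π := by
      classical
      intro v
      refine ⟨(eqv G1).symm (Pi.single (QuotientGroup.mk 1) v), ?_⟩
      have h3 : ∀ a, π a = ∑ c : G ⧸ G1, (eqv G1) a c := fun a => rfl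
      rw [h3, LinearEquiv.apply_symm_apply, Finset.sum_pi_single']
      simp
    let t : RingHom.ker (aug G) →ₗ[MonoidAlgebra ℤ G1] RingHom.ker (aug G1) :=
      LinearMap.codRestrict (RingHom.ker (aug G1))
        (π ∘ₗ ((RingHom.ker (aug G)).subtype.restrictScalars (MonoidAlgebra ℤ G1)))
        (fun x => by
          rw [RingHom.mem_ker]
          show aug G1 (π x.1) = 0
          rw [hπ, aug_incl_res]
          exact x.2)
    have ht : Function.Surjective t := by
      intro y
      obtain ⟨x, hx⟩ := hπs y.1
      have hx2 : x ∈ RingHom.ker (aug G) := by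
        rw [RingHom.mem_ker, ← aug_incl_res G1, ← hπ, hx]
        exact y.2
      exact ⟨⟨x, hx2⟩, Subtype.ext hx⟩
    refine fp_ext m t ht ?_ h2
    have h3 : FPn (MonoidAlgebra ℤ G1) m (LinearMap.ker π) :=
      fp_kernel m π hπs (fp_proj (m + 1) (MonoidAlgebra ℤ G1))
    let e : LinearMap.ker π →ₗ[MonoidAlgebra ℤ G1] LinearMap.ker t :=
      { toFun := fun x => ⟨⟨x.1, by
          have hx : π x.1 = 0 := x.2
          rw [RingHom.mem_ker, ← aug_incl_res G1, ← hπ, hx, map_zero]⟩, by
          rw [LinearMap.mem_ker]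
          apply Subtype.ext
          exact x.2⟩
        map_add' := fun x y => rfl
        map_smul' := fun a x => rfl }
    have he : Function.Bijective e := by
      constructor
      · intro x y hxy
        have h8 : ((e x).1.1 : MonoidAlgebra ℤ G) = (e y).1.1 := by rw [hxy]
        exact Subtype.ext h8
      · intro z
        have hz : t z.1 = 0 := z.2
        have hz2 : π z.1.1 = 0 := congrArg Subtype.val hz
        exact ⟨⟨z.1.1, hz2⟩, Subtype.ext (Subtype.ext rfl)⟩
    exact fp_of_equiv m (LinearEquiv.ofBijective e he) h3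

end Pool.Agent.FPmIf
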