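import Mathlib

/-! Reals, linearly independent over the rationals, in prescribed intervals. -/

namespace Pool.Agent.FPmIf.G1

theorem exists_indep_reals (N : ℕ) : ∃ b : Fin N → ℝ, LinearIndependent ℚ b := by
  have hinf : Infinite (Module.Basis.ofVectorSpaceIndex ℚ ℝ) := by
    by_contra hfin
    rw [not_infinite_iff_finite] at hfin
    have h1 : Module.Finite ℚ ℝ := Module.Finite.of_basis (Module.Basis.ofVectorSpace ℚ ℝ)
    have h2 := Real.rank_rat_real
    have h3 := Module.rank_lt_aleph0 ℚ ℝ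
    rw [h2] at h3
    exact absurd h3 (not_lt.mpr Cardinal.aleph0_le_continuum)
  obtain ⟨f⟩ : Nonempty (Fin N ↪ Module.Basis.ofVectorSpaceIndex ℚ ℝ) :=
    ⟨Fin.valEmbedding.trans (Infinite.natEmbedding _)⟩
  refine ⟨fun i => Module.Basis.ofVectorSpace ℚ ℝ (f i), ?_⟩
  exact (Module.Basis.ofVectorSpace ℚ ℝ).linearIndependent.comp f f.injective

theorem exists_cs_gen {N : ℕ} (lo hi : Fin N → ℝ) (h : ∀ j, lo j < hi j) (hlo : ∀ j, 0 < lo j) :
    ∃ c : Fin N → ℝ, (∀ j, lo j < c j) ∧ (∀ j, c j < hi j) ∧ LinearIndependent ℚ c := by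
  obtain ⟨b, hb⟩ := exists_indep_reals N
  have hb0 : ∀ j, b j ≠ 0 := fun j => hb.ne_zero j
  have hq : ∀ j, ∃ q : ℚ, q ≠ 0 ∧ lo j < (q : ℝ) * b j ∧ (q : ℝ) * b j < hi j := by
    intro j
    rcases lt_or_gt_of_ne (hb0 j) with hneg | hpos
    · have h1 : hi j / b j < lo j / b j := (div_lt_div_right_of_neg hneg).mpr (h j)
      obtain ⟨q, hq1, hq2⟩ := exists_rat_btwn h1
      rw [div_lt_iff_of_neg hneg] at hq1
      rw [lt_div_iff_of_neg hneg] at hq2
      refine ⟨q, ?_, hq2, hq1⟩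
      rintro rfl
      have := hlo j
      simp at hq2
      linarith
    · have h1 : lo j / b j < hi j / b j := (div_lt_div_iff_of_pos_right hpos).mpr (h j)
      obtain ⟨q, hq1, hq2⟩ := exists_rat_btwn h1
      rw [div_lt_iff₀ hpos] at hq1
      rw [lt_div_iff₀ hpos] at hq2
      refine ⟨q, ?_, hq1, hq2⟩
      rintro rfl
      have := hlo j
      simp at hq1
      linarith
  choose q hq0 hq1 hq2 using hq
  refine ⟨fun j => (q j : ℝ) * b j, hq1, hq2, ?_⟩
  have h1 := hb.units_smul (fun j => Units.mk0 (q j) (hq0 j))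
  have h2 : ((fun j => Units.mk0 (q j) (hq0 j)) • b : Fin N → ℝ) =
      fun j => (q j : ℝ) * b j := by
    funext j
    simp [Pi.smul_apply', Units.smul_def, Rat.smul_def]
  rwa [h2] at h1

end Pool.Agent.FPmIf.G1
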