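import Mathlib

/-! Directions in general position: a finite family of integer vectors, any `n` of them linearly
independent, whose directions are an `eps`-net of the unit sphere. -/

namespace Pool.Agent.FPmIf.G1

open Module

abbrev E (n : ℕ) := EuclideanSpace ℝ (Fin n)

/-- the real vector of an integer vector -/
noncomputable def cst {n : ℕ} (z : Fin n → ℤ) : E n := WithLp.toLp 2 (fun i => (z i : ℝ))

theorem exists_int_multiple {n : ℕ} (q : Fin n → ℚ) :
    ∃ (d : ℕ) (z : Fin n → ℤ), 0 < d ∧ ∀ i, (z i : ℝ) = d * (q i : ℝ) := by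
  classical
  set d : ℕ := ∏ j, (q j).den with hd
  have hdvd : ∀ i, (q i).den ∣ d := fun i => Finset.dvd_prod_of_mem _ (Finset.mem_univ i)
  choose r hr using hdvd
  refine ⟨d, fun i => (q i).num * (r i : ℤ), ?_, ?_⟩
  · exact Finset.prod_pos (fun j _ => (q j).den_pos)
  · intro i
    have h1 : ((q i).den : ℝ) ≠ 0 := by exact_mod_cast (q i).den_nz
    have h2 : ((q i : ℚ) : ℝ) = ((q i).num : ℝ) / ((q i).den : ℝ) := by
      exact_mod_cast (Rat.num_div_den (q i)).symm
    have h3 : (d : ℝ) = ((q i).den : ℝ) * (r i : ℝ) := by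
      have := hr i
      exact_mod_cast this
    rw [h2, h3]
    push_cast
    field_simp

theorem exists_rat_near {n : ℕ} (V : Set (E n)) (hV : IsOpen V) (hne : V.Nonempty) :
    ∃ q : Fin n → ℚ, (WithLp.toLp 2 (fun i => ((q i : ℚ) : ℝ)) : E n) ∈ V := by
  obtain ⟨y, hy⟩ := hne
  -- pull back to functions
  have hc : Continuous (fun x : Fin n → ℝ => (WithLp.toLp 2 x : E n)) :=
    PiLp.continuous_toLp 2 (fun _ : Fin n => ℝ)
  have hW : IsOpen ((fun x : Fin n → ℝ => (WithLp.toLp 2 x : E n)) ⁻¹' V) := hV.preimage hc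
  have hdense : DenseRange (fun q : Fin n → ℚ => (fun i => ((q i : ℚ) : ℝ))) := by
    have := DenseRange.piMap (ι := Fin n) (X := fun _ => ℚ) (Y := fun _ => ℝ)
      (f := fun _ => ((↑) : ℚ → ℝ)) (fun _ => Rat.denseRange_cast)
    exact this
  obtain ⟨q, hq⟩ := hdense.exists_mem_open hW ⟨WithLp.ofLp y, by simpa using hy⟩
  exact ⟨q, hq⟩

/-- a nonempty open set minus finitely many proper subspaces is nonempty and open -/
theorem exists_avoid {n : ℕ} (V : Set (E n)) (hV : IsOpen V) (hne : V.Nonempty)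
    (F : Finset (Submodule ℝ (E n))) (hF : ∀ H ∈ F, H ≠ ⊤) :
    ∃ q : Fin n → ℚ, (WithLp.toLp 2 (fun i => ((q i : ℚ) : ℝ)) : E n) ∈ V ∧
      ∀ H ∈ F, (WithLp.toLp 2 (fun i => ((q i : ℚ) : ℝ)) : E n) ∉ H := by
  have hopen : ∀ H ∈ F, IsOpen ((H : Set (E n))ᶜ) := fun H _ =>
    (Submodule.closed_of_finiteDimensional H).isOpen_compl
  have hdense : Dense (⋂ H ∈ F, ((H : Set (E n))ᶜ)) := by
    have := dense_biInter_of_isOpen (X := E n) (S := (F : Set (Submodule ℝ (E n))))
      (f := fun H => ((H : Set (E n))ᶜ)) (fun H hH => hopen H hH) F.finite_toSet.countable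
      (fun H hH => by
        rw [← interior_eq_empty_iff_dense_compl]
        by_contra hcon
        have hne' : (interior (H : Set (E n))).Nonempty := Set.nonempty_iff_ne_empty.mpr hcon
        exact hF H hH (Submodule.eq_top_of_nonempty_interior' H hne'))
    simpa using this
  have hop : IsOpen (⋂ H ∈ F, ((H : Set (E n))ᶜ)) := by
    have := isOpen_biInter_finset (s := F) (f := fun H => ((H : Set (E n))ᶜ)) hopen
    exact this
  obtain ⟨q, hq⟩ := exists_rat_near (V ∩ ⋂ H ∈ F, ((H : Set (E n))ᶜ)) (hV.inter hop)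
    (hdense.inter_open_nonempty V hV hne)
  refine ⟨q, hq.1, fun H hH => ?_⟩
  have := hq.2
  simp only [Set.mem_iInter] at this
  exact this H hH

/-- one new integer vector near a given direction, outside finitely many proper subspaces -/
theorem exists_new {n : ℕ} (y : E n) (hy : ‖y‖ = 1) {eps : ℝ} (he : 0 < eps)
    (F : Finset (Submodule ℝ (E n))) (hF : ∀ H ∈ F, H ≠ ⊤) :
    ∃ z : Fin n → ℤ, cst z ≠ 0 ∧ ‖(‖cst z‖⁻¹ • cst z) - y‖ < eps ∧ ∀ H ∈ F, cst z ∉ H := by
  set δ := min (eps / 2) (1 / 2) with hδ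
  have hδpos : 0 < δ := lt_min (by linarith) (by norm_num)
  obtain ⟨q, hq1, hq2⟩ := exists_avoid (Metric.ball y δ) Metric.isOpen_ball
    ⟨y, Metric.mem_ball_self hδpos⟩ F hF
  obtain ⟨d, z, hd, hz⟩ := exists_int_multiple q
  set Q : E n := WithLp.toLp 2 (fun i => ((q i : ℚ) : ℝ)) with hQ
  have hdR : (0 : ℝ) < d := by exact_mod_cast hd
  have hcz : cst z = (d : ℝ) • Q := by
    ext i
    simp [cst, hQ, hz i]
  have hQy : ‖Q - y‖ < δ := by simpa [dist_eq_norm] using hq1
  have hQn : ‖Q‖ ≥ 1 / 2 := by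
    have h1 : ‖y‖ ≤ ‖y - Q‖ + ‖Q‖ := by
      have := norm_add_le (y - Q) Q
      simpa using this
    rw [norm_sub_rev] at h1
    have h2 : δ ≤ 1 / 2 := min_le_right _ _
    linarith
  have hQ0 : Q ≠ 0 := by
    intro h
    rw [h, norm_zero] at hQn
    linarith
  have hQpos : 0 < ‖Q‖ := norm_pos_iff.mpr hQ0
  have hunit : ‖cst z‖⁻¹ • cst z = ‖Q‖⁻¹ • Q := by
    rw [hcz, norm_smul, smul_smul]
    congr 1
    rw [Real.norm_of_nonneg hdR.le]
    field_simp
  refine ⟨z, ?_, ?_, ?_⟩
  · rw [hcz]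
    exact smul_ne_zero hdR.ne' hQ0
  · rw [hunit]
    have h1 : ‖(‖Q‖⁻¹ • Q) - Q‖ ≤ ‖Q - y‖ := by
      have h2 : (‖Q‖⁻¹ • Q) - Q = (‖Q‖⁻¹ - 1) • Q := by rw [sub_smul, one_smul]
      rw [h2, norm_smul, Real.norm_eq_abs]
      have h3 : |‖Q‖⁻¹ - 1| * ‖Q‖ = |1 - ‖Q‖| := by
        rw [← abs_of_pos hQpos, ← abs_mul, abs_of_pos hQpos, sub_mul, inv_mul_cancel₀ hQpos.ne',
          one_mul]
      rw [h3]
      have h4 := abs_norm_sub_norm_le y Q
      rw [hy, norm_sub_rev] at h4
      exact h4
    have h5 : ‖(‖Q‖⁻¹ • Q) - y‖ ≤ ‖(‖Q‖⁻¹ • Q) - Q‖ + ‖Q - y‖ := by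
      have := norm_add_le ((‖Q‖⁻¹ • Q) - Q) (Q - y)
      simpa using this
    have h6 : δ ≤ eps / 2 := min_le_left _ _
    linarith
  · intro H hH hmem
    apply hq2 H hH
    rw [hcz] at hmem
    have := H.smul_mem (d : ℝ)⁻¹ hmem
    rwa [smul_smul, inv_mul_cancel₀ hdR.ne', one_smul] at this

/-- general position for a finite set of integer vectors -/
def GenPos {n : ℕ} (U : Finset (Fin n → ℤ)) : Prop :=
  ∀ T ⊆ U, T.card ≤ n → LinearIndepOn ℝ (cst : (Fin n → ℤ) → E n) (T : Set (Fin n → ℤ))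

theorem exists_genPos {n : ℕ} (hn : 0 < n) {eps : ℝ} (he : 0 < eps) (L : Finset (E n)) :
    (∀ y ∈ L, ‖y‖ = 1) →
    ∃ U : Finset (Fin n → ℤ), GenPos U ∧ (∀ z ∈ U, cst z ≠ 0) ∧
      ∀ y ∈ L, ∃ z ∈ U, ‖(‖cst z‖⁻¹ • cst z) - y‖ < eps := by
  classical
  induction L using Finset.induction_on with
  | empty =>
    intro _
    refine ⟨∅, ?_, by simp, by simp⟩
    intro T hT _
    have : T = ∅ := Finset.subset_empty.mp hT
    rw [this]
    simp
  | insert y L hyL ih =>
    intro hL
    obtain ⟨U, hU1, hU2, hU3⟩ := ih (fun w hw => hL w (Finset.mem_insert_of_mem hw))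
    set F : Finset (Submodule ℝ (E n)) :=
      (U.powerset.filter (fun T => T.card < n)).image
        (fun T : Finset (Fin n → ℤ) =>
          Submodule.span ℝ (cst '' (T : Set (Fin n → ℤ)))) with hFdef
    have hF : ∀ H ∈ F, H ≠ ⊤ := by
      intro H hH htop
      rw [hFdef, Finset.mem_image] at hH
      obtain ⟨T, hT, rfl⟩ := hH
      rw [Finset.mem_filter] at hT
      have h1 : finrank ℝ (Submodule.span ℝ (cst '' (T : Set (Fin n → ℤ)))) ≤ T.card := by
        have h2 : (cst '' (T : Set (Fin n → ℤ)) : Set (E n)) =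
            ((T.image cst : Finset (E n)) : Set (E n)) := by simp
        rw [h2]
        exact (finrank_span_finset_le_card _).trans Finset.card_image_le
      rw [htop, finrank_top, finrank_euclideanSpace_fin] at h1
      omega
    obtain ⟨z, hz0, hz1, hz2⟩ := exists_new y (hL y (Finset.mem_insert_self _ _)) he F hF
    refine ⟨insert z U, ?_, ?_, ?_⟩
    · intro T hT hc
      by_cases hzT : z ∈ T
      · have hsub : T.erase z ⊆ U := by
          intro w hw
          rw [Finset.mem_erase] at hw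
          have := hT hw.2
          rw [Finset.mem_insert] at this
          rcases this with h | h
          · exact absurd h hw.1
          · exact h
        have hcard : (T.erase z).card < n := by
          have := Finset.card_erase_lt_of_mem hzT
          omega
        have hli := hU1 (T.erase z) hsub hcard.le
        have hspan : cst z ∉ Submodule.span ℝ (cst '' ((T.erase z : Finset (Fin n → ℤ)) :
            Set (Fin n → ℤ))) := by
          apply hz2
          rw [hFdef, Finset.mem_image]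
          exact ⟨T.erase z, Finset.mem_filter.mpr ⟨Finset.mem_powerset.mpr hsub, hcard⟩, rfl⟩
        have hfin : LinearIndepOn ℝ (cst : (Fin n → ℤ) → E n)
            (insert z ((T.erase z : Finset (Fin n → ℤ)) : Set (Fin n → ℤ))) :=
          hli.insert hspan
        have heq : (insert z ((T.erase z : Finset (Fin n → ℤ)) : Set (Fin n → ℤ))) =
            (T : Set (Fin n → ℤ)) := by
          rw [← Finset.coe_insert, Finset.insert_erase hzT]
        rwa [heq] at hfin
      · apply hU1 T _ hc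
        intro w hw
        have := hT hw
        rw [Finset.mem_insert] at this
        rcases this with h | h
        · exact absurd (h ▸ hw) hzT
        · exact h
    · intro w hw
      rw [Finset.mem_insert] at hw
      rcases hw with rfl | hw
      · exact hz0
      · exact hU2 w hw
    · intro w hw
      rw [Finset.mem_insert] at hw
      rcases hw with rfl | hw
      · exact ⟨z, Finset.mem_insert_self _ _, hz1⟩
      · obtain ⟨v, hv, hv'⟩ := hU3 w hw
        exact ⟨v, Finset.mem_insert_of_mem hv, hv'⟩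

theorem exists_directions {n : ℕ} (hn : 0 < n) {eps : ℝ} (he : 0 < eps) :
    ∃ (N : ℕ) (u : Fin N → Fin n → ℤ), (∀ j, cst (u j) ≠ 0) ∧ Function.Injective u ∧
      (∀ s : Finset (Fin N), s.card ≤ n →
        LinearIndependent ℝ (fun j : s => cst (u j))) ∧
      ∀ y : E n, ‖y‖ = 1 → ∃ j, ‖(‖cst (u j)‖⁻¹ • cst (u j)) - y‖ < eps := by
  classical
  obtain ⟨t, ht1, ht2, ht3⟩ := (isCompact_sphere (0 : E n) 1).finite_cover_balls (half_pos he)
  obtain ⟨U, hU1, hU2, hU3⟩ := exists_genPos hn (half_pos he) ht2.toFinset (fun y hy => by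
    have := ht1 (ht2.mem_toFinset.mp hy)
    simpa using this)
  set e := U.equivFin with hedef
  refine ⟨U.card, fun j => (e.symm j : Fin n → ℤ), fun j => hU2 _ (e.symm j).2, ?_, ?_, ?_⟩
  · intro a b hab
    exact e.symm.injective (Subtype.ext hab)
  · intro s hs
    have hinj : Function.Injective (fun j : Fin U.card => ((e.symm j : U) : Fin n → ℤ)) := by
      intro a b hab
      exact e.symm.injective (Subtype.ext hab)
    have h1 := hU1 (s.image (fun j => ((e.symm j : U) : Fin n → ℤ))) (by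
      intro w hw
      rw [Finset.mem_image] at hw
      obtain ⟨j, _, rfl⟩ := hw
      exact (e.symm j).2) (Finset.card_image_le.trans hs)
    have h2 : LinearIndependent ℝ (fun x : ((s.image (fun j => ((e.symm j : U) : Fin n → ℤ)) :
        Finset (Fin n → ℤ)) : Set (Fin n → ℤ)) => cst (x : Fin n → ℤ)) := h1
    let f : s → ((s.image (fun j => ((e.symm j : U) : Fin n → ℤ)) : Finset (Fin n → ℤ)) :
        Set (Fin n → ℤ)) := fun j => ⟨((e.symm (j : Fin U.card) : U) : Fin n → ℤ), by
          rw [Finset.mem_coe, Finset.mem_image]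
          exact ⟨j, j.2, rfl⟩⟩
    have hf : Function.Injective f := by
      intro a b hab
      have := congrArg Subtype.val hab
      exact Subtype.ext (hinj this)
    exact h2.comp f hf
  · intro y hy
    have hmem : y ∈ ⋃ x ∈ t, Metric.ball x (eps / 2) := ht3 (by simpa using hy)
    simp only [Set.mem_iUnion] at hmem
    obtain ⟨x, hx, hxy⟩ := hmem
    obtain ⟨z, hz, hzx⟩ := hU3 x (ht2.mem_toFinset.mpr hx)
    refine ⟨e ⟨z, hz⟩, ?_⟩
    simp only [Equiv.symm_apply_apply]
    have h1 : ‖x - y‖ < eps / 2 := by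
      rw [Metric.mem_ball, dist_comm, dist_eq_norm] at hxy
      exact hxy
    have h2 := norm_add_le ((‖cst z‖⁻¹ • cst z) - x) (x - y)
    have h3 : ((‖cst z‖⁻¹ • cst z) - x) + (x - y) = (‖cst z‖⁻¹ • cst z) - y := by abel
    rw [h3] at h2
    linarith

end Pool.Agent.FPmIf.G1
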