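import Pool.Agent.Lib.MP_f973c6_al.If.Defs
import Pool.Agent.Lib.MP_f973c6_al.If.G1Dirs
import Pool.Agent.Lib.MP_f973c6_al.If.G1Cs

/-! G1: existence of directions (H1)-(H4). -/

set_option autoImplicit false

namespace Pool.Agent.FPmIf

open G1 in
theorem nrm_eq_norm {n : ℕ} (x : Fin n → ℝ) : nrm x = ‖(WithLp.toLp 2 x : E n)‖ := by
  rw [nrm, EuclideanSpace.norm_eq, dt]
  congr 1
  refine Finset.sum_congr rfl (fun i _ => ?_)
  simp [Real.norm_eq_abs, pow_two]

open G1 in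
/-- G1: existence of directions. -/
theorem G1_dirs (n : ℕ) (hn : 1 ≤ n) (ε : ℝ) (hε : 0 < ε) (hε1 : ε < 1) :
    ∃ (N : ℕ) (u : Fin N → Fin n → ℤ) (c : Fin N → ℝ), Dirs n N ε u c := by
  obtain ⟨N, u, hu0, _, hli, hnet⟩ := exists_directions hn hε
  have hcst : ∀ z : Fin n → ℤ, cst z = WithLp.toLp 2 (rv z) := fun _ => rfl
  have hpos : ∀ j, 0 < nrm (rv (u j)) := by
    intro j
    rw [nrm_eq_norm, ← hcst]
    exact norm_pos_iff.mpr (hu0 j)
  obtain ⟨c, hc1, hc2, hc3⟩ := exists_cs_gen (fun j => nrm (rv (u j)))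
    (fun j => (1 + ε) * nrm (rv (u j))) (fun j => by have := hpos j; nlinarith) hpos
  refine ⟨N, u, c, ⟨?_, fun j => (hpos j).trans (hc1 j), hc3, fun j => (hc1 j).le,
    fun j => (hc2 j).le, ?_⟩⟩
  · intro I hI g hg j hj
    have h1 := hli I hI
    rw [Fintype.linearIndependent_iff] at h1
    have h2 : ∑ i : I, g i • cst (u i) = 0 := by
      have h3 : ∑ i : I, g i • cst (u i) = ∑ i ∈ I, g i • cst (u i) :=
        Finset.sum_coe_sort I (fun i => g i • cst (u i))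
      rw [h3]
      have h4 : (WithLp.toLp 2 (∑ j ∈ I, g j • rv (u j)) : E n) = ∑ i ∈ I, g i • cst (u i) := by
        rw [WithLp.toLp_sum]
        refine Finset.sum_congr rfl (fun i _ => ?_)
        rw [hcst, WithLp.toLp_smul]
      rw [← h4, hg]
      rfl
    exact h1 (fun i => g i) h2 ⟨j, hj⟩
  · intro y hy
    rw [nrm_eq_norm] at hy
    obtain ⟨j, hj⟩ := hnet _ hy
    refine ⟨j, ?_⟩
    rw [nrm_eq_norm]
    refine le_trans (le_of_eq ?_) hj.le
    congr 1
    ext i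
    simp only [PiLp.sub_apply, PiLp.smul_apply, smul_eq_mul, hat, Pi.sub_apply, Pi.smul_apply]
    rw [nrm_eq_norm, ← hcst]
    rfl

end Pool.Agent.FPmIf
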