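import Pool.Agent.Lib.MP_f973c6_al.If.Defs

/-! Parts of G2: general position, uniqueness of relations on a base, exchange, integer relations
and (L2). -/

set_option autoImplicit false

namespace Pool.Agent.FPmIf.G2

variable {n N : ℕ}

theorem dt_add_left (x y z : Fin n → ℝ) : dt (x + y) z = dt x z + dt y z := by
  simp [dt, add_mul, Finset.sum_add_distrib]

theorem dt_sub_left (x y z : Fin n → ℝ) : dt (x - y) z = dt x z - dt y z := by
  simp [dt, sub_mul, Finset.sum_sub_distrib]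

theorem dt_smul_left (a : ℝ) (x z : Fin n → ℝ) : dt (a • x) z = a * dt x z := by
  simp [dt, mul_assoc, Finset.mul_sum]

theorem dt_comm (x y : Fin n → ℝ) : dt x y = dt y x := by
  simp [dt, mul_comm]

theorem dt_sum_right {ι : Type*} (I : Finset ι) (x : Fin n → ℝ) (g : ι → ℝ)
    (U : ι → Fin n → ℝ) : dt x (∑ j ∈ I, g j • U j) = ∑ j ∈ I, g j * dt x (U j) := by
  classical
  induction I using Finset.induction_on with
  | empty => simp [dt]
  | insert a s ha ih =>
    rw [Finset.sum_insert ha, Finset.sum_insert ha, dt_comm, dt_add_left, dt_smul_left,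
      dt_comm (U a), dt_comm (∑ j ∈ s, g j • U j), ih]

theorem dt_zero_right (x : Fin n → ℝ) : dt x 0 = 0 := by simp [dt]

theorem dt_self_eq_zero (x : Fin n → ℝ) (h : dt x x = 0) : x = 0 := by
  have h1 : ∀ i ∈ (Finset.univ : Finset (Fin n)), x i * x i = 0 :=
    (Finset.sum_eq_zero_iff_of_nonneg (fun i _ => mul_self_nonneg (x i))).mp h
  funext i
  exact mul_self_eq_zero.mp (h1 i (Finset.mem_univ i))

/-- General position. -/
def GP (U : Fin N → Fin n → ℝ) : Prop := ∀ I : Finset (Fin N), I.card ≤ n → ∀ g : Fin N → ℝ,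
    ∑ j ∈ I, g j • U j = 0 → ∀ j ∈ I, g j = 0

theorem span_of_card {U : Fin N → Fin n → ℝ} (h : GP U) {I : Finset (Fin N)} (hI : I.card = n)
    (x : Fin n → ℝ) : ∃ a : Fin N → ℝ, ∑ j ∈ I, a j • U j = x := by
  classical
  have hli : LinearIndependent ℝ (fun i : I => U i) := by
    rw [Fintype.linearIndependent_iff]
    intro g hg i
    have h1 := h I hI.le (fun j => if hj : j ∈ I then g ⟨j, hj⟩ else 0) (by
      rw [← hg, ← Finset.sum_coe_sort I]
      refine Finset.sum_congr rfl (fun i _ => ?_)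
      simp) i i.2
    simpa using h1
  have hsp := hli.span_eq_top_of_card_eq_finrank' (by simp [hI])
  have hx : x ∈ Submodule.span ℝ (Set.range (fun i : I => U i)) := by rw [hsp]; trivial
  rw [Submodule.mem_span_range_iff_exists_fun] at hx
  obtain ⟨a, ha⟩ := hx
  refine ⟨fun j => if hj : j ∈ I then a ⟨j, hj⟩ else 0, ?_⟩
  rw [← ha, ← Finset.sum_coe_sort I]
  refine Finset.sum_congr rfl (fun i _ => ?_)
  simp

theorem dual_unique {U : Fin N → Fin n → ℝ} (h : GP U) {I : Finset (Fin N)} (hI : I.card = n)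
    {v v' : Fin n → ℝ} (hv : ∀ j ∈ I, dt v (U j) = dt v' (U j)) : v = v' := by
  obtain ⟨a, ha⟩ := span_of_card h hI (v - v')
  have h0 : dt (v - v') (v - v') = 0 := by
    conv_lhs => rw [← ha]
    rw [dt_comm, ha, ← ha, dt_sum_right, ha]
    refine Finset.sum_eq_zero (fun j hj => ?_)
    rw [dt_sub_left, hv j hj]; simp
  exact sub_eq_zero.mp (dt_self_eq_zero _ h0)

theorem dual_exists {U : Fin N → Fin n → ℝ} (h : GP U) {I : Finset (Fin N)} (hI : I.card = n)
    (b : Fin N → ℝ) : ∃ v, ∀ j ∈ I, dt v (U j) = b j := by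
  classical
  let T : (Fin n → ℝ) →ₗ[ℝ] (I → ℝ) :=
    { toFun := fun v j => dt v (U j)
      map_add' := fun x y => by funext j; exact dt_add_left _ _ _
      map_smul' := fun a x => by funext j; exact dt_smul_left _ _ _ }
  have hinj : Function.Injective T := by
    intro v v' hv
    exact dual_unique h hI (fun j hj => congrFun hv ⟨j, hj⟩)
  have hsurj : Function.Surjective T :=
    (LinearMap.injective_iff_surjective_of_finrank_eq_finrank (by simp [hI])).mp hinj
  obtain ⟨v, hv⟩ := hsurj (fun j => b j)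
  exact ⟨v, fun j hj => congrFun hv ⟨j, hj⟩⟩

/-- Normalised positive circuits. -/
structure Circ (U : Fin N → Fin n → ℝ) (c : Fin N → ℝ) (C : Finset (Fin N)) (l : Fin N → ℝ) :
    Prop where
  card : C.card = n + 1
  pos : ∀ j ∈ C, 0 < l j
  rel : ∑ j ∈ C, l j • U j = 0
  one : ∑ j ∈ C, l j * c j = 1

/-- Two relations supported in a set of `n+1` indices are proportional. -/
theorem prop_rel {U : Fin N → Fin n → ℝ} (h : GP U) {C : Finset (Fin N)}
    (hC : C.card = n + 1) {l : Fin N → ℝ} (hl : ∀ j ∈ C, 0 < l j) (hr : ∑ j ∈ C, l j • U j = 0)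
    {g : Fin N → ℝ} (hg : ∑ j ∈ C, g j • U j = 0) : ∃ t : ℝ, ∀ j ∈ C, g j = t * l j := by
  classical
  have hne : C.Nonempty := by rw [← Finset.card_pos, hC]; omega
  obtain ⟨i, hi⟩ := hne
  refine ⟨g i / l i, ?_⟩
  have h1 : ∑ j ∈ C, (g j - g i / l i * l j) • U j = 0 := by
    have : ∑ j ∈ C, (g j - g i / l i * l j) • U j
        = ∑ j ∈ C, g j • U j - (g i / l i) • ∑ j ∈ C, l j • U j := by
      rw [Finset.smul_sum, ← Finset.sum_sub_distrib]
      refine Finset.sum_congr rfl (fun j _ => ?_)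
      rw [sub_smul, mul_smul]
    rw [this, hg, hr]; simp
  have h2 : g i - g i / l i * l i = 0 := by
    have := (hl i hi).ne'
    field_simp
    ring
  rw [← Finset.add_sum_erase C _ hi, h2, zero_smul, zero_add] at h1
  have h3 := h (C.erase i) (by rw [Finset.card_erase_of_mem hi, hC]; simp) _ h1
  intro j hj
  rcases eq_or_ne j i with rfl | hji
  · linarith
  · have := h3 j (Finset.mem_erase.mpr ⟨hji, hj⟩)
    linarith

theorem Circ.eqOn {U : Fin N → Fin n → ℝ} (h : GP U) {c : Fin N → ℝ} {C : Finset (Fin N)}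
    {l l' : Fin N → ℝ} (hl : Circ U c C l) (hl' : Circ U c C l') : ∀ j ∈ C, l j = l' j := by
  obtain ⟨t, ht⟩ := prop_rel h hl.card hl.pos hl.rel hl'.rel
  have h1 : (1 : ℝ) = t * 1 := by
    rw [← hl.one, Finset.mul_sum, hl.one, ← hl'.one]
    refine Finset.sum_congr rfl (fun j hj => ?_)
    rw [ht j hj]; ring
  intro j hj
  rw [ht j hj, ← mul_one t, ← h1, one_mul]

/-- Exchange: every index outside a circuit lies in a circuit. -/
theorem exchange_aux {U : Fin N → Fin n → ℝ} (h : GP U) {C : Finset (Fin N)}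
    (hC : C.card = n + 1) {l : Fin N → ℝ} (hl : ∀ j ∈ C, 0 < l j) (hr : ∑ j ∈ C, l j • U j = 0)
    {j : Fin N} (hj : j ∉ C) : ∃ i ∈ C, (insert j (C.erase i)).card = n + 1 ∧
      ∃ l' : Fin N → ℝ, (∀ x ∈ insert j (C.erase i), 0 < l' x) ∧
        ∑ x ∈ insert j (C.erase i), l' x • U x = 0 := by
  classical
  have hne : C.Nonempty := by rw [← Finset.card_pos, hC]; omega
  obtain ⟨i0, hi0⟩ := hne
  obtain ⟨a, ha⟩ := span_of_card h (I := C.erase i0)
    (by rw [Finset.card_erase_of_mem hi0, hC]; simp) (-(U j))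
  -- extend `a` by zero at `i0`
  set b : Fin N → ℝ := fun x => if x = i0 then 0 else a x with hb
  have hbs : ∑ x ∈ C, b x • U x = -(U j) := by
    rw [← Finset.add_sum_erase C _ hi0, ← ha]
    simp only [hb, if_true, zero_smul, zero_add]
    refine Finset.sum_congr rfl (fun x hx => ?_)
    rw [if_neg (Finset.ne_of_mem_erase hx)]
  obtain ⟨i, hi, hmin⟩ := Finset.exists_min_image C (fun x => b x / l x) ⟨i0, hi0⟩
  set t := b i / l i with ht
  have hnn : ∀ x ∈ C, 0 ≤ b x - t * l x := by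
    intro x hx
    have h1 := hmin x hx
    have h2 := hl x hx
    have h3 : t ≤ b x / l x := h1
    rw [le_div_iff₀ h2] at h3
    linarith
  have hi0' : b i - t * l i = 0 := by
    have := (hl i hi).ne'
    rw [ht]; field_simp; ring
  have hs : ∑ x ∈ C, (b x - t * l x) • U x = -(U j) := by
    have : ∑ x ∈ C, (b x - t * l x) • U x = ∑ x ∈ C, b x • U x - t • ∑ x ∈ C, l x • U x := by
      rw [Finset.smul_sum, ← Finset.sum_sub_distrib]
      refine Finset.sum_congr rfl (fun j _ => ?_)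
      rw [sub_smul, mul_smul]
    rw [this, hbs, hr]; simp
  rw [← Finset.add_sum_erase C _ hi, hi0', zero_smul, zero_add] at hs
  have hji : j ∉ C.erase i := fun h' => hj (Finset.mem_of_mem_erase h')
  have hcard : (insert j (C.erase i)).card = n + 1 := by
    rw [Finset.card_insert_of_notMem hji, Finset.card_erase_of_mem hi, hC]; simp
  refine ⟨i, hi, hcard, fun x => if x = j then 1 else b x - t * l x, ?_, ?_⟩
  · intro x hx
    rcases eq_or_ne x j with rfl | hxj
    · simp
    · have hx' : x ∈ C.erase i := by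
        rcases Finset.mem_insert.mp hx with h' | h'
        · exact absurd h' hxj
        · exact h'
      simp only [hxj, if_false]
      refine lt_of_le_of_ne (hnn x (Finset.mem_of_mem_erase hx')) (fun h0 => ?_)
      have hjx : j ∉ (C.erase i).erase x := fun h' => hji (Finset.mem_of_mem_erase h')
      have h2 := h (insert j ((C.erase i).erase x)) (by
        rw [Finset.card_insert_of_notMem hjx, Finset.card_erase_of_mem hx',
          Finset.card_erase_of_mem hi, hC]
        have : 0 < (C.erase i).card := Finset.card_pos.mpr ⟨x, hx'⟩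
        rw [Finset.card_erase_of_mem hi, hC] at this
        omega) (fun y => if y = j then 1 else b y - t * l y) (by
        rw [Finset.sum_insert hjx]
        simp only [if_true, one_smul]
        have h3 : ∑ y ∈ (C.erase i).erase x, (if y = j then (1 : ℝ) else b y - t * l y) • U y
            = ∑ y ∈ (C.erase i).erase x, (b y - t * l y) • U y := by
          refine Finset.sum_congr rfl (fun y hy => ?_)
          rw [if_neg]
          rintro rfl
          exact hjx hy
        rw [h3]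
        rw [← Finset.add_sum_erase (C.erase i) _ hx', ← h0, zero_smul, zero_add] at hs
        rw [hs]; simp) j (Finset.mem_insert_self _ _)
      simp at h2
  · rw [Finset.sum_insert hji]
    simp only [if_true, one_smul]
    have h3 : ∑ y ∈ C.erase i, (if y = j then (1 : ℝ) else b y - t * l y) • U y
        = ∑ y ∈ C.erase i, (b y - t * l y) • U y := by
      refine Finset.sum_congr rfl (fun y hy => ?_)
      rw [if_neg]
      rintro rfl
      exact hji hy
    rw [h3, hs]; simp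


section main

variable {ε : ℝ} {u : Fin N → Fin n → ℤ} {c : Fin N → ℝ}

theorem gp_of_dirs (h : Dirs n N ε u c) : GP (fun j => rv (u j)) := h.indep

theorem rel_unique (h : Dirs n N ε u c) {C : Finset (Fin N)}
    (hC : C.card = n + 1) (l l' : Fin N → ℝ) (hl : ∀ j ∈ C, 0 < l j)
    (h1 : ∑ j ∈ C, l j • rv (u j) = 0) (h2 : ∑ j ∈ C, l' j • rv (u j) = 0) :
    ∃ t : ℝ, ∀ j ∈ C, l' j = t * l j :=
  prop_rel (gp_of_dirs h) hC hl h1 h2

theorem exchange (_hn : 1 ≤ n) (h : Dirs n N ε u c) {C : Finset (Fin N)} (hC : IsBase u C)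
    {j : Fin N} (hj : j ∉ C) : ∃ i ∈ C, IsBase u (insert j (C.erase i)) := by
  obtain ⟨l, hl, hr⟩ := hC.2
  exact exchange_aux (gp_of_dirs h) hC.1 hl hr hj

theorem int_rel (h : Dirs n N ε u c) {C : Finset (Fin N)} (hC : IsBase u C) :
    ∃ μ : Fin N → ℤ, (∀ j ∈ C, 0 < μ j) ∧ (∀ j ∉ C, μ j = 0) ∧
      ∑ j ∈ C, (μ j : ℝ) • rv (u j) = 0 := by
  classical
  obtain ⟨l, hl, hr⟩ := hC.2
  have hdep : ¬ LinearIndependent ℤ (fun i : C => u i) := by
    intro hli
    have := hli.fintype_card_le_finrank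
    simp [hC.1] at this
  rw [Fintype.not_linearIndependent_iff] at hdep
  obtain ⟨g, hg, i, hi⟩ := hdep
  set g' : Fin N → ℤ := fun j => if hj : j ∈ C then g ⟨j, hj⟩ else 0 with hg'
  have hgC : ∀ i : C, g' i = g i := fun i => by simp [hg']
  have hg0 : ∀ j ∉ C, g' j = 0 := fun j hj => by simp [hg', hj]
  have hrel : ∑ j ∈ C, (g' j : ℝ) • rv (u j) = 0 := by
    funext x
    have h1 := congrFun hg x
    have h2 : ∑ j ∈ C, (g' j : ℤ) * u j x = 0 := by
      rw [← Finset.sum_coe_sort C]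
      simp only [hgC]
      simpa [Finset.sum_apply] using h1
    have h3 : ((∑ j ∈ C, (g' j : ℤ) * u j x : ℤ) : ℝ) = 0 := by rw [h2]; simp
    push_cast at h3
    simpa [Finset.sum_apply, rv] using h3
  obtain ⟨t, ht⟩ := prop_rel (gp_of_dirs h) hC.1 hl hr hrel
  have hi' : (g' i : ℝ) ≠ 0 := by rw [hgC]; exact_mod_cast hi
  have ht0 : t ≠ 0 := by
    rintro rfl
    apply hi'
    have := ht i i.2
    simpa using this
  rcases lt_or_gt_of_ne ht0 with h0 | h0
  · refine ⟨fun j => - g' j, ?_, ?_, ?_⟩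
    · intro j hj
      have h1 := ht j hj
      have h2 := mul_neg_of_neg_of_pos h0 (hl j hj)
      rw [← h1] at h2
      have h3 : g' j < 0 := by exact_mod_cast h2
      show 0 < -(g' j)
      omega
    · intro j hj
      simp [hg0 j hj]
    · have h4 : ∑ j ∈ C, ((-(g' j) : ℤ) : ℝ) • rv (u j) = -∑ j ∈ C, (g' j : ℝ) • rv (u j) := by
        rw [← Finset.sum_neg_distrib]
        refine Finset.sum_congr rfl (fun j _ => ?_)
        push_cast
        rw [neg_smul]
      rw [h4, hrel, neg_zero]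
  · refine ⟨g', ?_, hg0, hrel⟩
    intro j hj
    have h1 := ht j hj
    have h2 := mul_pos h0 (hl j hj)
    rw [← h1] at h2
    exact_mod_cast h2

theorem L2_aux (h : Dirs n N ε u c) {C : Finset (Fin N)} (hC : IsBase u C) (l : Fin N → ℝ)
    (hl : ∀ j ∈ C, 0 < l j) (hl0 : ∑ j ∈ C, l j • rv (u j) = 0)
    (hl1 : ∑ j ∈ C, l j * c j = 1) (k : Fin N → ℤ) (ρ : ℝ) (hρ : ρ ≠ 0)
    (e : ∑ j ∈ C, l j * (k j : ℝ) = ρ) :
    ∃ μ : Fin N → ℤ, ∃ A : ℤ, (∀ j ∈ C, 0 < μ j) ∧ (∀ j ∉ C, μ j = 0) ∧ A ≠ 0 ∧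
      (A : ℝ) = ρ * ∑ j, (μ j : ℝ) * c j := by
  obtain ⟨μ, h1, h2, h3⟩ := int_rel h hC
  obtain ⟨t, ht⟩ := rel_unique h hC.1 l (fun j => (μ j : ℝ)) hl hl0 h3
  have hs : ∑ j, (μ j : ℝ) * c j = t := by
    rw [← Finset.sum_subset (Finset.subset_univ C) (fun j _ hj => by simp [h2 j hj])]
    rw [← mul_one t, ← hl1, Finset.mul_sum]
    refine Finset.sum_congr rfl (fun j hj => ?_)
    rw [ht j hj]; ring
  have hA : ∑ j ∈ C, (μ j : ℝ) * (k j : ℝ) = ρ * t := by
    rw [← e, Finset.sum_mul]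
    refine Finset.sum_congr rfl (fun j hj => ?_)
    rw [ht j hj]; ring
  have ht0 : t ≠ 0 := by
    have hne : C.Nonempty := by rw [← Finset.card_pos, hC.1]; omega
    obtain ⟨i, hi⟩ := hne
    rintro rfl
    have h4 := ht i hi
    have h5 : (0 : ℝ) < μ i := by exact_mod_cast h1 i hi
    simp at h4
    rw [h4] at h5
    simp at h5
  refine ⟨μ, ∑ j ∈ C, μ j * k j, h1, h2, ?_, ?_⟩
  · intro h0
    have h4 : ((∑ j ∈ C, μ j * k j : ℤ) : ℝ) = 0 := by rw [h0]; simp
    push_cast at h4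
    rw [hA] at h4
    exact mul_ne_zero hρ ht0 h4
  · push_cast
    rw [hA, hs]

theorem L2 (h : Dirs n N ε u c) {C C' : Finset (Fin N)} (hC : IsBase u C) (hC' : IsBase u C')
    (l l' : Fin N → ℝ) (hl : ∀ j ∈ C, 0 < l j) (hl0 : ∑ j ∈ C, l j • rv (u j) = 0)
    (hl1 : ∑ j ∈ C, l j * c j = 1) (hl' : ∀ j ∈ C', 0 < l' j)
    (hl0' : ∑ j ∈ C', l' j • rv (u j) = 0) (hl1' : ∑ j ∈ C', l' j * c j = 1)
    (k k' : Fin N → ℤ) (ρ : ℝ) (hρ : ρ ≠ 0) (e : ∑ j ∈ C, l j * k j = ρ)
    (e' : ∑ j ∈ C', l' j * k' j = ρ) : C = C' := by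
  obtain ⟨μ, A, h1, h2, h3, h4⟩ := L2_aux h hC l hl hl0 hl1 k ρ hρ e
  obtain ⟨μ', A', h1', h2', h3', h4'⟩ := L2_aux h hC' l' hl' hl0' hl1' k' ρ hρ e'
  have hsum : ∑ j, (((A : ℚ) * μ' j - A' * μ j : ℚ)) • c j = 0 := by
    have h5 : ∑ j, (((A : ℚ) * μ' j - A' * μ j : ℚ)) • c j
        = A * ∑ j, (μ' j : ℝ) * c j - A' * ∑ j, (μ j : ℝ) * c j := by
      rw [Finset.mul_sum, Finset.mul_sum, ← Finset.sum_sub_distrib]
      refine Finset.sum_congr rfl (fun j _ => ?_)
      rw [Rat.smul_def]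
      push_cast
      ring
    rw [h5, h4, h4']
    ring
  have h6 := Fintype.linearIndependent_iff.mp h.cind _ hsum
  have h7 : ∀ j, A * μ' j = A' * μ j := by
    intro j
    have := h6 j
    have h8 : ((A * μ' j : ℤ) : ℚ) = ((A' * μ j : ℤ) : ℚ) := by push_cast; linarith
    exact_mod_cast h8
  ext j
  constructor
  · intro hj
    by_contra hj'
    have h9 := h7 j
    rw [h2' j hj', mul_zero] at h9
    rcases mul_eq_zero.mp h9.symm with h0 | h0
    · exact h3' h0
    · exact (h1 j hj).ne' h0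
  · intro hj
    by_contra hj'
    have h9 := h7 j
    rw [h2 j hj', mul_zero] at h9
    rcases mul_eq_zero.mp h9 with h0 | h0
    · exact h3 h0
    · exact (h1' j hj).ne' h0

end main

end Pool.Agent.FPmIf.G2
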