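import Mathlib

set_option autoImplicit false
set_option linter.unusedSectionVars false

/-!
H4a (helper36): bubble sort core of Lemma 0.
-/

namespace Pool.Agent.FPH4

open List

variable {G : Type*} [Group G]

/-- all prefixes of the word `l`, started at `p`, have nonnegative `χ` -/
def Pos (χ : G → ℝ) : G → List G → Prop
  | p, [] => 0 ≤ χ p
  | p, s :: l => 0 ≤ χ p ∧ Pos χ (p * s) l

lemma Pos.head {χ : G → ℝ} {p : G} {l : List G} (h : Pos χ p l) : 0 ≤ χ p := by
  cases l with
  | nil => exact h
  | cons s l => exact h.1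

lemma Pos.last {χ : G → ℝ} {p : G} {l : List G} (h : Pos χ p l) : 0 ≤ χ (p * l.prod) := by
  induction l generalizing p with
  | nil =>
    have h' : 0 ≤ χ p := h
    simpa using h'
  | cons s l ih =>
    have := ih h.2
    rwa [List.prod_cons, ← mul_assoc]

lemma Pos.append {χ : G → ℝ} {p : G} {l l' : List G} (h : Pos χ p l)
    (h' : Pos χ (p * l.prod) l') : Pos χ p (l ++ l') := by
  induction l generalizing p with
  | nil => simpa using h'
  | cons s l ih =>
    refine ⟨h.1, ih h.2 ?_⟩
    rwa [List.prod_cons, ← mul_assoc] at h'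

/-- the sorting order: decreasing `χ`, ties broken by a linear order -/
def ord [LinearOrder G] (χ : G → ℝ) (a b : G) : Prop :=
  χ b < χ a ∨ (χ b = χ a ∧ a ≤ b)

lemma ord_total [LinearOrder G] (χ : G → ℝ) (a b : G) : ord χ a b ∨ ord χ b a := by
  unfold ord
  rcases lt_trichotomy (χ a) (χ b) with h | h | h
  · right; left; exact h
  · rcases le_total a b with h2 | h2
    · left; right; exact ⟨h.symm, h2⟩
    · right; right; exact ⟨h, h2⟩
  · left; left; exact h

lemma ord_trans [LinearOrder G] (χ : G → ℝ) {a b c : G} (h1 : ord χ a b) (h2 : ord χ b c) :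
    ord χ a c := by
  unfold ord at *
  rcases h1 with h1 | ⟨h1, h1'⟩ <;> rcases h2 with h2 | ⟨h2, h2'⟩
  · left; linarith
  · left; linarith
  · left; linarith
  · right; exact ⟨by linarith, h1'.trans h2'⟩

lemma ord_antisymm [LinearOrder G] (χ : G → ℝ) {a b : G} (h1 : ord χ a b) (h2 : ord χ b a) :
    a = b := by
  unfold ord at *
  rcases h1 with h1 | ⟨h1, h1'⟩ <;> rcases h2 with h2 | ⟨h2, h2'⟩
  · linarith
  · linarith
  · linarith
  · exact le_antisymm h1' h2'

lemma ord_le [LinearOrder G] {χ : G → ℝ} {a b : G} (h : ord χ a b) : χ b ≤ χ a := by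
  rcases h with h | h
  · exact h.le
  · exact h.1.le

section core

variable [LinearOrder G] (χ : G → ℝ) (hχ : ∀ x y, χ (x * y) = χ x + χ y)

include hχ in
lemma chi_one : χ 1 = 0 := by
  have := hχ 1 1
  rw [mul_one] at this
  linarith

include hχ in
lemma chi_prod_neg (c : ℝ) (hc : c < 0) (u : List G) (hu : ∀ x ∈ u, χ x ≤ c) :
    χ u.prod ≤ 0 := by
  induction u with
  | nil => simp [chi_one χ hχ]
  | cons a u ih =>
    rw [List.prod_cons, hχ]
    have h1 := hu a (by simp)
    have h2 := ih (fun x hx => hu x (by simp [hx]))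
    linarith

include hχ in
/-- in a sorted word with nonnegative total the first step stays nonnegative -/
lemma first_nonneg (P a : ℝ) (u : List G) (hu : ∀ x ∈ u, χ x ≤ a) (hP : 0 ≤ P)
    (ht : 0 ≤ P + a + χ u.prod) : 0 ≤ P + a := by
  by_contra hneg
  push Not at hneg
  have ha : a < 0 := by linarith
  have := chi_prod_neg χ hχ a ha u hu
  linarith

include hχ in
lemma pos_of_sorted (u : List G) (hu : u.Pairwise (ord χ)) (p : G) (hp : 0 ≤ χ p)
    (ht : 0 ≤ χ p + χ u.prod) : Pos χ p u := by
  induction u generalizing p with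
  | nil => exact hp
  | cons a u ih =>
    rw [List.pairwise_cons] at hu
    rw [List.prod_cons, hχ] at ht
    have h1 : 0 ≤ χ p + χ a :=
      first_nonneg χ hχ (χ p) (χ a) u (fun x hx => ord_le (hu.1 x hx)) hp (by linarith)
    refine ⟨hp, ih hu.2 (p * a) (by rw [hχ]; exact h1) (by rw [hχ]; linarith)⟩

end core

/-- the subgroup generated by the conjugates `p c p⁻¹`, `c ∈ C`, `χ p ≥ 0` -/
def N0 (χ : G → ℝ) (C : Set G) : Subgroup G :=
  Subgroup.closure {x | ∃ p c, c ∈ C ∧ 0 ≤ χ p ∧ x = p * c * p⁻¹}

lemma conj_mem_N0 {χ : G → ℝ} {C : Set G} {p c : G} (hc : c ∈ C) (hp : 0 ≤ χ p) :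
    p * c * p⁻¹ ∈ N0 χ C :=
  Subgroup.subset_closure ⟨p, c, hc, hp, rfl⟩

section sorting

variable [LinearOrder G] (χ : G → ℝ) (hχ : ∀ x y, χ (x * y) = χ x + χ y)
  (C T : Set G) (hC : ∀ s ∈ T, ∀ t ∈ T, s * t * s⁻¹ * t⁻¹ ∈ C) [DecidableRel (ord χ)]

include hχ hC in
lemma insert_lemma (s : G) (hs : s ∈ T) (u : List G) (hu : u.Pairwise (ord χ))
    (huT : ∀ x ∈ u, x ∈ T) (p : G) (hp : 0 ≤ χ p) (ht : 0 ≤ χ p + χ s + χ u.prod) :
    (p * s * u.prod) * (p * (u.orderedInsert (ord χ) s).prod)⁻¹ ∈ N0 χ C := by
  induction u generalizing p with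
  | nil => simp
  | cons a u ih =>
    rw [List.pairwise_cons] at hu
    rw [List.prod_cons, hχ] at ht
    by_cases h : ord χ s a
    · rw [List.orderedInsert_cons, if_pos h]
      simp only [List.prod_cons]
      have : p * s * (a * u.prod) * (p * (s * (a * u.prod)))⁻¹ = 1 := by group
      rw [this]; exact one_mem _
    · rw [List.orderedInsert_cons, if_neg h]
      have h1 : ord χ a s := (ord_total χ s a).resolve_left h
      have h2 : 0 ≤ χ p + χ a := by
        apply first_nonneg χ hχ (χ p) (χ a) (s :: u) _ hp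
        · rw [List.prod_cons, hχ]; linarith
        · intro x hx
          rw [List.mem_cons] at hx
          rcases hx with rfl | hx
          · exact ord_le h1
          · exact ord_le (hu.1 x hx)
      have h3 := ih hu.2 (fun x hx => huT x (by simp [hx])) (p * a) (by rw [hχ]; exact h2)
        (by rw [hχ]; linarith)
      have h4 : p * (s * a * s⁻¹ * a⁻¹) * p⁻¹ ∈ N0 χ C :=
        conj_mem_N0 (hC s hs a (huT a (by simp))) hp
      have h5 := mul_mem h4 h3
      simp only [List.prod_cons]
      convert h5 using 1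
      group

include hχ hC in
lemma sort_lemma (w : List G) (hwT : ∀ x ∈ w, x ∈ T) (p : G) (hp : Pos χ p w) :
    (p * w.prod) * (p * (w.insertionSort (ord χ)).prod)⁻¹ ∈ N0 χ C := by
  have : IsTrans G (ord χ) := ⟨fun _ _ _ => ord_trans χ⟩
  have : Std.Total (ord χ) := ⟨ord_total χ⟩
  induction w generalizing p with
  | nil => simp
  | cons s w ih =>
    have h1 := ih (fun x hx => hwT x (by simp [hx])) (p * s) hp.2
    have hperm : w.insertionSort (ord χ) ~ w := List.perm_insertionSort _ _
    have hprodχ : χ (w.insertionSort (ord χ)).prod = χ w.prod := by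
      have key : ∀ l : List G, χ l.prod = (l.map χ).sum := by
        intro l
        induction l with
        | nil => simp [chi_one χ hχ]
        | cons a l ih => rw [List.prod_cons, hχ, ih, List.map_cons, List.sum_cons]
      rw [key, key]
      exact (hperm.map χ).sum_eq
    have hl := hp.last
    rw [List.prod_cons, hχ, hχ] at hl
    have h2 := insert_lemma χ hχ C T hC s (hwT s (by simp)) (w.insertionSort (ord χ))
      (List.pairwise_insertionSort _ _)
      (fun x hx => hwT x (by simp [hperm.mem_iff.mp hx])) p hp.1 (by rw [hprodχ]; linarith)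
    have h3 := mul_mem h1 h2
    rw [List.insertionSort_cons, List.prod_cons]
    convert h3 using 1
    group

end sorting


section dickson

lemma dickson (T : Finset G) (E : Set (Multiset G)) (hE : ∀ m ∈ E, ∀ x ∈ m, x ∈ T) :
    ∃ F : Set (Multiset G), F.Finite ∧ F ⊆ E ∧ ∀ m ∈ E, ∃ f ∈ F, f ≤ m := by
  classical
  let φ : Multiset G → (T → ℕ) := fun m t => m.count t.1
  have hφ : ∀ m ∈ E, ∀ m', φ m ≤ φ m' → m ≤ m' := by
    intro m hm m' h
    rw [Multiset.le_iff_count]
    intro a
    by_cases ha : a ∈ T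
    · exact h ⟨a, ha⟩
    · have : a ∉ m := fun h' => ha (hE m hm a h')
      rw [Multiset.count_eq_zero_of_notMem this]
      exact Nat.zero_le _
  have hpwo := Set.isPWO_of_wellQuasiOrderedLE (φ '' E)
  have hfin : {x | Minimal (· ∈ φ '' E) x}.Finite :=
    (setOfPred_minimal_antichain _).finite_of_partiallyWellOrderedOn
      (hpwo.mono (setOfPred_minimal_subset _))
  refine ⟨E ∩ φ ⁻¹' {x | Minimal (· ∈ φ '' E) x}, ?_, Set.inter_subset_left, ?_⟩
  · apply Set.Finite.of_finite_image (f := φ)
    · apply hfin.subset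
      rintro _ ⟨m, hm, rfl⟩
      exact hm.2
    · intro a ha b hb hab
      exact le_antisymm (hφ a ha.1 b (le_of_eq hab)) (hφ b hb.1 a (le_of_eq hab.symm))
  · intro m hm
    obtain ⟨x, hx, hmin⟩ := hpwo.exists_le_minimal (Set.mem_image_of_mem φ hm)
    obtain ⟨f, hf, rfl⟩ := hmin.1
    exact ⟨f, ⟨hf, hmin⟩, hφ f hf m hx⟩

end dickson

section main

lemma mem_comm_iff (g : G) : g ∈ commutator G ↔ Abelianization.of g = 1 := by
  rw [← Abelianization.ker_of, MonoidHom.mem_ker]

lemma prod_mem_comm_iff (l : List G) : l.prod ∈ commutator G ↔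
    ((l : Multiset G).map (Abelianization.of : G →* Abelianization G)).prod = 1 := by
  rw [mem_comm_iff, map_list_prod, Multiset.map_coe, Multiset.prod_coe]

variable (χ : G → ℝ) (hχ : ∀ x y, χ (x * y) = χ x + χ y)

include hχ in
/-- Bubble sort core. -/
theorem bubble (T : Finset G) (hA : ∀ a ∈ commutator G, χ a = 0)
    (hpath : ∀ a ∈ commutator G, ∃ l : List G, (∀ x ∈ l, x ∈ T) ∧ Pos χ 1 l ∧ l.prod = a) :
    ∃ C : Finset G, (∀ c ∈ C, c ∈ commutator G) ∧ commutator G ≤ N0 χ (C : Set G) := by
  classical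
  let _ : LinearOrder G := IsWellOrder.linearOrder WellOrderingRel
  have hone : χ 1 = 0 := chi_one χ hχ
  let E : Set (Multiset G) := {m | m ≠ 0 ∧ (∀ x ∈ m, x ∈ T) ∧
    (m.map (Abelianization.of : G →* Abelianization G)).prod = 1}
  obtain ⟨F, hFfin, hFE, hF⟩ := dickson T E (fun m hm => hm.2.1)
  let C1 : Finset G := (T ×ˢ T).image (fun x => x.1 * x.2 * x.1⁻¹ * x.2⁻¹)
  let srt : Multiset G → List G := fun m => m.toList.insertionSort (ord χ)
  have hsrt_perm : ∀ m : Multiset G, ((srt m : List G) : Multiset G) = m := by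
    intro m
    have h1 : (srt m : List G) ~ m.toList := List.perm_insertionSort _ _
    rw [Multiset.coe_eq_coe.mpr h1, Multiset.coe_toList]
  let C2 : Finset G := hFfin.toFinset.image (fun f => (srt f).prod)
  have hC1 : ∀ s ∈ (T : Set G), ∀ t ∈ (T : Set G),
      s * t * s⁻¹ * t⁻¹ ∈ ((C1 ∪ C2 : Finset G) : Set G) := by
    intro s hs t ht
    rw [Finset.mem_coe, Finset.mem_union]
    left
    rw [Finset.mem_image]
    exact ⟨(s, t), Finset.mem_product.mpr ⟨hs, ht⟩, rfl⟩
  have : IsTrans G (ord χ) := ⟨fun _ _ _ => ord_trans χ⟩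
  have : Std.Total (ord χ) := ⟨ord_total χ⟩
  have : Std.Antisymm (ord χ) := ⟨fun _ _ => ord_antisymm χ⟩
  have hsorted : ∀ l : List G, (l.insertionSort (ord χ)).Pairwise (ord χ) :=
    fun l => List.pairwise_insertionSort _ _
  have hsort_eq : ∀ l l' : List G, l ~ l' →
      l.insertionSort (ord χ) = l'.insertionSort (ord χ) := by
    intro l l' h
    apply List.Perm.eq_of_pairwise' (r := ord χ) (hsorted l) (hsorted l')
    exact (List.perm_insertionSort _ _).trans (h.trans (List.perm_insertionSort _ _).symm)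
  refine ⟨C1 ∪ C2, ?_, ?_⟩
  · intro c hc
    rw [Finset.mem_union] at hc
    rcases hc with hc | hc
    · rw [Finset.mem_image] at hc
      obtain ⟨⟨s, t⟩, -, rfl⟩ := hc
      rw [mem_comm_iff]
      simp only [map_mul, map_inv]
      rw [mul_comm (Abelianization.of s)]
      group
    · rw [Finset.mem_image] at hc
      obtain ⟨f, hf, rfl⟩ := hc
      rw [Set.Finite.mem_toFinset] at hf
      rw [prod_mem_comm_iff, hsrt_perm]
      exact (hFE hf).2.2
  · -- sorted words
    have key : ∀ (k : ℕ) (m : Multiset G), m.card = k → (∀ x ∈ m, x ∈ T) →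
        (m.map (Abelianization.of : G →* Abelianization G)).prod = 1 →
        (srt m).prod ∈ N0 χ ((C1 ∪ C2 : Finset G) : Set G) := by
      intro k
      induction k using Nat.strong_induction_on with
      | _ k ih =>
        intro m hmk hmT hm1
        by_cases hm0 : m = 0
        · subst hm0
          have : srt 0 = [] := by
            simp only [srt, Multiset.toList_zero, List.insertionSort_nil]
          rw [this, List.prod_nil]
          exact one_mem _
        obtain ⟨f, hfF, hfm⟩ := hF m ⟨hm0, hmT, hm1⟩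
        have hfE := hFE hfF
        obtain ⟨g, hg⟩ := Multiset.le_iff_exists_add.mp hfm
        have hfcard : 0 < f.card := Multiset.card_pos.mpr hfE.1
        have hgcard : g.card < k := by
          rw [← hmk, hg, Multiset.card_add]; omega
        have hgT : ∀ x ∈ g, x ∈ T := fun x hx => hmT x (by rw [hg]; exact Multiset.mem_add.mpr (Or.inr hx))
        have hg1 : (g.map (Abelianization.of : G →* Abelianization G)).prod = 1 := by
          have := hm1
          rw [hg, Multiset.map_add, Multiset.prod_add, hfE.2.2, one_mul] at this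
          exact this
        have h1 := ih g.card hgcard g rfl hgT hg1
        have hfprod : (srt f).prod ∈ commutator G := by
          rw [prod_mem_comm_iff, hsrt_perm]; exact hfE.2.2
        have hgprod : (srt g).prod ∈ commutator G := by
          rw [prod_mem_comm_iff, hsrt_perm]; exact hg1
        have hpos : Pos χ 1 (srt f ++ srt g) := by
          apply Pos.append
          · apply pos_of_sorted χ hχ _ (hsorted _) 1 hone.ge
            rw [hone, hA _ hfprod, add_zero]
          · rw [one_mul]
            apply pos_of_sorted χ hχ _ (hsorted _) _ (hA _ hfprod).ge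
            rw [hA _ hfprod, hA _ hgprod, add_zero]
        have hT' : ∀ x ∈ srt f ++ srt g, x ∈ (T : Set G) := by
          intro x hx
          rw [List.mem_append] at hx
          rcases hx with hx | hx
          · have : x ∈ ((srt f : List G) : Multiset G) := hx
            rw [hsrt_perm] at this
            exact hfE.2.1 x this
          · have : x ∈ ((srt g : List G) : Multiset G) := hx
            rw [hsrt_perm] at this
            exact hgT x this
        have h2 := sort_lemma χ hχ _ (T : Set G) hC1 (srt f ++ srt g) hT' 1 hpos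
        have h3 : (srt f ++ srt g).insertionSort (ord χ) = srt m := by
          apply hsort_eq
          apply Multiset.coe_eq_coe.mp
          rw [Multiset.coe_toList, ← Multiset.coe_add, hsrt_perm, hsrt_perm, hg]
        rw [h3, List.prod_append, one_mul, one_mul] at h2
        have h4 : (srt f).prod ∈ N0 χ ((C1 ∪ C2 : Finset G) : Set G) := by
          have h5 : (srt f).prod ∈ ((C1 ∪ C2 : Finset G) : Set G) := by
            rw [Finset.mem_coe, Finset.mem_union]
            right
            rw [Finset.mem_image]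
            exact ⟨f, hFfin.mem_toFinset.mpr hfF, rfl⟩
          have h6 := conj_mem_N0 (χ := χ) h5 (p := 1) hone.ge
          rwa [one_mul, inv_one, mul_one] at h6
        have h5 := mul_mem (inv_mem h2) (mul_mem h4 h1)
        rw [mul_inv_rev, inv_inv, mul_assoc, inv_mul_cancel, mul_one] at h5
        exact h5
    intro a ha
    obtain ⟨l, hlT, hlpos, rfl⟩ := hpath a ha
    have h1 := sort_lemma χ hχ _ (T : Set G) hC1 l hlT 1 hlpos
    have h2 : l.insertionSort (ord χ) = srt (l : Multiset G) := by
      apply hsort_eq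
      apply Multiset.coe_eq_coe.mp
      rw [Multiset.coe_toList]
    rw [one_mul, one_mul, h2] at h1
    have h3 := key _ (l : Multiset G) rfl (fun x hx => hlT x hx)
      ((prod_mem_comm_iff l).mp ha)
    have h4 := mul_mem h1 h3
    rwa [inv_mul_cancel_right] at h4

/-- paths in the induced Cayley graph are words with nonnegative prefixes -/
lemma walk_word (S : Finset G) {E : Set G} (hE : ∀ x ∈ E, 0 ≤ χ x)
    (x y : E)
    (w : (SimpleGraph.induce E (SimpleGraph.fromRel (fun g h : G => ∃ s ∈ S, h = g * s))).Walk x y) :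
    ∃ l : List G, (∀ s ∈ l, s ∈ S ∨ s⁻¹ ∈ S) ∧ Pos χ x.1 l ∧ x.1 * l.prod = y.1 := by
  induction w with
  | @nil u => exact ⟨[], by simp, hE _ u.2, by simp⟩
  | @cons u v w h p ih =>
    obtain ⟨l, hl1, hl2, hl3⟩ := ih
    rw [SimpleGraph.induce_adj, SimpleGraph.fromRel_adj] at h
    rcases h.2 with ⟨s, hs, hs'⟩ | ⟨s, hs, hs'⟩
    · refine ⟨s :: l, ?_, ⟨hE _ u.2, by rw [← hs']; exact hl2⟩, ?_⟩
      · intro t ht
        rw [List.mem_cons] at ht
        rcases ht with rfl | ht
        · left; exact hs
        · exact hl1 t ht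
      · rw [List.prod_cons, ← mul_assoc, ← hs']; exact hl3
    · have hv : v.1 = u.1 * s⁻¹ := by rw [hs']; group
      refine ⟨s⁻¹ :: l, ?_, ⟨hE _ u.2, by rw [← hv]; exact hl2⟩, ?_⟩
      · intro t ht
        rw [List.mem_cons] at ht
        rcases ht with rfl | ht
        · right; rw [inv_inv]; exact hs
        · exact hl1 t ht
      · rw [List.prod_cons, ← mul_assoc, ← hv]; exact hl3

lemma pos_of_take (l : List G) (p : G) (h : ∀ k, 0 ≤ χ (p * (l.take k).prod)) : Pos χ p l := by
  induction l generalizing p with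
  | nil => simpa [Pos] using h 0
  | cons s l ih =>
    refine ⟨by simpa using h 0, ih (p * s) ?_⟩
    intro k
    have := h (k + 1)
    rwa [List.take_succ_cons, List.prod_cons, ← mul_assoc] at this

end main

/-- H4a, in the form asked by helper87. -/
theorem H4a {G : Type*} [Group G] (chi : G → ℝ) (hchi : ∀ g h, chi (g * h) = chi g + chi h)
    (S : Finset G)
    (hS : ∀ a ∈ commutator G, ∃ l : List G, (∀ s ∈ l, s ∈ S ∨ s⁻¹ ∈ S) ∧ l.prod = a ∧
      ∀ k, 0 ≤ chi ((l.take k).prod)) :
    ∃ C : Finset G, (∀ c ∈ C, c ∈ commutator G) ∧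
      ∀ a ∈ commutator G, a ∈ Subgroup.closure {x | ∃ c ∈ C, ∃ p, 0 ≤ chi p ∧ x = p * c * p⁻¹} := by
  classical
  have hinv : ∀ g, chi g⁻¹ = - chi g := by
    intro g
    have h1 := hchi g g⁻¹
    have h2 := hchi 1 1
    rw [mul_inv_cancel] at h1
    rw [mul_one] at h2
    linarith
  have hA : ∀ a ∈ commutator G, chi a = 0 := by
    intro a ha
    rw [commutator_eq_closure] at ha
    induction ha using Subgroup.closure_induction with
    | mem x hx =>
      obtain ⟨g, h, rfl⟩ := hx
      rw [commutatorElement_def, hchi, hchi, hchi, hinv, hinv]; ring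
    | one => have h2 := hchi 1 1; rw [mul_one] at h2; linarith
    | mul x y _ _ hx hy => rw [hchi, hx, hy, add_zero]
    | inv x _ hx => rw [hinv, hx, neg_zero]
  obtain ⟨C, hC1, hC2⟩ := bubble chi hchi (S ∪ S.image (fun x => x⁻¹)) hA (by
    intro a ha
    obtain ⟨l, hl1, hl2, hl3⟩ := hS a ha
    refine ⟨l, ?_, ?_, hl2⟩
    · intro x hx
      rw [Finset.mem_union]
      rcases hl1 x hx with h | h
      · left; exact h
      · right
        rw [Finset.mem_image]
        exact ⟨x⁻¹, h, inv_inv x⟩
    · apply pos_of_take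
      intro k
      rw [one_mul]; exact hl3 k)
  refine ⟨C, hC1, fun a ha => ?_⟩
  refine Subgroup.closure_mono ?_ (hC2 ha)
  rintro x ⟨p, c, hc, hp, rfl⟩
  exact ⟨c, hc, p, hp, rfl⟩

end Pool.Agent.FPH4
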