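import Pool.Agent.Lib.MP_f973c6_al.If.Defs

/-! H5a: the structure of a finitely generated group over its abelianization. -/

set_option autoImplicit false

namespace Pool.Agent.FPmIf

open scoped DirectSum in
theorem H5a_struct (G : Type) [Group G] (hG : Group.FG G) :
    ∃ (n : ℕ) (P : G → (Fin n → ℤ)) (T : Finset G) (G1 : Subgroup G),
      (∀ g h, P (g * h) = P g + P h) ∧ (∀ t ∈ T, P t = 0) ∧ G1.FiniteIndex ∧
      commutator G ≤ G1 ∧ (∀ w, ∃ g ∈ G1, P g = w) ∧
      (∀ g ∈ G1, P g = 0 → g ∈ commutator G) ∧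
      (∀ g, ∃ t ∈ T, ∃ g1 ∈ G1, g = g1 * t) := by
  classical
  have hfg : Group.FG (Abelianization G) := by
    unfold Abelianization
    infer_instance
  have hfg' : AddGroup.FG (Additive (Abelianization G)) := inferInstance
  obtain ⟨n, ι, hι, p, hp, e, ⟨φ⟩⟩ :=
    AddCommGroup.equiv_free_prod_directSum_zmod (Additive (Abelianization G))
  have hne : ∀ i, NeZero (p i ^ e i) := fun i => ⟨pow_ne_zero _ (hp i).ne_zero⟩
  have hfinD : Finite (⨁ i : ι, ZMod (p i ^ e i)) := by
    have h1 : ∀ i, Finite (ZMod (p i ^ e i)) := fun i => by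
      have := hne i
      infer_instance
    have h2 : Finite (∀ i, ZMod (p i ^ e i)) := Pi.finite
    exact Finite.of_equiv _ (DirectSum.addEquivProd (fun i => ZMod (p i ^ e i))).symm.toEquiv
  set D := ⨁ i : ι, ZMod (p i ^ e i) with hD
  let F : G → (Fin n →₀ ℤ) × D := fun g => φ (Additive.ofMul (Abelianization.of g))
  have hF : ∀ g h, F (g * h) = F g + F h := by
    intro g h
    simp only [F]
    rw [map_mul, ofMul_mul, map_add]
  have hF1 : F 1 = 0 := by
    have := hF 1 1
    simpa using this
  have hFinv : ∀ g, F g⁻¹ = - F g := by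
    intro g
    have h1 := hF g g⁻¹
    rw [mul_inv_cancel, hF1] at h1
    exact (neg_eq_of_add_eq_zero_right h1.symm).symm
  have hFsurj : Function.Surjective F := by
    intro x
    obtain ⟨y, hy⟩ := φ.surjective x
    obtain ⟨g, hg⟩ : ∃ g : G, Abelianization.of g = Additive.toMul y :=
      QuotientGroup.mk_surjective (Additive.toMul y)
    refine ⟨g, ?_⟩
    simp only [F]
    rw [hg]
    exact hy
  have hFker : ∀ g, F g = 0 → g ∈ commutator G := by
    intro g hg
    have h1 : Additive.ofMul (Abelianization.of g) = (0 : Additive (Abelianization G)) := by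
      apply φ.injective
      rw [map_zero]
      exact hg
    have h2 : Abelianization.of g = (1 : Abelianization G) := by
      exact Additive.ofMul.injective h1
    exact (QuotientGroup.eq_one_iff g).1 h2
  let τ : G →* Multiplicative D :=
    MonoidHom.mk' (fun g => Multiplicative.ofAdd (F g).2) (by
      intro g h
      rw [hF]
      rfl)
  have hτ : ∀ g, g ∈ τ.ker ↔ (F g).2 = 0 := by
    intro g
    rw [MonoidHom.mem_ker]
    constructor
    · intro h
      exact Multiplicative.ofAdd.injective h
    · intro h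
      change Multiplicative.ofAdd (F g).2 = 1
      rw [h]
      rfl
  have hfinM : Finite (Multiplicative D) := hfinD
  choose t ht using fun d : D => hFsurj ((0 : Fin n →₀ ℤ), d)
  have hfT : Fintype D := Fintype.ofFinite D
  refine ⟨n, fun g => ⇑(F g).1, Finset.univ.image t, τ.ker, ?_, ?_, ?_, ?_, ?_, ?_, ?_⟩
  · intro g h
    have h1 := congrArg (fun x : (Fin n →₀ ℤ) × D => (⇑x.1 : Fin n → ℤ)) (hF g h)
    exact h1
  · intro s hs
    obtain ⟨d, _, rfl⟩ := Finset.mem_image.1 hs
    have h1 := congrArg (fun x : (Fin n →₀ ℤ) × D => (⇑x.1 : Fin n → ℤ)) (ht d)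
    exact h1
  · infer_instance
  · exact Abelianization.commutator_subset_ker τ
  · intro w
    obtain ⟨g, hg⟩ := hFsurj (Finsupp.equivFunOnFinite.symm w, 0)
    refine ⟨g, (hτ g).2 (by rw [hg]), ?_⟩
    have h1 := congrArg (fun x : (Fin n →₀ ℤ) × D => (⇑x.1 : Fin n → ℤ)) hg
    exact h1
  · intro g hg hP
    apply hFker
    apply Prod.ext
    · exact DFunLike.coe_injective hP
    · exact (hτ g).1 hg
  · intro g
    refine ⟨t (F g).2, Finset.mem_image_of_mem _ (Finset.mem_univ _), g * (t (F g).2)⁻¹, ?_, ?_⟩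
    · rw [hτ, hF, hFinv, ht]
      simp
    · simp

end Pool.Agent.FPmIf
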