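import Pool.Agent.Lib.MP_f973c6_al.If.Defs

/-! H5, second part: the module structure on the commutator subgroup, the extension over a
finite index subgroup, and the translation of tameness. -/

set_option autoImplicit false

namespace Pool.Agent.FPmIf

open Pool.Agent.FPm (FPcond TameCond)
open scoped commutatorElement

section modstruct

/-- The commutator subgroup of a metabelian group is commutative. -/
theorem comm_of_metab {G : Type} [Group G] (hm : derivedSeries G 2 = ⊥) (a b : G)
    (ha : a ∈ commutator G) (hb : b ∈ commutator G) : a * b = b * a := by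
  have h1 : derivedSeries G 2 = ⁅commutator G, commutator G⁆ := by
    rw [derivedSeries_succ, derivedSeries_one]
  have h2 : ⁅a, b⁆ ∈ (⊥ : Subgroup G) := by
    rw [← hm, h1]
    exact Subgroup.commutator_mem_commutator ha hb
  have h3 : ⁅a, b⁆ = 1 := by simpa using h2
  exact (commutatorElement_eq_one_iff_mul_comm.1 h3)

/-- Commutative group structure. -/
def cgrp {G : Type} [Group G] (A : Subgroup G)
    (hA : ∀ a ∈ A, ∀ b ∈ A, a * b = b * a) : CommGroup A :=
  { (inferInstance : Group A) with
    mul_comm := fun a b => Subtype.ext (hA a.1 a.2 b.1 b.2) }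

/-- The module over the group ring given by an action of the group `ℤ^n`. -/
theorem H5b_mod {n : ℕ} (M : Type) [AddCommGroup M]
    (act : Multiplicative (Fin n → ℤ) →* Module.End ℤ M) :
    ∃ (_ : Module (R n) M), ∀ (w : Fin n → ℤ) (a : M),
      (mon w : R n) • a = act (Multiplicative.ofAdd w) a := by
  let F : R n →+* Module.End ℤ M :=
    (AddMonoidAlgebra.lift ℤ (Module.End ℤ M) (Fin n → ℤ) act).toRingHom
  refine ⟨Module.compHom M F, ?_⟩
  intro w a
  show F (mon w) a = _
  have : F (mon w) = act (Multiplicative.ofAdd w) := by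
    show (AddMonoidAlgebra.lift ℤ (Module.End ℤ M) (Fin n → ℤ) act) (mon w) = _
    rw [AddMonoidAlgebra.lift_single]
    rw [one_smul]
  rw [this]

/-- Structure of a module on the additive version of the commutator subgroup, with the
extension. -/
theorem H5b_ext (G : Type) [Group G] (hm : derivedSeries G 2 = ⊥) (n : ℕ)
    (P : G → (Fin n → ℤ)) (G1 : Subgroup G) (hP : ∀ g h, P (g * h) = P g + P h)
    (hc : commutator G ≤ G1) (hs : ∀ w, ∃ g ∈ G1, P g = w)
    (hk : ∀ g ∈ G1, P g = 0 → g ∈ commutator G) :
    ∃ (M : Type) (_ : AddCommGroup M) (_ : Module (R n) M) (X : Ext n G1 M),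
      (∀ g : G1, P g = X.pr g) ∧
      (∀ g : G, g ∈ commutator G ↔ ∃ a : M, ((X.j a : G1) : G) = g) := by
  classical
  have hA : ∀ a ∈ commutator G, ∀ b ∈ commutator G, a * b = b * a :=
    fun a ha b hb => comm_of_metab hm a b ha hb
  letI cg : CommGroup (commutator G) := cgrp (commutator G) hA
  have P1 : P 1 = 0 := by
    have := hP 1 1
    rw [mul_one] at this
    simpa using this
  have Pinv : ∀ g, P g⁻¹ = - P g := by
    intro g
    have := hP g g⁻¹
    rw [mul_inv_cancel, P1] at this
    exact (neg_eq_of_add_eq_zero_right this.symm).symm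
  -- P vanishes on the commutator subgroup
  have Pc : ∀ g ∈ commutator G, P g = 0 := by
    intro g hg
    let f : G →* Multiplicative (Fin n → ℤ) :=
      { toFun := fun g => Multiplicative.ofAdd (P g)
        map_one' := by rw [P1]; rfl
        map_mul' := fun a b => by rw [hP]; rfl }
    have h1 : commutator G ≤ f.ker := Abelianization.commutator_subset_ker f
    have h2 : f g = 1 := h1 hg
    exact h2
  choose s hs1 hs2 using hs
  let M := Additive (commutator G)
  -- conjugation
  let cj : G → Module.End ℤ M := fun g => AddMonoidHom.toIntLinearMap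
    (AddMonoidHom.mk' (fun a : M => (Additive.ofMul ⟨g * (a.toMul : G) * g⁻¹,
        (inferInstance : (commutator G).Normal).conj_mem _ a.toMul.2 g⟩ : M))
      (fun a b => by
        apply Additive.toMul.injective
        apply Subtype.ext
        show g * ((a.toMul : G) * (b.toMul : G)) * g⁻¹
          = (g * (a.toMul : G) * g⁻¹) * (g * (b.toMul : G) * g⁻¹)
        group))
  have cj_apply : ∀ g (a : M), ((cj g a).toMul : G) = g * (a.toMul : G) * g⁻¹ :=
    fun g a => rfl
  have cj_mul : ∀ g h, cj (g * h) = cj g * cj h := by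
    intro g h
    apply LinearMap.ext
    intro a
    apply Additive.toMul.injective
    apply Subtype.ext
    show (g * h) * (a.toMul : G) * (g * h)⁻¹ = g * (h * (a.toMul : G) * h⁻¹) * g⁻¹
    group
  have cj_comm : ∀ g ∈ commutator G, cj g = 1 := by
    intro g hg
    apply LinearMap.ext
    intro a
    apply Additive.toMul.injective
    apply Subtype.ext
    show g * (a.toMul : G) * g⁻¹ = (a.toMul : G)
    rw [hA g hg _ a.toMul.2]
    group
  have cj_P : ∀ g ∈ G1, cj g = cj (s (P g)) := by
    intro g hg
    have h1 : g * (s (P g))⁻¹ ∈ commutator G := by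
      apply hk
      · exact G1.mul_mem hg (G1.inv_mem (hs1 _))
      · rw [hP, Pinv, hs2]; simp
    have h2 : g = (g * (s (P g))⁻¹) * s (P g) := by group
    calc cj g = cj ((g * (s (P g))⁻¹) * s (P g)) := by rw [← h2]
      _ = cj (g * (s (P g))⁻¹) * cj (s (P g)) := cj_mul _ _
      _ = cj (s (P g)) := by rw [cj_comm _ h1, one_mul]
  let act : Multiplicative (Fin n → ℤ) →* Module.End ℤ M :=
    { toFun := fun w => cj (s w.toAdd)
      map_one' := by
        have h := cj_P 1 G1.one_mem
        rw [P1] at h
        show cj (s 0) = 1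
        rw [← h]
        exact cj_comm 1 (Subgroup.one_mem _)
      map_mul' := fun w w' => by
        have h := cj_P (s w.toAdd * s w'.toAdd) (G1.mul_mem (hs1 _) (hs1 _))
        rw [hP, hs2, hs2] at h
        show cj (s (w.toAdd + w'.toAdd)) = cj (s w.toAdd) * cj (s w'.toAdd)
        rw [← h, cj_mul] }
  obtain ⟨mod, hsm0⟩ := H5b_mod M act
  have hsm : ∀ (w : Fin n → ℤ) (a : M), (mon w : R n) • a = cj (s w) a := hsm0
  let X : Ext n G1 M :=
    { pr := fun g => P g
      pr_mul := fun g h => hP g h
      pr_surj := fun w => ⟨⟨s w, hs1 w⟩, hs2 w⟩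
      j := fun a => ⟨(a.toMul : G), hc a.toMul.2⟩
      j_add := fun a b => rfl
      j_inj := fun a b h => by
        apply Additive.toMul.injective
        apply Subtype.ext
        exact congrArg (fun x : G1 => (x : G)) h
      pr_j := fun a => Pc _ a.toMul.2
      j_surj := fun g hg => ⟨Additive.ofMul ⟨(g : G), hk _ g.2 hg⟩, rfl⟩
      j_smul := fun g a => by
        apply Subtype.ext
        show ((((mon (P g) : R n) • a : M).toMul : commutator G) : G)
          = (g : G) * (a.toMul : G) * (g : G)⁻¹
        rw [hsm, ← cj_P g g.2, cj_apply] }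
  refine ⟨M, inferInstance, mod, X, fun g => rfl, fun g => ⟨fun hg => ?_, ?_⟩⟩
  · exact ⟨Additive.ofMul ⟨g, hg⟩, rfl⟩
  · rintro ⟨a, rfl⟩
    exact a.toMul.2

end modstruct

section tame

/-- Translation of tameness. -/
theorem H5b_tame (G : Type) [Group G] (n : ℕ) (P : G → (Fin n → ℤ))
    (hP : ∀ g h, P (g * h) = P g + P h) (hs : ∀ w, ∃ g, P g = w)
    (M : Type) [AddCommGroup M] [Module (R n) M] (m : ℕ)
    (h4 : ∀ χ : Fin n → ℝ, χ ≠ 0 → ∀ S : Finset G, Subgroup.closure (S : Set G) = ⊤ →
      (SimpleGraph.induce {g : G | 0 ≤ dt (rv (P g)) χ}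
        (SimpleGraph.fromRel (fun g h : G => ∃ s ∈ S, h = g * s))).Connected → HasRel M χ)
    (ht : TameCond G m) : MTame n M m := by
  classical
  intro k hk χ hχ hcon
  obtain ⟨c, hc0, hc1, hc2⟩ := hcon
  have dt_add : ∀ x y z : Fin n → ℝ, dt (x + y) z = dt x z + dt y z := by
    intro x y z
    simp only [dt, Pi.add_apply, add_mul, Finset.sum_add_distrib]
  have rv_add : ∀ x y : Fin n → ℤ, rv (x + y) = rv x + rv y := by
    intro x y
    funext i
    simp [rv]
  let X : Fin k → (Additive G →+ ℝ) := fun i =>
    AddMonoidHom.mk' (fun g => dt (rv (P g.toMul)) (χ i)) (by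
      intro a b
      show dt (rv (P (a.toMul * b.toMul))) (χ i) = _
      rw [hP, rv_add, dt_add])
  have hX : ∀ i (g : G), X i (Additive.ofMul g) = dt (rv (P g)) (χ i) := fun i g => rfl
  refine ht k hk X (fun i => ⟨?_, ?_⟩) ⟨c, hc0, hc1, ?_⟩
  · intro h0
    apply (hχ i).1
    funext l
    obtain ⟨g, hg⟩ := hs (Pi.single l 1)
    have h1 : X i (Additive.ofMul g) = 0 := by rw [h0]; rfl
    rw [hX, hg] at h1
    have h2 : dt (rv (Pi.single l 1 : Fin n → ℤ)) (χ i) = χ i l := by
      simp only [dt, rv]
      rw [Finset.sum_eq_single l]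
      · simp
      · intro b _ hb
        simp [Pi.single_eq_of_ne hb]
      · intro h; exact absurd (Finset.mem_univ l) h
    rw [h2] at h1
    simpa using h1
  · rintro ⟨S, hS, hcn⟩
    exact (hχ i).2 (h4 (χ i) (hχ i).1 S hS hcn)
  · intro g
    have h1 : ∑ i, c i * X i (Additive.ofMul g) = dt (rv (P g)) (∑ i, c i • χ i) := by
      simp only [hX, dt, Finset.sum_apply, Pi.smul_apply, smul_eq_mul, Finset.mul_sum]
      rw [Finset.sum_comm]
      refine Finset.sum_congr rfl fun j _ => Finset.sum_congr rfl fun i _ => ?_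
      ring
    rw [h1, hc2]
    simp [dt]

end tame

end Pool.Agent.FPmIf
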