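import Pool.Agent.Lib.MP_f973c6_al.If.Defs

/-! Signs, components, linear extensions: basic tools for the cubical complex. -/

set_option autoImplicit false

namespace Pool.Agent.FPmIf
namespace X30

variable {N : ℕ} {V : Type}

theorem sgn_mul_self (j : Fin N) (S : Finset (Fin N)) : sgn j S * sgn j S = 1 := by
  unfold sgn
  rw [← pow_add, ← two_mul, pow_mul]
  simp

theorem sgn_insert_self (j : Fin N) (S : Finset (Fin N)) : sgn j (insert j S) = sgn j S := by
  unfold sgn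
  rw [Finset.filter_insert]
  simp

theorem sgn_erase_self (j : Fin N) (S : Finset (Fin N)) : sgn j (S.erase j) = sgn j S := by
  unfold sgn
  have : (S.erase j).filter (· < j) = S.filter (· < j) := by
    ext k
    simp only [Finset.mem_filter, Finset.mem_erase]
    constructor
    · rintro ⟨⟨_, h⟩, h2⟩
      exact ⟨h, h2⟩
    · rintro ⟨h, h2⟩
      exact ⟨⟨ne_of_lt h2, h⟩, h2⟩
  rw [this]

theorem sgn_erase_lt {i j : Fin N} {S : Finset (Fin N)} (hi : i ∈ S) (h : i < j) :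
    sgn j S = - sgn j (S.erase i) := by
  unfold sgn
  have : S.filter (· < j) = insert i ((S.erase i).filter (· < j)) := by
    ext k
    simp only [Finset.mem_filter, Finset.mem_insert, Finset.mem_erase]
    constructor
    · rintro ⟨h1, h2⟩
      by_cases hk : k = i
      · exact Or.inl hk
      · exact Or.inr ⟨⟨hk, h1⟩, h2⟩
    · rintro (h1 | h1)
      · subst h1
        exact ⟨hi, h⟩
      · exact ⟨h1.1.2, h1.2⟩
  rw [this, Finset.card_insert_of_notMem (by simp)]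
  rw [pow_succ]
  ring

theorem sgn_erase_gt {i j : Fin N} (S : Finset (Fin N)) (h : j < i) :
    sgn j (S.erase i) = sgn j S := by
  unfold sgn
  have : (S.erase i).filter (· < j) = S.filter (· < j) := by
    ext k
    simp only [Finset.mem_filter, Finset.mem_erase]
    constructor
    · rintro ⟨⟨_, h⟩, h2⟩
      exact ⟨h, h2⟩
    · rintro ⟨h1, h2⟩
      exact ⟨⟨ne_of_lt (lt_trans h2 h), h1⟩, h2⟩
  rw [this]

theorem sgn_insert_gt {i j : Fin N} (S : Finset (Fin N)) (h : i < j) :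
    sgn i (insert j S) = sgn i S := by
  unfold sgn
  rw [Finset.filter_insert, if_neg (not_lt.mpr h.le)]

theorem sgn_insert_lt {i j : Fin N} {S : Finset (Fin N)} (hj : j ∉ S) (h : j < i) :
    sgn i (insert j S) = - sgn i S := by
  unfold sgn
  rw [Finset.filter_insert, if_pos h, Finset.card_insert_of_notMem (by simp [hj]), pow_succ]
  ring

theorem sgn_swap {i j : Fin N} {S : Finset (Fin N)} (hi : i ∈ S) (hj : j ∉ S) :
    sgn j S * sgn i (insert j S) + sgn i S * sgn j (S.erase i) = 0 := by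
  have hij : i ≠ j := fun h => hj (h ▸ hi)
  rcases lt_or_gt_of_ne hij with h | h
  · rw [sgn_insert_gt S h, sgn_erase_lt hi h]
    ring
  · rw [sgn_insert_lt hj h, sgn_erase_gt S h]
    ring

theorem eS_insert {j : Fin N} {S : Finset (Fin N)} (hj : j ∉ S) :
    eS (insert j S) = eS S + eS {j} := by
  funext k
  simp only [eS, Pi.add_apply, Finset.mem_insert, Finset.mem_singleton]
  by_cases h : k = j
  · subst h
    simp [hj]
  · simp [h]

theorem eS_erase {j : Fin N} {S : Finset (Fin N)} (hj : j ∈ S) :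
    eS (S.erase j) = eS S - eS {j} := by
  funext k
  simp only [eS, Pi.sub_apply, Finset.mem_erase, Finset.mem_singleton]
  by_cases h : k = j
  · subst h
    simp [hj]
  · simp [h]

theorem eS_nonneg (S : Finset (Fin N)) : (0 : Fin N → ℤ) ≤ eS S := by
  intro k
  simp only [eS, Pi.zero_apply]
  split_ifs <;> norm_num

theorem insert_erase_comm {i j : Fin N} {S : Finset (Fin N)} (hij : i ≠ j) :
    (insert j S).erase i = insert j (S.erase i) := by
  ext k
  simp only [Finset.mem_erase, Finset.mem_insert]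
  constructor
  · rintro ⟨h1, h2 | h2⟩
    · exact Or.inl h2
    · exact Or.inr ⟨h1, h2⟩
  · rintro (h | h)
    · subst h
      exact ⟨fun h => hij h.symm, Or.inl rfl⟩
    · exact ⟨h.1, Or.inr h.2⟩

section sys
variable (Y : Sys N V)

theorem comps_sub {k : Fin N → ℤ} {x : Set V} (hx : x ∈ Y.comps k) : x ⊆ Y.E k := by
  obtain ⟨x0, h0, rfl⟩ := hx
  intro y hy
  exact Y.C_mem _ _ _ (Y.C_symm _ _ _ hy)

theorem up_up {k k' : Fin N → ℤ} (h : k ≤ k') {s : Set V} (hs : s ⊆ Y.E k) :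
    Y.up k' (Y.up k s) = Y.up k' s := by
  ext y
  simp only [Sys.up, Set.mem_ofPred_eq]
  constructor
  · rintro ⟨z, ⟨x, hx, hxz⟩, hzy⟩
    exact ⟨x, hx, Y.C_trans _ _ _ _ (Y.C_mono _ _ h _ _ hxz) hzy⟩
  · rintro ⟨x, hx, hxy⟩
    exact ⟨x, ⟨x, hx, Y.C_refl _ _ (hs hx)⟩, hxy⟩

theorem up_mem {k k' : Fin N → ℤ} (h : k ≤ k') {x : Set V} (hx : x ∈ Y.comps k) :
    Y.up k' x ∈ Y.comps k' := by
  obtain ⟨x0, h0, rfl⟩ := hx
  refine ⟨x0, Y.E_mono _ _ h h0, ?_⟩
  ext y
  simp only [Sys.up, Set.mem_ofPred_eq]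
  constructor
  · rintro ⟨z, hz, hzy⟩
    exact Y.C_trans _ _ _ _ (Y.C_mono _ _ h _ _ hz) hzy
  · intro hy
    exact ⟨x0, Y.C_refl _ _ h0, hy⟩

theorem up_self {k : Fin N → ℤ} {x : Set V} (hx : x ∈ Y.comps k) : Y.up k x = x := by
  obtain ⟨x0, h0, rfl⟩ := hx
  ext y
  simp only [Sys.up, Set.mem_ofPred_eq]
  constructor
  · rintro ⟨z, hz, hzy⟩
    exact Y.C_trans _ _ _ _ hz hzy
  · intro hy
    exact ⟨x0, Y.C_refl _ _ h0, hy⟩

theorem comps_nonempty {k : Fin N → ℤ} {x : Set V} (hx : x ∈ Y.comps k) : x.Nonempty := by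
  obtain ⟨x0, h0, rfl⟩ := hx
  exact ⟨x0, Y.C_refl _ _ h0⟩

/-- two components with a common point are equal -/
theorem comps_eq {k : Fin N → ℤ} {x y : Set V} (hx : x ∈ Y.comps k) (hy : y ∈ Y.comps k)
    {v : V} (h1 : v ∈ x) (h2 : v ∈ y) : x = y := by
  obtain ⟨x0, h0, rfl⟩ := hx
  obtain ⟨y0, h0', rfl⟩ := hy
  ext w
  simp only [Set.mem_ofPred_eq] at *
  constructor
  · intro hw
    exact Y.C_trans _ _ _ _ h2 (Y.C_trans _ _ _ _ (Y.C_symm _ _ _ h1) hw)
  · intro hw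
    exact Y.C_trans _ _ _ _ h1 (Y.C_trans _ _ _ _ (Y.C_symm _ _ _ h2) hw)

theorem sub_up {k k' : Fin N → ℤ} (h : k ≤ k') {x : Set V} (hx : x ⊆ Y.E k) :
    x ⊆ Y.up k' x := fun v hv => ⟨v, hv, Y.C_refl _ _ (Y.E_mono _ _ h (hx hv))⟩

end sys

/-- Linear extension of a map on cells. -/
noncomputable def lf (H : Cell N V → (Cell N V →₀ ℤ)) : (Cell N V →₀ ℤ) →+ (Cell N V →₀ ℤ) :=
  Finsupp.liftAddHom fun z => (smulAddHom ℤ (Cell N V →₀ ℤ)).flip (H z)

theorem lf_apply (H : Cell N V → (Cell N V →₀ ℤ)) (y : Cell N V →₀ ℤ) :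
    lf H y = y.sum fun z c => c • H z := by
  simp only [lf, Finsupp.liftAddHom_apply]
  rfl

theorem lf_single (H : Cell N V → (Cell N V →₀ ℤ)) (z : Cell N V) (c : ℤ) :
    lf H (Finsupp.single z c) = c • H z := by
  rw [lf_apply]
  exact Finsupp.sum_single_index (zero_smul _ _)

theorem bd_eq (Y : Sys N V) : bd Y = lf (bdCell Y) := rfl

theorem bd_single (Y : Sys N V) (z : Cell N V) (c : ℤ) :
    bd Y (Finsupp.single z c) = c • bdCell Y z := by
  rw [bd_eq, lf_single]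

/-- chains supported on a set of cells -/
noncomputable abbrev sp (Z : Set (Cell N V)) : Submodule ℤ (Cell N V →₀ ℤ) :=
  Finsupp.supported ℤ ℤ Z

theorem lf_mem {H : Cell N V → (Cell N V →₀ ℤ)} {Z : Set (Cell N V)}
    {W : Submodule ℤ (Cell N V →₀ ℤ)} (h : ∀ z ∈ Z, H z ∈ W) {y : Cell N V →₀ ℤ}
    (hy : y ∈ sp Z) : lf H y ∈ W := by
  rw [lf_apply]
  refine Submodule.sum_mem _ fun z hz => ?_
  exact W.smul_mem _ (h z ((Finsupp.mem_supported _ _).mp hy hz))

/-- an additive map applied to a chain lies in `W` if it does on the cells -/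
theorem hom_mem (f : (Cell N V →₀ ℤ) →+ (Cell N V →₀ ℤ)) {Z : Set (Cell N V)}
    {W : Submodule ℤ (Cell N V →₀ ℤ)} (h : ∀ z ∈ Z, f (Finsupp.single z 1) ∈ W)
    {y : Cell N V →₀ ℤ} (hy : y ∈ sp Z) : f y ∈ W := by
  have h1 : f y = y.sum fun z c => c • f (Finsupp.single z 1) := by
    conv_lhs => rw [← Finsupp.sum_single y]
    rw [Finsupp.sum, map_sum, Finsupp.sum]
    refine Finset.sum_congr rfl fun z _ => ?_
    rw [← map_zsmul, Finsupp.smul_single, smul_eq_mul, mul_one]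
  rw [h1]
  refine Submodule.sum_mem _ fun z hz => ?_
  exact W.smul_mem _ (h z ((Finsupp.mem_supported _ _).mp hy hz))

theorem single_mem_sp {Z : Set (Cell N V)} {z : Cell N V} (h : z ∈ Z) (c : ℤ) :
    Finsupp.single z c ∈ sp Z := Finsupp.single_mem_supported ℤ c h

/-- the generic step -/
theorem step (Y : Sys N V) {W : Submodule ℤ (Cell N V →₀ ℤ)} {Z Z' : Set (Cell N V)}
    {H : Cell N V → (Cell N V →₀ ℤ)} (hW : ∀ w ∈ W, lf H w = 0) (hbW : ∀ w ∈ W, bd Y w ∈ W)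
    (hphi : ∀ z ∈ Z, Finsupp.single z 1 - bd Y (H z) - lf H (bdCell Y z) ∈ sp Z' ⊔ W)
    {y : Cell N V →₀ ℤ} (hy : y ∈ sp Z ⊔ W) (hdy : bd Y y ∈ W) :
    y - bd Y (lf H y) ∈ sp Z' ⊔ W := by
  obtain ⟨y1, hy1, w, hw, rfl⟩ := Submodule.mem_sup.mp hy
  let φ : (Cell N V →₀ ℤ) →+ (Cell N V →₀ ℤ) :=
    AddMonoidHom.id _ - (bd Y).comp (lf H) - (lf H).comp (bd Y)
  have hφ : ∀ y, φ y = y - bd Y (lf H y) - lf H (bd Y y) := fun y => rfl
  have h1 : φ y1 ∈ sp Z' ⊔ W := by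
    refine hom_mem φ (fun z hz => ?_) hy1
    rw [hφ, lf_single, bd_single, one_smul, one_smul]
    exact hphi z hz
  have h2 : (y1 + w) - bd Y (lf H (y1 + w)) = φ y1 + w := by
    rw [hφ]
    have e1 : lf H (bd Y (y1 + w)) = 0 := hW _ hdy
    rw [map_add, map_add, hW _ (hbW w hw), add_zero] at e1
    rw [e1, map_add, hW w hw, add_zero]
    abel
  rw [h2]
  exact Submodule.add_mem _ h1 (Submodule.mem_sup_right hw)

end X30
end Pool.Agent.FPmIf
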