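import Pool.Agent.Lib.MP_f973c6_al.If.X30a

/-! The pushing homotopy (7a and the first part of 7b). -/

set_option autoImplicit false

namespace Pool.Agent.FPmIf
namespace X30

variable {N : ℕ} {V : Type}

/-- upper face -/
def uf (Y : Sys N V) (i : Fin N) (z : Cell N V) : Cell N V :=
  (z.1 + eS {i}, z.2.1.erase i, Y.up (z.1 + eS {i}) z.2.2)

/-- lower face -/
def lw (i : Fin N) (z : Cell N V) : Cell N V := (z.1, z.2.1.erase i, z.2.2)

theorem bdCell_eq (Y : Sys N V) (z : Cell N V) : bdCell Y z =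
    ∑ i ∈ z.2.1, sgn i z.2.1 • (Finsupp.single (uf Y i z) (1 : ℤ)
      - Finsupp.single (lw i z) (1 : ℤ)) := rfl

/-- sum of the translates -/
noncomputable def PT (Y : Sys N V) (j : Fin N) (z : Cell N V) (T : ℕ) : Cell N V →₀ ℤ :=
  ∑ t ∈ Finset.range T, Finsupp.single
    ((z.1 + (t : ℤ) • eS {j}, insert j z.2.1, Y.up (z.1 + (t : ℤ) • eS {j}) z.2.2) : Cell N V)
    (1 : ℤ)

/-- pushed cell -/
def pc (Y : Sys N V) (j : Fin N) (z : Cell N V) (T : ℕ) : Cell N V :=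
  (z.1 + (T : ℤ) • eS {j}, z.2.1, Y.up (z.1 + (T : ℤ) • eS {j}) z.2.2)

theorem le_add_smul (b : Fin N → ℤ) (t : ℕ) (j : Fin N) : b ≤ b + (t : ℤ) • eS {j} := by
  intro k
  have := eS_nonneg {j} k
  simp only [Pi.add_apply, Pi.smul_apply, smul_eq_mul]
  have h2 : 0 ≤ (t : ℤ) * eS {j} k := mul_nonneg (Int.natCast_nonneg t) this
  linarith

theorem le_add_eS (b : Fin N → ℤ) (S : Finset (Fin N)) : b ≤ b + eS S := by
  intro k
  have := eS_nonneg S k
  simp only [Pi.add_apply]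
  simp only [Pi.zero_apply] at this
  linarith

theorem up_eS {Y : Sys N V} {b : Fin N → ℤ} {x : Set V} (hx : x ⊆ Y.E b) {b' b'' : Fin N → ℤ}
    (h1 : b ≤ b') (h2 : b' ≤ b'') : Y.up b'' (Y.up b' x) = Y.up b'' x := by
  ext y
  simp only [Sys.up, Set.mem_ofPred_eq]
  constructor
  · rintro ⟨z, ⟨x, hx, hxz⟩, hzy⟩
    exact ⟨x, hx, Y.C_trans _ _ _ _ (Y.C_mono _ _ h2 _ _ hxz) hzy⟩
  · rintro ⟨x', hx', hxy⟩
    exact ⟨x', ⟨x', hx', Y.C_refl _ _ (Y.E_mono _ _ h1 (hx hx'))⟩, hxy⟩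

/-- boundary of the pushing sum -/
theorem bd_PT (Y : Sys N V) {j : Fin N} {z : Cell N V} (hj : j ∉ z.2.1)
    (hx : z.2.2 ⊆ Y.E z.1) (T : ℕ) :
    bd Y (PT Y j z T) = sgn j z.2.1 • (Finsupp.single (pc Y j z T) 1
        - Finsupp.single (pc Y j z 0) 1)
      + ∑ i ∈ z.2.1, sgn i (insert j z.2.1) • (PT Y j (uf Y i z) T - PT Y j (lw i z) T) := by
  have key : ∀ t : ℕ, bdCell Y (z.1 + (t : ℤ) • eS {j}, insert j z.2.1,
      Y.up (z.1 + (t : ℤ) • eS {j}) z.2.2) =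
      sgn j z.2.1 • (Finsupp.single (pc Y j z (t + 1)) 1 - Finsupp.single (pc Y j z t) 1)
      + ∑ i ∈ z.2.1, sgn i (insert j z.2.1) • (Finsupp.single
          (((uf Y i z).1 + (t : ℤ) • eS {j}, insert j (uf Y i z).2.1,
            Y.up ((uf Y i z).1 + (t : ℤ) • eS {j}) (uf Y i z).2.2) : Cell N V) (1 : ℤ)
          - Finsupp.single
          (((lw i z).1 + (t : ℤ) • eS {j}, insert j (lw i z).2.1,
            Y.up ((lw i z).1 + (t : ℤ) • eS {j}) (lw i z).2.2) : Cell N V) (1 : ℤ)) := by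
    intro t
    rw [bdCell_eq]
    simp only [uf, lw]
    rw [Finset.sum_insert hj]
    have e1 : (insert j z.2.1).erase j = z.2.1 := Finset.erase_insert hj
    have e2 : z.1 + (t : ℤ) • eS {j} + eS {j} = z.1 + ((t + 1 : ℕ) : ℤ) • eS {j} := by
      push_cast
      rw [add_smul, one_smul, add_assoc]
    congr 1
    · rw [sgn_insert_self, e1, up_eS hx (le_add_smul _ _ _) (le_add_eS _ _), e2]
      rfl
    · refine Finset.sum_congr rfl fun i hi => ?_
      have hij : i ≠ j := fun h => hj (h ▸ hi)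
      rw [insert_erase_comm hij, up_eS hx (le_add_smul _ _ _) (le_add_eS _ _),
        up_eS hx (le_add_eS _ _) (le_add_smul _ _ _)]
      have e3 : z.1 + (t : ℤ) • eS {j} + eS {i} = z.1 + eS {i} + (t : ℤ) • eS {j} := by abel
      rw [e3]
  rw [PT, map_sum]
  have : ∀ t ∈ Finset.range T, bd Y (Finsupp.single
    ((z.1 + (t : ℤ) • eS {j}, insert j z.2.1, Y.up (z.1 + (t : ℤ) • eS {j}) z.2.2) : Cell N V)
    (1 : ℤ)) = bdCell Y (z.1 + (t : ℤ) • eS {j}, insert j z.2.1,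
      Y.up (z.1 + (t : ℤ) • eS {j}) z.2.2) := fun t _ => by rw [bd_single, one_smul]
  rw [Finset.sum_congr rfl this, Finset.sum_congr rfl (fun t _ => key t),
    Finset.sum_add_distrib]
  congr 1
  · rw [← Finset.smul_sum, Finset.sum_range_sub (fun t => Finsupp.single (pc Y j z t) (1 : ℤ))]
  · rw [Finset.sum_comm]
    refine Finset.sum_congr rfl fun i hi => ?_
    rw [← Finset.smul_sum, Finset.sum_sub_distrib]
    rfl

end X30
end Pool.Agent.FPmIf
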