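import Pool.Agent.Lib.MP_f973c6_al.If.X30b

/-! The pushing homotopy, modulo lower levels. -/

set_option autoImplicit false

namespace Pool.Agent.FPmIf
namespace X30

variable {N : ℕ} {V : Type}

/-- top vertex of a cell -/
def tp (z : Cell N V) : Fin N → ℤ := z.1 + eS z.2.1

/-- One critical level: `L` the vertices on the level, `W` the chains of lower level. -/
structure Lev (Y : Sys N V) (F L : (Fin N → ℤ) → Prop) (W : Submodule ℤ (Cell N V →₀ ℤ))
    (Cb : (Fin N → ℤ) → Finset (Fin N)) (kp : (Fin N → ℤ) → (Fin N → ℤ)) : Prop where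
  hF : ∀ k k', k ≤ k' → F k → F k'
  le : ∀ k, F k → L k → k ≤ kp k
  eq : ∀ k, F k → L k → ∀ j ∈ Cb k, kp k j = k j
  iff : ∀ k, F k → L k → ∀ k' ≤ kp k, (L k' ↔ ∀ j ∈ Cb k, k' j = k j)
  same : ∀ k, F k → L k → ∀ k' ≤ kp k, L k' → Cb k' = Cb k ∧ kp k' = kp k
  W1 : ∀ z : Cell N V, F z.1 → z.2.2 ∈ Y.comps z.1 → (∃ k, F k ∧ L k ∧ tp z ≤ kp k) →
    ¬ L (tp z) → Finsupp.single z 1 ∈ W
  W0 : W ≤ sp {z : Cell N V | ¬ (F z.1 ∧ L (tp z))}
  Wb : ∀ w ∈ W, bd Y w ∈ W

/-- cells of the level -/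
def AZ (Y : Sys N V) (F L : (Fin N → ℤ) → Prop) : Set (Cell N V) :=
  {z | F z.1 ∧ L (tp z) ∧ z.2.2 ∈ Y.comps z.1}

theorem tp_uf (Y : Sys N V) {i : Fin N} {z : Cell N V} (hi : i ∈ z.2.1) :
    tp (uf Y i z) = tp z := by
  simp only [tp, uf]
  rw [eS_erase hi]
  abel

theorem tp_lw {i : Fin N} {z : Cell N V} (hi : i ∈ z.2.1) :
    tp (lw i z) = tp z - eS {i} := by
  simp only [tp, lw]
  rw [eS_erase hi]
  abel

theorem lf_bdCell (Y : Sys N V) (H : Cell N V → (Cell N V →₀ ℤ)) (z : Cell N V) :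
    lf H (bdCell Y z) = ∑ i ∈ z.2.1, sgn i z.2.1 • (H (uf Y i z) - H (lw i z)) := by
  rw [bdCell_eq, map_sum]
  refine Finset.sum_congr rfl fun i _ => ?_
  rw [map_zsmul, map_sub, lf_single, lf_single, one_smul, one_smul]

variable {Y : Sys N V} {F L : (Fin N → ℤ) → Prop} {W : Submodule ℤ (Cell N V →₀ ℤ)}
  {Cb : (Fin N → ℤ) → Finset (Fin N)} {kp : (Fin N → ℤ) → (Fin N → ℤ)}

theorem lf_W (hl : Lev Y F L W Cb kp) {H : Cell N V → (Cell N V →₀ ℤ)}
    (hH : ∀ z, ¬ (F z.1 ∧ L (tp z)) → H z = 0) : ∀ w ∈ W, lf H w = 0 := by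
  intro w hw
  have := lf_mem (W := ⊥) (H := H) (Z := {z : Cell N V | ¬ (F z.1 ∧ L (tp z))})
    (fun z hz => by rw [hH z hz]; exact Submodule.zero_mem _) (hl.W0 hw)
  exact (Submodule.mem_bot ℤ).mp this

theorem uf_mem (hl : Lev Y F L W Cb kp) {i : Fin N} {z : Cell N V} (hz : z ∈ AZ Y F L)
    (hi : i ∈ z.2.1) : uf Y i z ∈ AZ Y F L := by
  refine ⟨hl.hF _ _ (le_add_eS _ _) hz.1, ?_, up_mem Y (le_add_eS _ _) hz.2.2⟩
  rw [tp_uf Y hi]
  exact hz.2.1

theorem F_tp (hl : Lev Y F L W Cb kp) {z : Cell N V} (hz : z ∈ AZ Y F L) : F (tp z) :=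
  hl.hF _ _ (le_add_eS _ _) hz.1

theorem tp_le (hl : Lev Y F L W Cb kp) {z : Cell N V} (hz : z ∈ AZ Y F L) : tp z ≤ kp (tp z) :=
  hl.le _ (F_tp hl hz) hz.2.1

theorem lw_le (hl : Lev Y F L W Cb kp) {i : Fin N} {z : Cell N V} (hz : z ∈ AZ Y F L)
    (hi : i ∈ z.2.1) : tp (lw i z) ≤ kp (tp z) := by
  refine le_trans ?_ (tp_le hl hz)
  rw [tp_lw hi]
  intro k
  have := eS_nonneg {i} k
  simp only [Pi.sub_apply]
  simp only [Pi.zero_apply] at this
  linarith

/-- the pushing homotopy -/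
noncomputable def HP (Y : Sys N V) (F L : (Fin N → ℤ) → Prop)
    (Cb : (Fin N → ℤ) → Finset (Fin N)) (kp : (Fin N → ℤ) → (Fin N → ℤ)) (j : Fin N) :
    Cell N V → (Cell N V →₀ ℤ) := by
  classical
  exact fun z => if z ∈ AZ Y F L ∧ j ∉ z.2.1 ∧ j ∉ Cb (tp z) then
    -(sgn j z.2.1 • PT Y j z (kp (tp z) j - z.1 j).toNat) else 0

theorem HP_pos {j : Fin N} {z : Cell N V} (h : z ∈ AZ Y F L ∧ j ∉ z.2.1 ∧ j ∉ Cb (tp z)) :
    HP Y F L Cb kp j z = -(sgn j z.2.1 • PT Y j z (kp (tp z) j - z.1 j).toNat) := if_pos h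

theorem HP_neg {j : Fin N} {z : Cell N V} (h : ¬ (z ∈ AZ Y F L ∧ j ∉ z.2.1 ∧ j ∉ Cb (tp z))) :
    HP Y F L Cb kp j z = 0 := if_neg h

/-- the case of a coordinate in the base -/
theorem phi_in (hl : Lev Y F L W Cb kp) {j : Fin N} {z : Cell N V} (hz : z ∈ AZ Y F L)
    (hj : j ∈ Cb (tp z)) :
    Finsupp.single z 1 - bd Y (HP Y F L Cb kp j z) - lf (HP Y F L Cb kp j) (bdCell Y z)
      = Finsupp.single z 1 := by
  have h0 : HP Y F L Cb kp j z = 0 := HP_neg fun h => h.2.2 hj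
  have h1 : lf (HP Y F L Cb kp j) (bdCell Y z) = 0 := by
    rw [lf_bdCell]
    refine Finset.sum_eq_zero fun i hi => ?_
    have e1 : HP Y F L Cb kp j (uf Y i z) = 0 := HP_neg fun h => h.2.2 (by
      rw [tp_uf Y hi]; exact hj)
    have e2 : HP Y F L Cb kp j (lw i z) = 0 := HP_neg fun h => h.2.2 (by
      rw [(hl.same _ (F_tp hl hz) hz.2.1 _ (lw_le hl hz hi) h.1.2.1).1]
      exact hj)
    rw [e1, e2, sub_zero, smul_zero]
  rw [h0, h1, map_zero, sub_zero, sub_zero]

/-- the case of a coordinate outside the base, not in `S` -/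
theorem phi_out (hl : Lev Y F L W Cb kp) {j : Fin N} {z : Cell N V} (hz : z ∈ AZ Y F L)
    (hj : j ∉ Cb (tp z)) (hjS : j ∉ z.2.1) :
    Finsupp.single z 1 - bd Y (HP Y F L Cb kp j z) - lf (HP Y F L Cb kp j) (bdCell Y z)
      - Finsupp.single (pc Y j z (kp (tp z) j - z.1 j).toNat) 1 ∈ W := by
  set T : ℕ := (kp (tp z) j - z.1 j).toNat with hT
  have hzj : z.1 j ≤ kp (tp z) j := le_trans (le_add_eS _ _ j) (tp_le hl hz j)
  have hTz : (T : ℤ) = kp (tp z) j - z.1 j := by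
    rw [hT, Int.toNat_of_nonneg]
    linarith
  have hpc0 : pc Y j z 0 = z := by
    simp only [pc, Nat.cast_zero, zero_smul, add_zero]
    rw [up_self Y hz.2.2]
  have h0 : HP Y F L Cb kp j z = -(sgn j z.2.1 • PT Y j z T) := HP_pos ⟨hz, hjS, hj⟩
  have h1 : bd Y (HP Y F L Cb kp j z) =
      -(Finsupp.single (pc Y j z T) 1 - Finsupp.single z 1)
      - ∑ i ∈ z.2.1, (sgn j z.2.1 * sgn i (insert j z.2.1)) •
        (PT Y j (uf Y i z) T - PT Y j (lw i z) T) := by
    rw [h0, map_neg, map_zsmul, bd_PT Y hjS (comps_sub Y hz.2.2), smul_add, smul_smul,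
      sgn_mul_self, one_smul, hpc0, Finset.smul_sum]
    simp only [smul_smul]
    abel
  -- the lower faces
  have hlow : ∀ i ∈ z.2.1, HP Y F L Cb kp j (lw i z)
      + sgn j (z.2.1.erase i) • PT Y j (lw i z) T ∈ W := by
    intro i hi
    have hij : i ≠ j := fun h => hjS (h ▸ hi)
    by_cases hL : L (tp (lw i z))
    · have hs := hl.same _ (F_tp hl hz) hz.2.1 _ (lw_le hl hz hi) hL
      have e : HP Y F L Cb kp j (lw i z) =
          -(sgn j (lw i z).2.1 • PT Y j (lw i z) (kp (tp (lw i z)) j - (lw i z).1 j).toNat) :=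
        HP_pos ⟨⟨hz.1, hL, hz.2.2⟩, fun h => hjS (Finset.mem_of_mem_erase h), by
          rw [hs.1]; exact hj⟩
      rw [e, hs.2]
      have : -(sgn j (lw i z).2.1 • PT Y j (lw i z) (kp (tp z) j - (lw i z).1 j).toNat)
          + sgn j (z.2.1.erase i) • PT Y j (lw i z) T = 0 := neg_add_cancel _
      rw [this]
      exact Submodule.zero_mem _
    · have e : HP Y F L Cb kp j (lw i z) = 0 := HP_neg fun h => hL h.1.2.1
      rw [e, zero_add]
      refine W.smul_mem _ ?_
      refine Submodule.sum_mem _ fun t ht => ?_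
      have ht' : (t : ℤ) + 1 ≤ T := by
        have := Finset.mem_range.mp ht
        exact_mod_cast this
      have hjer : j ∉ z.2.1.erase i := fun h => hjS (Finset.mem_of_mem_erase h)
      have etp : tp ((z.1 + (t : ℤ) • eS {j}, insert j (z.2.1.erase i),
          Y.up (z.1 + (t : ℤ) • eS {j}) z.2.2) : Cell N V)
          = tp (lw i z) + ((t : ℤ) + 1) • eS {j} := by
        simp only [tp, lw]
        rw [eS_insert hjer, add_smul, one_smul]
        abel
      have hle : tp ((z.1 + (t : ℤ) • eS {j}, insert j (z.2.1.erase i),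
          Y.up (z.1 + (t : ℤ) • eS {j}) z.2.2) : Cell N V) ≤ kp (tp z) := by
        rw [etp]
        intro k
        by_cases hk : k = j
        · subst hk
          have : tp (lw i z) k = z.1 k := by
            simp only [tp, lw, eS, Pi.add_apply]
            rw [if_neg hjer, add_zero]
          simp only [Pi.add_apply, Pi.smul_apply, this, eS, Finset.mem_singleton, if_true,
            smul_eq_mul, mul_one]
          linarith
        · have := lw_le hl hz hi k
          simp only [Pi.add_apply, Pi.smul_apply, eS, Finset.mem_singleton, if_neg hk,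
            smul_eq_mul, mul_zero, add_zero]
          exact this
      refine hl.W1 ((z.1 + (t : ℤ) • eS {j}, insert j (z.2.1.erase i),
          Y.up (z.1 + (t : ℤ) • eS {j}) z.2.2) : Cell N V)
        (hl.hF _ _ (le_add_smul _ _ _) hz.1) (up_mem Y (le_add_smul _ _ _) hz.2.2)
        ⟨tp z, F_tp hl hz, hz.2.1, hle⟩ ?_
      intro hL2
      apply hL
      rw [hl.iff _ (F_tp hl hz) hz.2.1 _ (lw_le hl hz hi)]
      rw [hl.iff _ (F_tp hl hz) hz.2.1 _ hle] at hL2
      intro i' hi'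
      have hij' : i' ≠ j := fun h => hj (h ▸ hi')
      rw [← hL2 i' hi', etp]
      simp only [Pi.add_apply, Pi.smul_apply, eS, Finset.mem_singleton, if_neg hij',
        smul_eq_mul, mul_zero, add_zero]
  have hup : ∀ i ∈ z.2.1, HP Y F L Cb kp j (uf Y i z)
      = -(sgn j (z.2.1.erase i) • PT Y j (uf Y i z) T) := by
    intro i hi
    have hij : j ≠ i := fun h => hjS (h ▸ hi)
    have e : HP Y F L Cb kp j (uf Y i z) =
        -(sgn j (uf Y i z).2.1 • PT Y j (uf Y i z) (kp (tp (uf Y i z)) j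
          - (uf Y i z).1 j).toNat) :=
      HP_pos ⟨uf_mem hl hz hi, fun h => hjS (Finset.mem_of_mem_erase h), by
          rw [tp_uf Y hi]; exact hj⟩
    rw [e, tp_uf Y hi]
    have e2 : (uf Y i z).1 j = z.1 j := by
      simp only [uf, Pi.add_apply, eS, Finset.mem_singleton, if_neg hij, add_zero]
    rw [e2]
    rfl
  have h2 : Finsupp.single z 1 - bd Y (HP Y F L Cb kp j z)
      - lf (HP Y F L Cb kp j) (bdCell Y z) - Finsupp.single (pc Y j z T) 1
      = ∑ i ∈ z.2.1, sgn i z.2.1 • (HP Y F L Cb kp j (lw i z)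
        + sgn j (z.2.1.erase i) • PT Y j (lw i z) T) := by
    rw [h1, lf_bdCell]
    have h3 : ∀ i ∈ z.2.1, sgn i z.2.1 • (HP Y F L Cb kp j (lw i z)
        + sgn j (z.2.1.erase i) • PT Y j (lw i z) T)
        = (sgn j z.2.1 * sgn i (insert j z.2.1)) • (PT Y j (uf Y i z) T - PT Y j (lw i z) T)
          - sgn i z.2.1 • (HP Y F L Cb kp j (uf Y i z) - HP Y F L Cb kp j (lw i z)) := by
      intro i hi
      have hs := sgn_swap hi hjS
      have hs' : sgn j z.2.1 * sgn i (insert j z.2.1)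
          = -(sgn i z.2.1 * sgn j (z.2.1.erase i)) := by linarith
      rw [hup i hi, hs']
      simp only [smul_add, smul_sub, smul_neg, neg_smul, smul_smul]
      abel
    rw [Finset.sum_congr rfl h3, Finset.sum_sub_distrib]
    abel
  rw [h2]
  exact Submodule.sum_mem _ fun i hi => W.smul_mem _ (hlow i hi)

/-- the case of a coordinate outside the base, in `S` -/
theorem phi_S (hl : Lev Y F L W Cb kp) {j : Fin N} {z : Cell N V} (hz : z ∈ AZ Y F L)
    (hj : j ∉ Cb (tp z)) (hjS : j ∈ z.2.1) :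
    Finsupp.single z 1 - bd Y (HP Y F L Cb kp j z) - lf (HP Y F L Cb kp j) (bdCell Y z)
      = 0 := by
  have h0 : HP Y F L Cb kp j z = 0 := HP_neg fun h => h.2.1 hjS
  have htj : z.1 j + 1 ≤ kp (tp z) j := by
    have := tp_le hl hz j
    simp only [tp, Pi.add_apply, eS, if_pos hjS] at this
    simpa only [tp] using this
  have h1 : lf (HP Y F L Cb kp j) (bdCell Y z)
      = sgn j z.2.1 • (HP Y F L Cb kp j (uf Y j z) - HP Y F L Cb kp j (lw j z)) := by
    rw [lf_bdCell]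
    refine Finset.sum_eq_single_of_mem j hjS fun i hi hij => ?_
    have hmem : j ∈ z.2.1.erase i := Finset.mem_erase.mpr ⟨fun h => hij h.symm, hjS⟩
    have e1 : HP Y F L Cb kp j (uf Y i z) = 0 := HP_neg fun h => h.2.1 hmem
    have e2 : HP Y F L Cb kp j (lw i z) = 0 := HP_neg fun h => h.2.1 hmem
    rw [e1, e2, sub_zero, smul_zero]
  have hnm : j ∉ z.2.1.erase j := Finset.notMem_erase j _
  have hle := lw_le hl hz hjS
  have hL : L (tp (lw j z)) := by
    rw [hl.iff _ (F_tp hl hz) hz.2.1 _ hle]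
    intro i hi
    have hij : i ≠ j := fun h => hj (h ▸ hi)
    rw [tp_lw hjS]
    simp only [Pi.sub_apply, eS, Finset.mem_singleton, if_neg hij, sub_zero]
  have hs := hl.same _ (F_tp hl hz) hz.2.1 _ hle hL
  obtain ⟨T, hT⟩ : ∃ T : ℕ, (T : ℤ) = kp (tp z) j - z.1 j - 1 :=
    ⟨(kp (tp z) j - z.1 j - 1).toNat, Int.toNat_of_nonneg (by linarith)⟩
  have e1 : HP Y F L Cb kp j (uf Y j z) = -(sgn j z.2.1 • PT Y j (uf Y j z) T) := by
    rw [HP_pos ⟨uf_mem hl hz hjS, hnm, by rw [tp_uf Y hjS]; exact hj⟩, tp_uf Y hjS]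
    have : (kp (tp z) j - (uf Y j z).1 j).toNat = T := by
      have : kp (tp z) j - (uf Y j z).1 j = (T : ℤ) := by
        rw [hT]
        simp only [uf, Pi.add_apply, eS, Finset.mem_singleton, if_true]
        ring
      rw [this, Int.toNat_natCast]
    rw [this]
    simp only [uf, sgn_erase_self]
  have e2 : HP Y F L Cb kp j (lw j z) = -(sgn j z.2.1 • PT Y j (lw j z) (T + 1)) := by
    have e : HP Y F L Cb kp j (lw j z) =
        -(sgn j (lw j z).2.1 • PT Y j (lw j z) (kp (tp (lw j z)) j - (lw j z).1 j).toNat) :=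
      HP_pos ⟨⟨hz.1, hL, hz.2.2⟩, hnm, by rw [hs.1]; exact hj⟩
    rw [e, hs.2]
    have : (kp (tp z) j - (lw j z).1 j).toNat = T + 1 := by
      have : kp (tp z) j - (lw j z).1 j = ((T + 1 : ℕ) : ℤ) := by
        push_cast
        rw [hT]
        simp only [lw]
        ring
      rw [this, Int.toNat_natCast]
    rw [this]
    simp only [lw, sgn_erase_self]
  have e3 : PT Y j (lw j z) (T + 1) = PT Y j (uf Y j z) T + Finsupp.single z 1 := by
    unfold PT
    rw [Finset.sum_range_succ']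
    congr 1
    · refine Finset.sum_congr rfl fun t _ => ?_
      simp only [uf, lw]
      have e4 : z.1 + ((t + 1 : ℕ) : ℤ) • eS {j} = z.1 + eS {j} + (t : ℤ) • eS {j} := by
        push_cast
        rw [add_smul, one_smul]
        abel
      rw [e4, up_eS (comps_sub Y hz.2.2) (le_add_eS _ _) (le_add_smul _ _ _)]
    · simp only [lw, Nat.cast_zero, zero_smul, add_zero, up_self Y hz.2.2,
        Finset.insert_erase hjS]
  rw [h0, h1, e1, e2, e3, map_zero, sub_zero]
  rw [smul_sub, smul_neg, smul_neg, smul_add, smul_add, smul_smul, smul_smul, sgn_mul_self,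
    one_smul, one_smul]
  abel

end X30
end Pool.Agent.FPmIf
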