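import Pool.Agent.Lib.MP_f973c6_al.If.X30c

/-! The section homotopies on the cells with top `κ` (second part of 7b). -/

set_option autoImplicit false

namespace Pool.Agent.FPmIf
namespace X30

variable {N : ℕ} {V : Type}

/-- Section data at `κ`. -/
structure SecOK (Y : Sys N V) (C : Finset (Fin N)) (κ : Fin N → ℤ) (j : Fin N)
    (c : Finset (Fin N)) (sg : Finset (Fin N) → Set V → Set V) : Prop where
  jc : j ∈ c
  jC : j ∈ C
  mem : ∀ S ⊆ C, Disjoint S c → ∀ x ∈ Y.comps (κ - eS S),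
    sg S x ∈ Y.comps (κ - eS (insert j S)) ∧ Y.up (κ - eS S) (sg S x) = x
  nat : ∀ S ⊆ C, Disjoint S c → ∀ x ∈ Y.comps (κ - eS S), ∀ i ∈ S,
    Y.up (κ - eS (insert j (S.erase i))) (sg S x)
      = sg (S.erase i) (Y.up (κ - eS (S.erase i)) x)

/-- the cell with top `κ` -/
def tc (κ : Fin N → ℤ) (S : Finset (Fin N)) (x : Set V) : Cell N V := (κ - eS S, S, x)

theorem tp_tc (κ : Fin N → ℤ) (S : Finset (Fin N)) (x : Set V) : tp (tc κ S x) = κ := by
  simp only [tp, tc, sub_add_cancel]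

theorem tc_tp (z : Cell N V) : tc (tp z) z.2.1 z.2.2 = z := by
  simp only [tp, tc, add_sub_cancel_right]

theorem uf_tc (Y : Sys N V) {κ : Fin N → ℤ} {S : Finset (Fin N)} {x : Set V} {i : Fin N}
    (hi : i ∈ S) : uf Y i (tc κ S x) = tc κ (S.erase i) (Y.up (κ - eS (S.erase i)) x) := by
  have : κ - eS S + eS {i} = κ - eS (S.erase i) := by
    rw [eS_erase hi]
    abel
  simp only [uf, tc, this]

theorem sub_eS_mono {κ : Fin N → ℤ} {S T : Finset (Fin N)} (h : S ⊆ T) :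
    κ - eS T ≤ κ - eS S := by
  intro k
  simp only [Pi.sub_apply, eS]
  by_cases h1 : k ∈ S
  · rw [if_pos h1, if_pos (h h1)]
  · rw [if_neg h1]
    split_ifs <;> simp

/-- up of a non empty subset of a component -/
theorem up_sub_self {Y : Sys N V} {k : Fin N → ℤ} {x s : Set V} (hx : x ∈ Y.comps k)
    (hs : s ⊆ x) (hne : s.Nonempty) : Y.up k s = x := by
  obtain ⟨x0, h0, rfl⟩ := hx
  obtain ⟨v, hv⟩ := hne
  ext y
  simp only [Sys.up, Set.mem_ofPred_eq]
  constructor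
  · rintro ⟨w, hw, hwy⟩
    exact Y.C_trans _ _ _ _ (hs hw) hwy
  · intro hy
    exact ⟨v, hv, Y.C_trans _ _ _ _ (Y.C_symm _ _ _ (hs hv)) hy⟩

variable {Y : Sys N V} {F L : (Fin N → ℤ) → Prop} {W : Submodule ℤ (Cell N V →₀ ℤ)}
  {Cb : (Fin N → ℤ) → Finset (Fin N)} {kp : (Fin N → ℤ) → (Fin N → ℤ)}

/-- cells with top `κ = kp κ` and directions in the base -/
def TZ (Y : Sys N V) (F L : (Fin N → ℤ) → Prop) (Cb : (Fin N → ℤ) → Finset (Fin N))
    (kp : (Fin N → ℤ) → (Fin N → ℤ)) : Set (Cell N V) :=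
  {z | z ∈ AZ Y F L ∧ kp (tp z) = tp z ∧ z.2.1 ⊆ Cb (tp z)}

theorem uf_TZ (hl : Lev Y F L W Cb kp) {i : Fin N} {z : Cell N V} (hz : z ∈ TZ Y F L Cb kp)
    (hi : i ∈ z.2.1) : uf Y i z ∈ TZ Y F L Cb kp := by
  refine ⟨uf_mem hl hz.1 hi, ?_, ?_⟩
  · rw [tp_uf Y hi]; exact hz.2.1
  · rw [tp_uf Y hi]; exact (Finset.erase_subset _ _).trans hz.2.2

theorem lw_notL (hl : Lev Y F L W Cb kp) {i : Fin N} {z : Cell N V}
    (hz : z ∈ TZ Y F L Cb kp) (hi : i ∈ z.2.1) : ¬ L (tp (lw i z)) := by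
  rw [hl.iff _ (F_tp hl hz.1) hz.1.2.1 _ (lw_le hl hz.1 hi)]
  intro h
  have := h i (hz.2.2 hi)
  rw [tp_lw hi] at this
  simp only [Pi.sub_apply, eS, Finset.mem_singleton, if_true] at this
  linarith

theorem bd_TZ (hl : Lev Y F L W Cb kp) {z : Cell N V} (hz : z ∈ TZ Y F L Cb kp) :
    bdCell Y z - ∑ i ∈ z.2.1, sgn i z.2.1 • Finsupp.single (uf Y i z) (1 : ℤ) ∈ W := by
  rw [bdCell_eq, ← Finset.sum_sub_distrib]
  refine Submodule.sum_mem _ fun i hi => ?_
  rw [← smul_sub]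
  refine W.smul_mem _ ?_
  have : (Finsupp.single (uf Y i z) (1 : ℤ) - Finsupp.single (lw i z) (1 : ℤ))
    - Finsupp.single (uf Y i z) (1 : ℤ) = - Finsupp.single (lw i z) (1 : ℤ) := by abel
  rw [this]
  refine W.neg_mem (hl.W1 _ hz.1.1 hz.1.2.2 ⟨tp z, F_tp hl hz.1, hz.1.2.1, lw_le hl hz.1 hi⟩
    (lw_notL hl hz hi))

/-- the section homotopy -/
noncomputable def HT (Y : Sys N V) (F L : (Fin N → ℤ) → Prop)
    (Cb : (Fin N → ℤ) → Finset (Fin N)) (kp : (Fin N → ℤ) → (Fin N → ℤ))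
    (on : (Fin N → ℤ) → Prop) (jj : (Fin N → ℤ) → Fin N)
    (cc : (Fin N → ℤ) → Finset (Fin N)) (sg : (Fin N → ℤ) → Finset (Fin N) → Set V → Set V) :
    Cell N V → (Cell N V →₀ ℤ) := by
  classical
  exact fun z => if z ∈ TZ Y F L Cb kp ∧ on (tp z) ∧ Disjoint z.2.1 (cc (tp z)) then
    sgn (jj (tp z)) z.2.1 •
      Finsupp.single (tc (tp z) (insert (jj (tp z)) z.2.1) (sg (tp z) z.2.1 z.2.2)) 1 else 0

variable {on : (Fin N → ℤ) → Prop} {jj : (Fin N → ℤ) → Fin N}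
  {cc : (Fin N → ℤ) → Finset (Fin N)} {sg : (Fin N → ℤ) → Finset (Fin N) → Set V → Set V}

theorem HT_pos {z : Cell N V}
    (h : z ∈ TZ Y F L Cb kp ∧ on (tp z) ∧ Disjoint z.2.1 (cc (tp z))) :
    HT Y F L Cb kp on jj cc sg z = sgn (jj (tp z)) z.2.1 •
      Finsupp.single (tc (tp z) (insert (jj (tp z)) z.2.1) (sg (tp z) z.2.1 z.2.2)) 1 :=
  if_pos h

theorem HT_neg {z : Cell N V}
    (h : ¬ (z ∈ TZ Y F L Cb kp ∧ on (tp z) ∧ Disjoint z.2.1 (cc (tp z)))) :
    HT Y F L Cb kp on jj cc sg z = 0 := if_neg h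

theorem lf_HT (hl : Lev Y F L W Cb kp) {z : Cell N V} (hz : z ∈ TZ Y F L Cb kp) :
    lf (HT Y F L Cb kp on jj cc sg) (bdCell Y z)
      = ∑ i ∈ z.2.1, sgn i z.2.1 • HT Y F L Cb kp on jj cc sg (uf Y i z) := by
  rw [lf_bdCell]
  refine Finset.sum_congr rfl fun i hi => ?_
  have : HT Y F L Cb kp on jj cc sg (lw i z) = 0 := HT_neg fun h =>
    lw_notL hl hz hi h.1.1.2.1
  rw [this, sub_zero]

theorem phi_off (hl : Lev Y F L W Cb kp) {z : Cell N V} (hz : z ∈ TZ Y F L Cb kp)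
    (hon : ¬ on (tp z)) :
    Finsupp.single z 1 - bd Y (HT Y F L Cb kp on jj cc sg z)
      - lf (HT Y F L Cb kp on jj cc sg) (bdCell Y z) = Finsupp.single z 1 := by
  rw [lf_HT hl hz, HT_neg fun h => hon h.2.1, map_zero, sub_zero]
  rw [Finset.sum_eq_zero, sub_zero]
  intro i hi
  rw [HT_neg fun h => hon (by rw [← tp_uf Y hi]; exact h.2.1), smul_zero]

/-- `S` disjoint from the cluster -/
theorem phi_disj (hl : Lev Y F L W Cb kp)
    (hFs : ∀ κ, F κ → L κ → kp κ = κ → ∀ S ⊆ Cb κ, F (κ - eS S))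
    (hS : ∀ κ, F κ → L κ → kp κ = κ → on κ → SecOK Y (Cb κ) κ (jj κ) (cc κ) (sg κ))
    {z : Cell N V} (hz : z ∈ TZ Y F L Cb kp) (hon : on (tp z))
    (hd : Disjoint z.2.1 (cc (tp z))) :
    Finsupp.single z 1 - bd Y (HT Y F L Cb kp on jj cc sg z)
      - lf (HT Y F L Cb kp on jj cc sg) (bdCell Y z) ∈ W := by
  set κ := tp z with hκ
  set S := z.2.1 with hSd
  set x := z.2.2 with hx
  set j := jj κ with hj
  have hzt : z = tc κ S x := (tc_tp z).symm
  have hFκ : F κ := F_tp hl hz.1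
  have hLκ : L κ := hz.1.2.1
  have hkκ : kp κ = κ := hz.2.1
  have hsec := hS κ hFκ hLκ hkκ hon
  have hjS : j ∉ S := fun h => Finset.disjoint_left.mp hd h hsec.jc
  have hxc : x ∈ Y.comps (κ - eS S) := by
    have := hz.1.2.2
    have e : z.1 = κ - eS S := by rw [hκ, hSd]; simp only [tp, add_sub_cancel_right]
    rw [e] at this
    exact this
  have hm := hsec.mem S hz.2.2 hd x hxc
  have hTn : tc κ (insert j S) (sg κ S x) ∈ TZ Y F L Cb kp := by
    refine ⟨⟨?_, ?_, hm.1⟩, ?_, ?_⟩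
    · exact hFs κ hFκ hLκ hkκ _ (Finset.insert_subset hsec.jC hz.2.2)
    · rw [tp_tc]; exact hLκ
    · rw [tp_tc]; exact hkκ
    · rw [tp_tc]; exact Finset.insert_subset hsec.jC hz.2.2
  have h0 : HT Y F L Cb kp on jj cc sg z
      = sgn j S • Finsupp.single (tc κ (insert j S) (sg κ S x)) 1 := HT_pos ⟨hz, hon, hd⟩
  have h1 := bd_TZ hl hTn
  have h2 : ∑ i ∈ (tc κ (insert j S) (sg κ S x)).2.1,
      sgn i (tc κ (insert j S) (sg κ S x)).2.1 •
        Finsupp.single (uf Y i (tc κ (insert j S) (sg κ S x))) (1 : ℤ)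
      = sgn j S • Finsupp.single z (1 : ℤ) + ∑ i ∈ S, sgn i (insert j S) •
        Finsupp.single (tc κ (insert j (S.erase i))
          (sg κ (S.erase i) (Y.up (κ - eS (S.erase i)) x))) (1 : ℤ) := by
    show ∑ i ∈ insert j S, sgn i (insert j S) •
        Finsupp.single (uf Y i (tc κ (insert j S) (sg κ S x))) (1 : ℤ) = _
    rw [Finset.sum_insert hjS]
    congr 1
    · rw [sgn_insert_self, uf_tc Y (Finset.mem_insert_self j S), Finset.erase_insert hjS,
        hm.2, ← hzt]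
    · refine Finset.sum_congr rfl fun i hi => ?_
      have hij : i ≠ j := fun h => hjS (h ▸ hi)
      rw [uf_tc Y (Finset.mem_insert_of_mem hi), insert_erase_comm hij,
        hsec.nat S hz.2.2 hd x hxc i hi]
  rw [h2] at h1
  have h3 : lf (HT Y F L Cb kp on jj cc sg) (bdCell Y z)
      = ∑ i ∈ S, sgn i S • (sgn j (S.erase i) • Finsupp.single (tc κ (insert j (S.erase i))
          (sg κ (S.erase i) (Y.up (κ - eS (S.erase i)) x))) (1 : ℤ)) := by
    rw [lf_HT hl hz]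
    refine Finset.sum_congr rfl fun i hi => ?_
    congr 1
    have e1 : uf Y i z = tc κ (S.erase i) (Y.up (κ - eS (S.erase i)) x) := by
      conv_lhs => rw [hzt]
      exact uf_tc Y hi
    rw [e1, HT_pos]
    · simp only [tp_tc]
      rfl
    · refine ⟨by rw [← e1]; exact uf_TZ hl hz hi, by rw [tp_tc]; exact hon, ?_⟩
      rw [tp_tc]
      exact Finset.disjoint_of_subset_left (Finset.erase_subset _ _) hd
  have h4 : Finsupp.single z 1 - bd Y (HT Y F L Cb kp on jj cc sg z)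
      - lf (HT Y F L Cb kp on jj cc sg) (bdCell Y z)
      = -(sgn j S • (bdCell Y (tc κ (insert j S) (sg κ S x)) -
        (sgn j S • Finsupp.single z (1 : ℤ) + ∑ i ∈ S, sgn i (insert j S) •
        Finsupp.single (tc κ (insert j (S.erase i))
          (sg κ (S.erase i) (Y.up (κ - eS (S.erase i)) x))) (1 : ℤ)))) := by
    rw [h0, h3, map_zsmul, bd_single, one_smul, smul_sub, smul_add, smul_smul, sgn_mul_self,
      one_smul, Finset.smul_sum]
    have h5 : ∑ i ∈ S, sgn i S • (sgn j (S.erase i) • Finsupp.single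
          (tc κ (insert j (S.erase i))
          (sg κ (S.erase i) (Y.up (κ - eS (S.erase i)) x))) (1 : ℤ))
        = - ∑ i ∈ S, sgn j S • (sgn i (insert j S) • Finsupp.single
          (tc κ (insert j (S.erase i))
          (sg κ (S.erase i) (Y.up (κ - eS (S.erase i)) x))) (1 : ℤ)) := by
      rw [← Finset.sum_neg_distrib]
      refine Finset.sum_congr rfl fun i hi => ?_
      rw [smul_smul, smul_smul, ← neg_smul]
      congr 1
      have := sgn_swap hi hjS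
      linarith
    rw [h5]
    abel
  rw [h4]
  exact W.neg_mem (W.smul_mem _ h1)

/-- `S` meets the cluster -/
theorem phi_meet (hl : Lev Y F L W Cb kp) {Z' : Set (Cell N V)}
    {z : Cell N V} (hz : z ∈ TZ Y F L Cb kp) (hd : ¬ Disjoint z.2.1 (cc (tp z)))
    (hzZ : z ∈ Z')
    (hZ' : ∀ i ∈ z.2.1, Disjoint (z.2.1.erase i) (cc (tp z)) →
      tc (tp z) (insert (jj (tp z)) (z.2.1.erase i)) (sg (tp z) (z.2.1.erase i)
        (uf Y i z).2.2) ∈ Z') :
    Finsupp.single z 1 - bd Y (HT Y F L Cb kp on jj cc sg z)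
      - lf (HT Y F L Cb kp on jj cc sg) (bdCell Y z) ∈ sp Z' ⊔ W := by
  rw [HT_neg fun h => hd h.2.2, map_zero, sub_zero, lf_HT hl hz]
  refine Submodule.mem_sup_left (Submodule.sub_mem _ (single_mem_sp hzZ 1) ?_)
  refine Submodule.sum_mem _ fun i hi => ?_
  refine Submodule.smul_mem _ _ ?_
  by_cases h : uf Y i z ∈ TZ Y F L Cb kp ∧ on (tp (uf Y i z)) ∧
      Disjoint (uf Y i z).2.1 (cc (tp (uf Y i z)))
  · rw [HT_pos h, tp_uf Y hi]
    refine Submodule.smul_mem _ _ (single_mem_sp ?_ 1)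
    refine hZ' i hi ?_
    have := h.2.2
    rw [tp_uf Y hi] at this
    exact this
  · rw [HT_neg h]
    exact Submodule.zero_mem _

/-- `S` contains the inert coordinate -/
theorem phi_inert (hl : Lev Y F L W Cb kp)
    {z : Cell N V} (hz : z ∈ TZ Y F L Cb kp) (hon : on (tp z))
    (hc : cc (tp z) = {jj (tp z)}) (hjS : jj (tp z) ∈ z.2.1)
    (hs : sg (tp z) (z.2.1.erase (jj (tp z))) (uf Y (jj (tp z)) z).2.2 = z.2.2) :
    Finsupp.single z 1 - bd Y (HT Y F L Cb kp on jj cc sg z)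
      - lf (HT Y F L Cb kp on jj cc sg) (bdCell Y z) = 0 := by
  have hd : ¬ Disjoint z.2.1 (cc (tp z)) := by
    rw [hc, Finset.disjoint_singleton_right]
    exact fun h => h hjS
  rw [HT_neg fun h => hd h.2.2, map_zero, sub_zero, lf_HT hl hz]
  rw [Finset.sum_eq_single_of_mem (jj (tp z)) hjS]
  · rw [HT_pos, tp_uf Y hjS]
    · have e1 : insert (jj (tp z)) ((uf Y (jj (tp z)) z).2.1) = z.2.1 :=
        Finset.insert_erase hjS
      have e2 : sg (tp z) (uf Y (jj (tp z)) z).2.1 (uf Y (jj (tp z)) z).2.2 = z.2.2 := hs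
      have e3 : sgn (jj (tp z)) (uf Y (jj (tp z)) z).2.1 = sgn (jj (tp z)) z.2.1 :=
        sgn_erase_self _ _
      rw [e1, e2, e3, smul_smul, sgn_mul_self, one_smul, tc_tp, sub_self]
    · refine ⟨uf_TZ hl hz hjS, by rw [tp_uf Y hjS]; exact hon, ?_⟩
      rw [tp_uf Y hjS, hc, Finset.disjoint_singleton_right]
      exact Finset.notMem_erase _ _
  · intro i hi hij
    rw [HT_neg, smul_zero]
    intro h
    have h2 := h.2.2
    rw [tp_uf Y hi, hc, Finset.disjoint_singleton_right] at h2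
    exact h2 (Finset.mem_erase.mpr ⟨fun h => hij h.symm, hjS⟩)

end X30
end Pool.Agent.FPmIf
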