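import Pool.Agent.Lib.MP_f973c6_al.If.X30d

/-! Relative exactness at one level. -/

set_option autoImplicit false

namespace Pool.Agent.FPmIf
namespace X30

variable {N : ℕ} {V : Type}

theorem sgn_erase_erase {i j : Fin N} {S : Finset (Fin N)} (hi : i ∈ S) (hj : j ∈ S)
    (hij : i ≠ j) : sgn i S * sgn j (S.erase i) = -(sgn j S * sgn i (S.erase j)) := by
  have h := sgn_swap (i := i) (j := j) (S := S.erase j) (Finset.mem_erase.mpr ⟨hij, hi⟩)
    (Finset.notMem_erase j S)
  rw [Finset.insert_erase hj, sgn_erase_self, Finset.erase_right_comm,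
    sgn_erase_self j (S.erase i)] at h
  have e1 := sgn_mul_self j S
  have e2 := sgn_mul_self j (S.erase i)
  have h2 : sgn j S * sgn j (S.erase i) *
      (sgn j S * sgn i S + sgn i (S.erase j) * sgn j (S.erase i)) = 0 := by
    rw [h, mul_zero]
  have h3 : sgn j S * sgn j (S.erase i) *
      (sgn j S * sgn i S + sgn i (S.erase j) * sgn j (S.erase i))
      = (sgn j S * sgn j S) * (sgn i S * sgn j (S.erase i))
        + (sgn j (S.erase i) * sgn j (S.erase i)) * (sgn j S * sgn i (S.erase j)) := by ring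
  rw [h3, e1, e2, one_mul, one_mul] at h2
  linarith

/-- boundary of boundary -/
theorem bd_bdCell (Y : Sys N V) {z : Cell N V} (hz : z.2.2 ⊆ Y.E z.1) :
    bd Y (bdCell Y z) = 0 := by
  let a : Fin N → Fin N → (Cell N V →₀ ℤ) := fun i j =>
    Finsupp.single (uf Y j (uf Y i z)) 1 - Finsupp.single (lw j (uf Y i z)) 1
      - (Finsupp.single (uf Y j (lw i z)) 1 - Finsupp.single (lw j (lw i z)) 1)
  have ha : ∀ i j, i ∈ z.2.1 → j ∈ z.2.1 → i ≠ j → a i j = a j i := by
    intro i j _ _ hij
    have e1 : uf Y j (uf Y i z) = uf Y i (uf Y j z) := by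
      simp only [uf]
      rw [up_eS hz (le_add_eS _ _) (le_add_eS _ _), up_eS hz (le_add_eS _ _) (le_add_eS _ _),
        Finset.erase_right_comm, add_right_comm]
    have e2 : lw j (uf Y i z) = uf Y i (lw j z) := by
      simp only [uf, lw]
      rw [Finset.erase_right_comm]
    have e3 : uf Y j (lw i z) = lw i (uf Y j z) := by
      simp only [uf, lw]
      rw [Finset.erase_right_comm]
    have e4 : lw j (lw i z) = lw i (lw j z) := by
      simp only [lw]
      rw [Finset.erase_right_comm]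
    simp only [a]
    rw [e1, e2, e3, e4]
    abel
  have hT : bd Y (bdCell Y z) = ∑ i ∈ z.2.1, ∑ j ∈ z.2.1,
      (if j = i then 0 else (sgn i z.2.1 * sgn j (z.2.1.erase i)) • a i j) := by
    rw [bd_eq, lf_bdCell]
    refine Finset.sum_congr rfl fun i hi => ?_
    rw [← Finset.sum_erase_add _ _ hi, if_pos rfl, add_zero, bdCell_eq, bdCell_eq]
    show sgn i z.2.1 • (∑ j ∈ z.2.1.erase i, sgn j (z.2.1.erase i) •
        (Finsupp.single (uf Y j (uf Y i z)) (1 : ℤ) - Finsupp.single (lw j (uf Y i z)) 1)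
      - ∑ j ∈ z.2.1.erase i, sgn j (z.2.1.erase i) •
        (Finsupp.single (uf Y j (lw i z)) (1 : ℤ) - Finsupp.single (lw j (lw i z)) 1)) = _
    rw [← Finset.sum_sub_distrib, Finset.smul_sum]
    refine Finset.sum_congr rfl fun j hj => ?_
    rw [if_neg (Finset.ne_of_mem_erase hj), ← smul_sub, smul_smul]
  have hT2 : bd Y (bdCell Y z) = - bd Y (bdCell Y z) := by
    conv_lhs => rw [hT, Finset.sum_comm]
    rw [hT, ← Finset.sum_neg_distrib]
    refine Finset.sum_congr rfl fun i hi => ?_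
    rw [← Finset.sum_neg_distrib]
    refine Finset.sum_congr rfl fun j hj => ?_
    by_cases hij : i = j
    · rw [if_pos hij, if_pos hij.symm, neg_zero]
    · rw [if_neg hij, if_neg (Ne.symm hij), ha j i hj hi (Ne.symm hij), ← neg_smul]
      congr 1
      exact sgn_erase_erase hj hi (Ne.symm hij)
  ext c
  have := DFunLike.congr_fun hT2 c
  simp only [Finsupp.coe_neg, Pi.neg_apply] at this
  simp only [Finsupp.coe_zero, Pi.zero_apply]
  linarith

theorem bd_bd (Y : Sys N V) {Z : Set (Cell N V)} (hZ : ∀ z ∈ Z, z.2.2 ∈ Y.comps z.1)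
    {y : Cell N V →₀ ℤ} (hy : y ∈ sp Z) : bd Y (bd Y y) = 0 := by
  have := hom_mem (W := ⊥) ((bd Y).comp (bd Y)) (Z := Z) (fun z hz => by
    rw [AddMonoidHom.comp_apply, bd_single, one_smul, bd_bdCell Y (comps_sub Y (hZ z hz))]
    exact Submodule.zero_mem _) hy
  exact (Submodule.mem_bot ℤ).mp this

theorem bd_deg (Y : Sys N V) {q : ℕ} {y : Cell N V →₀ ℤ}
    (hy : y ∈ sp {z : Cell N V | z.2.1.card = q + 1}) :
    bd Y y ∈ sp {z : Cell N V | z.2.1.card = q} := by
  rw [bd_eq]
  refine lf_mem (fun z hz => ?_) hy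
  rw [bdCell_eq]
  refine Submodule.sum_mem _ fun i hi => Submodule.smul_mem _ _ (Submodule.sub_mem _ ?_ ?_)
  · refine single_mem_sp ?_ 1
    show (z.2.1.erase i).card = q
    rw [Finset.card_erase_of_mem hi, hz, Nat.add_sub_cancel]
  · refine single_mem_sp ?_ 1
    show (z.2.1.erase i).card = q
    rw [Finset.card_erase_of_mem hi, hz, Nat.add_sub_cancel]

variable {Y : Sys N V} {F L : (Fin N → ℤ) → Prop} {W : Submodule ℤ (Cell N V →₀ ℤ)}
  {Cb : (Fin N → ℤ) → Finset (Fin N)} {kp : (Fin N → ℤ) → (Fin N → ℤ)}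

/-- every relative cycle in `Z` is a relative boundary -/
def Good (Y : Sys N V) (F L : (Fin N → ℤ) → Prop) (W : Submodule ℤ (Cell N V →₀ ℤ)) (q : ℕ)
    (Z : Set (Cell N V)) : Prop :=
  ∀ y, y ∈ sp {z : Cell N V | z.2.1.card = q} → y ∈ sp Z ⊔ W → bd Y y ∈ W →
    ∃ x ∈ sp {z : Cell N V | z ∈ AZ Y F L ∧ z.2.1.card = q + 1}, y - bd Y x ∈ W

theorem good_step (hl : Lev Y F L W Cb kp) {q : ℕ} {Z Z' : Set (Cell N V)}
    {H : Cell N V → (Cell N V →₀ ℤ)} (hH0 : ∀ z, ¬ (F z.1 ∧ L (tp z)) → H z = 0)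
    (hHm : ∀ z, H z ∈ sp {z' : Cell N V | z' ∈ AZ Y F L ∧ z'.2.1.card = z.2.1.card + 1})
    (hphi : ∀ z ∈ Z, Finsupp.single z 1 - bd Y (H z) - lf H (bdCell Y z) ∈ sp Z' ⊔ W)
    (hg : Good Y F L W q Z') : Good Y F L W q Z := by
  intro y hyq hy hdy
  have hx1 : lf H y ∈ sp {z : Cell N V | z ∈ AZ Y F L ∧ z.2.1.card = q + 1} := by
    refine lf_mem (fun z hz => ?_) hyq
    have := hHm z
    rw [show z.2.1.card = q from hz] at this
    exact this
  have hx1d : lf H y ∈ sp {z : Cell N V | z.2.1.card = q + 1} :=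
    Finsupp.supported_mono (fun z hz => hz.2) hx1
  have hs := step Y (lf_W hl hH0) hl.Wb hphi hy hdy
  have hbb : bd Y (bd Y (lf H y)) = 0 := bd_bd Y (Z := {z : Cell N V | z ∈ AZ Y F L ∧
    z.2.1.card = q + 1}) (fun z hz => hz.1.2.2) hx1
  obtain ⟨x2, hx2, h2⟩ := hg (y - bd Y (lf H y)) (Submodule.sub_mem _ hyq (bd_deg Y hx1d)) hs
    (by rw [map_sub, hbb, sub_zero]; exact hdy)
  refine ⟨lf H y + x2, Submodule.add_mem _ hx1 hx2, ?_⟩
  rw [map_add, ← sub_sub]
  exact h2

theorem good_of_disj (hl : Lev Y F L W Cb kp) {q : ℕ} {Z : Set (Cell N V)}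
    (hZA : Z ⊆ AZ Y F L) (hd : ∀ z ∈ Z, z.2.1.card ≠ q) : Good Y F L W q Z := by
  intro y hyq hy hdy
  obtain ⟨y1, hy1, w, hw, rfl⟩ := Submodule.mem_sup.mp hy
  have h0 : y1 = 0 := by
    ext z
    by_cases hz : z ∈ Z
    · have e1 : (y1 + w) z = 0 := by
        by_contra hne
        exact hd z hz ((Finsupp.mem_supported _ _).mp hyq (Finsupp.mem_support_iff.mpr hne))
      have e2 : w z = 0 := by
        by_contra hne
        exact (Finsupp.mem_supported _ _).mp (hl.W0 hw) (Finsupp.mem_support_iff.mpr hne)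
          ⟨(hZA hz).1, (hZA hz).2.1⟩
      rw [Finsupp.add_apply, e2, add_zero] at e1
      rw [e1, Finsupp.zero_apply]
    · by_contra hne
      exact hz ((Finsupp.mem_supported _ _).mp hy1 (Finsupp.mem_support_iff.mpr hne))
  refine ⟨0, Submodule.zero_mem _, ?_⟩
  rw [map_zero, sub_zero, h0, zero_add]
  exact hw

theorem good_mono {q : ℕ} {Z Z' : Set (Cell N V)} (h : Z ⊆ Z') (hg : Good Y F L W q Z') :
    Good Y F L W q Z := fun y h1 h2 h3 =>
  hg y h1 (sup_le_sup_right (Finsupp.supported_mono h) W h2) h3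

theorem HP_mem (hl : Lev Y F L W Cb kp) (j : Fin N) (z : Cell N V) :
    HP Y F L Cb kp j z ∈
      sp {z' : Cell N V | z' ∈ AZ Y F L ∧ z'.2.1.card = z.2.1.card + 1} := by
  by_cases h : z ∈ AZ Y F L ∧ j ∉ z.2.1 ∧ j ∉ Cb (tp z)
  · rw [HP_pos h]
    refine Submodule.neg_mem _ (Submodule.smul_mem _ _ (Submodule.sum_mem _ fun t ht => ?_))
    refine single_mem_sp ?_ 1
    have hz := h.1
    have hzj : z.1 j ≤ kp (tp z) j := le_trans (le_add_eS _ _ j) (tp_le hl hz j)
    have ht' : (t : ℤ) + 1 ≤ kp (tp z) j - z.1 j := by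
      have := Finset.mem_range.mp ht
      have h2 : ((kp (tp z) j - z.1 j).toNat : ℤ) = kp (tp z) j - z.1 j :=
        Int.toNat_of_nonneg (by linarith)
      rw [← h2]
      exact_mod_cast this
    have etp : tp ((z.1 + (t : ℤ) • eS {j}, insert j z.2.1,
          Y.up (z.1 + (t : ℤ) • eS {j}) z.2.2) : Cell N V)
          = tp z + ((t : ℤ) + 1) • eS {j} := by
      simp only [tp]
      rw [eS_insert h.2.1, add_smul, one_smul]
      abel
    have hle : tp ((z.1 + (t : ℤ) • eS {j}, insert j z.2.1,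
          Y.up (z.1 + (t : ℤ) • eS {j}) z.2.2) : Cell N V) ≤ kp (tp z) := by
      rw [etp]
      intro k
      by_cases hk : k = j
      · subst hk
        have : tp z k = z.1 k := by
          simp only [tp, eS, Pi.add_apply]
          rw [if_neg h.2.1, add_zero]
        simp only [Pi.add_apply, Pi.smul_apply, this, eS, Finset.mem_singleton, if_true,
          smul_eq_mul, mul_one]
        linarith
      · have := tp_le hl hz k
        simp only [Pi.add_apply, Pi.smul_apply, eS, Finset.mem_singleton, if_neg hk,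
          smul_eq_mul, mul_zero, add_zero]
        exact this
    refine ⟨⟨hl.hF _ _ (le_add_smul _ _ _) hz.1, ?_, up_mem Y (le_add_smul _ _ _) hz.2.2⟩, ?_⟩
    · rw [hl.iff _ (F_tp hl hz) hz.2.1 _ hle]
      intro i hi
      have hij : i ≠ j := fun h' => h.2.2 (h' ▸ hi)
      rw [etp]
      simp only [Pi.add_apply, Pi.smul_apply, eS, Finset.mem_singleton, if_neg hij,
        smul_eq_mul, mul_zero, add_zero]
    · exact Finset.card_insert_of_notMem h.2.1
  · rw [HP_neg h]
    exact Submodule.zero_mem _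

/-- cells already pushed in the coordinates of `J` -/
def ZP (Y : Sys N V) (F L : (Fin N → ℤ) → Prop) (Cb : (Fin N → ℤ) → Finset (Fin N))
    (kp : (Fin N → ℤ) → (Fin N → ℤ)) (J : Finset (Fin N)) : Set (Cell N V) :=
  {z | z ∈ AZ Y F L ∧ ∀ j ∈ J, j ∉ Cb (tp z) → j ∉ z.2.1 ∧ z.1 j = kp (tp z) j}

theorem good_push (hl : Lev Y F L W Cb kp) {q : ℕ} (J : Finset (Fin N))
    (hg : Good Y F L W q (ZP Y F L Cb kp J)) : Good Y F L W q (ZP Y F L Cb kp ∅) := by
  induction J using Finset.induction_on with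
  | empty => exact hg
  | insert j J hjJ ih =>
    refine ih (good_step hl (H := HP Y F L Cb kp j)
      (fun z hz => HP_neg fun h => hz ⟨h.1.1, h.1.2.1⟩) (HP_mem hl j) (fun z hz => ?_) hg)
    by_cases hj : j ∈ Cb (tp z)
    · rw [phi_in hl hz.1 hj]
      have hmem : z ∈ ZP Y F L Cb kp (insert j J) := by
        refine ⟨hz.1, fun i hi hiC => ?_⟩
        rcases Finset.mem_insert.mp hi with h | h
        · exact absurd hj (h ▸ hiC)
        · exact hz.2 i h hiC
      exact Submodule.mem_sup_left (single_mem_sp hmem 1)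
    · by_cases hjS : j ∈ z.2.1
      · rw [phi_S hl hz.1 hj hjS]
        exact Submodule.zero_mem _
      · have h1 := phi_out hl hz.1 hj hjS
        set T : ℕ := (kp (tp z) j - z.1 j).toNat with hT
        have hzj : z.1 j ≤ kp (tp z) j := le_trans (le_add_eS _ _ j) (tp_le hl hz.1 j)
        have hTz : (T : ℤ) = kp (tp z) j - z.1 j := by
          rw [hT, Int.toNat_of_nonneg]
          linarith
        have etp : tp (pc Y j z T) = tp z + (T : ℤ) • eS {j} := by
          simp only [tp, pc]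
          abel
        have hle : tp (pc Y j z T) ≤ kp (tp z) := by
          rw [etp]
          intro k
          by_cases hk : k = j
          · subst hk
            have : tp z k = z.1 k := by
              simp only [tp, eS, Pi.add_apply]
              rw [if_neg hjS, add_zero]
            simp only [Pi.add_apply, Pi.smul_apply, this, eS, Finset.mem_singleton, if_true,
              smul_eq_mul, mul_one]
            linarith
          · have := tp_le hl hz.1 k
            simp only [Pi.add_apply, Pi.smul_apply, eS, Finset.mem_singleton, if_neg hk,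
              smul_eq_mul, mul_zero, add_zero]
            exact this
        have hL : L (tp (pc Y j z T)) := by
          rw [hl.iff _ (F_tp hl hz.1) hz.1.2.1 _ hle]
          intro i hi
          have hij : i ≠ j := fun h' => hj (h' ▸ hi)
          rw [etp]
          simp only [Pi.add_apply, Pi.smul_apply, eS, Finset.mem_singleton, if_neg hij,
            smul_eq_mul, mul_zero, add_zero]
        have hs := hl.same _ (F_tp hl hz.1) hz.1.2.1 _ hle hL
        have hmem : pc Y j z T ∈ ZP Y F L Cb kp (insert j J) := by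
          refine ⟨⟨hl.hF _ _ (le_add_smul _ _ _) hz.1.1, hL,
            up_mem Y (le_add_smul _ _ _) hz.1.2.2⟩, fun i hi hiC => ?_⟩
          rw [hs.1] at hiC
          rw [hs.2]
          by_cases hij : i = j
          · subst hij
            refine ⟨hjS, ?_⟩
            simp only [pc, Pi.add_apply, Pi.smul_apply, eS, Finset.mem_singleton, if_true,
              smul_eq_mul, mul_one]
            linarith
          · have hi' := Finset.mem_of_mem_insert_of_ne hi hij
            refine ⟨(hz.2 i hi' hiC).1, ?_⟩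
            simp only [pc, Pi.add_apply, Pi.smul_apply, eS, Finset.mem_singleton,
              if_neg hij, smul_eq_mul, mul_zero, add_zero]
            exact (hz.2 i hi' hiC).2
        have h2 := Submodule.add_mem _ (Submodule.mem_sup_right h1)
          (Submodule.mem_sup_left (S := sp (ZP Y F L Cb kp (insert j J)))
            (single_mem_sp hmem 1))
        rw [sub_add_cancel] at h2
        exact h2

theorem ZP_univ (hl : Lev Y F L W Cb kp) :
    ZP Y F L Cb kp Finset.univ ⊆ TZ Y F L Cb kp := by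
  intro z hz
  refine ⟨hz.1, ?_, fun i hi => ?_⟩
  · funext i
    by_cases hi : i ∈ Cb (tp z)
    · exact hl.eq _ (F_tp hl hz.1) hz.1.2.1 i hi
    · have := hz.2 i (Finset.mem_univ i) hi
      rw [← this.2]
      simp only [tp, eS, Pi.add_apply, if_neg this.1, add_zero]
  · by_contra h
    exact (hz.2 i (Finset.mem_univ i) h).1 hi

theorem ZP_empty : ZP Y F L Cb kp ∅ = AZ Y F L := by
  ext z
  constructor
  · exact fun h => h.1
  · exact fun h => ⟨h, fun j hj => absurd hj (Finset.notMem_empty j)⟩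

section sections
variable {on : (Fin N → ℤ) → Prop} {jj : (Fin N → ℤ) → Fin N}
  {cc : (Fin N → ℤ) → Finset (Fin N)} {sg : (Fin N → ℤ) → Finset (Fin N) → Set V → Set V}

theorem HT_mem (hl : Lev Y F L W Cb kp)
    (hFs : ∀ κ, F κ → L κ → kp κ = κ → ∀ S ⊆ Cb κ, F (κ - eS S))
    (hS : ∀ κ, F κ → L κ → kp κ = κ → on κ → SecOK Y (Cb κ) κ (jj κ) (cc κ) (sg κ))
    (z : Cell N V) : HT Y F L Cb kp on jj cc sg z ∈
      sp {z' : Cell N V | z' ∈ AZ Y F L ∧ z'.2.1.card = z.2.1.card + 1} := by
  by_cases h : z ∈ TZ Y F L Cb kp ∧ on (tp z) ∧ Disjoint z.2.1 (cc (tp z))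
  · rw [HT_pos h]
    have hz := h.1
    have hsec := hS _ (F_tp hl hz.1) hz.1.2.1 hz.2.1 h.2.1
    have hjS : jj (tp z) ∉ z.2.1 := fun h' => Finset.disjoint_left.mp h.2.2 h' hsec.jc
    have hxc : z.2.2 ∈ Y.comps (tp z - eS z.2.1) := by
      have := hz.1.2.2
      have e : z.1 = tp z - eS z.2.1 := by simp only [tp, add_sub_cancel_right]
      rw [e] at this
      exact this
    refine Submodule.smul_mem _ _ (single_mem_sp ?_ 1)
    refine ⟨⟨?_, ?_, ?_⟩, ?_⟩
    · exact hFs _ (F_tp hl hz.1) hz.1.2.1 hz.2.1 _ (Finset.insert_subset hsec.jC hz.2.2)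
    · rw [tp_tc]; exact hz.1.2.1
    · exact (hsec.mem _ hz.2.2 h.2.2 _ hxc).1
    · exact Finset.card_insert_of_notMem hjS
  · rw [HT_neg h]
    exact Submodule.zero_mem _

end sections

end X30
end Pool.Agent.FPmIf
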