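import Pool.Agent.Lib.MP_f973c6_al.If.X30e

/-! The inert and the active case: relative exactness at one level. -/

set_option autoImplicit false

namespace Pool.Agent.FPmIf
namespace X30

variable {N : ℕ} {V : Type}

/-- the inert alternative at `j` -/
def Inert (Y : Sys N V) (C : Finset (Fin N)) (κ : Fin N → ℤ) (j : Fin N) : Prop :=
  j ∈ C ∧ ∀ S ⊆ C.erase j, ∀ x ∈ Y.comps (κ - eS S),
      x ∩ Y.E (κ - eS (insert j S)) ∈ Y.comps (κ - eS (insert j S))

theorem sec_inert {Y : Sys N V} {C : Finset (Fin N)} {κ : Fin N → ℤ} {j : Fin N}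
    (h : Inert Y C κ j) :
    SecOK Y C κ j {j} (fun S x => x ∩ Y.E (κ - eS (insert j S))) := by
  have hsub : ∀ S ⊆ C, Disjoint S {j} → S ⊆ C.erase j := by
    intro S hS hd i hi
    refine Finset.mem_erase.mpr ⟨fun h' => ?_, hS hi⟩
    exact Finset.disjoint_right.mp hd (Finset.mem_singleton_self j) (h' ▸ hi)
  refine ⟨Finset.mem_singleton_self j, h.1, ?_, ?_⟩
  · intro S hS hd x hx
    have h1 := h.2 S (hsub S hS hd) x hx
    exact ⟨h1, up_sub_self hx Set.inter_subset_left (comps_nonempty Y h1)⟩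
  · intro S hS hd x hx i hi
    have h1 := h.2 S (hsub S hS hd) x hx
    have hupx : Y.up (κ - eS (S.erase i)) x ∈ Y.comps (κ - eS (S.erase i)) :=
      up_mem Y (sub_eS_mono (Finset.erase_subset i S)) hx
    have h2 := h.2 (S.erase i) ((Finset.erase_subset _ _).trans (hsub S hS hd)) _ hupx
    have hle : κ - eS (insert j S) ≤ κ - eS (insert j (S.erase i)) :=
      sub_eS_mono (Finset.insert_subset_insert j (Finset.erase_subset i S))
    obtain ⟨v, hv⟩ := comps_nonempty Y h1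
    refine comps_eq Y (up_mem Y hle h1) h2 (sub_up Y hle (comps_sub Y h1) hv) ⟨?_, ?_⟩
    · exact sub_up Y (sub_eS_mono (Finset.erase_subset i S)) (comps_sub Y hx) hv.1
    · exact Y.E_mono _ _ hle hv.2

theorem inert_inv {Y : Sys N V} {C : Finset (Fin N)} {κ : Fin N → ℤ} {j : Fin N}
    (h : Inert Y C κ j) {S : Finset (Fin N)} (hS : S ⊆ C) (hj : j ∈ S) {x : Set V}
    (hx : x ∈ Y.comps (κ - eS S)) :
    Y.up (κ - eS (S.erase j)) x ∩ Y.E (κ - eS (insert j (S.erase j))) = x := by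
  have hupx : Y.up (κ - eS (S.erase j)) x ∈ Y.comps (κ - eS (S.erase j)) :=
    up_mem Y (sub_eS_mono (Finset.erase_subset j S)) hx
  have h1 := h.2 (S.erase j) (Finset.erase_subset_erase j hS) _ hupx
  rw [Finset.insert_erase hj] at h1 ⊢
  obtain ⟨v, hv⟩ := comps_nonempty Y hx
  exact comps_eq Y h1 hx
    ⟨sub_up Y (sub_eS_mono (Finset.erase_subset j S)) (comps_sub Y hx) hv, comps_sub Y hx hv⟩ hv

theorem sec_act {Y : Sys N V} {C : Finset (Fin N)} {κ : Fin N → ℤ} {j : Fin N} (hj : j ∈ C)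
    (cl : Fin N → ℕ)
    (hβ : ∀ x ∈ Y.comps κ, ∃ x2 ∈ Y.comps (κ - eS {j}), Y.up κ x2 = x)
    (hJ : ∀ S1 ⊆ C, ∀ S2 ⊆ C, (∀ i ∈ S1, ∀ j ∈ S2, cl i ≠ cl j) →
      ∀ x1 ∈ Y.comps (κ - eS S1), ∀ x2 ∈ Y.comps (κ - eS S2),
        Y.up κ x1 = Y.up κ x2 → x1 ∩ x2 ∈ Y.comps (κ - eS (S1 ∪ S2))) :
    ∃ sg : Finset (Fin N) → Set V → Set V,
      SecOK Y C κ j (Finset.univ.filter fun i => cl i = cl j) sg := by
  have hκ0 : ∀ S : Finset (Fin N), κ - eS S ≤ κ := by
    intro S k
    have := eS_nonneg S k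
    simp only [Pi.sub_apply]
    simp only [Pi.zero_apply] at this
    linarith
  have : ∀ x : Set V, ∃ x2 : Set V, x ∈ Y.comps κ →
      x2 ∈ Y.comps (κ - eS {j}) ∧ Y.up κ x2 = x := by
    intro x
    by_cases hx : x ∈ Y.comps κ
    · obtain ⟨x2, h1, h2⟩ := hβ x hx
      exact ⟨x2, fun _ => ⟨h1, h2⟩⟩
    · exact ⟨∅, fun h => absurd h hx⟩
  choose β hβ2 using this
  have hmem : ∀ S ⊆ C, Disjoint S (Finset.univ.filter fun i => cl i = cl j) →
      ∀ x ∈ Y.comps (κ - eS S),
      x ∩ β (Y.up κ x) ∈ Y.comps (κ - eS (insert j S)) := by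
    intro S hS hd x hx
    have hb := hβ2 (Y.up κ x) (up_mem Y (hκ0 S) hx)
    have h1 := hJ S hS {j} (Finset.singleton_subset_iff.mpr hj) (by
      intro i hi j' hj' hij
      rw [Finset.mem_singleton.mp hj'] at hij
      exact Finset.disjoint_left.mp hd hi (Finset.mem_filter.mpr ⟨Finset.mem_univ i, hij⟩))
      x hx _ hb.1 hb.2.symm
    have e : S ∪ {j} = insert j S := by
      rw [Finset.union_comm]
      rfl
    rw [e] at h1
    exact h1
  refine ⟨fun S x => x ∩ β (Y.up κ x), ?_, hj, ?_, ?_⟩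
  · exact Finset.mem_filter.mpr ⟨Finset.mem_univ j, rfl⟩
  · intro S hS hd x hx
    have h1 := hmem S hS hd x hx
    exact ⟨h1, up_sub_self hx Set.inter_subset_left (comps_nonempty Y h1)⟩
  · intro S hS hd x hx i hi
    have h1 := hmem S hS hd x hx
    have hupx : Y.up (κ - eS (S.erase i)) x ∈ Y.comps (κ - eS (S.erase i)) :=
      up_mem Y (sub_eS_mono (Finset.erase_subset i S)) hx
    have h2 := hmem (S.erase i) ((Finset.erase_subset _ _).trans hS)
      (Finset.disjoint_of_subset_left (Finset.erase_subset _ _) hd) _ hupx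
    have hle : κ - eS (insert j S) ≤ κ - eS (insert j (S.erase i)) :=
      sub_eS_mono (Finset.insert_subset_insert j (Finset.erase_subset i S))
    have hup2 : Y.up κ (Y.up (κ - eS (S.erase i)) x) = Y.up κ x :=
      up_eS (comps_sub Y hx) (sub_eS_mono (Finset.erase_subset i S)) (hκ0 _)
    obtain ⟨v, hv⟩ := comps_nonempty Y h1
    refine comps_eq Y (up_mem Y hle h1) h2 (sub_up Y hle (comps_sub Y h1) hv) ⟨?_, ?_⟩
    · exact sub_up Y (sub_eS_mono (Finset.erase_subset i S)) (comps_sub Y hx) hv.1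
    · rw [hup2]
      exact hv.2

/-- representatives of `m + 1` clusters -/
theorem exists_reps {C : Finset (Fin N)} {cl : Fin N → ℕ} {m : ℕ}
    (h : m + 1 ≤ (C.image cl).card) :
    ∃ f : Fin (m + 1) → Fin N, (∀ t, f t ∈ C) ∧ Function.Injective (fun t => cl (f t)) := by
  obtain ⟨A, hA, hc⟩ := Finset.exists_subset_card_eq h
  let e := A.orderEmbOfFin hc
  have : ∀ t, ∃ i ∈ C, cl i = e t := fun t => by
    have := hA (A.orderEmbOfFin_mem hc t)
    obtain ⟨i, hi, h2⟩ := Finset.mem_image.mp this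
    exact ⟨i, hi, h2⟩
  choose f hf1 hf2 using this
  refine ⟨f, hf1, fun s t hst => e.injective ?_⟩
  rw [← hf2 s, ← hf2 t]
  exact hst

variable {Y : Sys N V} {F L : (Fin N → ℤ) → Prop} {W : Submodule ℤ (Cell N V →₀ ℤ)}
  {Cb : (Fin N → ℤ) → Finset (Fin N)} {kp : (Fin N → ℤ) → (Fin N → ℤ)}

theorem comps_tp {z : Cell N V} (hz : z ∈ AZ Y F L) :
    z.2.2 ∈ Y.comps (tp z - eS z.2.1) := by
  have := hz.2.2
  have e : z.1 = tp z - eS z.2.1 := by simp only [tp, add_sub_cancel_right]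
  rw [e] at this
  exact this

theorem uf_snd {z : Cell N V} {i : Fin N} (hi : i ∈ z.2.1) :
    (uf Y i z).2.2 = Y.up (tp z - eS (z.2.1.erase i)) z.2.2 := by
  have e : z.1 + eS {i} = tp z - eS (z.2.1.erase i) := by
    rw [eS_erase hi]
    simp only [tp]
    abel
  simp only [uf, e]

/-- relative exactness at one level -/
theorem rel_exact (hl : Lev Y F L W Cb kp) {m : ℕ}
    (hFs : ∀ κ, F κ → L κ → kp κ = κ → ∀ S ⊆ Cb κ, F (κ - eS S))
    (hT : ∀ κ, F κ → L κ → kp κ = κ → TAlt Y m κ (Cb κ)) {q : ℕ} (hq : q ≤ m) :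
    Good Y F L W q (AZ Y F L) := by
  rw [← ZP_empty (Y := Y) (F := F) (L := L) (Cb := Cb) (kp := kp)]
  refine good_push hl Finset.univ (good_mono (ZP_univ hl) ?_)
  by_cases hne : (TZ Y F L Cb kp).Nonempty
  swap
  · exact good_of_disj hl (fun z hz => hz.1) fun z hz => absurd ⟨z, hz⟩ hne
  obtain ⟨z0, hz0⟩ := hne
  have hN : Nonempty (Fin N) := by
    rcases hT _ (F_tp hl hz0.1) hz0.1.2.1 hz0.2.1 with ⟨j, _⟩ | ⟨cl, h1, _⟩
    · exact ⟨j⟩
    · by_contra hN
      have : (Cb (tp z0)) = ∅ := by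
        rw [Finset.eq_empty_iff_forall_notMem]
        intro i _
        exact hN ⟨i⟩
      rw [this] at h1
      simp at h1
  -- first the inert levels
  have hin : ∀ κ, ∃ j : Fin N, (∃ j, Inert Y (Cb κ) κ j) → Inert Y (Cb κ) κ j := by
    intro κ
    by_cases h : ∃ j, Inert Y (Cb κ) κ j
    · obtain ⟨j, hj⟩ := h
      exact ⟨j, fun _ => hj⟩
    · exact ⟨Classical.arbitrary _, fun h' => absurd h' h⟩
  choose j0 hj0 using hin
  let on0 : (Fin N → ℤ) → Prop := fun κ => ∃ j, Inert Y (Cb κ) κ j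
  have hS0 : ∀ κ, F κ → L κ → kp κ = κ → on0 κ →
      SecOK Y (Cb κ) κ (j0 κ) {j0 κ} (fun S x => x ∩ Y.E (κ - eS (insert (j0 κ) S))) :=
    fun κ _ _ _ h => sec_inert (hj0 κ h)
  let ZA : Set (Cell N V) := {z | z ∈ TZ Y F L Cb kp ∧ ¬ on0 (tp z)}
  have step1 : Good Y F L W q ZA → Good Y F L W q (TZ Y F L Cb kp) := by
    refine good_step hl (H := HT Y F L Cb kp on0 j0 (fun κ => {j0 κ})
      (fun κ S x => x ∩ Y.E (κ - eS (insert (j0 κ) S))))
      (fun z hz => HT_neg fun h => hz ⟨h.1.1.1, h.1.1.2.1⟩)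
      (HT_mem hl hFs hS0) ?_
    intro z hz
    by_cases hon : on0 (tp z)
    · by_cases hj : j0 (tp z) ∈ z.2.1
      · rw [phi_inert hl hz hon rfl hj]
        · exact Submodule.zero_mem _
        · rw [uf_snd hj]
          exact inert_inv (hj0 _ hon) hz.2.2 hj (comps_tp hz.1)
      · exact Submodule.mem_sup_right (phi_disj hl hFs hS0 hz hon
          (Finset.disjoint_singleton_right.mpr hj))
    · rw [phi_off hl hz hon]
      exact Submodule.mem_sup_left (single_mem_sp (show z ∈ ZA from ⟨hz, hon⟩) 1)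
  refine step1 ?_
  -- data of the active levels
  let act : (Fin N → ℤ) → Prop := fun κ => F κ ∧ L κ ∧ kp κ = κ ∧ ¬ on0 κ
  have hdat : ∀ κ, ∃ (cl : Fin N → ℕ) (jt : Fin (m + 1) → Fin N)
      (sg : Fin (m + 1) → Finset (Fin N) → Set V → Set V), act κ →
      (∀ t, SecOK Y (Cb κ) κ (jt t) (Finset.univ.filter fun i => cl i = cl (jt t)) (sg t)) ∧
      Function.Injective (fun t => cl (jt t)) := by
    intro κ
    by_cases h : act κ
    · rcases hT κ h.1 h.2.1 h.2.2.1 with ⟨j, hjC, hj⟩ | ⟨cl, h1, h2, h3⟩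
      · exact absurd ⟨j, hjC, hj⟩ h.2.2.2
      · obtain ⟨f, hf1, hf2⟩ := exists_reps h1
        have : ∀ t, ∃ sg : Finset (Fin N) → Set V → Set V,
            SecOK Y (Cb κ) κ (f t) (Finset.univ.filter fun i => cl i = cl (f t)) sg :=
          fun t => sec_act (hf1 t) cl (h2 (f t) (hf1 t)) h3
        choose sg hsg using this
        exact ⟨cl, f, sg, fun _ => ⟨hsg, hf2⟩⟩
    · exact ⟨fun _ => 0, fun _ => Classical.arbitrary _, fun _ _ x => x,
        fun h' => absurd h' h⟩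
  choose cl jt sg hdat2 using hdat
  let ZC : ℕ → Set (Cell N V) := fun s => {z | z ∈ ZA ∧ ∀ t : Fin (m + 1), t.val < s →
    ∃ i ∈ z.2.1, cl (tp z) i = cl (tp z) (jt (tp z) t)}
  have hact : ∀ z ∈ ZA, act (tp z) := fun z hz =>
    ⟨F_tp hl hz.1.1, hz.1.1.2.1, hz.1.2.1, hz.2⟩
  have stepC : ∀ s : Fin (m + 1), Good Y F L W q (ZC (s.val + 1)) →
      Good Y F L W q (ZC s.val) := by
    intro s
    have hSs : ∀ κ, F κ → L κ → kp κ = κ → ¬ on0 κ → SecOK Y (Cb κ) κ (jt κ s)
        (Finset.univ.filter fun i => cl κ i = cl κ (jt κ s)) (sg κ s) :=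
      fun κ h1 h2 h3 h4 => (hdat2 κ ⟨h1, h2, h3, h4⟩).1 s
    refine good_step hl (H := HT Y F L Cb kp (fun κ => ¬ on0 κ) (fun κ => jt κ s)
      (fun κ => Finset.univ.filter fun i => cl κ i = cl κ (jt κ s)) (fun κ => sg κ s))
      (fun z hz => HT_neg fun h => hz ⟨h.1.1.1, h.1.1.2.1⟩)
      (HT_mem hl hFs hSs) ?_
    intro z hz
    have hzT : z ∈ TZ Y F L Cb kp := hz.1.1
    by_cases hd : Disjoint z.2.1
        (Finset.univ.filter fun i => cl (tp z) i = cl (tp z) (jt (tp z) s))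
    · exact Submodule.mem_sup_right (phi_disj hl hFs hSs hzT hz.1.2 hd)
    · refine phi_meet hl hzT hd ?_ ?_
      · refine ⟨hz.1, fun t ht => ?_⟩
        rcases Nat.lt_succ_iff_lt_or_eq.mp ht with h | h
        · exact hz.2 t h
        · have hts : t = s := Fin.ext h
          subst hts
          obtain ⟨i, hi1, hi2⟩ := Finset.not_disjoint_iff.mp hd
          exact ⟨i, hi1, (Finset.mem_filter.mp hi2).2⟩
      · intro i hi hdi
        have hic : cl (tp z) i = cl (tp z) (jt (tp z) s) := by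
          obtain ⟨i', hi1, hi2⟩ := Finset.not_disjoint_iff.mp hd
          by_cases hii : i' = i
          · rw [← hii]
            exact (Finset.mem_filter.mp hi2).2
          · exact absurd hi2 (Finset.disjoint_left.mp hdi
              (Finset.mem_erase.mpr ⟨hii, hi1⟩))
        have hsec := (hdat2 _ (hact z hz.1)).1 s
        have hm := hsec.mem (z.2.1.erase i) ((Finset.erase_subset _ _).trans hzT.2.2) hdi
          (uf Y i z).2.2 (by
            rw [uf_snd hi]
            exact up_mem Y (sub_eS_mono (Finset.erase_subset i _)) (comps_tp hzT.1))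
        have hins : insert (jt (tp z) s) (z.2.1.erase i) ⊆ Cb (tp z) :=
          Finset.insert_subset hsec.jC ((Finset.erase_subset _ _).trans hzT.2.2)
        refine ⟨⟨⟨⟨?_, ?_, hm.1⟩, ?_, ?_⟩, ?_⟩, ?_⟩
        · exact hFs _ (F_tp hl hzT.1) hzT.1.2.1 hzT.2.1 _ hins
        · rw [tp_tc]; exact hzT.1.2.1
        · rw [tp_tc]; exact hzT.2.1
        · rw [tp_tc]; exact hins
        · rw [tp_tc]; exact hz.1.2
        · intro t ht
          rw [tp_tc]
          rcases Nat.lt_succ_iff_lt_or_eq.mp ht with h | h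
          · obtain ⟨i', hi1, hi2⟩ := hz.2 t h
            refine ⟨i', ?_, hi2⟩
            refine Finset.mem_insert_of_mem (Finset.mem_erase.mpr ⟨fun hii => ?_, hi1⟩)
            rw [hii, hic] at hi2
            have := (hdat2 _ (hact z hz.1)).2 hi2
            rw [this] at h
            exact lt_irrefl _ h
          · have hts : t = s := Fin.ext h
            subst hts
            exact ⟨_, Finset.mem_insert_self _ _, rfl⟩
  have hfin : ∀ s : ℕ, s ≤ m + 1 → Good Y F L W q (ZC s) → Good Y F L W q (ZC 0) := by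
    intro s
    induction s with
    | zero => exact fun _ h => h
    | succ s ih => exact fun hs h => ih (by omega) (stepC ⟨s, by omega⟩ h)
  have h0 : Good Y F L W q (ZC 0) := by
    refine hfin (m + 1) le_rfl (good_of_disj hl (fun z hz => hz.1.1.1) fun z hz hc => ?_)
    have hinj := (hdat2 _ (hact z hz.1)).2
    have : ∀ t : Fin (m + 1), ∃ i ∈ z.2.1, cl (tp z) i = cl (tp z) (jt (tp z) t) :=
      fun t => hz.2 t t.2
    choose f hf1 hf2 using this
    have hfi : Function.Injective f := by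
      intro s t hst
      refine hinj ?_
      show cl (tp z) (jt (tp z) s) = cl (tp z) (jt (tp z) t)
      rw [← hf2 s, ← hf2 t, hst]
    have hcard := Finset.card_le_card_of_injOn (s := (Finset.univ : Finset (Fin (m + 1))))
      (t := z.2.1) f (fun t _ => hf1 t) (fun s _ t _ h => hfi h)
    rw [Finset.card_univ, Fintype.card_fin] at hcard
    omega
  have hsub : ZA ⊆ ZC 0 := by
    intro z hz
    exact ⟨hz, fun t ht => absurd ht (Nat.not_lt_zero _)⟩
  exact good_mono hsub h0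

end X30
end Pool.Agent.FPmIf
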