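import Pool.Agent.Lib.MP_f973c6_al.If.X30f

/-! Exactness at level `ρs`: 7a, descent, `Xa_bd` and `X_main`. -/

set_option autoImplicit false

namespace Pool.Agent.FPmIf
namespace X30

variable {N : ℕ} {V : Type}

/-- all valid cells of degree `q` -/
def VA (Y : Sys N V) (F : (Fin N → ℤ) → Prop) (q : ℕ) : Set (Cell N V) :=
  {z | z.2.1.card = q ∧ F z.1 ∧ z.2.2 ∈ Y.comps z.1}

theorem sp_mono {Z Z' : Set (Cell N V)} {y : Cell N V →₀ ℤ} (hy : y ∈ sp Z)
    (h : ∀ c, c ∈ Z → c ∈ Z') : y ∈ sp Z' := Finsupp.supported_mono h hy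

theorem lw_tp_le {i : Fin N} {z : Cell N V} (hi : i ∈ z.2.1) : tp (lw i z) ≤ tp z := by
  rw [tp_lw hi]
  intro k
  have := eS_nonneg {i} k
  simp only [Pi.sub_apply]
  simp only [Pi.zero_apply] at this
  linarith

theorem bd_closed (Y : Sys N V) (F : (Fin N → ℤ) → Prop) (hF : ∀ k k', k ≤ k' → F k → F k')
    (P : (Fin N → ℤ) → Prop) (hP : ∀ k k', k ≤ k' → P k' → P k) {y : Cell N V →₀ ℤ}
    (hy : y ∈ sp {z : Cell N V | F z.1 ∧ z.2.2 ∈ Y.comps z.1 ∧ P (tp z)}) :
    bd Y y ∈ sp {z : Cell N V | F z.1 ∧ z.2.2 ∈ Y.comps z.1 ∧ P (tp z)} := by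
  rw [bd_eq]
  refine lf_mem (fun z hz => ?_) hy
  rw [bdCell_eq]
  refine Submodule.sum_mem _ fun i hi => Submodule.smul_mem _ _ (Submodule.sub_mem _ ?_ ?_)
  · refine single_mem_sp ?_ 1
    refine ⟨hF _ _ (le_add_eS _ _) hz.1, up_mem Y (le_add_eS _ _) hz.2.1, ?_⟩
    rw [tp_uf Y hi]
    exact hz.2.2
  · refine single_mem_sp ?_ 1
    exact ⟨hz.1, hz.2.1, hP _ _ (lw_tp_le hi) hz.2.2⟩

/-- augmentation -/
noncomputable def aug : (Cell N V →₀ ℤ) →+ ℤ := Finsupp.liftAddHom fun _ => AddMonoidHom.id ℤ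

theorem aug_apply (y : Cell N V →₀ ℤ) : aug y = y.sum fun _ c => c := rfl

theorem aug_bdCell (Y : Sys N V) (z : Cell N V) : aug (bdCell Y z) = 0 := by
  rw [bdCell_eq, map_sum]
  refine Finset.sum_eq_zero fun i _ => ?_
  rw [map_zsmul, map_sub, aug_apply, aug_apply, Finsupp.sum_single_index rfl,
    Finsupp.sum_single_index rfl, sub_self, smul_zero]

theorem aug_bd (Y : Sys N V) (y : Cell N V →₀ ℤ) : aug (bd Y y) = 0 := by
  rw [bd_eq, lf_apply, Finsupp.sum, map_sum]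
  refine Finset.sum_eq_zero fun z _ => ?_
  rw [map_zsmul, aug_bdCell, smul_zero]

theorem exists_R {Y : Sys N V} {F : (Fin N → ℤ) → Prop} (r : (Fin N → ℤ) → ℝ) {q : ℕ}
    {y : Cell N V →₀ ℤ} (hy : y ∈ sp (VA Y F q)) : ∃ R : ℝ, y ∈ sp (Valid Y F r q R) := by
  classical
  obtain ⟨R, hR⟩ := (y.support.image fun z => r (z.1 + eS z.2.1)).exists_le
  refine ⟨R, (Finsupp.mem_supported _ _).mpr fun z hz => ?_⟩
  have h := (Finsupp.mem_supported _ _).mp hy hz
  exact ⟨h.1, h.2.1, hR _ (Finset.mem_image_of_mem _ hz), h.2.2⟩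

/-- pushing a vertex to a larger vertex -/
theorem vertex_push (Y : Sys N V) {F : (Fin N → ℤ) → Prop}
    (hF : ∀ k k', k ≤ k' → F k → F k') {b k : Fin N → ℤ} (hbk : b ≤ k) (hb : F b)
    {x : Set V} (hx : x ∈ Y.comps b) :
    ∃ y ∈ sp (VA Y F 1), bd Y y = Finsupp.single ((k, ∅, Y.up k x) : Cell N V) 1
      - Finsupp.single ((b, ∅, x) : Cell N V) 1 := by
  classical
  let bJ : Finset (Fin N) → Fin N → ℤ := fun J i => if i ∈ J then k i else b i
  have hbJ : ∀ J, b ≤ bJ J := by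
    intro J i
    simp only [bJ]
    split_ifs
    · exact hbk i
    · exact le_rfl
  have key : ∀ J : Finset (Fin N), ∃ y ∈ sp (VA Y F 1),
      bd Y y = Finsupp.single ((bJ J, ∅, Y.up (bJ J) x) : Cell N V) 1
      - Finsupp.single ((b, ∅, x) : Cell N V) 1 := by
    intro J
    induction J using Finset.induction_on with
    | empty =>
      refine ⟨0, Submodule.zero_mem _, ?_⟩
      have e : bJ ∅ = b := by
        funext i
        simp only [bJ, Finset.notMem_empty, if_false]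
      rw [e, up_self Y hx, map_zero, sub_self]
    | insert j J hj ih =>
      obtain ⟨y, hy, hby⟩ := ih
      have hx' : Y.up (bJ J) x ∈ Y.comps (bJ J) := up_mem Y (hbJ J) hx
      set c : Cell N V := (bJ J, ∅, Y.up (bJ J) x) with hc
      set T : ℕ := (k j - b j).toNat with hT
      have hTz : (T : ℤ) = k j - b j := by
        rw [hT, Int.toNat_of_nonneg]
        have := hbk j
        linarith
      have h1 := bd_PT Y (j := j) (z := c) (Finset.notMem_empty j) (comps_sub Y hx') T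
      have hs : sgn j c.2.1 = 1 := by
        show sgn j ∅ = 1
        unfold sgn
        simp
      have h0 : pc Y j c 0 = c := by
        simp only [pc, Nat.cast_zero, zero_smul, add_zero]
        show ((bJ J, ∅, Y.up (bJ J) (Y.up (bJ J) x)) : Cell N V) = c
        rw [up_self Y hx']
      have e1 : bJ J + (T : ℤ) • eS {j} = bJ (insert j J) := by
        funext i
        simp only [bJ, Pi.add_apply, Pi.smul_apply, eS, Finset.mem_singleton, smul_eq_mul,
          Finset.mem_insert]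
        by_cases hij : i = j
        · subst hij
          simp only [if_true, if_neg hj, true_or, mul_one, hTz]
          ring
        · simp only [hij, if_false, false_or, mul_zero, add_zero]
      have hT' : pc Y j c T = ((bJ (insert j J), ∅, Y.up (bJ (insert j J)) x) : Cell N V) := by
        show ((bJ J + (T : ℤ) • eS {j}, ∅,
          Y.up (bJ J + (T : ℤ) • eS {j}) (Y.up (bJ J) x)) : Cell N V) = _
        rw [up_eS (comps_sub Y hx) (hbJ J) (le_add_smul _ _ _), e1]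
      have h2 : ∑ i ∈ c.2.1, sgn i (insert j c.2.1) •
          (PT Y j (uf Y i c) T - PT Y j (lw i c) T) = 0 := Finset.sum_empty
      rw [h2, add_zero, hs, one_smul, h0, hT'] at h1
      refine ⟨PT Y j c T + y, Submodule.add_mem _ ?_ hy, ?_⟩
      · refine Submodule.sum_mem _ fun t _ => single_mem_sp ?_ 1
        refine ⟨?_, ?_, ?_⟩
        · show (insert j ∅ : Finset (Fin N)).card = 1
          rw [Finset.card_insert_of_notMem (Finset.notMem_empty j), Finset.card_empty]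
        · exact hF _ _ (le_trans (hbJ J) (le_add_smul _ _ _)) hb
        · exact up_mem Y (le_add_smul _ _ _) hx'
      · rw [map_add, h1, hby]
        abel
  obtain ⟨y, hy, hby⟩ := key Finset.univ
  have e : bJ Finset.univ = k := by
    funext i
    simp only [bJ, Finset.mem_univ, if_true]
  rw [e] at hby
  exact ⟨y, hy, hby⟩

/-- 7a in degree zero -/
theorem sevenA_zero (Y : Sys N V) {F : (Fin N → ℤ) → Prop}
    (hF : ∀ k k', k ≤ k' → F k → F k')
    (hdir : ∀ k x y, x ∈ Y.E k → y ∈ Y.E k → ∃ k', k ≤ k' ∧ Y.C k' x y)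
    {z : Cell N V →₀ ℤ} (hz : z ∈ sp (VA Y F 0)) (hs : z.sum (fun _ c => c) = 0) :
    ∃ y ∈ sp (VA Y F 1), bd Y y = z := by
  classical
  have pair : ∀ c ∈ VA Y F 0, ∀ c' ∈ VA Y F 0, ∃ y ∈ sp (VA Y F 1),
      bd Y y = Finsupp.single c 1 - Finsupp.single c' 1 := by
    rintro ⟨b, S, x⟩ ⟨hS, hb, hx⟩ ⟨b', S', x'⟩ ⟨hS', hb', hx'⟩
    have eS1 : S = ∅ := Finset.card_eq_zero.mp hS
    have eS2 : S' = ∅ := Finset.card_eq_zero.mp hS'
    subst eS1
    subst eS2
    change F b at hb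
    change F b' at hb'
    change x ∈ Y.comps b at hx
    change x' ∈ Y.comps b' at hx'
    obtain ⟨v, hv⟩ := comps_nonempty Y hx
    obtain ⟨v', hv'⟩ := comps_nonempty Y hx'
    obtain ⟨k, hk, hC⟩ := hdir (b ⊔ b') v v'
      (Y.E_mono _ _ le_sup_left (comps_sub Y hx hv))
      (Y.E_mono _ _ le_sup_right (comps_sub Y hx' hv'))
    have h1 : b ≤ k := le_trans le_sup_left hk
    have h2 : b' ≤ k := le_trans le_sup_right hk
    have e : Y.up k x = Y.up k x' := by
      refine comps_eq Y (up_mem Y h1 hx) (up_mem Y h2 hx') (sub_up Y h1 (comps_sub Y hx) hv) ?_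
      exact ⟨v', hv', Y.C_symm _ _ _ hC⟩
    obtain ⟨y1, hy1, hb1⟩ := vertex_push Y hF h1 hb hx
    obtain ⟨y2, hy2, hb2⟩ := vertex_push Y hF h2 hb' hx'
    refine ⟨y2 - y1, Submodule.sub_mem _ hy2 hy1, ?_⟩
    rw [map_sub, hb1, hb2, e]
    abel
  by_cases h0 : z = 0
  · exact ⟨0, Submodule.zero_mem _, by rw [map_zero, h0]⟩
  obtain ⟨c0, hc0⟩ : z.support.Nonempty := by
    rw [Finset.nonempty_iff_ne_empty]
    exact fun h => h0 (Finsupp.support_eq_empty.mp h)
  have hc0' := (Finsupp.mem_supported _ _).mp hz hc0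
  have hex : ∀ c : Cell N V, ∃ y ∈ sp (VA Y F 1), c ∈ VA Y F 0 →
      bd Y y = Finsupp.single c 1 - Finsupp.single c0 1 := by
    intro c
    by_cases hc : c ∈ VA Y F 0
    · obtain ⟨y, hy, hb⟩ := pair c hc c0 hc0'
      exact ⟨y, hy, fun _ => hb⟩
    · exact ⟨0, Submodule.zero_mem _, fun h => absurd h hc⟩
  choose f hf1 hf2 using hex
  refine ⟨∑ c ∈ z.support, z c • f c, Submodule.sum_mem _ fun c _ =>
    Submodule.smul_mem _ _ (hf1 c), ?_⟩
  rw [map_sum]
  have e1 : ∀ c ∈ z.support, bd Y (z c • f c) = Finsupp.single c (z c)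
      - z c • Finsupp.single c0 (1 : ℤ) := by
    intro c hc
    rw [map_zsmul, hf2 c ((Finsupp.mem_supported _ _).mp hz hc), smul_sub, Finsupp.smul_single,
      smul_eq_mul, mul_one]
  rw [Finset.sum_congr rfl e1, Finset.sum_sub_distrib, ← Finset.sum_smul]
  have e2 : ∑ c ∈ z.support, z c = 0 := hs
  rw [e2, zero_smul, sub_zero]
  exact Finsupp.sum_single z

/-- 7a in positive degrees -/
theorem sevenA_pos (Y : Sys N V) {F : (Fin N → ℤ) → Prop}
    (hF : ∀ k k', k ≤ k' → F k → F k') {q : ℕ} (hq : q ≠ 0)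
    {z : Cell N V →₀ ℤ} (hz : z ∈ sp (VA Y F q)) (hb : bd Y z = 0) :
    ∃ y ∈ sp (VA Y F (q + 1)), bd Y y = z := by
  classical
  obtain ⟨K, hK⟩ := (z.support.image fun c => tp c).exists_le
  have hl : Lev Y F (fun k => k ≤ K) ⊥ (fun _ => ∅) (fun _ => K) := by
    refine ⟨hF, fun k _ h => h, fun k _ _ j hj => absurd hj (Finset.notMem_empty j),
      fun k _ _ k' h => ⟨fun _ j hj => absurd hj (Finset.notMem_empty j), fun _ => h⟩,
      fun k _ _ k' _ _ => ⟨rfl, rfl⟩, ?_, bot_le, ?_⟩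
    · rintro c _ _ ⟨k, _, _, h⟩ h2
      exact absurd h h2
    · intro w hw
      rw [(Submodule.mem_bot ℤ).mp hw, map_zero]
      exact Submodule.zero_mem _
  have hg : Good Y F (fun k => k ≤ K) ⊥ q (AZ Y F (fun k => k ≤ K)) := by
    rw [← ZP_empty (Y := Y) (F := F) (L := fun k => k ≤ K) (Cb := fun _ => ∅)
      (kp := fun _ => K)]
    refine good_push hl Finset.univ (good_of_disj hl (fun c hc => hc.1) fun c hc hcard => ?_)
    have hS : c.2.1 = ∅ := by
      rw [Finset.eq_empty_iff_forall_notMem]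
      exact fun j => (hc.2 j (Finset.mem_univ j) (Finset.notMem_empty j)).1
    rw [hS, Finset.card_empty] at hcard
    exact hq hcard.symm
  obtain ⟨x, hx, h2⟩ := hg z (Finsupp.supported_mono (fun c hc => hc.1) hz)
    (Submodule.mem_sup_left ((Finsupp.mem_supported _ _).mpr fun c hc => by
      have h := (Finsupp.mem_supported _ _).mp hz hc
      exact ⟨h.2.1, hK _ (Finset.mem_image_of_mem _ hc), h.2.2⟩))
    (by rw [hb]; exact Submodule.zero_mem _)
  refine ⟨x, sp_mono hx fun c hc => ⟨hc.2, hc.1.1, hc.1.2.2⟩, ?_⟩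
  have := (Submodule.mem_bot ℤ).mp h2
  exact (sub_eq_zero.mp this).symm

/-- descent to level `ρs` -/
theorem descent (Y : Sys N V) (m : ℕ) (F : (Fin N → ℤ) → Prop)
    (hF : ∀ k k', k ≤ k' → F k → F k')
    (r : (Fin N → ℤ) → ℝ) (hr : ∀ k k', k ≤ k' → r k ≤ r k') (ρs : ℝ)
    (hval : ∀ R1 : ℝ, {x : ℝ | ∃ k, F k ∧ r k = x ∧ x ≤ R1}.Finite)
    (Cb : (Fin N → ℤ) → Finset (Fin N)) (kp : (Fin N → ℤ) → (Fin N → ℤ))
    (hκ : ∀ k, F k → ρs < r k → k ≤ kp k ∧ (∀ j ∈ Cb k, kp k j = k j) ∧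
      (∀ k' ≤ kp k, (r k' = r k ↔ ∀ j ∈ Cb k, k' j = k j) ∧
        (r k' = r k → Cb k' = Cb k ∧ kp k' = kp k)) ∧
      (∀ S ⊆ Cb k, F (kp k - eS S)) ∧ TAlt Y m (kp k) (Cb k)) {q : ℕ} (hq : q ≤ m) :
    ∀ n : ℕ, ∀ R : ℝ, ((hval R).toFinset.filter fun x => ρs < x).card ≤ n →
      ∀ y ∈ sp (Valid Y F r q R),
        bd Y y ∈ sp {z : Cell N V | F z.1 ∧ z.2.2 ∈ Y.comps z.1 ∧ r (tp z) ≤ ρs} →
        ∃ y' ∈ sp (Valid Y F r q ρs), bd Y y' = bd Y y := by
  intro n
  induction n with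
  | zero =>
    intro R hR y hy _
    refine ⟨y, (Finsupp.mem_supported _ _).mpr fun c hc => ?_, rfl⟩
    have h := (Finsupp.mem_supported _ _).mp hy hc
    refine ⟨h.1, h.2.1, ?_, h.2.2.2⟩
    by_contra hne
    have hmem : r (c.1 + eS c.2.1) ∈ (hval R).toFinset.filter fun x => ρs < x :=
      Finset.mem_filter.mpr ⟨(hval R).mem_toFinset.mpr
        ⟨_, hF _ _ (le_add_eS _ _) h.2.1, rfl, h.2.2.1⟩, not_le.mp hne⟩
    rw [Nat.le_zero, Finset.card_eq_zero] at hR
    rw [hR] at hmem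
    exact absurd hmem (Finset.notMem_empty _)
  | succ n ih =>
    intro R hR y hy hdy
    set A := (hval R).toFinset.filter fun x => ρs < x with hA
    rcases A.eq_empty_or_nonempty with hA0 | hA0
    · refine ⟨y, (Finsupp.mem_supported _ _).mpr fun c hc => ?_, rfl⟩
      have h := (Finsupp.mem_supported _ _).mp hy hc
      refine ⟨h.1, h.2.1, ?_, h.2.2.2⟩
      by_contra hne
      have hmem : r (c.1 + eS c.2.1) ∈ A :=
        Finset.mem_filter.mpr ⟨(hval R).mem_toFinset.mpr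
          ⟨_, hF _ _ (le_add_eS _ _) h.2.1, rfl, h.2.2.1⟩, not_le.mp hne⟩
      rw [hA0] at hmem
      exact absurd hmem (Finset.notMem_empty _)
    · set ρ := A.max' hA0 with hρ
      have hρA : ρ ∈ A := A.max'_mem hA0
      have hρs : ρs < ρ := (Finset.mem_filter.mp hρA).2
      have hρR : ρ ≤ R := by
        obtain ⟨k, _, _, h⟩ := (hval R).mem_toFinset.mp (Finset.mem_filter.mp hρA).1
        exact h
      set W : Submodule ℤ (Cell N V →₀ ℤ) :=
        sp {z : Cell N V | F z.1 ∧ z.2.2 ∈ Y.comps z.1 ∧ r (tp z) < ρ} with hW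
      have hkp : ∀ k, F k → r k = ρ → r (kp k) = ρ := by
        intro k hk hrk
        have h := hκ k hk (by rw [hrk]; exact hρs)
        rw [← hrk]
        exact ((h.2.2.1 (kp k) le_rfl).1).mpr h.2.1
      have hl : Lev Y F (fun k => r k = ρ) W Cb kp := by
        refine ⟨hF, fun k hk hrk => (hκ k hk (by rw [hrk]; exact hρs)).1,
          fun k hk hrk => (hκ k hk (by rw [hrk]; exact hρs)).2.1, ?_, ?_, ?_, ?_, ?_⟩
        · intro k hk hrk k' hk'
          have h := ((hκ k hk (by rw [hrk]; exact hρs)).2.2.1 k' hk').1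
          rw [hrk] at h
          exact h
        · intro k hk hrk k' hk' hrk'
          exact ((hκ k hk (by rw [hrk]; exact hρs)).2.2.1 k' hk').2 (by rw [hrk, hrk'])
        · rintro c hc1 hc2 ⟨k, hk, hrk, hle⟩ hn
          refine single_mem_sp ?_ 1
          refine ⟨hc1, hc2, lt_of_le_of_ne ?_ hn⟩
          rw [← hkp k hk hrk]
          exact hr _ _ hle
        · refine Finsupp.supported_mono fun c hc hc2 => ?_
          exact absurd hc2.2 (ne_of_lt hc.2.2)
        · intro w hw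
          exact bd_closed Y F hF (fun k => r k < ρ)
            (fun k k' h h' => lt_of_le_of_lt (hr _ _ h) h') hw
      have hg : Good Y F (fun k => r k = ρ) W q (AZ Y F (fun k => r k = ρ)) := by
        refine rel_exact hl (m := m) ?_ ?_ hq
        · intro κ h1 h2 h3 S hS
          have h := (hκ κ h1 (by rw [h2]; exact hρs)).2.2.2.1 S hS
          rw [h3] at h
          exact h
        · intro κ h1 h2 h3
          have h := (hκ κ h1 (by rw [h2]; exact hρs)).2.2.2.2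
          rw [h3] at h
          exact h
      have hyρ : ∀ c ∈ y.support, r (tp c) ≤ ρs ∨ r (tp c) ∈ A := by
        intro c hc
        have h := (Finsupp.mem_supported _ _).mp hy hc
        by_cases hle : r (tp c) ≤ ρs
        · exact Or.inl hle
        · exact Or.inr (Finset.mem_filter.mpr ⟨(hval R).mem_toFinset.mpr
            ⟨_, hF _ _ (le_add_eS _ _) h.2.1, rfl, h.2.2.1⟩, not_le.mp hle⟩)
      have hy1 : y ∈ sp (AZ Y F (fun k => r k = ρ)) ⊔ W := by
        rw [hW, ← Finsupp.supported_union]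
        refine (Finsupp.mem_supported _ _).mpr fun c hc => ?_
        have h := (Finsupp.mem_supported _ _).mp hy hc
        have hle : r (tp c) ≤ ρ := by
          rcases hyρ c hc with h1 | h1
          · exact le_trans h1 hρs.le
          · exact A.le_max' _ h1
        rcases lt_or_eq_of_le hle with h1 | h1
        · exact Or.inr ⟨h.2.1, h.2.2.2, h1⟩
        · exact Or.inl ⟨h.2.1, h1, h.2.2.2⟩
      have hyq : y ∈ sp {z : Cell N V | z.2.1.card = q} :=
        Finsupp.supported_mono (fun c hc => hc.1) hy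
      obtain ⟨x, hx, h2⟩ := hg y hyq hy1
        (sp_mono hdy fun c hc => ⟨hc.1, hc.2.1, lt_of_le_of_lt hc.2.2 hρs⟩)
      have hxd : x ∈ sp {z : Cell N V | z.2.1.card = q + 1} :=
        Finsupp.supported_mono (fun z hz => hz.2) hx
      have hbb : bd Y (bd Y x) = 0 := bd_bd Y (Z := {z : Cell N V | z ∈ AZ Y F
        (fun k => r k = ρ) ∧ z.2.1.card = q + 1}) (fun z hz => hz.1.2.2) hx
      have h3 : y - bd Y x ∈ sp {z : Cell N V | z.2.1.card = q} :=
        Submodule.sub_mem _ hyq (bd_deg Y hxd)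
      set B : Finset ℝ := insert ρs (A.erase ρ) with hB
      have hBne : B.Nonempty := ⟨ρs, Finset.mem_insert_self _ _⟩
      set R' := B.max' hBne with hR'
      have hR'ρ : R' < ρ := by
        have := B.max'_mem hBne
        rcases Finset.mem_insert.mp this with h | h
        · rw [hR', h]
          exact hρs
        · exact lt_of_le_of_ne (A.le_max' _ (Finset.mem_of_mem_erase h))
            (Finset.ne_of_mem_erase h)
      have h4 : y - bd Y x ∈ sp (Valid Y F r q R') := by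
        refine (Finsupp.mem_supported _ _).mpr fun c hc => ?_
        have hc1 := (Finsupp.mem_supported _ _).mp h2 hc
        have hc2 := (Finsupp.mem_supported _ _).mp h3 hc
        refine ⟨hc2, hc1.1, ?_, hc1.2.1⟩
        show r (tp c) ≤ R'
        by_cases hle : r (tp c) ≤ ρs
        · exact le_trans hle (B.le_max' _ (Finset.mem_insert_self _ _))
        · refine B.le_max' _ (Finset.mem_insert_of_mem (Finset.mem_erase.mpr
            ⟨ne_of_lt hc1.2.2, Finset.mem_filter.mpr ⟨(hval R).mem_toFinset.mpr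
            ⟨_, hF _ _ (le_add_eS _ _) hc1.1, rfl, (le_trans hc1.2.2.le hρR)⟩,
            not_le.mp hle⟩⟩))
      have h5 : ((hval R').toFinset.filter fun x => ρs < x).card ≤ n := by
        have hsub : ((hval R').toFinset.filter fun x => ρs < x) ⊆ A.erase ρ := by
          intro t ht
          obtain ⟨ht1, ht2⟩ := Finset.mem_filter.mp ht
          obtain ⟨k, hk, hrk, hle⟩ := (hval R').mem_toFinset.mp ht1
          refine Finset.mem_erase.mpr ⟨fun h => ?_, Finset.mem_filter.mpr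
            ⟨(hval R).mem_toFinset.mpr ⟨k, hk, hrk, le_trans hle (hR'ρ.le.trans hρR)⟩, ht2⟩⟩
          rw [h] at hle
          exact absurd hle (not_le.mpr hR'ρ)
        have h6 := Finset.card_le_card hsub
        rw [Finset.card_erase_of_mem hρA] at h6
        omega
      have h7 : bd Y (y - bd Y x) = bd Y y := by rw [map_sub, hbb, sub_zero]
      obtain ⟨y', hy', hb'⟩ := ih R' h5 (y - bd Y x) h4 (by rw [h7]; exact hdy)
      exact ⟨y', hy', by rw [hb', h7]⟩

end X30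

section complex
variable {N : ℕ} {V : Type}

open X30

/-- Xa: the boundary maps valid cells to valid cells and squares to zero. -/
theorem Xa_bd (Y : Sys N V) (F : (Fin N → ℤ) → Prop) (hF : ∀ k k', k ≤ k' → F k → F k')
    (r : (Fin N → ℤ) → ℝ) (hr : ∀ k k', k ≤ k' → r k ≤ r k') (ρ : ℝ) (i : ℕ) :
    (∀ z ∈ Finsupp.supported ℤ ℤ (Valid Y F r (i + 1) ρ),
      bd Y z ∈ Finsupp.supported ℤ ℤ (Valid Y F r i ρ)) ∧
    (∀ z ∈ Finsupp.supported ℤ ℤ (Valid Y F r i ρ), bd Y (bd Y z) = 0) ∧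
    (∀ z ∈ Finsupp.supported ℤ ℤ (Valid Y F r 1 ρ), (bd Y z).sum (fun _ c => c) = 0) := by
  refine ⟨fun z hz => ?_, fun z hz => bd_bd Y (Z := Valid Y F r i ρ)
    (fun c hc => hc.2.2.2) hz, fun z _ => aug_bd Y z⟩
  have h1 := bd_deg Y (q := i) (Finsupp.supported_mono (fun c hc => hc.1) hz)
  have h2 := bd_closed Y F hF (fun k => r k ≤ ρ)
    (fun k k' h h' => le_trans (hr _ _ h) h')
    (sp_mono hz fun c hc => ⟨hc.2.1, hc.2.2.2, hc.2.2.1⟩)
  refine (Finsupp.mem_supported _ _).mpr fun c hc => ?_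
  have hc1 := (Finsupp.mem_supported _ _).mp h1 hc
  have hc2 := (Finsupp.mem_supported _ _).mp h2 hc
  exact ⟨hc1, hc2.1, hc2.2.2, hc2.2.1⟩

/-- X: exactness at level `ρs` (7a)-(7c). -/
theorem X_main (Y : Sys N V) (m : ℕ) (F : (Fin N → ℤ) → Prop)
    (hF : ∀ k k', k ≤ k' → F k → F k')
    (r : (Fin N → ℤ) → ℝ) (hr : ∀ k k', k ≤ k' → r k ≤ r k') (ρs : ℝ)
    (hval : ∀ R1 : ℝ, {x : ℝ | ∃ k, F k ∧ r k = x ∧ x ≤ R1}.Finite)
    (hdir : ∀ k x y, x ∈ Y.E k → y ∈ Y.E k → ∃ k', k ≤ k' ∧ Y.C k' x y)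
    (Cb : (Fin N → ℤ) → Finset (Fin N)) (kp : (Fin N → ℤ) → (Fin N → ℤ))
    (hκ : ∀ k, F k → ρs < r k → k ≤ kp k ∧ (∀ j ∈ Cb k, kp k j = k j) ∧
      (∀ k' ≤ kp k, (r k' = r k ↔ ∀ j ∈ Cb k, k' j = k j) ∧
        (r k' = r k → Cb k' = Cb k ∧ kp k' = kp k)) ∧
      (∀ S ⊆ Cb k, F (kp k - eS S)) ∧ TAlt Y m (kp k) (Cb k)) :
    (1 ≤ m → ∀ z ∈ Finsupp.supported ℤ ℤ (Valid Y F r 0 ρs), z.sum (fun _ c => c) = 0 →
      ∃ y ∈ Finsupp.supported ℤ ℤ (Valid Y F r 1 ρs), bd Y y = z) ∧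
    (∀ i, i + 1 < m → ∀ z ∈ Finsupp.supported ℤ ℤ (Valid Y F r (i + 1) ρs), bd Y z = 0 →
      ∃ y ∈ Finsupp.supported ℤ ℤ (Valid Y F r (i + 2) ρs), bd Y y = z) := by
  constructor
  · intro hm z hz hs
    obtain ⟨y0, hy0, hb0⟩ := sevenA_zero Y hF hdir
      (sp_mono hz fun c hc => ⟨hc.1, hc.2.1, hc.2.2.2⟩) hs
    obtain ⟨R, hR⟩ := exists_R r hy0
    obtain ⟨y, hy, hb⟩ := descent Y m F hF r hr ρs hval Cb kp hκ hm _ R le_rfl y0 hR (by
      rw [hb0]
      exact sp_mono hz fun c hc => ⟨hc.2.1, hc.2.2.2, hc.2.2.1⟩)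
    exact ⟨y, hy, hb.trans hb0⟩
  · intro i hi z hz hbz
    obtain ⟨y0, hy0, hb0⟩ := sevenA_pos Y hF (Nat.succ_ne_zero i)
      (sp_mono hz fun c hc => ⟨hc.1, hc.2.1, hc.2.2.2⟩) hbz
    obtain ⟨R, hR⟩ := exists_R r hy0
    obtain ⟨y, hy, hb⟩ := descent Y m F hF r hr ρs hval Cb kp hκ (q := i + 2) (by omega)
      _ R le_rfl y0 hR (by
      rw [hb0]
      exact sp_mono hz fun c hc => ⟨hc.2.1, hc.2.2.2, hc.2.2.1⟩)
    exact ⟨y, hy, hb.trans hb0⟩

end complex

end Pool.Agent.FPmIf
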